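import Pool.Agent.W_MP_ae868b_lc.Cfg

/-!
# The coin flip shift of `F2` factors onto the label space (task F)

`Θ x (n, g) = (δ_a (δ_b^n x)) g`, where `(δ_s x) g = x g + x (g s)`. It is a homomorphism of groups
whose image contains every configuration with a single bit `1` (potentials on the tree), so the image
measure is invariant under flipping a single bit, hence it is the product measure.
-/

open MeasureTheory

namespace Pool.Agent.W_MP_ae868b_lc

namespace Factor

/-! ### the coin -/

theorem coin_map_xor (c : Bool) : coin.map (fun b => xor b c) = coin := by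
  refine Measure.ext_of_singleton fun b => ?_
  rw [Measure.map_apply (measurable_of_finite _) (measurableSet_singleton _)]
  have : (fun b' => xor b' c) ⁻¹' {b} = {xor b c} := by
    ext b'
    simp only [Set.mem_preimage, Set.mem_singleton_iff]
    revert b b' c
    decide
  rw [this, coin_singleton, coin_singleton]

theorem map_xor {ι : Type*} (y : ι → Bool) :
    (Measure.infinitePi (fun _ : ι => coin)).map (fun x i => xor (x i) (y i)) =
      Measure.infinitePi (fun _ : ι => coin) := by
  rw [Measure.infinitePi_map_pi (fun _ : ι => coin) (f := fun i b => xor b (y i))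
    (fun i => measurable_of_finite _)]
  simp only [coin_map_xor]

/-- a probability measure on `ι → Bool` that is invariant under all flips of a single bit is the
product of fair coins -/
theorem eq_infinitePi_coin {ι : Type*} [DecidableEq ι] (ν : Measure (ι → Bool))
    [IsProbabilityMeasure ν]
    (h : ∀ i, ν.map (fun ω j => xor (ω j) (decide (j = i))) = ν) :
    ν = Measure.infinitePi (fun _ : ι => coin) := by
  refine Measure.eq_infinitePi _ fun s t ht => ?_
  induction s using Finset.induction_on with
  | empty => simp
  | insert i s hi ih =>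
    rw [Finset.prod_insert hi]
    set B : Set (ι → Bool) := Set.pi (s : Set ι) t with hB
    have hBm : MeasurableSet B := MeasurableSet.pi s.countable_toSet fun i _ => ht i
    have hmi : Measurable fun ω : ι → Bool => ω i := measurable_pi_apply i
    have hfl : Measurable fun (ω : ι → Bool) j => xor (ω j) (decide (j = i)) :=
      measurable_pi_lambda _ fun j =>
        (measurable_of_finite fun b : Bool => xor b (decide (j = i))).comp (measurable_pi_apply j)
    have e : (Set.pi (↑(insert i s)) t : Set (ι → Bool)) = (fun ω => ω i) ⁻¹' (t i) ∩ B := by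
      ext ω
      simp only [hB, Set.mem_pi, Finset.coe_insert, Set.mem_insert_iff, Finset.mem_coe,
        Set.mem_inter_iff, Set.mem_preimage, forall_eq_or_imp]
    have hsw : ∀ b, ν ((fun ω => ω i) ⁻¹' {b} ∩ B) = ν ((fun ω => ω i) ⁻¹' {!b} ∩ B) := by
      intro b
      conv_lhs => rw [← h i]
      rw [Measure.map_apply hfl ((hmi (measurableSet_singleton _)).inter hBm)]
      congr 1
      ext ω
      have hb : ∀ c : Bool, (xor c true = b) ↔ c = !b := by
        intro c
        revert b c
        decide
      have hmem : ((fun j => xor (ω j) (decide (j = i))) ∈ B) ↔ ω ∈ B := by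
        simp only [hB, Set.mem_pi, Finset.mem_coe]
        refine forall₂_congr fun j hj => ?_
        have hji : j ≠ i := fun hji => hi (hji ▸ hj)
        simp [hji]
      simp only [Set.mem_preimage, Set.mem_inter_iff, Set.mem_singleton_iff, decide_true, hb, hmem]
    have hρ : (ν.restrict B).map (fun ω => ω i) = ν B • coin := by
      refine Measure.ext_of_singleton fun b => ?_
      rw [Measure.map_apply hmi (measurableSet_singleton _),
        Measure.restrict_apply (hmi (measurableSet_singleton _)), Measure.smul_apply,
        coin_singleton, smul_eq_mul]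
      have hsum : ν ((fun ω => ω i) ⁻¹' {b} ∩ B) + ν ((fun ω => ω i) ⁻¹' {!b} ∩ B) = ν B := by
        rw [← measure_union _ ((hmi (measurableSet_singleton _)).inter hBm)]
        · congr 1
          ext ω
          simp only [Set.mem_union, Set.mem_inter_iff, Set.mem_preimage, Set.mem_singleton_iff]
          cases b <;> cases ω i <;> simp
        · refine Set.disjoint_left.2 fun ω h1 h2 => ?_
          have h3 : ω i = b := h1.1
          have h4 : ω i = !b := h2.1
          rw [h3] at h4
          revert h4
          cases b <;> simp
      rw [← hsw b] at hsum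
      rw [← hsum, ← two_mul, mul_comm 2, mul_assoc]
      rw [ENNReal.mul_div_cancel (by simp) (by simp), mul_one]
    have h1 := congrArg (fun m : Measure Bool => m (t i)) hρ
    beta_reduce at h1
    rw [Measure.map_apply hmi (ht i), Measure.restrict_apply (hmi (ht i)), Measure.smul_apply,
      smul_eq_mul] at h1
    rw [e, h1, ih, mul_comm]

/-! ### potentials on the tree -/

/-- `F2` acts on `F2 × Bool`; the generator `i` multiplies by `i` and adds `u i` -/
def stepPerm (u : Fin 2 → F2 → Bool) (i : Fin 2) : Equiv.Perm (F2 × Bool) where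
  toFun p := (FreeGroup.of i * p.1, xor p.2 (u i (FreeGroup.of i * p.1)⁻¹))
  invFun p := ((FreeGroup.of i)⁻¹ * p.1, xor p.2 (u i p.1⁻¹))
  left_inv p := by
    ext <;> simp
  right_inv p := by
    ext <;> simp

theorem exists_potential (u : Fin 2 → F2 → Bool) :
    ∃ z : F2 → Bool, ∀ g i, xor (z g) (z (g * FreeGroup.of i)) = u i g := by
  let Λ : F2 →* Equiv.Perm (F2 × Bool) := FreeGroup.lift (stepPerm u)
  have h1 : ∀ (g : F2) (p : F2 × Bool), (Λ g p).1 = g * p.1 := by
    intro g
    induction g using FreeGroup.induction_on with
    | C1 => intro p; simp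
    | of i => intro p; simp [Λ, stepPerm]
    | inv_of i _ =>
      intro p
      simp only [Λ, map_inv, FreeGroup.lift_apply_of]
      rfl
    | mul a b ha hb => intro p; rw [map_mul, Equiv.Perm.mul_apply, ha, hb, mul_assoc]
  refine ⟨fun g => (Λ g⁻¹ (1, false)).2, fun g i => ?_⟩
  have h2 : Λ g⁻¹ (1, false) = stepPerm u i (Λ (g * FreeGroup.of i)⁻¹ (1, false)) := by
    have : g⁻¹ = FreeGroup.of i * (g * FreeGroup.of i)⁻¹ := by
      rw [mul_inv_rev, mul_inv_cancel_left]
    rw [this, map_mul, Equiv.Perm.mul_apply]
    simp only [Λ, FreeGroup.lift_apply_of]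
  have h3 := h1 (g * FreeGroup.of i)⁻¹ (1, false)
  change xor (Λ g⁻¹ (1, false)).2 (Λ (g * FreeGroup.of i)⁻¹ (1, false)).2 = u i g
  rw [h2]
  change xor (xor (Λ (g * FreeGroup.of i)⁻¹ (1, false)).2
    (u i (FreeGroup.of i * (Λ (g * FreeGroup.of i)⁻¹ (1, false)).1)⁻¹)) _ = _
  rw [h3]
  have h4 : (FreeGroup.of i * ((g * FreeGroup.of i)⁻¹ * ((1 : F2), false).1))⁻¹ = g := by
    simp
  rw [h4]
  generalize (Λ (g * FreeGroup.of i)⁻¹ (1, false)).2 = b
  cases b <;> simp

/-! ### the factor map -/

/-- the difference operator along the generator `i` -/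
def dl (i : Fin 2) (x : F2 → Bool) : F2 → Bool := fun g => xor (x g) (x (g * FreeGroup.of i))

/-- iterated differences along the generator `1` -/
def itb : ℕ → (F2 → Bool) → F2 → Bool
  | 0, x => x
  | n + 1, x => itb n (dl 1 x)

theorem dl_xor (i : Fin 2) (x y : F2 → Bool) :
    dl i (fun h => xor (x h) (y h)) = fun h => xor (dl i x h) (dl i y h) := by
  funext h
  simp only [dl]
  generalize x h = a
  generalize y h = b
  generalize x (h * FreeGroup.of i) = c
  generalize y (h * FreeGroup.of i) = d
  revert a b c d
  decide

theorem itb_xor (n : ℕ) (x y : F2 → Bool) :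
    itb n (fun h => xor (x h) (y h)) = fun h => xor (itb n x h) (itb n y h) := by
  induction n generalizing x y with
  | zero => rfl
  | succ n ih =>
    change itb n (dl 1 _) = _
    rw [dl_xor, ih]
    rfl

theorem dl_false (i : Fin 2) : dl i (fun _ => false) = fun _ => false := rfl

theorem itb_false (n : ℕ) : itb n (fun _ => false) = fun _ => false := by
  induction n with
  | zero => rfl
  | succ n ih => exact ih

theorem dl_smul (i : Fin 2) (g : F2) (x : F2 → Bool) :
    dl i (fun h => x (g⁻¹ * h)) = fun h => dl i x (g⁻¹ * h) := by
  funext h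
  simp only [dl, mul_assoc]

theorem itb_smul (n : ℕ) (g : F2) (x : F2 → Bool) :
    itb n (fun h => x (g⁻¹ * h)) = fun h => itb n x (g⁻¹ * h) := by
  induction n generalizing x with
  | zero => rfl
  | succ n ih =>
    change itb n (dl 1 _) = _
    rw [dl_smul, ih]
    rfl

theorem measurable_dl (i : Fin 2) : Measurable (dl i) := by
  refine measurable_pi_lambda _ fun g => ?_
  have : (fun x : F2 → Bool => dl i x g) =
      (fun p : Bool × Bool => xor p.1 p.2) ∘ (fun x => (x g, x (g * FreeGroup.of i))) := rfl
  rw [this]
  exact (measurable_of_finite _).comp ((measurable_pi_apply _).prodMk (measurable_pi_apply _))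

theorem measurable_itb (n : ℕ) : Measurable (itb n) := by
  induction n with
  | zero => exact measurable_id
  | succ n ih => exact ih.comp (measurable_dl 1)

/-- the factor map -/
def th (x : F2 → Bool) : ℕ × F2 → Bool := fun p => dl 0 (itb p.1 x) p.2

theorem th_smul (g : F2) (x : F2 → Bool) (p : ℕ × F2) :
    th (fun h => x (g⁻¹ * h)) p = th x (p.1, g⁻¹ * p.2) := by
  simp only [th]
  rw [itb_smul, dl_smul]

theorem measurable_th : Measurable th :=
  measurable_pi_lambda _ fun p =>
    (measurable_pi_apply p.2).comp ((measurable_dl 0).comp (measurable_itb p.1))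

theorem th_xor (x y : F2 → Bool) :
    th (fun h => xor (x h) (y h)) = fun p => xor (th x p) (th y p) := by
  funext p
  simp only [th]
  rw [itb_xor, dl_xor]

theorem exists_single (n : ℕ) (g : F2) : ∃ y : F2 → Bool, ∀ m h,
    dl 0 (itb m y) h = decide (m = n ∧ h = g) := by
  induction n with
  | zero =>
    obtain ⟨z, hz⟩ := exists_potential fun i h => decide (i = 0 ∧ h = g)
    refine ⟨z, fun m h => ?_⟩
    cases m with
    | zero =>
      change xor (z h) (z (h * FreeGroup.of 0)) = _
      rw [hz]
      simp
    | succ m =>
      have h1 : dl 1 z = fun _ => false := by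
        funext h
        change xor (z h) (z (h * FreeGroup.of 1)) = _
        rw [hz]
        simp
      change dl 0 (itb m (dl 1 z)) h = _
      rw [h1, itb_false, dl_false]
      simp
  | succ n ih =>
    obtain ⟨y, hy⟩ := ih
    obtain ⟨z, hz⟩ := exists_potential fun i h => if i = 0 then false else y h
    refine ⟨z, fun m h => ?_⟩
    cases m with
    | zero =>
      change xor (z h) (z (h * FreeGroup.of 0)) = _
      rw [hz]
      simp
    | succ m =>
      have h1 : dl 1 z = y := by
        funext h
        change xor (z h) (z (h * FreeGroup.of 1)) = _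
        rw [hz]
        simp
      change dl 0 (itb m (dl 1 z)) h = _
      rw [h1, hy]
      simp

theorem map_th : (Measure.infinitePi (fun _ : F2 => coin)).map th =
    Measure.infinitePi (fun _ : ℕ × F2 => coin) := by
  have : IsProbabilityMeasure ((Measure.infinitePi (fun _ : F2 => coin)).map th) :=
    Measure.isProbabilityMeasure_map measurable_th.aemeasurable
  classical
  refine eq_infinitePi_coin _ fun p => ?_
  obtain ⟨y, hy⟩ := exists_single p.1 p.2
  have hy' : ∀ q, th y q = decide (q = p) := by
    intro q
    simp only [th, hy, Prod.ext_iff]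
  have hfl : Measurable fun (ω : ℕ × F2 → Bool) q => xor (ω q) (decide (q = p)) :=
    measurable_pi_lambda _ fun q =>
      (measurable_of_finite fun b : Bool => xor b (decide (q = p))).comp (measurable_pi_apply q)
  have hfy : Measurable fun (x : F2 → Bool) h => xor (x h) (y h) :=
    measurable_pi_lambda _ fun q =>
      (measurable_of_finite fun b : Bool => xor b (y q)).comp (measurable_pi_apply q)
  rw [Measure.map_map hfl measurable_th]
  have e : (fun (ω : ℕ × F2 → Bool) q => xor (ω q) (decide (q = p))) ∘ th =
      th ∘ fun (x : F2 → Bool) h => xor (x h) (y h) := by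
    funext x
    simp only [Function.comp_apply]
    rw [th_xor]
    funext q
    rw [hy']
  rw [e, ← Measure.map_map measurable_th hfy, map_xor]

end Factor

theorem exists_factor : ∃ Θ : Cfg → Om, MeasurePreserving Θ coinCfg coinOm ∧
    ∀ (g : F2) (x : Cfg), Θ (g • x) = g • Θ x := by
  refine ⟨Factor.th, ⟨Factor.measurable_th, Factor.map_th⟩, fun g x => ?_⟩
  funext p
  exact Factor.th_smul g x p

end Pool.Agent.W_MP_ae868b_lc
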