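import Pool.Agent.W_MP_ae868b_lc.Words

/-!
# Pulling back configurations and pieces along factor maps (task P)

All statements follow from `Ψ (g • x) = g • Ψ x`: the predicates `Cons`, `EPath`, `Reach`, `comp`, `Short`, `T01`,
`ERole`, `CutV` at `x` for `π ∘ Ψ` are those at `Ψ x` for `π`, and `μ (Ψ⁻¹ E) = ν E` for measurable `E`.
-/

open MeasureTheory

namespace Pool.Agent.W_MP_ae868b_lc

section aux

variable {X Y : Type*} [MulAction F2 X] [MulAction F2 Y] {Ψ : X → Y}

theorem oth_pull (he : ∀ (g : F2) (x : X), Ψ (g • x) = g • Ψ x) (π : Y → Bj) (x : X) (s : S) :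
    oth (fun x => π (Ψ x)) x s = oth π (Ψ x) s := by
  change π (Ψ (gen s • x)) (sinv s) = π (gen s • Ψ x) (sinv s)
  rw [he]

theorem cons_pull (he : ∀ (g : F2) (x : X), Ψ (g • x) = g • Ψ x) (π : Y → Bj) (x : X) (s : S) :
    Cons (fun x => π (Ψ x)) x s ↔ Cons π (Ψ x) s := by
  unfold Cons
  rw [oth_pull he]

theorem epath_pull (he : ∀ (g : F2) (x : X), Ψ (g • x) = g • Ψ x) {E : X → S → Prop}
    {E' : Y → S → Prop} (hE : ∀ x s, E x s ↔ E' (Ψ x) s) (x : X) (w : List S) :
    EPath E x w ↔ EPath E' (Ψ x) w := by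
  induction w with
  | nil => exact Iff.rfl
  | cons s w ih =>
    change (EPath E x w ∧ E (FreeGroup.mk w • x) s) ↔
      (EPath E' (Ψ x) w ∧ E' (FreeGroup.mk w • Ψ x) s)
    rw [ih, hE, he]

theorem reach_pull (he : ∀ (g : F2) (x : X), Ψ (g • x) = g • Ψ x) {E : X → S → Prop}
    {E' : Y → S → Prop} (hE : ∀ x s, E x s ↔ E' (Ψ x) s) (x : X) (g : F2) :
    Reach E x g ↔ Reach E' (Ψ x) g := by
  unfold Reach
  simp only [epath_pull he hE]

theorem comp_pull (he : ∀ (g : F2) (x : X), Ψ (g • x) = g • Ψ x) {E : X → S → Prop}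
    {E' : Y → S → Prop} (hE : ∀ x s, E x s ↔ E' (Ψ x) s) (x : X) :
    comp E x = comp E' (Ψ x) := by
  ext g
  exact reach_pull he hE x g

theorem e01_pull (he : ∀ (g : F2) (x : X), Ψ (g • x) = g • Ψ x) (π : Y → Bj) (x : X) (s : S) :
    E01 (fun x => π (Ψ x)) x s ↔ E01 π (Ψ x) s := by
  unfold E01
  rw [cons_pull he]

theorem erole_pull (he : ∀ (g : F2) (x : X), Ψ (g • x) = g • Ψ x) (π : Y → Bj) (r : Bool)
    (x : X) (s : S) : ERole (fun x => π (Ψ x)) r x s ↔ ERole π r (Ψ x) s := by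
  unfold ERole
  rw [oth_pull he]

theorem t01_pull (he : ∀ (g : F2) (x : X), Ψ (g • x) = g • Ψ x) (π : Y → Bj) (x : X) (s : S) :
    T01 (fun x => π (Ψ x)) x s ↔ T01 π (Ψ x) s := by
  unfold T01
  rw [oth_pull he]

theorem short_pull (he : ∀ (g : F2) (x : X), Ψ (g • x) = g • Ψ x) (π : Y → Bj) (L : ℕ)
    (x : X) : Short (fun x => π (Ψ x)) L x ↔ Short π L (Ψ x) := by
  unfold Short
  rw [comp_pull he (e01_pull he π)]

end aux

theorem real_preimage {X Y : Type*} [MeasurableSpace X] [MeasurableSpace Y] {μ : Measure X}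
    {ν : Measure Y} {Ψ : X → Y} (hΨ : MeasurePreserving Ψ μ ν) {E : Set Y}
    (hE : MeasurableSet E) : μ.real (Ψ ⁻¹' E) = ν.real E := by
  unfold Measure.real
  rw [hΨ.measure_preimage hE.nullMeasurableSet]

/-- pulling back a configuration along an equivariant measure preserving map keeps `err` -/
theorem err_comp {X Y : Type*} [MeasurableSpace X] [MulAction F2 X] [MeasurableSpace Y]
    [MulAction F2 Y] {μ : Measure X} {ν : Measure Y} (hν : IsPMP ν) {Ψ : X → Y}
    (hΨ : MeasurePreserving Ψ μ ν) (he : ∀ (g : F2) (x : X), Ψ (g • x) = g • Ψ x) {π : Y → Bj}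
    (hπ : Measurable π) : err μ (fun x => π (Ψ x)) = err ν π := by
  unfold err
  refine Finset.sum_congr rfl fun s _ => ?_
  have hm : ∀ g : F2, Measurable fun y : Y => g • y := fun g => (hν.mp g).measurable
  have h1 := real_preimage hΨ (measurableSet_cons hm hπ s).compl
  refine Eq.trans ?_ h1
  congr 1
  ext x
  exact not_congr (cons_pull he π x s)

/-- same for `sig` -/
theorem sig_comp {X Y : Type*} [MeasurableSpace X] [MulAction F2 X] [MeasurableSpace Y]
    [MulAction F2 Y] {μ : Measure X} {ν : Measure Y} (hν : IsPMP ν) {Ψ : X → Y}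
    (hΨ : MeasurePreserving Ψ μ ν) (he : ∀ (g : F2) (x : X), Ψ (g • x) = g • Ψ x) {π : Y → Bj}
    (hπ : Measurable π) (L : ℕ) : sig μ (fun x => π (Ψ x)) L = sig ν π L := by
  unfold sig
  refine Finset.sum_congr rfl fun s _ => ?_
  have hm : ∀ g : F2, Measurable fun y : Y => g • y := fun g => (hν.mp g).measurable
  have hl : ∀ s (i : Fin 4), MeasurableSet {y : Y | π y s = i} := fun s i =>
    measurable_lbl hπ s (MeasurableSet.singleton i)
  have ho : ∀ s (i : Fin 4), MeasurableSet {y : Y | oth π y s = i} := fun s i =>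
    measurable_oth hm hπ s (MeasurableSet.singleton i)
  have h01 : ∀ s, MeasurableSet {y : Y | E01 π y s} := fun s =>
    (measurableSet_cons hm hπ s).inter ((hl s 0).union (hl s 1))
  have hT : MeasurableSet {y : Y | T01 π y s} :=
    ((hl s 0).inter (ho s 1)).union ((hl s 1).inter (ho s 0))
  have hS : MeasurableSet {y : Y | Short π L y} := measurableSet_encard_le hm h01 L
  have h1 := real_preimage hΨ (hT.inter hS)
  refine Eq.trans ?_ h1
  congr 1
  ext x
  exact and_congr (t01_pull he π x s) (short_pull he π L x)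

/-- pieces pulled back along an equivariant measurable map -/
def Pieces.pull {X Y : Type*} [MeasurableSpace X] [MulAction F2 X] [MeasurableSpace Y]
    [MulAction F2 Y] (P : Pieces Y) (Ψ : X → Y) (hm : Measurable Ψ)
    (he : ∀ (g : F2) (x : X), Ψ (g • x) = g • Ψ x) : Pieces X where
  P x := P.P (Ψ x)
  meas := P.meas.comp hm
  one_mem x := P.one_mem (Ψ x)
  trans x g hg := by rw [he]; exact P.trans (Ψ x) g hg

/-- the marks step pulled back to `Om`: a configuration of the same law close to `π` together with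
pieces. Proof: `marks_step` on `Om`, then `exists_split` for `f = π`. -/
theorem cut_pull {X Y : Type*} [MeasurableSpace X] [MulAction F2 X] [MeasurableSpace Y]
    [MulAction F2 Y] {μ : Measure X} {ν : Measure Y} {Ψ : X → Y}
    (hΨ : MeasurePreserving Ψ μ ν) (he : ∀ (g : F2) (x : X), Ψ (g • x) = g • Ψ x) {π : Y → Bj}
    (P : Bool → Pieces Y) (hP : ∀ r y g, g ∈ (P r).P y → Reach (ERole π r) y g)
    (hcut : MeasurableSet (CutV π P)) :
    (∀ r x g, g ∈ ((P r).pull Ψ hΨ.measurable he).P x →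
      Reach (ERole (fun x => π (Ψ x)) r) x g) ∧
    μ.real (CutV (fun x => π (Ψ x)) (fun r => (P r).pull Ψ hΨ.measurable he)) =
      ν.real (CutV π P) := by
  refine ⟨?_, ?_⟩
  · intro r x g hg
    exact (reach_pull he (erole_pull he π r) x g).2 (hP r (Ψ x) g hg)
  · rw [← real_preimage hΨ hcut]
    congr 1
    ext x
    change (∃ r s, ERole (fun x => π (Ψ x)) r x s ∧ gen s ∉ (P r).P (Ψ x)) ↔
      ∃ r s, ERole π r (Ψ x) s ∧ gen s ∉ (P r).P (Ψ x)
    simp only [erole_pull he]

end Pool.Agent.W_MP_ae868b_lc
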