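import Pool.Agent.W_MP_ae868b_lc.Limit
import Pool.Agent.W_MP_ae868b_lc.Factor
import Pool.Agent.W_MP_ae868b_lc.PullBack

/-!
# The perfect configuration on `2^{F2}` (task Fin)
-/

open MeasureTheory

namespace Pool.Agent.W_MP_ae868b_lc

theorem exists_perfect_cfg :
    ∃ π : Cfg → Bj, Measurable π ∧ ∀ᵐ x ∂coinCfg, ∀ s, Cons π x s := by
  obtain ⟨π, hπ, h0⟩ := exists_perfect
  obtain ⟨Θ, hΘ, he⟩ := exists_factor
  refine ⟨fun x => π (Θ x), hπ.comp hΘ.measurable, ?_⟩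
  have h1 : err coinCfg (fun x => π (Θ x)) = 0 := by
    rw [err_comp isPMP_coinOm hΘ he hπ, h0]
  rw [ae_all_iff]
  intro s
  have h2 : coinCfg.real {x | ¬ Cons (fun x => π (Θ x)) x s} = 0 := by
    have := (Finset.sum_eq_zero_iff_of_nonneg (fun s _ => measureReal_nonneg)).1 h1 s
      (Finset.mem_univ s)
    exact this
  have := isPMP_coinCfg.prob
  rw [measureReal_eq_zero_iff] at h2
  exact h2

end Pool.Agent.W_MP_ae868b_lc
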