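import Pool.Agent.W_MP_ae868b_lc.Coin

/-!
# The shift space `2^{F2}` (task C)
-/

open MeasureTheory

namespace Pool.Agent.W_MP_ae868b_lc

/-- the space `2^{F2}` -/
def Cfg : Type := F2 → Bool

instance instMeasurableSpaceCfg : MeasurableSpace Cfg :=
  inferInstanceAs (MeasurableSpace (F2 → Bool))

/-- the left shift `(g • x) h = x (g⁻¹ h)` -/
instance instMulActionCfg : MulAction F2 Cfg where
  smul g x := fun h => x (g⁻¹ * h)
  one_smul x := by
    funext h
    change x ((1 : F2)⁻¹ * h) = x h
    simp
  mul_smul g h x := by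
    funext k
    change x ((g * h)⁻¹ * k) = x (h⁻¹ * (g⁻¹ * k))
    simp [mul_assoc]

/-- the coin flip measure -/
noncomputable def coinCfg : Measure Cfg := Measure.infinitePi (fun _ : F2 => coin)

theorem isPMP_coinCfg : IsPMP coinCfg := by
  refine ⟨inferInstanceAs (IsProbabilityMeasure (Measure.infinitePi (fun _ : F2 => coin))),
    fun g => ⟨?_, ?_⟩⟩
  · change Measurable (fun (x : F2 → Bool) (h : F2) => x (g⁻¹ * h))
    exact measurable_pi_lambda _ (fun h => measurable_pi_apply _)
  · exact Measure.map_infinitePi_infinitePi_of_inj (P := fun _ : F2 => coin)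
      (f := fun h : F2 => g⁻¹ * h) (mul_right_injective _)

/-- the configurations that are constant `b` on all powers of `g⁻¹` form a null set -/
theorem coinCfg_pow_null (g : F2) (hg : g ≠ 1) (b : Bool) :
    (Measure.infinitePi (fun _ : F2 => coin)) {x : F2 → Bool | ∀ n : ℕ, x (g⁻¹ ^ n) = b} = 0 := by
  classical
  have hinj : Function.Injective fun n : ℕ => g⁻¹ ^ n := by
    rw [injective_pow_iff_not_isOfFinOrder]
    exact not_isOfFinOrder_of_isMulTorsionFree (inv_ne_one.mpr hg)
  have hle : ∀ N : ℕ, (Measure.infinitePi (fun _ : F2 => coin))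
      {x : F2 → Bool | ∀ n : ℕ, x (g⁻¹ ^ n) = b} ≤ (1 / 2 : ENNReal) ^ N := by
    intro N
    have h1 : {x : F2 → Bool | ∀ n : ℕ, x (g⁻¹ ^ n) = b} ⊆
        Set.pi (((Finset.range N).image fun n : ℕ => g⁻¹ ^ n : Finset F2) : Set F2)
          (fun _ => ({b} : Set Bool)) := by
      intro x hx i hi
      simp only [Finset.coe_image, Finset.coe_range, Set.mem_image, Set.mem_Iio] at hi
      obtain ⟨n, _, rfl⟩ := hi
      exact hx n
    refine (measure_mono h1).trans ?_
    rw [Measure.infinitePi_pi (fun _ : F2 => coin) (fun i _ => measurableSet_singleton b)]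
    rw [Finset.prod_congr rfl (fun i _ => coin_singleton b), Finset.prod_const,
      Finset.card_image_of_injective _ hinj, Finset.card_range]
  have hlim : Filter.Tendsto (fun N : ℕ => (1 / 2 : ENNReal) ^ N) Filter.atTop (nhds 0) :=
    ENNReal.tendsto_pow_atTop_nhds_zero_of_lt_one (by
      rw [one_div]; exact ENNReal.inv_lt_one.mpr (by norm_num))
  exact le_antisymm (ge_of_tendsto' hlim hle) bot_le

/-- almost every configuration has trivial stabiliser: for `g ≠ 1` a point fixed by `g` has
`x (g^{-n}) = x 1` for all `n`, and the elements `g^{-n}` are distinct (`F2` is torsion free) -/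
theorem ae_free : ∀ᵐ x ∂coinCfg, ∀ g : F2, g ≠ 1 → g • x ≠ x := by
  rw [ae_all_iff]
  intro g
  by_cases hg : g = 1
  · exact Filter.Eventually.of_forall fun x h => absurd hg h
  have h1 : {x : Cfg | ¬ (g ≠ 1 → g • x ≠ x)} ⊆
      {x : F2 → Bool | ∀ n : ℕ, x (g⁻¹ ^ n) = true} ∪
        {x : F2 → Bool | ∀ n : ℕ, x (g⁻¹ ^ n) = false} := by
    intro x hx
    have hx' : g • x = x := by
      by_contra hne
      exact hx (fun _ => hne)
    have hstep : ∀ h : F2, (x : F2 → Bool) (g⁻¹ * h) = (x : F2 → Bool) h := fun h =>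
      congrFun hx' h
    have hpow : ∀ n : ℕ, (x : F2 → Bool) (g⁻¹ ^ n) = (x : F2 → Bool) 1 := by
      intro n
      induction n with
      | zero => simp
      | succ n ih => rw [pow_succ', hstep, ih]
    cases hb : (x : F2 → Bool) 1 with
    | true => exact Or.inl fun n => (hpow n).trans hb
    | false => exact Or.inr fun n => (hpow n).trans hb
  rw [ae_iff]
  refine measure_mono_null h1 ?_
  rw [measure_union_null_iff]
  exact ⟨coinCfg_pow_null g hg true, coinCfg_pow_null g hg false⟩

end Pool.Agent.W_MP_ae868b_lc
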