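import Pool.Agent.W_MP_ae868b_lc.Defs

/-!
# The label space: invariance, parities and independence (task T2)
-/

open MeasureTheory

namespace Pool.Agent.W_MP_ae868b_lc

theorem coin_singleton (b : Bool) : coin {b} = 1 / 2 := by
  unfold coin
  rw [PMF.toMeasure_apply_singleton _ _ (measurableSet_singleton b), PMF.uniformOfFintype_apply]
  simp

instance instProbCoinOm : IsProbabilityMeasure coinOm :=
  inferInstanceAs (IsProbabilityMeasure (Measure.infinitePi (fun _ : ℕ × F2 => coin)))

theorem smul_apply (g : F2) (ω : Om) (p : ℕ × F2) : (g • ω) p = ω (p.1, g⁻¹ * p.2) := rfl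

/-- each coordinate of a labelling is measurable -/
theorem measurable_coord (p : ℕ × F2) : Measurable fun ω : Om => ω p := by
  change Measurable fun ω : ℕ × F2 → Bool => ω p
  exact measurable_pi_apply p

theorem measurable_smul_Om (g : F2) : Measurable fun ω : Om => g • ω := by
  change Measurable (fun (ω : ℕ × F2 → Bool) (p : ℕ × F2) => ω (p.1, g⁻¹ * p.2))
  exact measurable_pi_iff.2 fun p => measurable_pi_apply _

/-- the shift preserves the product measure (use
`MeasureTheory.Measure.map_infinitePi_infinitePi_of_inj` or `infinitePi_map_piCongrLeft`) -/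
theorem isPMP_coinOm : IsPMP coinOm := by
  refine ⟨inferInstance, fun g => ⟨measurable_smul_Om g, ?_⟩⟩
  have hinj : Function.Injective (fun p : ℕ × F2 => (p.1, g⁻¹ * p.2)) := by
    rintro ⟨a, b⟩ ⟨c, d⟩ h
    simp only [Prod.mk.injEq, mul_right_inj] at h
    exact Prod.ext h.1 h.2
  exact Measure.map_infinitePi_infinitePi_of_inj (P := fun _ : ℕ × F2 => coin) hinj

theorem isPMP_prod {X Y : Type*} [MeasurableSpace X] [MulAction F2 X] [MeasurableSpace Y]
    [MulAction F2 Y] {μ : Measure X} {ν : Measure Y} (hμ : IsPMP μ) (hν : IsPMP ν) :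
    IsPMP (μ.prod ν) := by
  have h1 := hμ.prob
  have h2 := hν.prob
  refine ⟨inferInstance, fun g => ?_⟩
  exact (hμ.mp g).prod (hν.mp g)

/-- bits of the shifted labelling -/
theorem bit_smul (g : F2) (ω : Om) (n : ℕ) (h : F2) : bit (g • ω) n h = bit ω n (h * g) := by
  unfold bit
  rw [smul_apply, mul_inv_rev]

/-- parities of the shifted labelling: vertices are translated on the right -/
theorem par_smul (g : F2) (ω : Om) (n : ℕ) (D : Finset F2) :
    par (g • ω) n D = par ω n (D.image (fun h => h * g)) := by
  unfold par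
  rw [Finset.sum_image (fun a _ b _ h => mul_right_cancel h)]
  exact Finset.sum_congr rfl fun h _ => by rw [bit_smul]

theorem measurable_bit (n : ℕ) (g : F2) : Measurable fun ω : Om => bit ω n g :=
  measurable_coord (n, g⁻¹)

theorem measurable_par (n : ℕ) (D : Finset F2) :
    @Measurable Om (ZMod 2) _ ⊤ fun ω : Om => par ω n D := by
  let : MeasurableSpace (ZMod 2) := ⊤
  have : DiscreteMeasurableSpace (ZMod 2) := ⟨fun _ => trivial⟩
  unfold par
  refine Finset.measurable_sum _ fun g _ => ?_
  exact (measurable_from_top (f := fun b : Bool => (if b = true then 1 else 0 : ZMod 2))).comp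
    (measurable_bit n g)

theorem measurableSet_par (n : ℕ) (D : Finset F2) (a : ZMod 2) :
    MeasurableSet {ω : Om | par ω n D = a} := by
  let : MeasurableSpace (ZMod 2) := ⊤
  exact measurable_par n D (MeasurableSpace.measurableSet_top (s := {a}))

end Pool.Agent.W_MP_ae868b_lc
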