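import Pool.Agent.W_MP_ae868b_lc.Coin

/-!
# Independence of parities (task T2b)
-/

open MeasureTheory

namespace Pool.Agent.W_MP_ae868b_lc

/-! ### flipping one bit -/

open Classical in
/-- flip the bit number `n` at the vertex `g` -/
noncomputable def flipBit (n : ℕ) (g : F2) (ω : Om) : Om :=
  fun p => (if p = (n, g⁻¹) then Bool.not else id) (ω p)

theorem bit_flipBit_self (n : ℕ) (g : F2) (ω : Om) :
    bit (flipBit n g ω) n g = !bit ω n g := by
  unfold bit flipBit
  simp

theorem bit_flipBit_ne {n m : ℕ} {g h : F2} (hne : (m, h) ≠ (n, g)) (ω : Om) :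
    bit (flipBit n g ω) m h = bit ω m h := by
  unfold bit flipBit
  have : (m, h⁻¹) ≠ (n, g⁻¹) := by
    intro h1
    apply hne
    have h2 := Prod.ext_iff.1 h1
    exact Prod.ext h2.1 (inv_injective h2.2)
  simp [this]

theorem map_coin_not : coin.map Bool.not = coin := by
  have hs : ∀ b : Bool, (coin.map Bool.not) {b} = coin {b} := by
    intro b
    rw [Measure.map_apply (measurable_of_countable _) (MeasurableSet.singleton b),
      coin_singleton]
    have : Bool.not ⁻¹' {b} = {!b} := by
      ext x
      cases x <;> cases b <;> simp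
    rw [this, coin_singleton]
  exact Measure.ext_of_singleton hs

theorem measurePreserving_flipBit (n : ℕ) (g : F2) :
    MeasurePreserving (flipBit n g) coinOm coinOm := by
  classical
  have hm : ∀ p : ℕ × F2, Measurable (if p = (n, g⁻¹) then Bool.not else id) := fun p =>
    measurable_of_countable _
  refine ⟨?_, ?_⟩
  · refine measurable_pi_lambda _ fun p => ?_
    exact (hm p).comp (measurable_pi_apply p)
  · have h2 : (fun p : ℕ × F2 => coin.map (if p = (n, g⁻¹) then Bool.not else id))
        = fun _ => coin := by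
      funext p
      split_ifs
      · exact map_coin_not
      · exact Measure.map_id
    have h3 : Measure.infinitePi (fun p : ℕ × F2 =>
        coin.map (if p = (n, g⁻¹) then Bool.not else id)) = coinOm := by
      unfold coinOm
      rw [h2]
    have h1 : Measure.map (fun (x : ℕ × F2 → Bool) (p : ℕ × F2) =>
        (if p = (n, g⁻¹) then Bool.not else id) (x p)) (Measure.infinitePi fun _ => coin)
        = Measure.infinitePi (fun p : ℕ × F2 =>
        coin.map (if p = (n, g⁻¹) then Bool.not else id)) :=
      Measure.infinitePi_map_pi (μ := fun _ : ℕ × F2 => coin)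
        (f := fun p : ℕ × F2 => (if p = (n, g⁻¹) then Bool.not else id)) hm
    exact h1.trans h3

theorem zmod2_cases (a : ZMod 2) : a = 0 ∨ a = 1 := by
  revert a; decide

theorem zmod2_bnot (b : Bool) :
    (if (!b) = true then 1 else 0 : ZMod 2) = (if b = true then 1 else 0 : ZMod 2) + 1 := by
  cases b <;> decide

theorem par_flipBit_mem {n : ℕ} {g : F2} {D : Finset F2} (hg : g ∈ D) (ω : Om) :
    par (flipBit n g ω) n D = par ω n D + 1 := by
  classical
  unfold par
  rw [← Finset.add_sum_erase D _ hg, ← Finset.add_sum_erase D (fun g => _) hg]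
  rw [bit_flipBit_self, zmod2_bnot]
  have : ∑ x ∈ D.erase g, (if bit (flipBit n g ω) n x = true then 1 else 0 : ZMod 2)
      = ∑ x ∈ D.erase g, (if bit ω n x = true then 1 else 0 : ZMod 2) := by
    refine Finset.sum_congr rfl fun x hx => ?_
    rw [bit_flipBit_ne]
    intro h
    exact (Finset.ne_of_mem_erase hx) (Prod.ext_iff.1 h).2
  rw [this]
  ring

theorem par_flipBit_notMem {n m : ℕ} {g : F2} {D : Finset F2} (hg : (m, g) ∉ (({n} : Finset ℕ) ×ˢ D))
    (ω : Om) : par (flipBit m g ω) n D = par ω n D := by
  unfold par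
  refine Finset.sum_congr rfl fun x hx => ?_
  rw [bit_flipBit_ne]
  intro h
  apply hg
  rw [← h]
  simp [hx]

/-- a function of finitely many bits is measurable, bounded and integrable -/
theorem integrable_of_finite (H : Finset (ℕ × F2)) (θ : Om → ℝ)
    (hθ : ∀ ω ω' : Om, (∀ p ∈ H, bit ω p.1 p.2 = bit ω' p.1 p.2) → θ ω = θ ω') :
    Measurable θ ∧ (∃ C : ℝ, ∀ ω, |θ ω| ≤ C) ∧ Integrable θ coinOm := by
  classical
  let R : Om → (H → Bool) := fun ω p => bit ω p.1.1 p.1.2
  let ext : (H → Bool) → Om := fun f p =>
    if h : (p.1, p.2⁻¹) ∈ H then f ⟨(p.1, p.2⁻¹), h⟩ else false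
  have hR : Measurable R := measurable_pi_lambda _ fun p => measurable_bit _ _
  have hext : ∀ ω, θ ω = θ (ext (R ω)) := by
    intro ω
    refine hθ _ _ fun p hp => ?_
    have h1 : (p.1, (p.2⁻¹)⁻¹) = p := by simp
    change bit ω p.1 p.2 = ext (R ω) (p.1, p.2⁻¹)
    have h2 : (p.1, (p.2⁻¹)⁻¹) ∈ H := by rw [h1]; exact hp
    change bit ω p.1 p.2 = if h : (p.1, (p.2⁻¹)⁻¹) ∈ H then (R ω) ⟨(p.1, (p.2⁻¹)⁻¹), h⟩ else false
    rw [dif_pos h2]
    change bit ω p.1 p.2 = bit ω p.1 (p.2⁻¹)⁻¹
    rw [inv_inv]
  have hcomp : θ = (fun f : H → Bool => θ (ext f)) ∘ R := by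
    funext ω
    exact hext ω
  have hmeas : Measurable θ := by
    rw [hcomp]
    exact (measurable_of_countable _).comp hR
  have hbd : ∃ C : ℝ, ∀ ω, |θ ω| ≤ C := by
    refine ⟨∑ f : H → Bool, |θ (ext f)|, fun ω => ?_⟩
    rw [hext ω]
    exact Finset.single_le_sum (f := fun f : H → Bool => |θ (ext f)|)
      (fun _ _ => abs_nonneg _) (Finset.mem_univ (R ω))
  refine ⟨hmeas, hbd, ?_⟩
  obtain ⟨C, hC⟩ := hbd
  exact Integrable.of_bound hmeas.aestronglyMeasurable C
    (Filter.Eventually.of_forall fun ω => by rw [Real.norm_eq_abs]; exact hC ω)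

/-- if a measure preserving map does not change `F` and exchanges the event `E` with its
complement, then `F` has half of its integral on `E` -/
theorem integral_half {T : Om → Om} (hT : MeasurePreserving T coinOm coinOm) {F : Om → ℝ}
    (hF : Measurable F) (hI : Integrable F coinOm) (hinv : ∀ ω, F (T ω) = F ω) {E : Om → Prop}
    (hE : MeasurableSet {ω | E ω}) (hflip : ∀ ω, E (T ω) ↔ ¬ E ω) :
    ∫ ω, F ω * (open Classical in if E ω then (1 : ℝ) else 0) ∂coinOm
      = (1 / 2) * ∫ ω, F ω ∂coinOm := by
  classical
  set G : Om → ℝ := fun ω => F ω * (if E ω then (1 : ℝ) else 0) with hG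
  have hGm : Measurable G := hF.mul (Measurable.ite hE measurable_const measurable_const)
  have hGI : Integrable G coinOm := by
    refine hI.mono hGm.aestronglyMeasurable (Filter.Eventually.of_forall fun ω => ?_)
    rw [hG]
    simp only [norm_mul]
    split_ifs
    · simp
    · simp
  have h1 : ∫ ω, G ω ∂coinOm = ∫ ω, G (T ω) ∂coinOm := by
    rw [← hT.map_eq]
    rw [integral_map hT.measurable.aemeasurable (by rw [hT.map_eq]; exact hGm.aestronglyMeasurable),
      hT.map_eq]
  have h2 : ∀ ω, G (T ω) = F ω - G ω := by
    intro ω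
    simp only [hG, hinv]
    by_cases h : E ω
    · rw [if_pos h, if_neg (fun h' => (hflip ω).1 h' h)]
      ring
    · rw [if_neg h, if_pos ((hflip ω).2 h)]
      ring
  have h3 : ∫ ω, G (T ω) ∂coinOm = ∫ ω, F ω ∂coinOm - ∫ ω, G ω ∂coinOm := by
    rw [← integral_sub hI hGI]
    exact integral_congr_ae (Filter.Eventually.of_forall h2)
  have h4 : ∫ ω, G ω ∂coinOm = (1 / 2) * ∫ ω, F ω ∂coinOm := by linarith
  convert h4 using 1

/-- a bounded function of finitely many bits (those in `H`) is independent of the parity bits
`o, ..., o + j - 1` of a nonempty finite set of vertices `D` if these bits are not in `H`.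
Proof: induction on `j` and the independence of disjoint finite sets of coordinates
(`ProbabilityTheory.iIndepFun_infinitePi`, `iIndepFun.indepFun_finset`), together with
`P (par = 1) = 1/2`; or: flipping one bit of `D` (measure preserving) exchanges `par = 1` and
`par = 0` and does not change the function `θ` nor the other parities. -/
theorem integral_mul_par (H : Finset (ℕ × F2)) (θ : Om → ℝ)
    (hθ : ∀ ω ω' : Om, (∀ p ∈ H, bit ω p.1 p.2 = bit ω' p.1 p.2) → θ ω = θ ω')
    (D : Finset F2) (hD : D.Nonempty) (o j : ℕ)
    (hdisj : ∀ t < j, ∀ g ∈ D, (o + t, g) ∉ H) :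
    ∫ ω, θ ω * (open Classical in if ∀ t < j, par ω (o + t) D = 1 then (1 : ℝ) else 0) ∂coinOm
      = (1 / 2) ^ j * ∫ ω, θ ω ∂coinOm := by
  classical
  induction j with
  | zero => simp
  | succ j ih =>
    have ih' := ih (fun t ht => hdisj t (by omega))
    obtain ⟨hm, hb, hI⟩ := integrable_of_finite H θ hθ
    obtain ⟨g, hg⟩ := hD
    set F : Om → ℝ := fun ω => θ ω * (if ∀ t < j, par ω (o + t) D = 1 then (1 : ℝ) else 0) with hF
    have hset : MeasurableSet {ω : Om | ∀ t < j, par ω (o + t) D = 1} := by
      have : {ω : Om | ∀ t < j, par ω (o + t) D = 1}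
          = ⋂ t, ⋂ (_ : t < j), {ω : Om | par ω (o + t) D = 1} := by
        ext ω; simp
      rw [this]
      exact MeasurableSet.iInter fun t => MeasurableSet.iInter fun _ => measurableSet_par _ _ _
    have hFm : Measurable F := hm.mul (Measurable.ite hset measurable_const measurable_const)
    have hFI : Integrable F coinOm := by
      refine hI.mono hFm.aestronglyMeasurable (Filter.Eventually.of_forall fun ω => ?_)
      rw [hF]
      simp only [norm_mul]
      split_ifs
      · simp
      · simp
    have hinv : ∀ ω, F (flipBit (o + j) g ω) = F ω := by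
      intro ω
      have h1 : θ (flipBit (o + j) g ω) = θ ω := by
        refine hθ _ _ fun p hp => bit_flipBit_ne ?_ ω
        intro h
        apply hdisj j (Nat.lt_succ_self j) g hg
        rw [← h]
        exact hp
      have h2 : ∀ t < j, par (flipBit (o + j) g ω) (o + t) D = par ω (o + t) D := by
        intro t ht
        refine par_flipBit_notMem ?_ ω
        simp only [Finset.mem_product, Finset.mem_singleton, not_and]
        intro h
        omega
      have h3 : (∀ t < j, par (flipBit (o + j) g ω) (o + t) D = 1)
          ↔ (∀ t < j, par ω (o + t) D = 1) := by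
        constructor
        · intro h t ht
          rw [← h2 t ht]
          exact h t ht
        · intro h t ht
          rw [h2 t ht]
          exact h t ht
      simp only [hF, h1, h3]
    have hhalf := integral_half (measurePreserving_flipBit (o + j) g) hFm hFI hinv
      (E := fun ω => par ω (o + j) D = 1) (measurableSet_par (o + j) D 1) (by
        intro ω
        rw [par_flipBit_mem hg]
        rcases zmod2_cases (par ω (o + j) D) with h | h
        · rw [h]; decide
        · rw [h]; decide)
    have hsplit : ∀ ω : Om, θ ω * (if ∀ t < j + 1, par ω (o + t) D = 1 then (1 : ℝ) else 0)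
        = F ω * (if par ω (o + j) D = 1 then (1 : ℝ) else 0) := by
      intro ω
      simp only [hF]
      by_cases h1 : ∀ t < j, par ω (o + t) D = 1
      · by_cases h2 : par ω (o + j) D = 1
        · rw [if_pos, if_pos h1, if_pos h2]
          · ring
          · intro t ht
            rcases Nat.lt_succ_iff_lt_or_eq.1 ht with h | h
            · exact h1 t h
            · rw [h]; exact h2
        · rw [if_neg, if_neg h2]
          · ring
          · intro h
            exact h2 (h j (Nat.lt_succ_self j))
      · rw [if_neg, if_neg h1]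
        · ring
        · intro h
          exact h1 fun t ht => h t (by omega)
    have hgoal : ∫ ω, θ ω * (if ∀ t < j + 1, par ω (o + t) D = 1 then (1 : ℝ) else 0) ∂coinOm
        = (1 / 2) * ∫ ω, F ω ∂coinOm := by
      rw [← hhalf]
      refine integral_congr_ae (Filter.Eventually.of_forall fun ω => ?_)
      simp only [hsplit ω]
      congr
    rw [hgoal, ih', pow_succ]
    ring

theorem real_par (n : ℕ) (D : Finset F2) (hD : D.Nonempty) :
    coinOm.real {ω | par ω n D = 1} = 1 / 2 := by
  classical
  have h := integral_mul_par ∅ (fun _ => 1) (fun _ _ _ => rfl) D hD n 1 (by simp)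
  have h1 : ∫ ω, {ω : Om | par ω n D = 1}.indicator (1 : Om → ℝ) ω ∂coinOm
      = (1 / 2) ^ 1 * ∫ _, (1 : ℝ) ∂coinOm := by
    rw [← h]
    refine integral_congr_ae (Filter.Eventually.of_forall fun ω => ?_)
    simp [Set.indicator_apply]
  rw [integral_indicator_one (measurableSet_par n D 1)] at h1
  rw [h1]
  simp

theorem real_par_zero (n : ℕ) (D : Finset F2) (hD : D.Nonempty) :
    coinOm.real {ω | par ω n D = 0} = 1 / 2 := by
  have h1 : {ω : Om | par ω n D = 0} = {ω : Om | par ω n D = 1}ᶜ := by
    ext ω
    rcases zmod2_cases (par ω n D) with h | h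
    · simp [h]
    · simp [h]
  rw [h1, measureReal_compl (measurableSet_par n D 1), real_par n D hD]
  simp only [probReal_univ]
  norm_num

theorem measurableSet_par_eq (n : ℕ) (D D' : Finset F2) :
    MeasurableSet {ω : Om | par ω n D = par ω n D'} := by
  have : {ω : Om | par ω n D = par ω n D'}
      = ⋃ a : ZMod 2, ({ω : Om | par ω n D = a} ∩ {ω : Om | par ω n D' = a}) := by
    ext ω
    simp [eq_comm]
  rw [this]
  exact MeasurableSet.iUnion fun a => (measurableSet_par _ _ _).inter (measurableSet_par _ _ _)

theorem real_par_eq (n : ℕ) (D D' : Finset F2) (hD : D.Nonempty) (hdisj : Disjoint D D') :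
    coinOm.real {ω | par ω n D = par ω n D'} = 1 / 2 := by
  classical
  obtain ⟨g, hg⟩ := hD
  have hg' : g ∉ D' := fun h => (Finset.disjoint_left.1 hdisj) hg h
  have hhalf := integral_half (measurePreserving_flipBit n g) (F := fun _ => 1)
    measurable_const (integrable_const _) (fun _ => rfl)
    (E := fun ω => par ω n D = par ω n D') (measurableSet_par_eq n D D') (by
      intro ω
      rw [par_flipBit_mem hg, par_flipBit_notMem (by simp [hg'])]
      rcases zmod2_cases (par ω n D) with h | h <;> rcases zmod2_cases (par ω n D') with h' | h' <;>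
        rw [h, h'] <;> decide)
  have h1 : ∫ ω, {ω : Om | par ω n D = par ω n D'}.indicator (1 : Om → ℝ) ω ∂coinOm
      = (1 / 2) * ∫ _, (1 : ℝ) ∂coinOm := by
    rw [← hhalf]
    refine integral_congr_ae (Filter.Eventually.of_forall fun ω => ?_)
    simp [Set.indicator_apply]
  rw [integral_indicator_one (measurableSet_par_eq n D D')] at h1
  rw [h1]
  simp

theorem par_singleton (ω : Om) (n : ℕ) (g : F2) : par ω n {g} = 1 ↔ bit ω n g = true := by
  unfold par
  rw [Finset.sum_singleton]
  cases bit ω n g <;> decide

/-- all bits number `0, ..., n - 1` at the vertices of a finite set `V` are not all `true` at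
any vertex: probability `(1 - 2^{-n})^{card V}` -/
theorem real_unmarked (n : ℕ) (V : Finset F2) :
    coinOm.real {ω | ∀ g ∈ V, ¬ ∀ i < n, bit ω i g = true} = (1 - (1 / 2) ^ n) ^ V.card := by
  classical
  induction V using Finset.induction_on with
  | empty => simp
  | insert g V hg ih =>
    set θ : Om → ℝ := fun ω => if ∀ h ∈ V, ¬ ∀ i < n, bit ω i h = true then 1 else 0 with hθ
    have hdep : ∀ ω ω' : Om, (∀ p ∈ (Finset.range n) ×ˢ V, bit ω p.1 p.2 = bit ω' p.1 p.2) →
        θ ω = θ ω' := by
      intro ω ω' h
      have : (∀ h ∈ V, ¬ ∀ i < n, bit ω i h = true) ↔ (∀ h ∈ V, ¬ ∀ i < n, bit ω' i h = true) := by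
        refine forall₂_congr fun x hx => not_congr (forall₂_congr fun i hi => ?_)
        rw [h (i, x) (by simp [hi, hx])]
      simp only [hθ, this]
    have hset : ∀ V : Finset F2,
        MeasurableSet {ω : Om | ∀ g ∈ V, ¬ ∀ i < n, bit ω i g = true} := by
      intro V
      have : {ω : Om | ∀ g ∈ V, ¬ ∀ i < n, bit ω i g = true}
          = ⋂ g, ⋂ (_ : g ∈ V), (⋂ i, ⋂ (_ : i < n), {ω : Om | bit ω i g = true})ᶜ := by
        ext ω; simp
      rw [this]
      refine MeasurableSet.iInter fun g => ?_
      refine MeasurableSet.iInter fun _ => MeasurableSet.compl ?_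
      refine MeasurableSet.iInter fun i => MeasurableSet.iInter fun _ => ?_
      exact measurable_bit i g (MeasurableSet.singleton true)
    have h1 := integral_mul_par ((Finset.range n) ×ˢ V) θ hdep {g} (Finset.singleton_nonempty g) 0 n
      (by
        intro t _ x hx
        rw [Finset.mem_singleton] at hx
        rw [hx]
        simp [hg])
    have h2 : ∫ ω, θ ω ∂coinOm = (1 - (1 / 2) ^ n) ^ V.card := by
      rw [← ih, ← integral_indicator_one (hset V)]
      refine integral_congr_ae (Filter.Eventually.of_forall fun ω => ?_)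
      simp [hθ, Set.indicator_apply]
    have h3 : coinOm.real {ω | ∀ h ∈ insert g V, ¬ ∀ i < n, bit ω i h = true}
        = ∫ ω, (θ ω - θ ω * (if ∀ t < n, par ω (0 + t) {g} = 1 then (1 : ℝ) else 0)) ∂coinOm := by
      rw [← integral_indicator_one (hset (insert g V))]
      refine integral_congr_ae (Filter.Eventually.of_forall fun ω => ?_)
      have h4 : (∀ t < n, par ω (0 + t) {g} = 1) ↔ ∀ i < n, bit ω i g = true := by
        refine forall₂_congr fun t _ => ?_
        rw [zero_add, par_singleton]
      simp only [h4, hθ, Set.indicator_apply, Set.mem_ofPred_eq, Finset.forall_mem_insert,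
        Pi.one_apply]
      by_cases h5 : ∀ i < n, bit ω i g = true
      · rw [if_neg (fun h => h.1 h5), if_pos h5]
        ring
      · by_cases h6 : ∀ h ∈ V, ¬ ∀ i < n, bit ω i h = true
        · rw [if_pos ⟨h5, h6⟩, if_neg h5, if_pos h6]
          ring
        · rw [if_neg (fun h => h6 h.2), if_neg h5, if_neg h6]
          ring
    obtain ⟨hm, _, hI⟩ := integrable_of_finite _ θ hdep
    have hI2 : Integrable (fun ω => θ ω * (if ∀ t < n, par ω (0 + t) {g} = 1 then (1 : ℝ) else 0))
        coinOm := by
      have hset2 : MeasurableSet {ω : Om | ∀ t < n, par ω (0 + t) {g} = 1} := by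
        have : {ω : Om | ∀ t < n, par ω (0 + t) {g} = 1}
            = ⋂ t, ⋂ (_ : t < n), {ω : Om | par ω (0 + t) {g} = 1} := by
          ext ω; simp
        rw [this]
        exact MeasurableSet.iInter fun t => MeasurableSet.iInter fun _ => measurableSet_par _ _ _
      refine hI.mono (hm.mul (Measurable.ite hset2 measurable_const
        measurable_const)).aestronglyMeasurable (Filter.Eventually.of_forall fun ω => ?_)
      simp only [norm_mul]
      split_ifs
      · simp
      · simp
    rw [h3, integral_sub hI hI2, h1, h2, Finset.card_insert_of_notMem hg, pow_succ]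
    ring

end Pool.Agent.W_MP_ae868b_lc
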