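import Mathlib

/-!
# MP_ae868b_lc: basic definitions

The group `F2`, letters `S`, configurations `π : X → S ≃ Fin 4` on a pmp `F2`-space `X`
(`π x` labels the four edges at `x` by four different labels), consistent flags, `err`,
reachability by edges of a given kind, pieces, the label space `Om`, the transfer operators `Tr`.

Conventions.
* `gen s • x` is the neighbour of `x` along the letter `s`, `sinv s` is the inverse letter.
* A word `w = [s_k, ..., s_1]` is a path starting at `x` with the step `s_1` first; its end point
  is `FreeGroup.mk w • x`.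
* roles: `r = true` is the B role (labels 1, 2), `r = false` is the A role (labels 0, 3).
* the pair of labels of the current type is `0, 1`.
-/

open MeasureTheory

namespace Pool.Agent.W_MP_ae868b_lc

/-- the free group on two generators -/
abbrev F2 : Type := FreeGroup (Fin 2)

/-- letters: `(i, true)` is the generator `i`, `(i, false)` its inverse -/
abbrev S : Type := Fin 2 × Bool

/-- the group element of a letter -/
def gen (s : S) : F2 := FreeGroup.mk [s]

/-- the inverse letter -/
def sinv (s : S) : S := (s.1, !s.2)

/-- labellings of the four edges at a vertex by four labels -/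
abbrev Bj : Type := S ≃ Fin 4

instance instMeasurableSpaceBj : MeasurableSpace Bj := ⊤

instance instDiscreteBj : DiscreteMeasurableSpace Bj := ⟨fun _ => trivial⟩

instance instMeasurableSpaceFinsetF2 : MeasurableSpace (Finset F2) := ⊤

instance instDiscreteFinsetF2 : DiscreteMeasurableSpace (Finset F2) := ⟨fun _ => trivial⟩

section Config

variable {X : Type*} [MulAction F2 X]

/-- the label of the edge `(x, gen s • x)` seen from the other end -/
def oth (π : X → Bj) (x : X) (s : S) : Fin 4 := π (gen s • x) (sinv s)

/-- the edge `(x, gen s • x)` is consistent -/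
def Cons (π : X → Bj) (x : X) (s : S) : Prop := π x s = oth π x s

/-- total measure of inconsistent flags -/
noncomputable def err [MeasurableSpace X] (μ : Measure X) (π : X → Bj) : ℝ :=
  ∑ s : S, μ.real {x | ¬ Cons π x s}

/-- path predicate: all steps of the word `w` (read from the right) from `x` satisfy `E` -/
def EPath (E : X → S → Prop) (x : X) : List S → Prop
  | [] => True
  | s :: w => EPath E x w ∧ E (FreeGroup.mk w • x) s

/-- `g • x` is reachable from `x` by a path of `E`-edges along the group element `g` -/
def Reach (E : X → S → Prop) (x : X) (g : F2) : Prop :=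
  ∃ w : List S, FreeGroup.mk w = g ∧ EPath E x w

/-- the edge predicate is symmetric -/
def ESymm (E : X → S → Prop) : Prop := ∀ x s, E x s → E (gen s • x) (sinv s)

/-- the connected component of `x` in the graph of `E`-edges, as a set of group elements -/
def comp (E : X → S → Prop) (x : X) : Set F2 := {g | Reach E x g}

/-- the first label of a role: `1` for B (`true`), `0` for A (`false`) -/
def lab0 (r : Bool) : Fin 4 := if r then 1 else 0

/-- the second label of a role: `2` for B (`true`), `3` for A (`false`) -/
def lab1 (r : Bool) : Fin 4 := if r then 2 else 3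

/-- both ends of the flag have labels of role `r` -/
def ERole (π : X → Bj) (r : Bool) (x : X) (s : S) : Prop :=
  (π x s = lab0 r ∨ π x s = lab1 r) ∧ (oth π x s = lab0 r ∨ oth π x s = lab1 r)

/-- consistent edges with label `0` or `1` -/
def E01 (π : X → Bj) (x : X) (s : S) : Prop := Cons π x s ∧ (π x s = 0 ∨ π x s = 1)

/-- inconsistent edges with the two labels `0` and `1` -/
def T01 (π : X → Bj) (x : X) (s : S) : Prop :=
  (π x s = 0 ∧ oth π x s = 1) ∨ (π x s = 1 ∧ oth π x s = 0)

/-- the `01`-run of `x` has at most `L` vertices -/
def Short (π : X → Bj) (L : ℕ) (x : X) : Prop := (comp (E01 π) x).encard ≤ L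

/-- measure of `01`-inconsistent flags whose own run is short -/
noncomputable def sig [MeasurableSpace X] (μ : Measure X) (π : X → Bj) (L : ℕ) : ℝ :=
  ∑ s : S, μ.real {x | T01 π x s ∧ Short π L x}

/-- points having an inconsistent edge with own label `i` and other label `j` -/
def Dij (π : X → Bj) (i j : Fin 4) : Set X := {x | oth π x ((π x).symm i) = j}

/-- a partition of the orbits into finite pieces: `P x` is the set of `g` such that `g • x` is in
the piece of `x` -/
structure Pieces (X : Type*) [MulAction F2 X] [MeasurableSpace X] where
  /-- the piece -/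
  P : X → Finset F2
  meas : Measurable P
  one_mem : ∀ x, (1 : F2) ∈ P x
  trans : ∀ x g, g ∈ P x → P (g • x) = (P x).image (fun h => h * g⁻¹)

/-- vertices at which an edge of role `r` leaves the piece of role `r` -/
def CutV [MeasurableSpace X] (π : X → Bj) (P : Bool → Pieces X) : Set X :=
  {x | ∃ r s, ERole π r x s ∧ gen s ∉ (P r).P x}

/-- the partial involution operator of label `i` -/
noncomputable def al (π : X → Bj) (i : Fin 4) (u : X → ℝ) (x : X) : ℝ :=
  open Classical in
  if Cons π x ((π x).symm i) then u (gen ((π x).symm i) • x) else 0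

/-- one step of the random walk of role `r` -/
noncomputable def Tr (π : X → Bj) (q : ℝ) (r : Bool) (u : X → ℝ) (x : X) : ℝ :=
  (1 - q) * al π (lab0 r) u x + q * al π (lab1 r) u x

/-- `k` alternating steps, the first one of role `r` -/
noncomputable def Top (π : X → Bj) (q : ℝ) : ℕ → Bool → (X → ℝ) → (X → ℝ)
  | 0, _, ψ => ψ
  | k + 1, r, ψ => Tr π q r (Top π q k (!r) ψ)

/-- unnormalised probability that the walk started on `Dij π i j` with role `r` meets an
inconsistent edge within `n` steps -/
noncomputable def hit [MeasurableSpace X] (μ : Measure X) (π : X → Bj) (q : ℝ) (i j : Fin 4)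
    (r : Bool) (n : ℕ) : ℝ :=
  ∫ x in Dij π i j, (1 - Top π q n r (fun _ => 1) x) ∂μ

end Config

section Measure

variable {X : Type*} [MeasurableSpace X] [MulAction F2 X]

/-- probability measure preserving action of `F2` -/
structure IsPMP (μ : Measure X) : Prop where
  prob : IsProbabilityMeasure μ
  mp : ∀ g : F2, MeasurePreserving (fun x => g • x) μ μ

/-- spectral gap: on bounded measurable functions of mean zero the adjacency operator has norm at
most `7/2` -/
def Gap (μ : Measure X) : Prop :=
  ∀ f : X → ℝ, Measurable f → (∃ C : ℝ, ∀ x, |f x| ≤ C) → ∫ x, f x ∂μ = 0 →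
    ∫ x, (∑ s : S, f (gen s • x)) ^ 2 ∂μ ≤ (7 / 2 : ℝ) ^ 2 * ∫ x, f x ^ 2 ∂μ

end Measure

/-- the fair coin -/
noncomputable def coin : Measure Bool := (PMF.uniformOfFintype Bool).toMeasure

instance instProbCoin : IsProbabilityMeasure coin := by
  unfold coin; infer_instance

/-- the label space: countably many fair bits at each vertex -/
def Om : Type := ℕ × F2 → Bool

instance instMeasurableSpaceOm : MeasurableSpace Om :=
  inferInstanceAs (MeasurableSpace (ℕ × F2 → Bool))

/-- the shift action on labels; the bit number `n` at the vertex `g • ω` is `ω (n, g⁻¹)` -/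
instance instMulActionOm : MulAction F2 Om where
  smul g ω := fun p => ω (p.1, g⁻¹ * p.2)
  one_smul ω := by
    funext p
    change ω (p.1, (1 : F2)⁻¹ * p.2) = ω p
    simp
  mul_smul g h ω := by
    funext p
    change ω (p.1, (g * h)⁻¹ * p.2) = ω (p.1, h⁻¹ * (g⁻¹ * p.2))
    simp [mul_assoc]

/-- product of fair coins on `Om` -/
noncomputable def coinOm : Measure Om := Measure.infinitePi (fun _ : ℕ × F2 => coin)

/-- the bit number `n` at the vertex `g` -/
def bit (ω : Om) (n : ℕ) (g : F2) : Bool := ω (n, g⁻¹)

/-- parity of the bits number `n` over a finite set of vertices -/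
def par (ω : Om) (n : ℕ) (D : Finset F2) : ZMod 2 :=
  ∑ g ∈ D, (if bit ω n g = true then 1 else 0 : ZMod 2)

/-- the status: all parities number `o, ..., o + j - 1` of the piece are `1` -/
def Zst {X : Type*} [MulAction F2 X] [MeasurableSpace X] (P : Pieces X) (o j : ℕ)
    (y : X × Om) : Prop :=
  ∀ t < j, par y.2 (o + t) (P.P y.1) = 1

/-- the scrambled configuration: on `Zst` for the A role (bits `0..j-1`) swap labels `0, 3`, on
`Zst` for the B role (bits `j..2j-1`) swap labels `1, 2` -/
noncomputable def scr {X : Type*} [MulAction F2 X] [MeasurableSpace X] (π : X → Bj)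
    (P : Bool → Pieces X) (j : ℕ) (y : X × Om) : Bj :=
  open Classical in
  ((π y.1).trans (if Zst (P false) 0 j y then Equiv.swap 0 3 else Equiv.refl _)).trans
    (if Zst (P true) j j y then Equiv.swap 1 2 else Equiv.refl _)

end Pool.Agent.W_MP_ae868b_lc
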