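import Pool.Agent.W_MP_ae868b_lc.Coin

/-!
# The spectral gap of the Bernoulli shift (task G)

PROOF. For a finite set `A : Finset (ℕ × F2)` let `χ_A ω = ∏ p ∈ A, (if ω p then -1 else 1)`.
(1) `∫ χ_A χ_B = if A = B then 1 else 0` (the product is `χ` of the symmetric difference; a nonempty
product of independent centred signs has mean `0`).
(2) Completeness in `Lp ℝ 2 coinOm`: if `f ∈ L²` is orthogonal to all `χ_A` then the two finite
measures with densities `f⁺, f⁻` agree on all cylinders over finite sets of coordinates (the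
indicator of a cylinder over a finite set `I` is a linear combination of `χ_A`, `A ⊆ I`), a
π-system generating the σ-algebra, so `f = 0` a.e. Hence (`HilbertBasis.mkOfOrthogonalEqBot`)
Parseval: `∫ f² = ∑_A (∫ f χ_A)²` for bounded measurable `f`.
(3) `χ_A (g • ω) = χ_{g⁻¹ A} ω` where `g A = {(n, g h) | (n, h) ∈ A}`. So for
`F ω = ∑ s, f (gen s • ω)`: `∫ F χ_A = ∑ s, ∫ f(ω) χ_A ((gen s)⁻¹ • ω) = ∑ s, v (gen s • A)`, `v A = ∫ f χ_A`.
(4) `v ∅ = ∫ f = 0`. Let `φ A = ∑ (n, h) ∈ A, 2^{-|h|}`, `|h| = h.toWord.length`; `φ A > 0` for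
`A ≠ ∅`. For every `h`: `∑ s, 2^{-|gen s * h|} ≤ (7/2) 2^{-|h|}` (for `h = 1` the sum is `2`; for
`h ≠ 1` exactly one letter shortens: `2 + 3/2 = 7/2`), hence `∑ s, φ (gen s A) ≤ (7/2) φ A`.
(5) Schur test: for nonempty `A`,
`(∑ s, v (gen s A))² ≤ (∑ s, φ (gen s A)) (∑ s, v (gen s A)²/φ (gen s A)) ≤ (7/2) φ A ∑ s, v(gen s A)²/φ(gen s A)`;
sum over nonempty `A` and substitute `B = gen s A`:
`∑_A (∑ s v (gen s A))² ≤ (7/2) ∑_B v B ²/φ B ∑ s φ (gen s⁻¹ B) ≤ (7/2)² ∑_B v B²`.
With Parseval for `F` and `f` this is the claim.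
-/

open MeasureTheory

namespace Pool.Agent.W_MP_ae868b_lc

/-- the weights: exactly one letter shortens a nontrivial reduced word -/
theorem sum_weight_le (h : F2) :
    ∑ s : S, (1 / 2 : ℝ) ^ (gen s * h).toWord.length ≤ 7 / 2 * (1 / 2 : ℝ) ^ h.toWord.length := by
  have key : ∀ s : S, (gen s * h).toWord = FreeGroup.reduce (s :: h.toWord) := by
    intro s
    have h1 : gen s * h = FreeGroup.mk (s :: h.toWord) := by
      conv_lhs => rw [← FreeGroup.mk_toWord (x := h)]
      simp [gen, FreeGroup.mul_mk]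
    rw [h1, FreeGroup.toWord_mk]
  simp only [key, FreeGroup.reduce.cons, FreeGroup.reduce_toWord]
  rcases hw : h.toWord with _ | ⟨hd, tl⟩
  · simp
    norm_num
  · obtain ⟨i, b⟩ := hd
    simp only [List.length_cons]
    have hpos : (0 : ℝ) < (1 / 2 : ℝ) ^ tl.length := by positivity
    rw [Fintype.sum_prod_type, Fin.sum_univ_two]
    simp only [Fintype.sum_bool]
    fin_cases i <;> cases b <;> simp [pow_succ] <;> linarith

namespace GapAux

section Walsh

variable {ι : Type}

/-- the product measure -/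
noncomputable abbrev cm (ι : Type) : Measure (ι → Bool) := Measure.infinitePi (fun _ : ι => coin)

/-- sign of a bit -/
def sg (b : Bool) : ℝ := if b then -1 else 1

theorem sg_mul_self (b : Bool) : sg b * sg b = 1 := by
  cases b <;> simp [sg]

theorem sg_not (b : Bool) : sg (!b) = - sg b := by
  cases b <;> simp [sg]

theorem abs_sg (b : Bool) : |sg b| = 1 := by
  cases b <;> simp [sg]

/-- Walsh characters -/
noncomputable def chi (A : Finset ι) (ω : ι → Bool) : ℝ := ∏ p ∈ A, sg (ω p)

theorem measurable_chi (A : Finset ι) : Measurable (chi A) := by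
  unfold chi
  refine Finset.measurable_prod _ fun p _ => ?_
  exact (measurable_of_countable sg).comp (measurable_pi_apply p)

theorem abs_chi (A : Finset ι) (ω : ι → Bool) : |chi A ω| = 1 := by
  unfold chi
  rw [Finset.abs_prod]
  exact Finset.prod_eq_one fun p _ => abs_sg _

theorem chi_mul [DecidableEq ι] (A B : Finset ι) (ω : ι → Bool) :
    chi A ω * chi B ω = chi (symmDiff A B) ω := by
  have hA : A = (A \ B) ∪ (A ∩ B) := by ext x; simp; tauto
  have hB : B = (B \ A) ∪ (A ∩ B) := by ext x; simp; tauto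
  have h1 : chi A ω = chi (A \ B) ω * chi (A ∩ B) ω := by
    unfold chi
    rw [← Finset.prod_union]
    · rw [← hA]
    · rw [Finset.disjoint_left]; intro x hx hx'
      simp at hx hx'; tauto
  have h2 : chi B ω = chi (B \ A) ω * chi (A ∩ B) ω := by
    unfold chi
    rw [← Finset.prod_union]
    · rw [← hB]
    · rw [Finset.disjoint_left]; intro x hx hx'
      simp at hx hx'; tauto
  have h3 : chi (symmDiff A B) ω = chi (A \ B) ω * chi (B \ A) ω := by
    unfold chi
    rw [← Finset.prod_union]
    · rfl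
    · rw [Finset.disjoint_left]; intro x hx hx'
      simp at hx hx'; tauto
  have h4 : chi (A ∩ B) ω * chi (A ∩ B) ω = 1 := by
    unfold chi
    rw [← Finset.prod_mul_distrib]
    exact Finset.prod_eq_one fun p _ => sg_mul_self _
  rw [h1, h2, h3]
  linear_combination (chi (A \ B) ω * chi (B \ A) ω) * h4

theorem chi_self (A : Finset ι) (ω : ι → Bool) : chi A ω * chi A ω = 1 := by
  unfold chi
  rw [← Finset.prod_mul_distrib]
  exact Finset.prod_eq_one fun p _ => sg_mul_self _

theorem coin_map_not : coin.map not = coin := by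
  refine Measure.ext_of_singleton fun b => ?_
  rw [Measure.map_apply (measurable_of_countable _) (measurableSet_singleton _)]
  have : not ⁻¹' {b} = {!b} := by
    ext x; cases x <;> cases b <;> simp
  rw [this, coin_singleton, coin_singleton]

/-- flip one coordinate -/
noncomputable def flip1 (p : ι) (ω : ι → Bool) : ι → Bool :=
  open Classical in fun i => (if i = p then not else id) (ω i)

theorem measurable_flip1 (p : ι) : Measurable (flip1 p) := by
  classical
  unfold flip1
  refine measurable_pi_lambda _ fun i => ?_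
  exact (measurable_of_countable _).comp (measurable_pi_apply i)

theorem map_flip1 (p : ι) : (cm ι).map (flip1 p) = cm ι := by
  classical
  have h := Measure.infinitePi_map_pi (μ := fun _ : ι => coin) (Y := fun _ : ι => Bool)
    (f := fun i => if i = p then not else id) (fun i => measurable_of_countable _)
  have h2 : (fun i : ι => coin.map (if i = p then not else id)) = fun _ : ι => coin := by
    funext i
    by_cases hi : i = p
    · simp [hi, coin_map_not]
    · simp [hi]
  have h3 : (flip1 p : (ι → Bool) → (ι → Bool)) = fun x i => (if i = p then not else id) (x i) := by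
    funext ω i
    unfold flip1
    congr
  rw [h3, h, h2]

theorem chi_flip1 {A : Finset ι} {p : ι} (hp : p ∈ A) (ω : ι → Bool) :
    chi A (flip1 p ω) = - chi A ω := by
  classical
  unfold chi
  rw [← Finset.mul_prod_erase _ _ hp, ← Finset.mul_prod_erase A (fun i => sg (ω i)) hp]
  have h1 : sg (flip1 p ω p) = - sg (ω p) := by
    simp [flip1, sg_not]
  have h2 : ∏ x ∈ A.erase p, sg (flip1 p ω x) = ∏ x ∈ A.erase p, sg (ω x) := by
    refine Finset.prod_congr rfl fun x hx => ?_
    have : x ≠ p := (Finset.mem_erase.mp hx).1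
    simp [flip1, this]
  rw [h1, h2]; ring

theorem integral_chi {A : Finset ι} (hA : A.Nonempty) : ∫ ω, chi A ω ∂(cm ι) = 0 := by
  obtain ⟨p, hp⟩ := hA
  have h1 : ∫ ω, chi A ω ∂(cm ι) = ∫ ω, chi A (flip1 p ω) ∂(cm ι) := by
    conv_lhs => rw [← map_flip1 p]
    rw [integral_map (measurable_flip1 p).aemeasurable]
    exact (measurable_chi A).aestronglyMeasurable
  simp only [chi_flip1 hp] at h1
  rw [integral_neg] at h1
  linarith

theorem chi_empty (ω : ι → Bool) : chi (∅ : Finset ι) ω = 1 := by simp [chi]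

theorem integral_chi_mul (A B : Finset ι) :
    ∫ ω, chi A ω * chi B ω ∂(cm ι) = open Classical in if A = B then 1 else 0 := by
  classical
  by_cases h : A = B
  · subst h
    simp [chi_self]
  · simp only [chi_mul]
    rw [integral_chi]
    · simp [h]
    · rw [Finset.nonempty_iff_ne_empty]
      intro h0
      exact h (symmDiff_eq_bot.mp h0)

theorem memLp_of_bdd {f : (ι → Bool) → ℝ} (hf : Measurable f) {C : ℝ} (hC : ∀ x, |f x| ≤ C) :
    MemLp f 2 (cm ι) :=
  MemLp.of_bound hf.aestronglyMeasurable C (Filter.Eventually.of_forall fun x => by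
    simpa [Real.norm_eq_abs] using hC x)

theorem memLp_chi (A : Finset ι) : MemLp (chi A) 2 (cm ι) :=
  memLp_of_bdd (measurable_chi A) (C := 1) fun x => (abs_chi A x).le

/-- the characters in L2 -/
noncomputable def eL (A : Finset ι) : Lp ℝ 2 (cm ι) := (memLp_chi A).toLp (chi A)

theorem inner_toLp_toLp {f g : (ι → Bool) → ℝ} (hf : MemLp f 2 (cm ι)) (hg : MemLp g 2 (cm ι)) :
    inner ℝ (hf.toLp f) (hg.toLp g) = ∫ x, g x * f x ∂(cm ι) := by
  rw [L2.inner_def]
  refine integral_congr_ae ?_
  filter_upwards [hf.coeFn_toLp, hg.coeFn_toLp] with x h1 h2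
  rw [h1, h2]
  simp

theorem inner_eL (A : Finset ι) (g : Lp ℝ 2 (cm ι)) :
    inner ℝ (eL A) g = ∫ x, g x * chi A x ∂(cm ι) := by
  rw [L2.inner_def]
  refine integral_congr_ae ?_
  filter_upwards [(memLp_chi A).coeFn_toLp] with x h1
  unfold eL
  rw [h1]
  simp

theorem orthonormal_eL : Orthonormal ℝ (eL : Finset ι → Lp ℝ 2 (cm ι)) := by
  classical
  rw [orthonormal_iff_ite]
  intro A B
  rw [eL, eL, inner_toLp_toLp]
  rw [integral_chi_mul]
  by_cases h : A = B
  · simp [h]
  · simp [h, Ne.symm h]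

/-- indicators of boxes are combinations of characters -/
theorem indicator_pi [DecidableEq ι] (s : Finset ι) (t : ι → Set Bool) :
    ∃ c : Finset ι → ℝ, ∀ ω : ι → Bool,
      ((s : Set ι).pi t).indicator (fun _ => (1 : ℝ)) ω = ∑ A ∈ s.powerset, c A * chi A ω := by
  classical
  let u : ι → Bool → ℝ := fun i b => (t i).indicator (fun _ => (1 : ℝ)) b
  let a : ι → ℝ := fun i => (u i false + u i true) / 2
  let b : ι → ℝ := fun i => (u i false - u i true) / 2
  refine ⟨fun A => (∏ i ∈ A, b i) * ∏ i ∈ s \ A, a i, fun ω => ?_⟩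
  have h1 : ∀ i, u i (ω i) = b i * sg (ω i) + a i := by
    intro i
    simp only [a, b]
    cases ω i <;> simp [sg] <;> ring
  have h2 : ((s : Set ι).pi t).indicator (fun _ => (1 : ℝ)) ω = ∏ i ∈ s, u i (ω i) := by
    by_cases h : ω ∈ (s : Set ι).pi t
    · rw [Set.indicator_of_mem h]
      symm
      refine Finset.prod_eq_one fun i hi => ?_
      simp only [u]
      rw [Set.indicator_of_mem (h i hi)]
    · rw [Set.indicator_of_notMem h]
      symm
      simp only [Set.mem_pi, not_forall] at h
      obtain ⟨i, hi, hni⟩ := h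
      refine Finset.prod_eq_zero hi ?_
      simp only [u]
      rw [Set.indicator_of_notMem hni]
  rw [h2]
  simp only [h1]
  rw [Finset.prod_add]
  refine Finset.sum_congr rfl fun A _ => ?_
  unfold chi
  rw [Finset.prod_mul_distrib]
  ring

theorem eq_zero_of_orth (g : Lp ℝ 2 (cm ι)) (hg : ∀ A, inner ℝ (eL A) g = 0) : g = 0 := by
  classical
  have hgi : Integrable g (cm ι) := (Lp.memLp g).integrable (by norm_num)
  have hchi : ∀ A : Finset ι, Integrable (fun x => g x * chi A x) (cm ι) := by
    intro A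
    refine hgi.mul_bdd (c := 1) (measurable_chi A).aestronglyMeasurable ?_
    exact Filter.Eventually.of_forall fun x => by
      rw [Real.norm_eq_abs]; exact (abs_chi A x).le
  have h0 : ∀ A : Finset ι, ∫ x, g x * chi A x ∂(cm ι) = 0 := fun A => by
    rw [← inner_eL]; exact hg A
  have hall : ∀ S : Set (ι → Bool), MeasurableSet S → ∫ x in S, g x ∂(cm ι) = 0 := by
    intro S hS
    refine MeasurableSpace.induction_on_inter
      (C := fun S _ => ∫ x in S, g x ∂(cm ι) = 0)
      (generateFrom_squareCylinders (α := fun _ : ι => Bool)).symm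
      (isPiSystem_squareCylinders (fun _ => MeasurableSpace.isPiSystem_measurableSet)
        (fun _ => by simp)) ?_ ?_ ?_ ?_ S hS
    · simp
    · rintro _ ⟨s, t, ht, rfl⟩
      have hms : MeasurableSet ((s : Set ι).pi t) :=
        MeasurableSet.pi s.countable_toSet fun i _ => ht i (Set.mem_univ i)
      obtain ⟨c, hc⟩ := indicator_pi s t
      rw [← integral_indicator hms]
      have h1 : ∀ x, ((s : Set ι).pi t).indicator (fun x => g x) x
          = ∑ A ∈ s.powerset, c A * (g x * chi A x) := by
        intro x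
        have h2 : ((s : Set ι).pi t).indicator (fun x => g x) x
            = g x * ((s : Set ι).pi t).indicator (fun _ => (1 : ℝ)) x := by
          by_cases h : x ∈ (s : Set ι).pi t
          · simp [Set.indicator_of_mem h]
          · simp [Set.indicator_of_notMem h]
        rw [h2, hc, Finset.mul_sum]
        refine Finset.sum_congr rfl fun A _ => ?_
        ring
      simp only [h1]
      rw [integral_finsetSum]
      · refine Finset.sum_eq_zero fun A _ => ?_
        rw [integral_const_mul, h0, mul_zero]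
      · intro A _
        exact (hchi A).const_mul _
    · intro T hT h
      have h1 := integral_add_compl hT hgi
      have h2 : ∫ x, g x ∂(cm ι) = 0 := by
        have := h0 ∅
        simpa [chi_empty] using this
      linarith
    · intro f hd hm h
      rw [integral_iUnion hm hd hgi.integrableOn]
      simp [h]
  have h3 := Lp.ae_eq_zero_of_forall_setIntegral_eq_zero g (by norm_num) (by norm_num)
    (fun S _ _ => hgi.integrableOn) (fun S hS _ => hall S hS)
  exact (Lp.eq_zero_iff_ae_eq_zero).mpr h3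

/-- Parseval -/
theorem parseval {f : (ι → Bool) → ℝ} (hf : Measurable f) {C : ℝ} (hC : ∀ x, |f x| ≤ C) :
    HasSum (fun A : Finset ι => (∫ x, f x * chi A x ∂(cm ι)) ^ 2) (∫ x, f x ^ 2 ∂(cm ι)) := by
  have hL := memLp_of_bdd hf hC
  let b := HilbertBasis.mkOfOrthogonalEqBot (orthonormal_eL (ι := ι)) (by
    rw [Submodule.eq_bot_iff]
    intro g hg
    refine eq_zero_of_orth g fun A => ?_
    exact (Submodule.mem_orthogonal _ g).mp hg (eL A) (Submodule.subset_span ⟨A, rfl⟩))
  have h := b.hasSum_inner_mul_inner (hL.toLp f) (hL.toLp f)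
  have hb : ∀ A, b A = eL A := fun A => by
    simp [b]
  simp only [hb] at h
  convert! h using 1
  · funext A
    rw [real_inner_comm (eL A) (hL.toLp f), eL, inner_toLp_toLp]
    ring
  · rw [inner_toLp_toLp]
    refine integral_congr_ae (Filter.Eventually.of_forall fun x => ?_)
    simp only; ring

end Walsh

section Shift

theorem gen_sinv' (s : S) : gen (sinv s) = (gen s)⁻¹ := by
  simp [gen, sinv, FreeGroup.inv_mk, FreeGroup.invRev]

theorem sinv_sinv' (s : S) : sinv (sinv s) = s := by
  simp [sinv]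

/-- `sinv` as a permutation -/
def sinvE : S ≃ S := ⟨sinv, sinv, sinv_sinv', sinv_sinv'⟩

/-- left translation of the index set -/
def tre (g : F2) : (ℕ × F2) ≃ (ℕ × F2) := Equiv.prodCongr (Equiv.refl ℕ) (Equiv.mulLeft g)

/-- left translation of finite sets of indices -/
def EE (g : F2) : Finset (ℕ × F2) ≃ Finset (ℕ × F2) := (tre g).finsetCongr

theorem EE_apply (g : F2) (A : Finset (ℕ × F2)) : EE g A = A.map (tre g).toEmbedding := rfl

theorem EE_symm (g : F2) (A : Finset (ℕ × F2)) : (EE g).symm A = EE g⁻¹ A := by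
  ext ⟨n, h⟩
  simp [EE, tre]

theorem chi_EE (g : F2) (A : Finset (ℕ × F2)) (ω : Om) :
    chi (EE g A) ω = chi A (g⁻¹ • ω : Om) := by
  unfold chi
  rw [EE_apply, Finset.prod_map]
  refine Finset.prod_congr rfl fun p _ => ?_
  congr 1
  change ω (tre g p) = ω (p.1, g⁻¹⁻¹ * p.2)
  rw [inv_inv]
  rfl

/-- the weight -/
noncomputable def ph (A : Finset (ℕ × F2)) : ℝ := ∑ p ∈ A, (1 / 2 : ℝ) ^ p.2.toWord.length

theorem ph_nonneg (A : Finset (ℕ × F2)) : 0 ≤ ph A :=
  Finset.sum_nonneg fun _ _ => by positivity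

theorem ph_pos {A : Finset (ℕ × F2)} (hA : A.Nonempty) : 0 < ph A :=
  Finset.sum_pos (fun _ _ => by positivity) hA

theorem ph_sum (A : Finset (ℕ × F2)) : ∑ s : S, ph (EE (gen s) A) ≤ 7 / 2 * ph A := by
  have h1 : ∀ s : S, ph (EE (gen s) A) = ∑ p ∈ A, (1 / 2 : ℝ) ^ (gen s * p.2).toWord.length := by
    intro s
    unfold ph
    rw [EE_apply, Finset.sum_map]
    rfl
  simp only [h1]
  rw [Finset.sum_comm]
  unfold ph
  rw [Finset.mul_sum]
  exact Finset.sum_le_sum fun p _ => sum_weight_le p.2

theorem ph_sum_inv (A : Finset (ℕ × F2)) : ∑ s : S, ph (EE (gen s)⁻¹ A) ≤ 7 / 2 * ph A := by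
  refine le_trans (le_of_eq ?_) (ph_sum A)
  have := Equiv.sum_comp sinvE (fun s => ph (EE (gen s) A))
  rw [← this]
  refine Finset.sum_congr rfl fun s _ => ?_
  change _ = ph (EE (gen (sinv s)) A)
  rw [gen_sinv']

end Shift

end GapAux

open GapAux in
theorem gap_coinOm : Gap coinOm := by
  intro f hf ⟨C, hC⟩ hf0
  classical
  have hms : ∀ g : F2, Measurable fun ω : Om => g • ω := fun g => (isPMP_coinOm.mp g).measurable
  -- Fourier coefficients
  set v : Finset (ℕ × F2) → ℝ := fun A => ∫ x, f x * chi A x ∂coinOm with hv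
  have hFm : Measurable fun ω : Om => ∑ s : S, f (gen s • ω) :=
    Finset.measurable_sum _ fun s _ => hf.comp (hms _)
  have hFb : ∀ ω : Om, |∑ s : S, f (gen s • ω)| ≤ ∑ _s : S, C := fun ω =>
    (Finset.abs_sum_le_sum_abs _ _).trans (Finset.sum_le_sum fun s _ => hC _)
  have hP1 : HasSum (fun A => v A ^ 2) (∫ x, f x ^ 2 ∂coinOm) := parseval hf hC
  have hP2 : HasSum (fun A : Finset (ℕ × F2) => (∫ x : Om, (∑ s : S, f (gen s • x)) * chi A x ∂coinOm) ^ 2)
      (∫ x : Om, (∑ s : S, f (gen s • x)) ^ 2 ∂coinOm) := parseval hFm hFb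
  have hint : ∀ (h : Om → ℝ), Measurable h → (∀ x, |h x| ≤ C) → Integrable h coinOm := by
    intro h hm hb
    refine Integrable.of_bound hm.aestronglyMeasurable C (Filter.Eventually.of_forall fun x => ?_)
    rw [Real.norm_eq_abs]; exact hb x
  have hcoef : ∀ A : Finset (ℕ × F2), ∫ x : Om, (∑ s : S, f (gen s • x)) * chi A x ∂coinOm
      = ∑ s : S, v (EE (gen s) A) := by
    intro A
    simp only [Finset.sum_mul]
    rw [integral_finsetSum]
    · refine Finset.sum_congr rfl fun s _ => ?_
      simp only [hv, chi_EE]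
      have h1 := (isPMP_coinOm.mp (gen s)).map_eq
      conv_rhs => rw [← h1]
      rw [integral_map (hms _).aemeasurable]
      · refine integral_congr_ae (Filter.Eventually.of_forall fun x => ?_)
        simp
      · exact (hf.mul ((measurable_chi A).comp (hms _))).aestronglyMeasurable
    · intro s _
      refine hint _ ((hf.comp (hms _)).mul (measurable_chi A)) fun x => ?_
      calc |f (gen s • x) * chi A x| = |f (gen s • x)| * |chi A x| := abs_mul _ _
        _ = |f (gen s • x)| * 1 := congrArg _ (abs_chi A x)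
        _ ≤ C := by rw [mul_one]; exact hC _
  simp only [hcoef] at hP2
  have hv0 : v ∅ = 0 := by
    have h1 : ∀ x : Om, f x * chi ∅ x = f x := fun x => by
      calc f x * chi ∅ x = f x * 1 := congrArg _ (chi_empty x)
        _ = f x := mul_one _
    simp only [hv]
    rw [← hf0]
    exact integral_congr_ae (Filter.Eventually.of_forall h1)
  set w : Finset (ℕ × F2) → ℝ := fun B => v B ^ 2 / ph B with hw
  have hw0 : ∀ B, 0 ≤ w B := fun B => div_nonneg (sq_nonneg _) (ph_nonneg _)
  have hvw : ∀ B, v B ^ 2 = ph B * w B := by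
    intro B
    rcases B.eq_empty_or_nonempty with h | h
    · subst h
      simp [hw, hv0]
    · have := ph_pos h
      simp only [hw]
      field_simp
  have hstep : ∀ A, (∑ s : S, v (EE (gen s) A)) ^ 2
      ≤ ∑ s : S, 7 / 2 * (ph A * w (EE (gen s) A)) := by
    intro A
    have h1 := Finset.sum_sq_le_sum_mul_sum_of_sq_le_mul Finset.univ
      (r := fun s : S => v (EE (gen s) A)) (f := fun s => ph (EE (gen s) A))
      (g := fun s => w (EE (gen s) A)) (fun s _ => ph_nonneg _) (fun s _ => hw0 _)
      (fun s _ => (hvw _).le)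
    refine h1.trans ?_
    rw [← Finset.mul_sum, ← Finset.mul_sum, ← mul_assoc]
    exact mul_le_mul_of_nonneg_right (ph_sum A) (Finset.sum_nonneg fun s _ => hw0 _)
  have hle : ∀ (s : S) (B : Finset (ℕ × F2)), ph (EE (gen s)⁻¹ B) * w B ≤ 7 / 2 * v B ^ 2 := by
    intro s B
    rw [hvw, ← mul_assoc]
    refine mul_le_mul_of_nonneg_right ?_ (hw0 _)
    refine le_trans ?_ (ph_sum_inv B)
    exact Finset.single_le_sum (f := fun s : S => ph (EE (gen s)⁻¹ B)) (fun s _ => ph_nonneg _)
      (Finset.mem_univ s)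
  have hS2 : ∀ s : S, Summable fun B => ph (EE (gen s)⁻¹ B) * w B := fun s =>
    Summable.of_nonneg_of_le (fun B => mul_nonneg (ph_nonneg _) (hw0 _)) (hle s)
      (hP1.summable.mul_left _)
  have hre : ∀ s : S, (fun A => ph A * w (EE (gen s) A))
      = (fun B => ph (EE (gen s)⁻¹ B) * w B) ∘ (EE (gen s)) := by
    intro s
    funext A
    simp only [Function.comp_apply]
    congr 2
    rw [← EE_symm, Equiv.symm_apply_apply]
  have hS3 : ∀ s : S, Summable fun A => ph A * w (EE (gen s) A) := by
    intro s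
    rw [hre s]
    exact (Equiv.summable_iff (EE (gen s))).mpr (hS2 s)
  have hT3 : ∀ s : S, ∑' A, ph A * w (EE (gen s) A) = ∑' B, ph (EE (gen s)⁻¹ B) * w B := by
    intro s
    rw [← Equiv.tsum_eq (EE (gen s)) (fun B => ph (EE (gen s)⁻¹ B) * w B)]
    refine tsum_congr fun A => ?_
    exact congrFun (hre s) A
  calc ∫ x : Om, (∑ s : S, f (gen s • x)) ^ 2 ∂coinOm
      = ∑' A, (∑ s : S, v (EE (gen s) A)) ^ 2 := hP2.tsum_eq.symm
    _ ≤ ∑' A, ∑ s : S, 7 / 2 * (ph A * w (EE (gen s) A)) :=
        hP2.summable.tsum_le_tsum hstep (summable_sum fun s _ => (hS3 s).mul_left _)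
    _ = ∑ s : S, 7 / 2 * ∑' A, ph A * w (EE (gen s) A) := by
        rw [Summable.tsum_finsetSum (fun s _ => (hS3 s).mul_left _)]
        refine Finset.sum_congr rfl fun s _ => ?_
        rw [tsum_mul_left]
    _ = 7 / 2 * ∑ s : S, ∑' B, ph (EE (gen s)⁻¹ B) * w B := by
        rw [Finset.mul_sum]
        refine Finset.sum_congr rfl fun s _ => ?_
        rw [hT3]
    _ = 7 / 2 * ∑' B, ∑ s : S, ph (EE (gen s)⁻¹ B) * w B := by
        rw [Summable.tsum_finsetSum (fun s _ => hS2 s)]
    _ ≤ 7 / 2 * ∑' B, 7 / 2 * v B ^ 2 := by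
        refine mul_le_mul_of_nonneg_left ?_ (by norm_num)
        refine (summable_sum fun s _ => hS2 s).tsum_le_tsum (fun B => ?_) (hP1.summable.mul_left _)
        rw [← Finset.sum_mul, hvw, ← mul_assoc]
        exact mul_le_mul_of_nonneg_right (ph_sum_inv B) (hw0 _)
    _ = (7 / 2 : ℝ) ^ 2 * ∫ x, f x ^ 2 ∂coinOm := by
        rw [tsum_mul_left, hP1.tsum_eq]
        ring

end Pool.Agent.W_MP_ae868b_lc
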