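import Mathlib

/-!
# The abstract hitting estimate (task M3; pure Hilbert space computation)

PROOF. Write `κ = 1/10000`, `m k = ⟪d, T^k e⟫ = ⟪R^k d, e⟫`. Note `m k ≤ η ≤ 1`, `K > 0`.
Let `G = (1/K) ∑_{j<K} R^j d`, `F = (1/K) ∑_{j<K} R^j G`. Then `G - R G = (1/K)(d - R^K d)` has norm
`≤ 2√η/K`. Let `m1 = ⟪G, e⟫ ∈ [0, η]` (average of `m j`), `g1 = G - m1 e ⟂ e`. Then
`g1 - R g1 = (G - R G) - m1 (e - R e)`, so by `hres`
`κ q ‖g1‖ ≤ 2√η/K + η√ρ`. Also `‖G‖ ≤ m1 + ‖g1‖ ≤ η + ‖g1‖`.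
`F - R F = (1/K)(G - R^K G)` has norm `≤ (2/K)‖G‖`. Let `mF = ⟪F, e⟫` = average of `m (i + j)`,
`i, j < K`, so `η/2 ≤ m (2K) ≤ mF ≤ η`; `g = F - mF e`. Then
`κ q ‖g‖ ≤ (2/K)(η + ‖g1‖) + η√ρ`.
With `√ρ ≤ √12 √η ≤ 3.5 √η` we get `‖g‖ ≤ (a) + (b) + (c) + (d)`,
(a) `2η/(Kκq)`, (b) `4√η/(K²κ²q²)`, (c) `7 η^{3/2}/(Kκ²q²)`, (d) `3.5 η^{3/2}/(κq)`,
and each is `≤ (η/32)√(Kη)`:
(a) iff `64 ≤ κ q K^{3/2} √η`, (b) iff `128 ≤ K^{5/2}κ²q²η`, (c) iff `224 ≤ K^{3/2}κ²q²`,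
(d) iff `112 ≤ κ q √K`. Put `s = √K ≥ 112/(κ q)` : (d) holds; `s³κ²q² ≥ 112³/(κ q) ≥ 224`;
`s⁵κ²q²η ≥ 112⁵ η/(κ³q³) ≥ 128` as `η ≥ q³`; `κ q s³ √η ≥ 112³ √η/(κ² q²) ≥ 64` as
`√η ≥ q²` (`η ≥ η^{4/3}`: from `η ≤ 1`, `q³ ≤ η`: `q^4 ≤ q^3 ≤ η` since `q ≤ 1`).
So `‖g‖ ≤ (η/8)√(Kη)`.
With `Φ = ⟪φ, e⟫ ≥ Kη/4`, `‖φ‖ ≤ √Φ`, `√(Kη) ≤ 2√Φ`:
`⟪F, φ⟫ = mF Φ + ⟪g, φ⟫ ≥ (η/2)Φ - (η/8)·2√Φ·√Φ = (η/4)Φ ≥ Kη²/16`.
On the other hand `⟪R^i R^j d, φ⟫ = ⟪d, T^{i+j} e⟫ - ⟪d, T^{i+j+K} e⟫ = m (i+j) - m (i+j+K) ≤ η - m (3K)`,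
so `⟪F, φ⟫ ≤ η - m (3K)`.
-/

namespace Pool.Agent.W_MP_ae868b_lc

section aux

variable {H : Type*} [SeminormedAddCommGroup H] [InnerProductSpace ℝ H]

/-- Cesaro averages -/
noncomputable def hitAvg (R : H →ₗ[ℝ] H) (K : ℕ) (x : H) : H :=
  (K : ℝ)⁻¹ • ∑ j ∈ Finset.range K, (R ^ j) x

theorem hit_pow_norm (R : H →ₗ[ℝ] H) (hR : ∀ f, ‖R f‖ ≤ ‖f‖) (j : ℕ) (x : H) :
    ‖(R ^ j) x‖ ≤ ‖x‖ := by
  induction j with
  | zero => simp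
  | succ j ih =>
    rw [pow_succ']
    exact (hR _).trans ih

theorem hit_avg_sub (R : H →ₗ[ℝ] H) (K : ℕ) (x : H) :
    hitAvg R K x - R (hitAvg R K x) = (K : ℝ)⁻¹ • (x - (R ^ K) x) := by
  unfold hitAvg
  rw [map_smul, ← smul_sub, map_sum]
  congr 1
  have h : ∀ j, R ((R ^ j) x) = (R ^ (j + 1)) x := by
    intro j; rw [pow_succ']; rfl
  simp only [h]
  rw [← Finset.sum_sub_distrib, Finset.sum_range_sub' (fun j => (R ^ j) x)]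
  simp

theorem hit_avg_sub_norm (R : H →ₗ[ℝ] H) (hR : ∀ f, ‖R f‖ ≤ ‖f‖) (K : ℕ) (x : H) :
    ‖hitAvg R K x - R (hitAvg R K x)‖ ≤ (K : ℝ)⁻¹ * (2 * ‖x‖) := by
  rw [hit_avg_sub, norm_smul, Real.norm_eq_abs, abs_of_nonneg (by positivity)]
  refine mul_le_mul_of_nonneg_left ?_ (by positivity)
  have h1 := norm_sub_le x ((R ^ K) x)
  have h2 := hit_pow_norm R hR K x
  linarith

theorem hit_adj (T R : H →ₗ[ℝ] H) (hadj : ∀ f g, inner ℝ (R f) g = inner ℝ f (T g)) (j : ℕ) :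
    ∀ f g, inner ℝ ((R ^ j) f) g = inner ℝ f ((T ^ j) g) := by
  induction j with
  | zero => intro f g; simp
  | succ j ih =>
    intro f g
    rw [pow_succ', pow_succ]
    change inner ℝ (R ((R ^ j) f)) g = inner ℝ f ((T ^ j) (T g))
    rw [hadj, ih]

theorem hit_inner_avg (T R : H →ₗ[ℝ] H) (hadj : ∀ f g, inner ℝ (R f) g = inner ℝ f (T g))
    (K : ℕ) (x y : H) :
    inner ℝ (hitAvg R K x) y = (K : ℝ)⁻¹ * ∑ j ∈ Finset.range K, inner ℝ x ((T ^ j) y) := by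
  unfold hitAvg
  rw [real_inner_smul_left, sum_inner]
  congr 1
  exact Finset.sum_congr rfl fun j _ => hit_adj T R hadj j x y

theorem hit_avg_le (K : ℕ) (hK : 0 < K) (f : ℕ → ℝ) (a : ℝ) (h : ∀ j, j < K → f j ≤ a) :
    (K : ℝ)⁻¹ * ∑ j ∈ Finset.range K, f j ≤ a := by
  have hK' : (0 : ℝ) < K := by exact_mod_cast hK
  have h1 : ∑ j ∈ Finset.range K, f j ≤ ∑ _j ∈ Finset.range K, a :=
    Finset.sum_le_sum fun j hj => h j (Finset.mem_range.mp hj)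
  rw [Finset.sum_const, Finset.card_range, nsmul_eq_mul] at h1
  calc (K : ℝ)⁻¹ * ∑ j ∈ Finset.range K, f j ≤ (K : ℝ)⁻¹ * (K * a) :=
        mul_le_mul_of_nonneg_left h1 (by positivity)
    _ = a := by field_simp

theorem hit_le_avg (K : ℕ) (hK : 0 < K) (f : ℕ → ℝ) (a : ℝ) (h : ∀ j, j < K → a ≤ f j) :
    a ≤ (K : ℝ)⁻¹ * ∑ j ∈ Finset.range K, f j := by
  have h1 := hit_avg_le K hK (fun j => - f j) (-a) (fun j hj => neg_le_neg (h j hj))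
  rw [Finset.sum_neg_distrib] at h1
  linarith

/-- the numerical part -/
theorem hit_numeric (q s t y1 y : ℝ) (hq0 : 0 < q) (hq1 : q ≤ 1 / 2) (ht0 : 0 < t)
    (hqη : q ^ 3 ≤ t ^ 2) (hs : 1120000 / q ≤ s)
    (h1 : 1 / 10000 * q * y1 ≤ (s ^ 2)⁻¹ * (2 * t) + t ^ 2 * (7 / 2 * t))
    (h2 : 1 / 10000 * q * y ≤ (s ^ 2)⁻¹ * (2 * (t ^ 2 + y1)) + t ^ 2 * (7 / 2 * t)) :
    y ≤ t ^ 2 / 8 * (s * t) := by
  have hsq : 1120000 ≤ s * q := by rwa [div_le_iff₀ hq0] at hs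
  have hs0 : 0 < s := by
    by_contra h
    have : s * q ≤ 0 := mul_nonpos_of_nonpos_of_nonneg (not_lt.mp h) hq0.le
    linarith
  have hs1 : 1 ≤ s := by nlinarith
  obtain ⟨A, hA⟩ : ∃ A, A = 1 / 10000 * q * s := ⟨_, rfl⟩
  have hA112 : 112 ≤ A := by rw [hA]; linarith
  have hA0 : 0 < A := by linarith
  have hp : 0 < 1 / 10000 * q := by positivity
  have hs2 : 0 < s ^ 2 := by positivity
  -- q ^ 2 ≤ t
  have hqt : q ^ 2 ≤ t := by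
    have h3 : (q ^ 2) ^ 2 ≤ t ^ 2 := by
      have : q ^ 4 ≤ q ^ 3 := pow_le_pow_of_le_one hq0.le (by linarith) (by norm_num)
      calc (q ^ 2) ^ 2 = q ^ 4 := by ring
        _ ≤ t ^ 2 := this.trans hqη
    exact (sq_le_sq₀ (by positivity) ht0.le).mp h3
  have e1 : 1 ≤ s ^ 2 * t := by
    calc (1 : ℝ) ≤ (s * q) ^ 2 := one_le_pow₀ (by linarith)
      _ = s ^ 2 * q ^ 2 := by ring
      _ ≤ s ^ 2 * t := mul_le_mul_of_nonneg_left hqt hs2.le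
  have e2 : 1 ≤ s ^ 3 * t ^ 2 := by
    calc (1 : ℝ) ≤ (s * q) ^ 3 := one_le_pow₀ (by linarith)
      _ = s ^ 3 * q ^ 3 := by ring
      _ ≤ s ^ 3 * t ^ 2 := mul_le_mul_of_nonneg_left hqη (by positivity)
  -- clear denominators
  have f1 : A * s * y1 ≤ 2 * t + 7 / 2 * t ^ 3 * s ^ 2 := by
    have := mul_le_mul_of_nonneg_left h1 hs2.le
    have e : s ^ 2 * ((s ^ 2)⁻¹ * (2 * t) + t ^ 2 * (7 / 2 * t)) =
        2 * t + 7 / 2 * t ^ 3 * s ^ 2 := by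
      field_simp
    rw [e] at this
    rw [hA]; nlinarith
  have f2 : A * s * y ≤ 2 * (t ^ 2 + y1) + 7 / 2 * t ^ 3 * s ^ 2 := by
    have := mul_le_mul_of_nonneg_left h2 hs2.le
    have e : s ^ 2 * ((s ^ 2)⁻¹ * (2 * (t ^ 2 + y1)) + t ^ 2 * (7 / 2 * t)) =
        2 * (t ^ 2 + y1) + 7 / 2 * t ^ 3 * s ^ 2 := by
      field_simp
    rw [e] at this
    rw [hA]; nlinarith
  -- bound for y1
  have hAs : 0 < A * s := by positivity
  have g0 : 0 < s ^ 2 * t ^ 3 := by positivity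
  have hy1 : 2 * y1 ≤ A * (s ^ 2 * t ^ 3) / 16 := by
    have k1 : A * s * (2 * y1) ≤ 4 * t + 7 * t ^ 3 * s ^ 2 := by linarith
    have k2 : 4 * t ≤ A * s * (A * (s ^ 2 * t ^ 3)) / 32 := by
      have : 128 ≤ A ^ 2 * (s ^ 3 * t ^ 2) := by nlinarith
      have := mul_le_mul_of_nonneg_left this ht0.le
      nlinarith
    have k3 : 7 * t ^ 3 * s ^ 2 ≤ A * s * (A * (s ^ 2 * t ^ 3)) / 32 := by
      have : 224 ≤ A ^ 2 * s := by nlinarith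
      have := mul_le_mul_of_nonneg_left this g0.le
      nlinarith
    have k4 : A * s * (2 * y1) ≤ A * s * (A * (s ^ 2 * t ^ 3) / 16) := by linarith
    exact le_of_mul_le_mul_left k4 hAs
  have k5 : 2 * t ^ 2 ≤ A * (s ^ 2 * t ^ 3) / 32 := by
    have : 64 ≤ A * (s ^ 2 * t) := by nlinarith
    have := mul_le_mul_of_nonneg_left this (sq_nonneg t)
    nlinarith
  have k6 : 7 / 2 * t ^ 3 * s ^ 2 ≤ A * (s ^ 2 * t ^ 3) / 32 := by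
    have := mul_le_mul_of_nonneg_right hA112 g0.le
    nlinarith
  have k7 : A * s * y ≤ A * s * (t ^ 2 / 8 * (s * t)) := by
    have e : A * s * (t ^ 2 / 8 * (s * t)) = A * (s ^ 2 * t ^ 3) / 8 := by ring
    rw [e]; linarith
  exact le_of_mul_le_mul_left k7 hAs

end aux

theorem hitting_bound {H : Type*} [SeminormedAddCommGroup H] [InnerProductSpace ℝ H]
    (e d φ : H) (T R : H →ₗ[ℝ] H) (he : ‖e‖ = 1)
    (hadj : ∀ f g, inner ℝ (R f) g = inner ℝ f (T g))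
    (hR : ∀ f, ‖R f‖ ≤ ‖f‖)
    (q η ρ : ℝ) (hq0 : 0 < q) (hq1 : q ≤ 1 / 2) (hη : 0 < η) (hη1 : η ≤ 1) (hρ0 : 0 ≤ ρ)
    (hρ : ρ ≤ 12 * η) (hqη : q ^ 3 ≤ η)
    (hres : ∀ g, inner ℝ g e = 0 → 1 / 10000 * q * ‖g‖ ≤ ‖g - R g‖)
    (hb : ‖e - R e‖ ^ 2 ≤ ρ)
    (hd : ‖d‖ ^ 2 = η)
    (m : ℕ → ℝ) (hm : ∀ k, m k = inner ℝ d ((T ^ k) e)) (hm0 : m 0 = η) (hanti : Antitone m)
    (hmn : ∀ k, 0 ≤ m k)
    (K : ℕ) (hK : (1120000 / q) ^ 2 ≤ K)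
    (hφ : φ = e - (T ^ K) e) (hφ2 : ‖φ‖ ^ 2 ≤ inner ℝ φ e) (hΦ : K * η / 4 ≤ inner ℝ φ e)
    (hmK : η / 2 ≤ m (2 * K)) :
    K * η ^ 2 / 16 ≤ η - m (3 * K) := by
  have hKr : (0 : ℝ) < K := by
    have : 0 < (1120000 / q) ^ 2 := by positivity
    linarith
  have hKn : 0 < K := by exact_mod_cast hKr
  obtain ⟨t, ht⟩ : ∃ t, t = Real.sqrt η := ⟨_, rfl⟩
  obtain ⟨s, hs⟩ : ∃ s, s = Real.sqrt K := ⟨_, rfl⟩
  have ht0 : 0 < t := by rw [ht]; exact Real.sqrt_pos.mpr hη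
  have ht2 : t ^ 2 = η := by rw [ht]; exact Real.sq_sqrt hη.le
  have hs0 : 0 < s := by rw [hs]; exact Real.sqrt_pos.mpr hKr
  have hs2 : s ^ 2 = K := by rw [hs]; exact Real.sq_sqrt hKr.le
  have hsq : 1120000 / q ≤ s := by
    rw [← hs2] at hK
    exact (sq_le_sq₀ (by positivity) hs0.le).mp hK
  have hdt : ‖d‖ = t := by
    have : ‖d‖ ^ 2 = t ^ 2 := by rw [hd, ht2]
    exact (sq_eq_sq₀ (norm_nonneg _) ht0.le).mp this
  have hbt : ‖e - R e‖ ≤ 7 / 2 * t := by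
    have : ‖e - R e‖ ^ 2 ≤ (7 / 2 * t) ^ 2 := by nlinarith
    exact (sq_le_sq₀ (norm_nonneg _) (by positivity)).mp this
  have hee : inner ℝ e e = (1 : ℝ) := by rw [real_inner_self_eq_norm_sq, he]; norm_num
  have hmη : ∀ k, m k ≤ η := fun k => by rw [← hm0]; exact hanti (Nat.zero_le k)
  -- the general step
  have step : ∀ (x : H) (a : ℝ), inner ℝ (hitAvg R K x) e = a → 0 ≤ a → a ≤ η →
      1 / 10000 * q * ‖hitAvg R K x - a • e‖ ≤ (K : ℝ)⁻¹ * (2 * ‖x‖) + η * (7 / 2 * t) := by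
    intro x a hxa ha0 haη
    have h1 : inner ℝ (hitAvg R K x - a • e) e = 0 := by
      rw [inner_sub_left, real_inner_smul_left, hee, hxa]; ring
    have h2 := hres _ h1
    have h3 : (hitAvg R K x - a • e) - R (hitAvg R K x - a • e) =
        (hitAvg R K x - R (hitAvg R K x)) - a • (e - R e) := by
      rw [map_sub, map_smul, smul_sub]; abel
    rw [h3] at h2
    have h4 := norm_sub_le (hitAvg R K x - R (hitAvg R K x)) (a • (e - R e))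
    have h5 := hit_avg_sub_norm R hR K x
    have h6 : ‖a • (e - R e)‖ ≤ η * (7 / 2 * t) := by
      rw [norm_smul, Real.norm_eq_abs, abs_of_nonneg ha0]
      exact mul_le_mul haη hbt (norm_nonneg _) hη.le
    linarith
  -- G
  obtain ⟨G, hG⟩ : ∃ G, G = hitAvg R K d := ⟨_, rfl⟩
  obtain ⟨m1, hm1⟩ : ∃ a : ℝ, a = inner ℝ G e := ⟨_, rfl⟩
  have hm1' : m1 = (K : ℝ)⁻¹ * ∑ j ∈ Finset.range K, m j := by
    rw [hm1, hG, hit_inner_avg T R hadj]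
    congr 1
    exact Finset.sum_congr rfl fun j _ => (hm j).symm
  have hm10 : 0 ≤ m1 := by
    rw [hm1']; exact hit_le_avg K hKn m 0 (fun j _ => hmn j)
  have hm1η : m1 ≤ η := by
    rw [hm1']; exact hit_avg_le K hKn m η (fun j _ => hmη j)
  have hg1 := step d m1 (by rw [← hG, hm1]) hm10 hm1η
  rw [← hG, hdt] at hg1
  have hGn : ‖G‖ ≤ ‖G - m1 • e‖ + η := by
    have h1 := norm_add_le (G - m1 • e) (m1 • e)
    rw [sub_add_cancel, norm_smul, he, Real.norm_eq_abs, abs_of_nonneg hm10, mul_one] at h1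
    linarith
  -- F
  obtain ⟨F, hF⟩ : ∃ F, F = hitAvg R K G := ⟨_, rfl⟩
  obtain ⟨mF, hmF⟩ : ∃ a : ℝ, a = inner ℝ F e := ⟨_, rfl⟩
  have hpow : ∀ i j : ℕ, inner ℝ d ((T ^ i) ((T ^ j) e)) = m (i + j) := by
    intro i j
    rw [hm, pow_add]; rfl
  have hGT : ∀ j, inner ℝ G ((T ^ j) e) = (K : ℝ)⁻¹ * ∑ i ∈ Finset.range K, m (i + j) := by
    intro j
    rw [hG, hit_inner_avg T R hadj]
    congr 1
    exact Finset.sum_congr rfl fun i _ => hpow i j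
  have hmF' : mF = (K : ℝ)⁻¹ * ∑ j ∈ Finset.range K, inner ℝ G ((T ^ j) e) := by
    rw [hmF, hF, hit_inner_avg T R hadj]
  have hGTl : ∀ j, j < K → η / 2 ≤ inner ℝ G ((T ^ j) e) := by
    intro j hj
    rw [hGT]
    refine hit_le_avg K hKn _ _ (fun i hi => hmK.trans (hanti ?_))
    omega
  have hGTu : ∀ j, j < K → inner ℝ G ((T ^ j) e) ≤ η := by
    intro j hj
    rw [hGT]
    exact hit_avg_le K hKn _ _ (fun i _ => hmη _)
  have hmFl : η / 2 ≤ mF := by rw [hmF']; exact hit_le_avg K hKn _ _ hGTl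
  have hmFu : mF ≤ η := by rw [hmF']; exact hit_avg_le K hKn _ _ hGTu
  have hg := step G mF (by rw [← hF, hmF]) (by linarith) hmFu
  rw [← hF] at hg
  -- norm of g
  have hgn : ‖F - mF • e‖ ≤ t ^ 2 / 8 * (s * t) := by
    refine hit_numeric q s t ‖G - m1 • e‖ ‖F - mF • e‖ hq0 hq1 ht0 (by rw [ht2]; exact hqη)
      hsq ?_ ?_
    · rw [hs2, ht2]; exact hg1
    · rw [hs2, ht2]
      refine hg.trans ?_
      have : (K : ℝ)⁻¹ * (2 * ‖G‖) ≤ (K : ℝ)⁻¹ * (2 * (η + ‖G - m1 • e‖)) :=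
        mul_le_mul_of_nonneg_left (by linarith) (by positivity)
      linarith
  -- lower bound of the inner product
  obtain ⟨Φ, hΦd⟩ : ∃ a : ℝ, a = inner ℝ φ e := ⟨_, rfl⟩
  rw [← hΦd] at hφ2 hΦ
  have hΦ0 : 0 < Φ := by
    have : 0 < K * η / 4 := by positivity
    linarith
  obtain ⟨w, hw⟩ : ∃ w, w = Real.sqrt Φ := ⟨_, rfl⟩
  have hw0 : 0 < w := by rw [hw]; exact Real.sqrt_pos.mpr hΦ0
  have hw2 : w ^ 2 = Φ := by rw [hw]; exact Real.sq_sqrt hΦ0.le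
  have hφw : ‖φ‖ ≤ w := by
    rw [← hw2] at hφ2
    exact (sq_le_sq₀ (norm_nonneg _) hw0.le).mp hφ2
  have hst : s * t ≤ 2 * w := by
    have : (s * t) ^ 2 ≤ (2 * w) ^ 2 := by
      rw [mul_pow, mul_pow, hs2, ht2, hw2]; linarith
    exact (sq_le_sq₀ (by positivity) (by positivity)).mp this
  have hFφ : inner ℝ F φ = mF * Φ + inner ℝ (F - mF • e) φ := by
    rw [inner_sub_left, real_inner_smul_left, hΦd, real_inner_comm φ e]; ring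
  have hgφ : -(η / 4 * Φ) ≤ inner ℝ (F - mF • e) φ := by
    have h1 := abs_real_inner_le_norm (F - mF • e) φ
    have h2 : ‖F - mF • e‖ * ‖φ‖ ≤ (t ^ 2 / 8 * (2 * w)) * w := by
      refine mul_le_mul (hgn.trans ?_) hφw (norm_nonneg _) (by positivity)
      exact mul_le_mul_of_nonneg_left hst (by positivity)
    have h3 : (t ^ 2 / 8 * (2 * w)) * w = η / 4 * Φ := by rw [← hw2, ← ht2]; ring
    rw [h3] at h2
    have h4 := (abs_le.mp (h1.trans h2)).1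
    exact h4
  have hlow : K * η ^ 2 / 16 ≤ inner ℝ F φ := by
    rw [hFφ]
    have h1 : η / 2 * Φ ≤ mF * Φ := mul_le_mul_of_nonneg_right hmFl hΦ0.le
    have h2 : η / 4 * (K * η / 4) ≤ η / 4 * Φ := mul_le_mul_of_nonneg_left hΦ (by positivity)
    nlinarith
  -- upper bound
  have hup : inner ℝ F φ ≤ η - m (3 * K) := by
    rw [hF, hit_inner_avg T R hadj]
    refine hit_avg_le K hKn _ _ (fun j hj => ?_)
    rw [hG, hit_inner_avg T R hadj]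
    refine hit_avg_le K hKn _ _ (fun i hi => ?_)
    have h1 : inner ℝ d ((T ^ i) ((T ^ j) φ)) = m (i + j) - m (i + j + K) := by
      rw [hφ, map_sub, map_sub, inner_sub_right, hpow]
      congr 1
      rw [hm, pow_add, pow_add]; rfl
    rw [h1]
    have h2 := hmη (i + j)
    have h3 : m (3 * K) ≤ m (i + j + K) := hanti (by omega)
    linarith
  exact hlow.trans hup

end Pool.Agent.W_MP_ae868b_lc
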