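import Mathlib

/-!
# The resolvent bound (task M2; pure Hilbert space computation)

PROOF. WLOG `‖g‖ = 1` (if `‖g‖ = 0` the left side is `0`; otherwise scale). Put
`h = T1 g`, `δ = ‖g - T2 h‖`, `a = √(δ/q)`. If `a > 1` then `δ > q ≥ q / 10000` and we are done, so
let `a ≤ 1`. For vectors `u v` : `‖(1-q)u + qv‖² = (1-q)‖u‖² + q‖v‖² - q(1-q)‖u-v‖²`. Hence, with
`‖α i f‖² = ‖C i f‖² = ‖f‖² - ‖f - C i f‖²`,
* `1 - ‖h‖² = (1-q)‖g - C 1 g‖² + q‖g - C 2 g‖² + q(1-q)‖α 1 g - α 2 g‖²`,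
* `‖h‖² - ‖T2 h‖² = (1-q)‖h - C 0 h‖² + q‖h - C 3 h‖² + q(1-q)‖α 0 h - α 3 h‖²`.
The sum of the left sides is `1 - ‖T2 h‖² ≤ 1 - (1-δ)² ≤ 2δ` (`‖T2 h‖ ≥ 1 - δ`; if `δ ≥ 1` then we are
in the case `a > 1` or trivial). As `1 - q ≥ 1/2` all terms are small:
`‖g - C 1 g‖² ≤ 4δ ≤ 2a²`, `‖g - C 2 g‖² ≤ 2δ/q = 2a²`, `‖α 1 g - α 2 g‖² ≤ 4δ/q = 4a²`,
`‖h - C 0 h‖² ≤ 2a²`, `‖h - C 3 h‖² ≤ 2a²`, `‖α 0 h - α 3 h‖² ≤ 4a²` (`δ = q a² ≤ a²/2`).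
Then
* `h - α 1 g = q (α 2 g - α 1 g)` has norm `≤ 2 q a ≤ a`; `h - α 2 g = (1-q)(α 1 g - α 2 g)`, norm `≤ 2a`;
* `g - α 0 h = (g - T2 h) + q (α 3 h - α 0 h)`, norm `≤ δ + 2 q a ≤ 1.5 a`;
  `g - α 3 h = (g - T2 h) + (1-q)(α 0 h - α 3 h)`, norm `≤ δ + 2a ≤ 2.5 a`;
* `α 1 h - g = α 1 (h - α 1 g) + (C 1 g - g)`, norm `≤ a + √2 a ≤ 2.5 a` (`‖α i f‖ ≤ ‖f‖`);
  `α 2 h - g`, norm `≤ 2a + √2 a ≤ 3.5 a`;
  so `‖∑ α i h - 4 g‖ ≤ (1.5 + 2.5 + 2.5 + 3.5) a = 10 a`;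
* `α 0 g - h = α 0 (g - α 0 h) + (C 0 h - h)`, norm `≤ 1.5 a + √2 a ≤ 3a`; `α 3 g - h`, norm
  `≤ 2.5 a + √2 a ≤ 4 a`; so `‖∑ α i g - 4 h‖ ≤ (1 + 2 + 3 + 4) a = 10 a`;
* `f - C i f` for `f = g`: `i = 1, 2` norms `≤ √2 a`; `i = 0`: `g - C 0 g = (g - α 0 h) - C 0 (g - α 0 h)`
  (as `C 0 (α 0 h) = α 0 h`), norm `≤ ‖g - α 0 h‖ ≤ 1.5 a`; `i = 3`: `≤ 2.5 a`. The sum of squares is
  `≤ (2 + 2 + 2.25 + 6.25) a² = 12.5 a²`, so `‖A g - ∑ α i g‖ ≤ √50 a ≤ 7.1 a`;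
  for `f = h`: `i = 0, 3` norms `≤ √2 a`, `i = 1`: `≤ ‖h - α 1 g‖ ≤ a`, `i = 2`: `≤ 2a`; sum of squares
  `≤ 9 a²`, so `‖A h - ∑ α i h‖ ≤ 6 a`.
Hence `‖A g - 4 h‖ ≤ 17.1 a`, `‖A h - 4 g‖ ≤ 16 a`. Let `m = ⟪h, e⟫`. Since `⟪A h, e⟫ = 4 m` and
`⟪g, e⟫ = 0`, `|4 m| = |⟪A h - 4 g, e⟫| ≤ 16 a`, so `|m| ≤ 4a`. Put `h' = h - m e`, `u = g + h'`,
`w = g - h'` (both orthogonal to `e`). As `A e = 4 e`,
`A u - 4 u = (A g - 4 h) + (A h - 4 g)`, norm `≤ 33.1 a`, and `‖A u - 4 u‖ ≥ 4‖u‖ - ‖A u‖ ≥ ‖u‖/2`,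
so `‖u‖ ≤ 66.2 a`. `A w + 4 w = (A g - 4 h) - (A h - 4 g) + 8 m e`, norm `≤ 33.1 a + 32 a = 65.1 a`, and
`‖A w + 4 w‖ ≥ ‖w‖/2`, so `‖w‖ ≤ 130.2 a`. Finally `1 = ‖g‖ = ‖(u + w)/2‖ ≤ 98.2 a`, so `a² ≥ 1/9644`
and `δ = q a² ≥ q / 10000`.
-/

namespace Pool.Agent.W_MP_ae868b_lc

theorem resAux_convex {H : Type*} [SeminormedAddCommGroup H] [InnerProductSpace ℝ H]
    (q : ℝ) (u v : H) : ‖(1 - q) • u + q • v‖ ^ 2 =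
      (1 - q) * ‖u‖ ^ 2 + q * ‖v‖ ^ 2 - q * (1 - q) * ‖u - v‖ ^ 2 := by
  rw [norm_add_sq_real, norm_sub_sq_real, norm_smul, norm_smul, inner_smul_left, inner_smul_right,
    mul_pow, mul_pow, Real.norm_eq_abs, Real.norm_eq_abs, sq_abs, sq_abs]
  simp only [conj_trivial]
  ring

theorem resAux_le {x a c : ℝ} (ha : 0 ≤ a) (hc : 0 ≤ c) (h : x ^ 2 ≤ (c * a) ^ 2) :
    x ≤ c * a := abs_le_of_sq_le_sq' h (by positivity) |>.2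

theorem resAux_bounds {q δ a x1 x2 y1 z0 z3 y2 : ℝ} (hq0 : 0 < q) (hq : q ≤ 1 / 2)
    (hsum : (1 - q) * x1 ^ 2 + q * x2 ^ 2 + q * (1 - q) * y1 ^ 2 + (1 - q) * z0 ^ 2 +
      q * z3 ^ 2 + q * (1 - q) * y2 ^ 2 ≤ 2 * δ) (haq : q * a ^ 2 = δ) :
    x1 ^ 2 ≤ 2 * a ^ 2 ∧ x2 ^ 2 ≤ 2 * a ^ 2 ∧ y1 ^ 2 ≤ 4 * a ^ 2 ∧ z0 ^ 2 ≤ 2 * a ^ 2 ∧
      z3 ^ 2 ≤ 2 * a ^ 2 ∧ y2 ^ 2 ≤ 4 * a ^ 2 := by
  have hq1 : 0 ≤ (1 - q) - 1 / 2 := by linarith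
  have hq2 : 0 ≤ 1 - q := by linarith
  have t1 : 0 ≤ (1 - q) * x1 ^ 2 := by positivity
  have t2 : 0 ≤ q * x2 ^ 2 := by positivity
  have t3 : 0 ≤ q * (1 - q) * y1 ^ 2 := by positivity
  have t4 : 0 ≤ (1 - q) * z0 ^ 2 := by positivity
  have t5 : 0 ≤ q * z3 ^ 2 := by positivity
  have t6 : 0 ≤ q * (1 - q) * y2 ^ 2 := by positivity
  have u1 : 0 ≤ ((1 - q) - 1 / 2) * x1 ^ 2 := mul_nonneg hq1 (sq_nonneg _)
  have u4 : 0 ≤ ((1 - q) - 1 / 2) * z0 ^ 2 := mul_nonneg hq1 (sq_nonneg _)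
  have u3 : 0 ≤ ((1 - q) - 1 / 2) * (q * y1 ^ 2) := mul_nonneg hq1 (by positivity)
  have u6 : 0 ≤ ((1 - q) - 1 / 2) * (q * y2 ^ 2) := mul_nonneg hq1 (by positivity)
  have v : 0 ≤ (1 / 2 - q) * a ^ 2 := mul_nonneg (by linarith) (sq_nonneg _)
  refine ⟨?_, ?_, ?_, ?_, ?_, ?_⟩
  · linarith
  · refine le_of_mul_le_mul_left ?_ hq0
    linarith
  · refine le_of_mul_le_mul_left ?_ hq0
    linarith
  · linarith
  · refine le_of_mul_le_mul_left ?_ hq0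
    linarith
  · refine le_of_mul_le_mul_left ?_ hq0
    linarith

theorem resAux_sum {q δ H2 T x1 x2 y1 z0 z3 y2 : ℝ}
    (e1 : H2 = (1 - q) * (1 - x1 ^ 2) + q * (1 - x2 ^ 2) - q * (1 - q) * y1 ^ 2)
    (e2 : T = (1 - q) * (H2 - z0 ^ 2) + q * (H2 - z3 ^ 2) - q * (1 - q) * y2 ^ 2)
    (e4 : (1 - δ) ^ 2 ≤ T) :
    (1 - q) * x1 ^ 2 + q * x2 ^ 2 + q * (1 - q) * y1 ^ 2 + (1 - q) * z0 ^ 2 +
      q * z3 ^ 2 + q * (1 - q) * y2 ^ 2 ≤ 2 * δ := by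
  have h1 := sq_nonneg δ
  have h2 : T = 1 - ((1 - q) * x1 ^ 2 + q * x2 ^ 2 + q * (1 - q) * y1 ^ 2 + (1 - q) * z0 ^ 2 +
      q * z3 ^ 2 + q * (1 - q) * y2 ^ 2) := by
    rw [e2, e1]
    ring
  rw [h2] at e4
  linarith [h1, e4, (by ring : (1 - δ) ^ 2 = 1 - 2 * δ + δ ^ 2)]

theorem resAux_le32 {x a : ℝ} (ha : 0 ≤ a) (h : x ^ 2 ≤ 2 * a ^ 2) : x ≤ 3 / 2 * a := by
  refine resAux_le ha (by norm_num) ?_
  have h1 := sq_nonneg a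
  linarith [(by ring : (3 / 2 * a) ^ 2 = 9 / 4 * a ^ 2)]

theorem resAux_le2 {x a : ℝ} (ha : 0 ≤ a) (h : x ^ 2 ≤ 4 * a ^ 2) : x ≤ 2 * a := by
  refine resAux_le ha (by norm_num) ?_
  linarith [(by ring : (2 * a) ^ 2 = 4 * a ^ 2)]

theorem resAux_small {q δ a : ℝ} (hq0 : 0 < q) (hq : q ≤ 1 / 2) (ha0 : 0 ≤ a)
    (haq : q * a ^ 2 = δ) (hcon : δ < 1 / 10000 * q) : a < 1 / 100 ∧ δ ≤ a / 2 := by
  have h1 : a ^ 2 < (1 / 100) ^ 2 := by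
    have h2 : q * a ^ 2 < q * (1 / 100) ^ 2 := by
      rw [haq]
      linarith
    exact lt_of_mul_lt_mul_left h2 hq0.le
  have h3 : a < 1 / 100 := lt_of_pow_lt_pow_left₀ 2 (by norm_num) h1
  refine ⟨h3, ?_⟩
  rw [← haq]
  nlinarith

theorem resAux_prod {q y a : ℝ} (hq0 : 0 < q) (hq : q ≤ 1 / 2) (ha0 : 0 ≤ a) (hy0 : 0 ≤ y)
    (hy : y ≤ 2 * a) : q * y ≤ a ∧ (1 - q) * y ≤ 2 * a := by
  constructor <;> nlinarith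

theorem resAux_dg {D s0 s1 s2 s3 a : ℝ} (ha : 0 ≤ a) (h : D ^ 2 ≤ 4 * (s0 ^ 2 + s1 ^ 2 + s2 ^ 2 + s3 ^ 2))
    (h0 : s0 ^ 2 ≤ (3 / 2 * a) ^ 2) (h1 : s1 ^ 2 ≤ 2 * a ^ 2) (h2 : s2 ^ 2 ≤ 2 * a ^ 2)
    (h3 : s3 ^ 2 ≤ (5 / 2 * a) ^ 2) : D ≤ 71 / 10 * a := by
  refine resAux_le ha (by norm_num) ?_
  nlinarith [sq_nonneg a]

theorem resAux_dh {D s0 s1 s2 s3 a : ℝ} (ha : 0 ≤ a) (h : D ^ 2 ≤ 4 * (s0 ^ 2 + s1 ^ 2 + s2 ^ 2 + s3 ^ 2))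
    (h0 : s0 ^ 2 ≤ 2 * a ^ 2) (h1 : s1 ^ 2 ≤ a ^ 2) (h2 : s2 ^ 2 ≤ (2 * a) ^ 2)
    (h3 : s3 ^ 2 ≤ 2 * a ^ 2) : D ≤ 6 * a := by
  refine resAux_le ha (by norm_num) ?_
  nlinarith [sq_nonneg a]

theorem resAux_final {H : Type*} [SeminormedAddCommGroup H] [InnerProductSpace ℝ H]
    (e : H) (A : H →ₗ[ℝ] H) (he : ‖e‖ = 1) (hAe : A e = (4 : ℝ) • e)
    (hAs : ∀ f, inner ℝ (A f) e = 4 * inner ℝ f e)
    (hgap : ∀ f, inner ℝ f e = 0 → ‖A f‖ ≤ 7 / 2 * ‖f‖)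
    (g h : H) (hg : inner ℝ g e = 0) (hg1 : ‖g‖ = 1) {a : ℝ} (_ha0 : 0 ≤ a) (ha1 : a < 1 / 100)
    (Dg : ‖A g - (4 : ℝ) • h‖ ≤ 171 / 10 * a) (Dh : ‖A h - (4 : ℝ) • g‖ ≤ 16 * a) : False := by
  -- the mean
  set m : ℝ := inner ℝ h e with hm
  have hm4 : |m| ≤ 4 * a := by
    have h1 : inner ℝ (A h - (4 : ℝ) • g) e = 4 * m := by
      rw [inner_sub_left, hAs, inner_smul_left, hg]
      simp [hm]
    have h2 := abs_real_inner_le_norm (A h - (4 : ℝ) • g) e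
    rw [h1, he, mul_one, abs_mul] at h2
    norm_num at h2
    linarith
  have hee : inner ℝ e e = (1 : ℝ) := by rw [real_inner_self_eq_norm_sq, he]; norm_num
  have hme : ‖m • e‖ ≤ 4 * a := by
    rw [norm_smul, he, mul_one, Real.norm_eq_abs]
    exact hm4
  have hu0 : inner ℝ (g + (h - m • e)) e = (0 : ℝ) := by
    rw [inner_add_left, inner_sub_left, inner_smul_left, hee, hg, ← hm]
    simp
  have hw0 : inner ℝ (g - (h - m • e)) e = (0 : ℝ) := by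
    rw [inner_sub_left, inner_sub_left, inner_smul_left, hee, hg, ← hm]
    simp
  have hu : ‖g + (h - m • e)‖ ≤ 662 / 10 * a := by
    have h1 := hgap _ hu0
    have h2 : (4 : ℝ) • (g + (h - m • e)) = A (g + (h - m • e)) -
        ((A g - (4 : ℝ) • h) + (A h - (4 : ℝ) • g)) := by
      rw [map_add, map_sub, map_smul, hAe]
      module
    have h3 : 4 * ‖g + (h - m • e)‖ = ‖(4 : ℝ) • (g + (h - m • e))‖ := by
      rw [norm_smul]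
      norm_num
    rw [h2] at h3
    have h4 := norm_sub_le (A (g + (h - m • e))) ((A g - (4 : ℝ) • h) + (A h - (4 : ℝ) • g))
    have h5 := norm_add_le (A g - (4 : ℝ) • h) (A h - (4 : ℝ) • g)
    linarith
  have hw : ‖g - (h - m • e)‖ ≤ 1302 / 10 * a := by
    have h1 := hgap _ hw0
    have h2 : (4 : ℝ) • (g - (h - m • e)) =
        ((A g - (4 : ℝ) • h) - (A h - (4 : ℝ) • g) + (8 : ℝ) • (m • e)) -
          A (g - (h - m • e)) := by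
      rw [map_sub, map_sub, map_smul, hAe]
      module
    have h3 : 4 * ‖g - (h - m • e)‖ = ‖(4 : ℝ) • (g - (h - m • e))‖ := by
      rw [norm_smul]
      norm_num
    rw [h2] at h3
    have h4 := norm_sub_le ((A g - (4 : ℝ) • h) - (A h - (4 : ℝ) • g) + (8 : ℝ) • (m • e))
      (A (g - (h - m • e)))
    have h5 := norm_add_le ((A g - (4 : ℝ) • h) - (A h - (4 : ℝ) • g)) ((8 : ℝ) • (m • e))
    have h6 := norm_sub_le (A g - (4 : ℝ) • h) (A h - (4 : ℝ) • g)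
    have h7 : ‖(8 : ℝ) • (m • e)‖ = 8 * ‖m • e‖ := by
      rw [norm_smul]
      norm_num
    linarith
  have hfin : (2 : ℝ) • g = (g + (h - m • e)) + (g - (h - m • e)) := by module
  have hfin2 : 2 = ‖(2 : ℝ) • g‖ := by
    rw [norm_smul, hg1]
    norm_num
  rw [hfin] at hfin2
  have h8 := norm_add_le (g + (h - m • e)) (g - (h - m • e))
  linarith

theorem resAux_one {H : Type*} [SeminormedAddCommGroup H] [InnerProductSpace ℝ H]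
    (e : H) (A : H →ₗ[ℝ] H) (α C : Fin 4 → H →ₗ[ℝ] H)
    (he : ‖e‖ = 1)
    (hC : ∀ i f, ‖C i f‖ ^ 2 + ‖f - C i f‖ ^ 2 = ‖f‖ ^ 2)
    (hαn : ∀ i f, ‖α i f‖ = ‖C i f‖)
    (hαα : ∀ i f, α i (α i f) = C i f)
    (hCα : ∀ i f, C i (α i f) = α i f)
    (hA : ∀ f, ‖A f - ∑ i, α i f‖ ^ 2 ≤ 4 * ∑ i, ‖f - C i f‖ ^ 2)
    (hAe : A e = (4 : ℝ) • e)
    (hAs : ∀ f, inner ℝ (A f) e = 4 * inner ℝ f e)
    (hgap : ∀ f, inner ℝ f e = 0 → ‖A f‖ ≤ 7 / 2 * ‖f‖)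
    (q : ℝ) (hq0 : 0 < q) (hq : q ≤ 1 / 2)
    (T1 T2 : H →ₗ[ℝ] H)
    (hT1 : ∀ f, T1 f = (1 - q) • α 1 f + q • α 2 f)
    (hT2 : ∀ f, T2 f = (1 - q) • α 0 f + q • α 3 f)
    (g : H) (hg : inner ℝ g e = 0) (hg1 : ‖g‖ = 1) :
    1 / 10000 * q ≤ ‖g - T2 (T1 g)‖ := by
  by_contra hcon
  rw [not_le] at hcon
  set h : H := T1 g with hh
  set δ : ℝ := ‖g - T2 h‖ with hδ
  have hδ0 : 0 ≤ δ := norm_nonneg _
  -- elementary bounds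
  have hCle : ∀ i f, ‖C i f‖ ≤ ‖f‖ := by
    intro i f
    have h1 := hC i f
    have h2 := sq_nonneg ‖f - C i f‖
    exact abs_le_of_sq_le_sq' (by linarith) (norm_nonneg _) |>.2
  have hCle' : ∀ i f, ‖f - C i f‖ ≤ ‖f‖ := by
    intro i f
    have h1 := hC i f
    have h2 := sq_nonneg ‖C i f‖
    exact abs_le_of_sq_le_sq' (by linarith) (norm_nonneg _) |>.2
  have hαle : ∀ i f, ‖α i f‖ ≤ ‖f‖ := fun i f => (hαn i f).le.trans (hCle i f)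
  have hαsq : ∀ i f, ‖α i f‖ ^ 2 = ‖f‖ ^ 2 - ‖f - C i f‖ ^ 2 := by
    intro i f
    rw [hαn, ← hC i f]
    ring
  -- the two identities
  have e1 : ‖h‖ ^ 2 = (1 - q) * (1 - ‖g - C 1 g‖ ^ 2) + q * (1 - ‖g - C 2 g‖ ^ 2) -
      q * (1 - q) * ‖α 1 g - α 2 g‖ ^ 2 := by
    rw [hh, hT1, resAux_convex, hαsq, hαsq, hg1]
    norm_num
  have e2 : ‖T2 h‖ ^ 2 = (1 - q) * (‖h‖ ^ 2 - ‖h - C 0 h‖ ^ 2) +
      q * (‖h‖ ^ 2 - ‖h - C 3 h‖ ^ 2) - q * (1 - q) * ‖α 0 h - α 3 h‖ ^ 2 := by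
    rw [hT2, resAux_convex, hαsq, hαsq]
  have e3 : 1 - δ ≤ ‖T2 h‖ := by
    have h1 := norm_sub_norm_le g (T2 h)
    rw [hg1] at h1
    linarith
  have hδ1 : δ ≤ 1 := by linarith
  have e4 : (1 - δ) ^ 2 ≤ ‖T2 h‖ ^ 2 := pow_le_pow_left₀ (by linarith) e3 2
  -- names
  set x1 := ‖g - C 1 g‖ with hx1
  set x2 := ‖g - C 2 g‖ with hx2
  set y1 := ‖α 1 g - α 2 g‖ with hy1
  set z0 := ‖h - C 0 h‖ with hz0
  set z3 := ‖h - C 3 h‖ with hz3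
  set y2 := ‖α 0 h - α 3 h‖ with hy2
  have hx1' : 0 ≤ x1 := norm_nonneg _
  have hx2' : 0 ≤ x2 := norm_nonneg _
  have hy1' : 0 ≤ y1 := norm_nonneg _
  have hz0' : 0 ≤ z0 := norm_nonneg _
  have hz3' : 0 ≤ z3 := norm_nonneg _
  have hy2' : 0 ≤ y2 := norm_nonneg _
  have hq1 : 1 / 2 ≤ 1 - q := by linarith
  have hsum : (1 - q) * x1 ^ 2 + q * x2 ^ 2 + q * (1 - q) * y1 ^ 2 + (1 - q) * z0 ^ 2 +
      q * z3 ^ 2 + q * (1 - q) * y2 ^ 2 ≤ 2 * δ := resAux_sum e1 e2 e4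
  -- the parameter a
  set a : ℝ := Real.sqrt (δ / q) with ha
  have ha0 : 0 ≤ a := Real.sqrt_nonneg _
  have haq : q * a ^ 2 = δ := by
    rw [ha, Real.sq_sqrt (by positivity)]
    field_simp
  obtain ⟨ha1, hδa⟩ := resAux_small hq0 hq ha0 haq hcon
  obtain ⟨bx1, bx2, by1, bz0, bz3, by2⟩ := resAux_bounds hq0 hq hsum haq
  have lx1 : x1 ≤ 3 / 2 * a := resAux_le32 ha0 bx1
  have lx2 : x2 ≤ 3 / 2 * a := resAux_le32 ha0 bx2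
  have ly1 : y1 ≤ 2 * a := resAux_le2 ha0 by1
  obtain ⟨my1, ny1⟩ := resAux_prod hq0 hq ha0 hy1' ly1
  have lz0 : z0 ≤ 3 / 2 * a := resAux_le32 ha0 bz0
  have lz3 : z3 ≤ 3 / 2 * a := resAux_le32 ha0 bz3
  have ly2 : y2 ≤ 2 * a := resAux_le2 ha0 by2
  obtain ⟨my2, ny2⟩ := resAux_prod hq0 hq ha0 hy2' ly2
  -- the vectors
  have r1 : ‖h - α 1 g‖ ≤ a := by
    have h1 : h - α 1 g = q • (α 2 g - α 1 g) := by
      rw [hh, hT1]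
      module
    rw [h1, norm_smul, Real.norm_eq_abs, abs_of_pos hq0, norm_sub_rev]
    exact my1
  have r2 : ‖h - α 2 g‖ ≤ 2 * a := by
    have h1 : h - α 2 g = (1 - q) • (α 1 g - α 2 g) := by
      rw [hh, hT1]
      module
    rw [h1, norm_smul, Real.norm_eq_abs, abs_of_pos (by linarith)]
    exact ny1
  have s0 : ‖g - α 0 h‖ ≤ 3 / 2 * a := by
    have h1 : g - α 0 h = (g - T2 h) + q • (α 3 h - α 0 h) := by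
      rw [hT2]
      module
    rw [h1]
    refine (norm_add_le _ _).trans ?_
    rw [norm_smul, Real.norm_eq_abs, abs_of_pos hq0, norm_sub_rev (α 3 h)]
    linarith
  have s3 : ‖g - α 3 h‖ ≤ 5 / 2 * a := by
    have h1 : g - α 3 h = (g - T2 h) + (1 - q) • (α 0 h - α 3 h) := by
      rw [hT2]
      module
    rw [h1]
    refine (norm_add_le _ _).trans ?_
    rw [norm_smul, Real.norm_eq_abs, abs_of_pos (by linarith : (0 : ℝ) < 1 - q)]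
    linarith
  have p1 : ‖α 1 h - g‖ ≤ 5 / 2 * a := by
    have h1 : α 1 h - g = α 1 (h - α 1 g) + (C 1 g - g) := by
      rw [map_sub, hαα]
      abel
    rw [h1]
    refine (norm_add_le _ _).trans ?_
    rw [norm_sub_rev (C 1 g)]
    have h2 := hαle 1 (h - α 1 g)
    linarith
  have p2 : ‖α 2 h - g‖ ≤ 7 / 2 * a := by
    have h1 : α 2 h - g = α 2 (h - α 2 g) + (C 2 g - g) := by
      rw [map_sub, hαα]
      abel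
    rw [h1]
    refine (norm_add_le _ _).trans ?_
    rw [norm_sub_rev (C 2 g)]
    have h2 := hαle 2 (h - α 2 g)
    linarith
  have p0 : ‖α 0 h - g‖ ≤ 3 / 2 * a := by rw [norm_sub_rev]; exact s0
  have p3 : ‖α 3 h - g‖ ≤ 5 / 2 * a := by rw [norm_sub_rev]; exact s3
  have k0 : ‖α 0 g - h‖ ≤ 3 * a := by
    have h1 : α 0 g - h = α 0 (g - α 0 h) + (C 0 h - h) := by
      rw [map_sub, hαα]
      abel
    rw [h1]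
    refine (norm_add_le _ _).trans ?_
    rw [norm_sub_rev (C 0 h)]
    have h2 := hαle 0 (g - α 0 h)
    linarith
  have k3 : ‖α 3 g - h‖ ≤ 4 * a := by
    have h1 : α 3 g - h = α 3 (g - α 3 h) + (C 3 h - h) := by
      rw [map_sub, hαα]
      abel
    rw [h1]
    refine (norm_add_le _ _).trans ?_
    rw [norm_sub_rev (C 3 h)]
    have h2 := hαle 3 (g - α 3 h)
    linarith
  have k1 : ‖α 1 g - h‖ ≤ a := by rw [norm_sub_rev]; exact r1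
  have k2 : ‖α 2 g - h‖ ≤ 2 * a := by rw [norm_sub_rev]; exact r2
  have sumh : ‖(∑ i, α i h) - (4 : ℝ) • g‖ ≤ 10 * a := by
    have h1 : (∑ i, α i h) - (4 : ℝ) • g =
        (α 0 h - g) + (α 1 h - g) + (α 2 h - g) + (α 3 h - g) := by
      rw [Fin.sum_univ_four]
      module
    rw [h1]
    refine (norm_add_le _ _).trans ?_
    have h2 := norm_add_le ((α 0 h - g) + (α 1 h - g)) (α 2 h - g)
    have h3 := norm_add_le (α 0 h - g) (α 1 h - g)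
    linarith
  have sumg : ‖(∑ i, α i g) - (4 : ℝ) • h‖ ≤ 10 * a := by
    have h1 : (∑ i, α i g) - (4 : ℝ) • h =
        (α 0 g - h) + (α 1 g - h) + (α 2 g - h) + (α 3 g - h) := by
      rw [Fin.sum_univ_four]
      module
    rw [h1]
    refine (norm_add_le _ _).trans ?_
    have h2 := norm_add_le ((α 0 g - h) + (α 1 g - h)) (α 2 g - h)
    have h3 := norm_add_le (α 0 g - h) (α 1 g - h)
    linarith
  have proj : ∀ i (f f' : H), ‖f - C i f‖ ≤ ‖f - α i f'‖ := by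
    intro i f f'
    have h1 : f - C i f = (f - α i f') - C i (f - α i f') := by
      rw [map_sub, hCα]
      abel
    rw [h1]
    exact hCle' i _
  have dg : ‖A g - ∑ i, α i g‖ ≤ 71 / 10 * a := by
    have h1 := hA g
    rw [Fin.sum_univ_four (fun i => ‖g - C i g‖ ^ 2)] at h1
    have h2 : ‖g - C 0 g‖ ≤ 3 / 2 * a := (proj 0 g h).trans s0
    have h3 : ‖g - C 3 g‖ ≤ 5 / 2 * a := (proj 3 g h).trans s3
    have h4 : ‖g - C 0 g‖ ^ 2 ≤ (3 / 2 * a) ^ 2 := pow_le_pow_left₀ (norm_nonneg _) h2 2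
    have h5 : ‖g - C 3 g‖ ^ 2 ≤ (5 / 2 * a) ^ 2 := pow_le_pow_left₀ (norm_nonneg _) h3 2
    exact resAux_dg ha0 h1 h4 bx1 bx2 h5
  have dh : ‖A h - ∑ i, α i h‖ ≤ 6 * a := by
    have h1 := hA h
    rw [Fin.sum_univ_four (fun i => ‖h - C i h‖ ^ 2)] at h1
    have h2 : ‖h - C 1 h‖ ≤ a := (proj 1 h g).trans r1
    have h3 : ‖h - C 2 h‖ ≤ 2 * a := (proj 2 h g).trans r2
    have h4 : ‖h - C 1 h‖ ^ 2 ≤ a ^ 2 := pow_le_pow_left₀ (norm_nonneg _) h2 2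
    have h5 : ‖h - C 2 h‖ ^ 2 ≤ (2 * a) ^ 2 := pow_le_pow_left₀ (norm_nonneg _) h3 2
    exact resAux_dh ha0 h1 bz0 h4 h5 bz3
  have Dg : ‖A g - (4 : ℝ) • h‖ ≤ 171 / 10 * a := by
    have h1 : A g - (4 : ℝ) • h = (A g - ∑ i, α i g) + ((∑ i, α i g) - (4 : ℝ) • h) := by abel
    rw [h1]
    refine (norm_add_le _ _).trans ?_
    linarith
  have Dh : ‖A h - (4 : ℝ) • g‖ ≤ 16 * a := by
    have h1 : A h - (4 : ℝ) • g = (A h - ∑ i, α i h) + ((∑ i, α i h) - (4 : ℝ) • g) := by abel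
    rw [h1]
    refine (norm_add_le _ _).trans ?_
    linarith
  exact resAux_final e A he hAe hAs hgap g h hg hg1 ha0 ha1 Dg Dh

theorem resolvent_bound {H : Type*} [SeminormedAddCommGroup H] [InnerProductSpace ℝ H]
    (e : H) (A : H →ₗ[ℝ] H) (α C : Fin 4 → H →ₗ[ℝ] H)
    (he : ‖e‖ = 1)
    (hC : ∀ i f, ‖C i f‖ ^ 2 + ‖f - C i f‖ ^ 2 = ‖f‖ ^ 2)
    (hαn : ∀ i f, ‖α i f‖ = ‖C i f‖)
    (hαα : ∀ i f, α i (α i f) = C i f)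
    (hCα : ∀ i f, C i (α i f) = α i f)
    (hA : ∀ f, ‖A f - ∑ i, α i f‖ ^ 2 ≤ 4 * ∑ i, ‖f - C i f‖ ^ 2)
    (hAe : A e = (4 : ℝ) • e)
    (hAs : ∀ f, inner ℝ (A f) e = 4 * inner ℝ f e)
    (hgap : ∀ f, inner ℝ f e = 0 → ‖A f‖ ≤ 7 / 2 * ‖f‖)
    (q : ℝ) (hq0 : 0 < q) (hq : q ≤ 1 / 2)
    (T1 T2 : H →ₗ[ℝ] H)
    (hT1 : ∀ f, T1 f = (1 - q) • α 1 f + q • α 2 f)
    (hT2 : ∀ f, T2 f = (1 - q) • α 0 f + q • α 3 f)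
    (g : H) (hg : inner ℝ g e = 0) :
    1 / 10000 * q * ‖g‖ ≤ ‖g - T2 (T1 g)‖ := by
  rcases (norm_nonneg g).eq_or_lt with h0 | h0
  · rw [← h0, mul_zero]
    exact norm_nonneg _
  · have h1 : inner ℝ (‖g‖⁻¹ • g) e = (0 : ℝ) := by
      rw [inner_smul_left, hg]
      simp
    have h2 : ‖‖g‖⁻¹ • g‖ = 1 := by
      rw [norm_smul, norm_inv, norm_norm, inv_mul_cancel₀ h0.ne']
    have h3 := resAux_one e A α C he hC hαn hαα hCα hA hAe hAs hgap q hq0 hq T1 T2 hT1 hT2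
      (‖g‖⁻¹ • g) h1 h2
    rw [map_smul, map_smul, ← smul_sub, norm_smul, norm_inv, norm_norm] at h3
    calc 1 / 10000 * q * ‖g‖ ≤ (‖g‖⁻¹ * ‖g - T2 (T1 g)‖) * ‖g‖ :=
          mul_le_mul_of_nonneg_right h3 h0.le
      _ = ‖g - T2 (T1 g)‖ := by field_simp

end Pool.Agent.W_MP_ae868b_lc
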