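import Pool.Agent.W_MP_ae868b_lc.OpsB
import Pool.Agent.W_MP_ae868b_lc.Resolvent
import Pool.Agent.W_MP_ae868b_lc.Hitting

/-!
# The analytic hitting bound (task M4c)

PROOF. Let `H` be the real vector space of bounded measurable functions on `X` (`BMeas`), with the
semi-inner product `⟪f, g⟫ = ∫ f g ∂μ` (build `SeminormedAddCommGroup` and `InnerProductSpace ℝ`
structures from `PreInnerProductSpace.Core` on a type synonym). Put
`e = 1`, `A f = ∑ s, f (gen s • ·)`, `α i = al π i`, `C i f = 1_{Cons at label i} f`,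
`T = Tr true ∘ Tr false` (i.e. `T u = Tr π q true (Tr π q false u)`),
`R = Tr false ∘ Tr true`, the adjoint of `T` by `Tr_symm`.
* `resolvent_bound` with `T1 = Tr true` (labels 1, 2), `T2 = Tr false` (labels 0, 3) gives `hres`
  for `R`; the hypotheses are `al_al`, `integral_al_sq`, `integral_adj_sub`, `integral_adj`,
  `Gap μ`.
* `T^k e = Top π q (2k) true 1`, `R^k e = Top π q (2k) false 1` (`Top_two_mul`).
* `d` = indicator of `Dij π 0 1`, `η = μ.real (Dij π 0 1)`,
  `m k = ∫ x in Dij π 0 1, Top π q (2k) true 1 = η - hit μ π q 0 1 true (2k)`; antitone, `m 0 = η`.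
* `‖e - R e‖² = ∫ (1 - R 1)² ≤ ∫ (1 - R 1) ≤ err μ π =: ρ` (`integral_one_sub_Tr` with `r = false`;
  `0 ≤ 1 - R 1 ≤ 1`).
* `φ = 1 - Top π q (2K) true 1 ∈ [0, 1]`, so `‖φ‖² ≤ ∫ φ`.
If `hit μ π q 1 0 false (6K) ≥ η/2` or `hit μ π q 0 1 true (6K) ≥ η/2` we are done (both hits are
nonnegative). Otherwise, `hit` being monotone in the number of steps, `m (2K) ≥ η/2` (note
`hit .. (4K) ≤ hit .. (6K)`) and `hit μ π q 1 0 false (2K) ≤ η/2`, and
`Φ = ∫ φ = ∑_{k<K} ∫ T^k (1 - T 1) = ∑_{k<K} ⟪R^k 1, 1 - T 1⟫`, where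
`1 - T 1 ≥ 1 - Tr true 1 ≥ (1 - q) 1_{Dij π 1 0}` (a point of `Dij π 1 0` has an inconsistent flag of
label `1`, so `al π 1 1 = 0` there and `Tr true 1 ≤ q`), so
`Φ ≥ (1 - q) ∑_{k<K} ∫_{Dij π 1 0} Top (2k) false 1 ≥ (1 - q) K (η - hit μ π q 1 0 false (2K)) ≥ K η / 4`
(`μ.real (Dij π 1 0) = η` by `real_Dij_comm`).
Then `hitting_bound` gives `K η²/16 ≤ η - m (3K) = hit μ π q 0 1 true (6K)`.
(`η > 0` since `q³ ≤ η`; `η ≤ 1`.)
-/

open MeasureTheory

namespace Pool.Agent.W_MP_ae868b_lc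

universe uX

/-- bounded measurable functions as a submodule -/
def bmSub (X : Type uX) [MeasurableSpace X] : Submodule ℝ (X → ℝ) where
  carrier := {f | BMeas f}
  zero_mem' := ⟨measurable_const, 0, by simp⟩
  add_mem' := by
    rintro f g ⟨hf, C, hC⟩ ⟨hg, D, hD⟩
    refine ⟨hf.add hg, C + D, fun x => ?_⟩
    exact (abs_add_le _ _).trans (add_le_add (hC x) (hD x))
  smul_mem' := by
    rintro c f ⟨hf, C, hC⟩
    refine ⟨hf.const_smul c, |c| * C, fun x => ?_⟩
    simp only [Pi.smul_apply, smul_eq_mul, abs_mul]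
    exact mul_le_mul_of_nonneg_left (hC x) (abs_nonneg c)

/-- the semi-inner product space of bounded measurable functions -/
def HB {X : Type uX} [MeasurableSpace X] (_μ : Measure X) : Type uX := ↥(bmSub X)

namespace HB

section

variable {X : Type uX} [MeasurableSpace X] {μ : Measure X}

instance instACG : AddCommGroup (HB μ) := inferInstanceAs (AddCommGroup ↥(bmSub X))

instance instMod : Module ℝ (HB μ) := inferInstanceAs (Module ℝ ↥(bmSub X))

/-- the underlying function -/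
def fn (f : HB μ) : X → ℝ := Subtype.val (p := fun f => f ∈ bmSub X) f

theorem bm (f : HB μ) : BMeas f.fn := Subtype.prop (p := fun f => f ∈ bmSub X) f

/-- the vector of a bounded measurable function -/
def mk' (f : X → ℝ) (hf : BMeas f) : HB μ := (⟨f, hf⟩ : ↥(bmSub X))

@[simp] theorem fn_mk' (f : X → ℝ) (hf : BMeas f) : (mk' f hf : HB μ).fn = f := rfl

theorem ext' {f g : HB μ} (h : ∀ x, f.fn x = g.fn x) : f = g :=
  Subtype.ext (funext h)

/-- the linear map to functions -/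
def fnL : HB μ →ₗ[ℝ] (X → ℝ) := (bmSub X).subtype

theorem fnL_apply (f : HB μ) : fnL f = f.fn := rfl

variable [IsProbabilityMeasure μ]

theorem integrable (f : HB μ) : Integrable f.fn μ := by
  obtain ⟨hf, C, hC⟩ := f.bm
  exact Integrable.of_bound hf.aestronglyMeasurable C (Filter.Eventually.of_forall hC)

theorem integrable_mul (f g : HB μ) : Integrable (fun x => f.fn x * g.fn x) μ := by
  obtain ⟨hf, C, hC⟩ := f.bm
  obtain ⟨hg, D, hD⟩ := g.bm
  have hm : Measurable fun x => f.fn x * g.fn x := hf.mul hg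
  refine Integrable.of_bound hm.aestronglyMeasurable (|C| * |D|)
    (Filter.Eventually.of_forall fun x => ?_)
  rw [Real.norm_eq_abs, abs_mul]
  exact mul_le_mul ((hC x).trans (le_abs_self C)) ((hD x).trans (le_abs_self D)) (abs_nonneg _)
    (abs_nonneg _)

noncomputable instance instCore : PreInnerProductSpace.Core ℝ (HB μ) where
  inner f g := ∫ x, f.fn x * g.fn x ∂μ
  conj_inner_symm f g := by
    simp only [conj_trivial]
    exact integral_congr_ae (Filter.Eventually.of_forall fun x => mul_comm _ _)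
  re_inner_nonneg f := by
    simp only [RCLike.re_to_real]
    exact integral_nonneg fun x => mul_self_nonneg _
  add_left f g h := by
    rw [← integral_add (integrable_mul f h) (integrable_mul g h)]
    refine integral_congr_ae (Filter.Eventually.of_forall fun x => ?_)
    change (f.fn x + g.fn x) * h.fn x = _
    ring
  smul_left f g r := by
    rw [← integral_const_mul]
    refine integral_congr_ae (Filter.Eventually.of_forall fun x => ?_)
    change (r * f.fn x) * g.fn x = _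
    simp only [conj_trivial]
    ring

noncomputable instance instSNACG : SeminormedAddCommGroup (HB μ) :=
  InnerProductSpace.Core.toSeminormedAddCommGroup (𝕜 := ℝ)

noncomputable instance instIPS : InnerProductSpace ℝ (HB μ) :=
  InnerProductSpace.ofCore (instCore)

theorem inner_eq (f g : HB μ) : inner ℝ f g = ∫ x, f.fn x * g.fn x ∂μ := rfl

theorem norm_sq_eq (f : HB μ) : ‖f‖ ^ 2 = ∫ x, f.fn x ^ 2 ∂μ := by
  rw [← real_inner_self_eq_norm_sq, inner_eq]
  exact integral_congr_ae (Filter.Eventually.of_forall fun x => (sq (f.fn x)).symm)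

theorem fn_add (f g : HB μ) (x : X) : (f + g).fn x = f.fn x + g.fn x := rfl

theorem fn_sub (f g : HB μ) (x : X) : (f - g).fn x = f.fn x - g.fn x := rfl

theorem fn_smul (c : ℝ) (f : HB μ) (x : X) : (c • f).fn x = c * f.fn x := rfl

theorem fn_sum {ι : Type*} (t : Finset ι) (f : ι → HB μ) (x : X) :
    (∑ i ∈ t, f i).fn x = ∑ i ∈ t, (f i).fn x := by
  have h := congrFun (map_sum (fnL (μ := μ)) f t) x
  simp only [Finset.sum_apply] at h
  exact h

end

end HB

section Maps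

open HB

variable {X : Type uX} [MeasurableSpace X] [MulAction F2 X] {μ : Measure X} {π : X → Bj}

theorem al_add (π : X → Bj) (i : Fin 4) (f g : X → ℝ) (x : X) :
    al π i (fun x => f x + g x) x = al π i f x + al π i g x := by
  unfold al
  split_ifs <;> simp

theorem al_mulc (π : X → Bj) (i : Fin 4) (c : ℝ) (f : X → ℝ) (x : X) :
    al π i (fun x => c * f x) x = c * al π i f x := by
  unfold al
  split_ifs <;> simp

variable [IsProbabilityMeasure μ]

/-- the adjacency operator -/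
noncomputable def adjL (hμ : IsPMP μ) : HB μ →ₗ[ℝ] HB μ where
  toFun f := mk' (fun x => ∑ s : S, f.fn (gen s • x)) (by
    have h := (bmSub X).sum_mem (t := (Finset.univ : Finset S))
      (f := fun s => fun x => f.fn (gen s • x)) (fun s _ => BMeas.smul_comp hμ f.bm (gen s))
    have e : (∑ s : S, fun x => f.fn (gen s • x)) = fun x => ∑ s : S, f.fn (gen s • x) := by
      funext x; simp
    rw [e] at h
    exact h)
  map_add' f g := by
    refine HB.ext' fun x => ?_
    change ∑ s : S, (f.fn (gen s • x) + g.fn (gen s • x)) = _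
    rw [Finset.sum_add_distrib]
    rfl
  map_smul' c f := by
    refine HB.ext' fun x => ?_
    change ∑ s : S, (c * f.fn (gen s • x)) = c * ∑ s : S, f.fn (gen s • x)
    rw [Finset.mul_sum]

/-- the partial involution as a linear map -/
noncomputable def alL (hμ : IsPMP μ) (hπ : Measurable π) (i : Fin 4) : HB μ →ₗ[ℝ] HB μ where
  toFun f := mk' (al π i f.fn) (BMeas.al hμ hπ f.bm i)
  map_add' f g := HB.ext' fun x => al_add π i f.fn g.fn x
  map_smul' c f := HB.ext' fun x => al_mulc π i c f.fn x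

theorem alL_fn (hμ : IsPMP μ) (hπ : Measurable π) (i : Fin 4) (f : HB μ) :
    (alL hμ hπ i f).fn = al π i f.fn := rfl

/-- restriction to the consistent points -/
noncomputable def coL (hμ : IsPMP μ) (hπ : Measurable π) (i : Fin 4) : HB μ →ₗ[ℝ] HB μ :=
  alL hμ hπ i ∘ₗ alL hμ hπ i

theorem coL_fn (hμ : IsPMP μ) (hπ : Measurable π) (i : Fin 4) (f : HB μ) (x : X) :
    (coL hμ hπ i f).fn x = open Classical in if Cons π x ((π x).symm i) then f.fn x else 0 :=
  al_al f.fn i x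

/-- one step of the walk -/
noncomputable def trL (hμ : IsPMP μ) (hπ : Measurable π) (q : ℝ) (r : Bool) : HB μ →ₗ[ℝ] HB μ :=
  (1 - q) • alL hμ hπ (lab0 r) + q • alL hμ hπ (lab1 r)

theorem trL_fn (hμ : IsPMP μ) (hπ : Measurable π) (q : ℝ) (r : Bool) (f : HB μ) :
    (trL hμ hπ q r f).fn = Tr π q r f.fn := rfl

/-- the constant function `1` -/
def oneV : HB μ := mk' (fun _ => 1) ⟨measurable_const, 1, by simp⟩

theorem oneV_fn : (oneV : HB μ).fn = fun _ => 1 := rfl

theorem norm_oneV : ‖(oneV : HB μ)‖ = 1 := by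
  have h := norm_sq_eq (oneV : HB μ)
  rw [oneV_fn] at h
  simp only [one_pow, integral_const, probReal_univ, smul_eq_mul, mul_one] at h
  have h0 := norm_nonneg (oneV : HB μ)
  nlinarith

theorem norm_le_of_sq {f g : HB μ} (h : ‖f‖ ^ 2 ≤ ‖g‖ ^ 2) : ‖f‖ ≤ ‖g‖ :=
  (sq_le_sq₀ (norm_nonneg _) (norm_nonneg _)).1 h

theorem norm_alL_eq (hμ : IsPMP μ) (hπ : Measurable π) (i : Fin 4) (f : HB μ) :
    ‖alL hμ hπ i f‖ = ‖coL hμ hπ i f‖ := by
  have h : ‖alL hμ hπ i f‖ ^ 2 = ‖coL hμ hπ i f‖ ^ 2 := by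
    rw [norm_sq_eq, norm_sq_eq, alL_fn, integral_al_sq hμ hπ f.bm i]
    refine integral_congr_ae (Filter.Eventually.of_forall fun x => ?_)
    dsimp only
    rw [coL_fn]
    split_ifs <;> simp
  exact le_antisymm (norm_le_of_sq h.le) (norm_le_of_sq h.ge)

theorem coL_pyth (hμ : IsPMP μ) (hπ : Measurable π) (i : Fin 4) (f : HB μ) :
    ‖coL hμ hπ i f‖ ^ 2 + ‖f - coL hμ hπ i f‖ ^ 2 = ‖f‖ ^ 2 := by
  rw [norm_sq_eq, norm_sq_eq, norm_sq_eq]
  have i1 : Integrable (fun x => (coL hμ hπ i f).fn x ^ 2) μ := by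
    simpa only [sq] using integrable_mul (coL hμ hπ i f) (coL hμ hπ i f)
  have i2 : Integrable (fun x => (f - coL hμ hπ i f).fn x ^ 2) μ := by
    simpa only [sq] using integrable_mul (f - coL hμ hπ i f) (f - coL hμ hπ i f)
  rw [← integral_add i1 i2]
  refine integral_congr_ae (Filter.Eventually.of_forall fun x => ?_)
  dsimp only
  rw [fn_sub, coL_fn]
  split_ifs <;> simp

theorem coL_alL (hμ : IsPMP μ) (hπ : Measurable π) (i : Fin 4) (f : HB μ) :
    coL hμ hπ i (alL hμ hπ i f) = alL hμ hπ i f := by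
  refine HB.ext' fun x => ?_
  rw [coL_fn, alL_fn]
  split_ifs with h
  · rfl
  · exact (al_supp f.fn i x h).symm

theorem adjL_sub (hμ : IsPMP μ) (hπ : Measurable π) (f : HB μ) :
    ‖adjL hμ f - ∑ i, alL hμ hπ i f‖ ^ 2 ≤ 4 * ∑ i, ‖f - coL hμ hπ i f‖ ^ 2 := by
  have h := integral_adj_sub hμ hπ f.bm
  have e1 : ‖adjL hμ f - ∑ i, alL hμ hπ i f‖ ^ 2 =
      ∫ x, ((∑ s : S, f.fn (gen s • x)) - ∑ i, al π i f.fn x) ^ 2 ∂μ := by
    rw [norm_sq_eq]
    refine integral_congr_ae (Filter.Eventually.of_forall fun x => ?_)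
    dsimp only
    rw [fn_sub, fn_sum]
    rfl
  have e2 : ∀ i, ‖f - coL hμ hπ i f‖ ^ 2 =
      ∫ x, (open Classical in if Cons π x ((π x).symm i) then 0 else f.fn x ^ 2) ∂μ := by
    intro i
    rw [norm_sq_eq]
    refine integral_congr_ae (Filter.Eventually.of_forall fun x => ?_)
    dsimp only
    rw [fn_sub, coL_fn]
    split_ifs <;> simp
  rw [e1]
  simp only [e2]
  exact h

theorem adjL_one (hμ : IsPMP μ) : adjL hμ (oneV : HB μ) = (4 : ℝ) • (oneV : HB μ) := by
  refine HB.ext' fun x => ?_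
  change ∑ _s : S, (1 : ℝ) = 4 * 1
  simp [S]

theorem inner_adjL (hμ : IsPMP μ) (f : HB μ) :
    inner ℝ (adjL hμ f) (oneV : HB μ) = 4 * inner ℝ f (oneV : HB μ) := by
  rw [inner_eq, inner_eq, oneV_fn]
  simp only [mul_one]
  exact integral_adj hμ f.bm

theorem gap_norm (hμ : IsPMP μ) (hgap : Gap μ) (f : HB μ)
    (h : inner ℝ f (oneV : HB μ) = 0) : ‖adjL hμ f‖ ≤ 7 / 2 * ‖f‖ := by
  have h0 : ∫ x, f.fn x ∂μ = 0 := by
    rw [inner_eq, oneV_fn] at h
    simpa only [mul_one] using h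
  have h1 := hgap f.fn f.bm.1 f.bm.2 h0
  have e1 : ‖adjL hμ f‖ ^ 2 = ∫ x, (∑ s : S, f.fn (gen s • x)) ^ 2 ∂μ := norm_sq_eq _
  rw [← e1, ← norm_sq_eq, ← mul_pow] at h1
  exact (sq_le_sq₀ (norm_nonneg _) (by positivity)).1 h1

theorem trL_adj (hμ : IsPMP μ) (hπ : Measurable π) (q : ℝ) (r : Bool) (f g : HB μ) :
    inner ℝ (trL hμ hπ q r f) g = inner ℝ f (trL hμ hπ q r g) := by
  rw [inner_eq, inner_eq, trL_fn, trL_fn]
  exact Tr_symm hμ hπ f.bm g.bm q r

theorem trL_norm (hμ : IsPMP μ) (hπ : Measurable π) {q : ℝ} (hq0 : 0 ≤ q) (hq1 : q ≤ 1)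
    (r : Bool) (f : HB μ) : ‖trL hμ hπ q r f‖ ≤ ‖f‖ := by
  apply norm_le_of_sq
  rw [norm_sq_eq, norm_sq_eq, trL_fn]
  exact integral_Tr_sq_le hμ hπ hq0 hq1 f.bm r

/-- the double step -/
noncomputable def dbL (hμ : IsPMP μ) (hπ : Measurable π) (q : ℝ) (r : Bool) : HB μ →ₗ[ℝ] HB μ :=
  trL hμ hπ q r ∘ₗ trL hμ hπ q (!r)

theorem dbL_pow (hμ : IsPMP μ) (hπ : Measurable π) (q : ℝ) (r : Bool) (k : ℕ) (f : HB μ) :
    ((dbL hμ hπ q r ^ k) f).fn = Top π q (2 * k) r f.fn := by
  rw [Top_two_mul]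
  induction k generalizing f with
  | zero => rfl
  | succ k ih =>
    rw [pow_succ, Function.iterate_succ_apply]
    exact ih (dbL hμ hπ q r f)

theorem resolvent_dbL (hμ : IsPMP μ) (hgap : Gap μ) (hπ : Measurable π) (q : ℝ) (hq0 : 0 < q)
    (hq : q ≤ 1 / 2) (g : HB μ) (hg : inner ℝ g (oneV : HB μ) = 0) :
    1 / 10000 * q * ‖g‖ ≤ ‖g - dbL hμ hπ q false g‖ :=
  resolvent_bound (oneV : HB μ) (adjL hμ) (alL hμ hπ) (coL hμ hπ) norm_oneV
    (coL_pyth hμ hπ) (norm_alL_eq hμ hπ) (fun _ _ => rfl) (coL_alL hμ hπ) (adjL_sub hμ hπ)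
    (adjL_one hμ) (inner_adjL hμ) (gap_norm hμ hgap) q hq0 hq (trL hμ hπ q true)
    (trL hμ hπ q false) (fun _ => rfl) (fun _ => rfl) g hg

theorem dbL_pow_one (hμ : IsPMP μ) (hπ : Measurable π) (q : ℝ) (r : Bool) (k : ℕ) :
    ((dbL hμ hπ q r ^ k) (oneV : HB μ)).fn = Top π q (2 * k) r (fun _ => 1) :=
  dbL_pow hμ hπ q r k oneV

/-- the indicator vector -/
noncomputable def indV (D : Set X) (hD : MeasurableSet D) : HB μ :=
  mk' (D.indicator fun _ => 1) ⟨measurable_const.indicator hD, 1, fun x => by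
    by_cases h : x ∈ D <;> simp [h]⟩

theorem inner_ind (D : Set X) (hD : MeasurableSet D) (f : HB μ) :
    inner ℝ (indV D hD : HB μ) f = ∫ x in D, f.fn x ∂μ := by
  rw [inner_eq, ← integral_indicator hD]
  refine integral_congr_ae (Filter.Eventually.of_forall fun x => ?_)
  change (D.indicator (fun _ => (1 : ℝ))) x * f.fn x = _
  by_cases h : x ∈ D <;> simp [h]

theorem norm_ind (D : Set X) (hD : MeasurableSet D) :
    ‖(indV D hD : HB μ)‖ ^ 2 = μ.real D := by
  rw [← real_inner_self_eq_norm_sq, inner_ind]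
  have e : ∫ x in D, (indV D hD : HB μ).fn x ∂μ = ∫ _x in D, (1 : ℝ) ∂μ := by
    refine setIntegral_congr_fun hD fun x hx => ?_
    change (D.indicator (fun _ => (1 : ℝ))) x = 1
    simp [hx]
  rw [e]
  simp

theorem inner_hit (hμ : IsPMP μ) (hπ : Measurable π) (q : ℝ) (r : Bool) (i j : Fin 4) (k : ℕ) :
    inner ℝ (indV (Dij π i j) (measurableSet_Dij hμ hπ i j) : HB μ)
      ((dbL hμ hπ q r ^ k) (oneV : HB μ)) =
      μ.real (Dij π i j) - hit μ π q i j r (2 * k) := by
  rw [inner_ind, dbL_pow_one]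
  unfold hit
  have hi : Integrable (Top π q (2 * k) r fun _ => 1) μ := by
    have h := HB.integrable ((dbL hμ hπ q r ^ k) (oneV : HB μ))
    rwa [dbL_pow_one] at h
  rw [integral_sub (integrable_const _) hi.integrableOn]
  simp

theorem dbL_adj (hμ : IsPMP μ) (hπ : Measurable π) (q : ℝ) (r : Bool) (f g : HB μ) :
    inner ℝ (dbL hμ hπ q r f) g = inner ℝ f (dbL hμ hπ q (!r) g) := by
  unfold dbL
  rw [LinearMap.comp_apply, LinearMap.comp_apply, trL_adj, trL_adj, Bool.not_not]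

theorem dbL_pow_adj (hμ : IsPMP μ) (hπ : Measurable π) (q : ℝ) (r : Bool) (k : ℕ)
    (f g : HB μ) :
    inner ℝ ((dbL hμ hπ q r ^ k) f) g = inner ℝ f ((dbL hμ hπ q (!r) ^ k) g) := by
  induction k generalizing f g with
  | zero => rfl
  | succ k ih =>
    rw [pow_succ, pow_succ', Module.End.mul_apply, Module.End.mul_apply, ih, dbL_adj]

theorem dbL_norm (hμ : IsPMP μ) (hπ : Measurable π) {q : ℝ} (hq0 : 0 ≤ q) (hq1 : q ≤ 1)
    (r : Bool) (f : HB μ) : ‖dbL hμ hπ q r f‖ ≤ ‖f‖ :=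
  (trL_norm hμ hπ hq0 hq1 r _).trans (trL_norm hμ hπ hq0 hq1 (!r) f)

/-- for `f` with values in `[0, 1]` -/
theorem norm_sq_le_inner (f : HB μ) (h0 : ∀ x, 0 ≤ f.fn x) (h1 : ∀ x, f.fn x ≤ 1) :
    ‖f‖ ^ 2 ≤ inner ℝ f (oneV : HB μ) := by
  rw [← real_inner_self_eq_norm_sq, inner_eq, inner_eq]
  refine integral_mono (integrable_mul f f) (integrable_mul f oneV) fun x => ?_
  rw [oneV_fn]
  have := h0 x
  have := h1 x
  dsimp only
  nlinarith

theorem one_sub_pow_fn (hμ : IsPMP μ) (hπ : Measurable π) (q : ℝ) (r : Bool) (k : ℕ) (x : X) :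
    ((oneV : HB μ) - (dbL hμ hπ q r ^ k) (oneV : HB μ)).fn x =
      1 - Top π q (2 * k) r (fun _ => 1) x := by
  rw [fn_sub, dbL_pow_one, oneV_fn]

theorem one_sub_pow_nonneg (hμ : IsPMP μ) (hπ : Measurable π) {q : ℝ} (hq0 : 0 ≤ q)
    (hq1 : q ≤ 1) (r : Bool) (k : ℕ) (x : X) :
    0 ≤ ((oneV : HB μ) - (dbL hμ hπ q r ^ k) (oneV : HB μ)).fn x := by
  rw [one_sub_pow_fn]
  linarith [Top_one_le (π := π) hq0 hq1 (2 * k) r x]

theorem one_sub_pow_le (hμ : IsPMP μ) (hπ : Measurable π) {q : ℝ} (hq0 : 0 ≤ q)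
    (hq1 : q ≤ 1) (r : Bool) (k : ℕ) (x : X) :
    ((oneV : HB μ) - (dbL hμ hπ q r ^ k) (oneV : HB μ)).fn x ≤ 1 := by
  rw [one_sub_pow_fn]
  linarith [Top_nonneg (π := π) (f := fun _ => 1) hq0 hq1 (fun _ => zero_le_one) (2 * k) r x]

/-- the killing of one double step of role `true` is at least `1 - q` on `Dij π 1 0` -/
theorem kill_ge (hμ : IsPMP μ) (hπ : Measurable π) {q : ℝ} (hq0 : 0 ≤ q) (hq1 : q ≤ 1)
    (v : HB μ) (hv : ∀ x, 0 ≤ v.fn x) :
    (1 - q) * inner ℝ (indV (Dij π 1 0) (measurableSet_Dij hμ hπ 1 0) : HB μ) v ≤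
      inner ℝ ((oneV : HB μ) - dbL hμ hπ q true (oneV : HB μ)) v := by
  have e1 : (1 - q) * inner ℝ (indV (Dij π 1 0) (measurableSet_Dij hμ hπ 1 0) : HB μ) v =
      inner ℝ ((1 - q) • (indV (Dij π 1 0) (measurableSet_Dij hμ hπ 1 0) : HB μ)) v := by
    rw [real_inner_smul_left]
  rw [e1, inner_eq, inner_eq]
  refine integral_mono (integrable_mul _ _) (integrable_mul _ _) fun x => ?_
  dsimp only
  refine mul_le_mul_of_nonneg_right ?_ (hv x)
  have hT : Tr π q true (Tr π q false fun _ => 1) x ≤ Tr π q true (fun _ => 1) x :=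
    Tr_mono hq0 hq1 (fun y => Tr_one_le hq0 hq1 false y) true x
  have hT1 : Tr π q true (fun _ => 1) x ≤ 1 := Tr_one_le hq0 hq1 true x
  change (1 - q) * (Dij π 1 0).indicator (fun _ => (1 : ℝ)) x ≤
    1 - Tr π q true (Tr π q false fun _ => 1) x
  by_cases hx : x ∈ Dij π 1 0
  · rw [Set.indicator_of_mem hx]
    have hc : ¬ Cons π x ((π x).symm 1) := by
      intro h
      have h1 : oth π x ((π x).symm 1) = 0 := hx
      have h2 : π x ((π x).symm 1) = oth π x ((π x).symm 1) := h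
      rw [h1, Equiv.apply_symm_apply] at h2
      exact absurd h2 (by decide)
    have h3 : al π (lab0 true) (fun _ => (1 : ℝ)) x = 0 := al_supp _ _ _ hc
    have h4 : al π (lab1 true) (fun _ => (1 : ℝ)) x ≤ 1 := by
      unfold al
      split_ifs <;> norm_num
    have h5 : Tr π q true (fun _ => (1 : ℝ)) x ≤ q := by
      unfold Tr
      rw [h3]
      nlinarith
    linarith
  · rw [Set.indicator_of_notMem hx]
    linarith

end Maps

theorem hit_nonneg {X : Type*} [MeasurableSpace X] [MulAction F2 X] (μ : Measure X)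
    (π : X → Bj) {q : ℝ} (hq0 : 0 ≤ q) (hq1 : q ≤ 1) (i j : Fin 4) (r : Bool) (n : ℕ) :
    0 ≤ hit μ π q i j r n := by
  unfold hit
  refine integral_nonneg fun x => ?_
  have := Top_one_le (π := π) hq0 hq1 n r x
  simp only [Pi.zero_apply]
  linarith

theorem hit_mono {X : Type*} [MeasurableSpace X] [MulAction F2 X] {μ : Measure X}
    (hμ : IsPMP μ) {π : X → Bj} (hπ : Measurable π) {q : ℝ} (hq0 : 0 ≤ q) (hq1 : q ≤ 1)
    (i j : Fin 4) (r : Bool) {n k : ℕ} (h : n ≤ k) :
    hit μ π q i j r n ≤ hit μ π q i j r k := by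
  haveI := hμ.prob
  unfold hit
  have hi : ∀ l, Integrable (fun x => 1 - Top π q l r (fun _ => 1) x) μ := fun l =>
    (integrable_const _).sub
      (BMeas.integrable hμ (BMeas.Top hμ hπ ⟨measurable_const, 1, by simp⟩ q l r))
  refine integral_mono (hi n).integrableOn (hi k).integrableOn fun x => ?_
  have := Top_one_antitone (π := π) hq0 hq1 r x h
  dsimp only at this ⊢
  linarith

theorem hit_bound {X : Type*} [MeasurableSpace X] [MulAction F2 X] {μ : Measure X}
    (hμ : IsPMP μ) (hgap : Gap μ) {π : X → Bj} (hπ : Measurable π) (q : ℝ) (hq0 : 0 < q)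
    (hq : q ≤ 1 / 2) (η : ℝ) (hη : η = μ.real (Dij π 0 1)) (hρ : err μ π ≤ 12 * η)
    (hqη : q ^ 3 ≤ η) (K : ℕ) (hK : (1120000 / q) ^ 2 ≤ K) :
    min (η / 2) (K * η ^ 2 / 16) ≤
      hit μ π q 0 1 true (6 * K) + hit μ π q 1 0 false (6 * K) := by
  haveI := hμ.prob
  have hη0 : 0 < η := lt_of_lt_of_le (by positivity) hqη
  have hη1 : η ≤ 1 := by rw [hη]; exact measureReal_le_one
  have hq0' : 0 ≤ q := hq0.le
  have hq1 : q ≤ 1 := by linarith
  by_cases h1 : η / 2 ≤ hit μ π q 1 0 false (6 * K)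
  · exact (min_le_left _ _).trans (by linarith [hit_nonneg μ π hq0' hq1 0 1 true (6 * K)])
  by_cases h2 : η / 2 ≤ hit μ π q 0 1 true (6 * K)
  · exact (min_le_left _ _).trans (by linarith [hit_nonneg μ π hq0' hq1 1 0 false (6 * K)])
  push Not at h1 h2
  refine (min_le_right _ _).trans ?_
  have key : K * η ^ 2 / 16 ≤ hit μ π q 0 1 true (6 * K) := by
    set d : HB μ := indV (Dij π 0 1) (measurableSet_Dij hμ hπ 0 1) with hd
    have hm : ∀ k, inner ℝ d ((dbL hμ hπ q true ^ k) (oneV : HB μ)) =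
        η - hit μ π q 0 1 true (2 * k) := by
      intro k
      rw [hη]
      exact inner_hit hμ hπ q true 0 1 k
    have hρ0 : 0 ≤ err μ π := by
      unfold err
      exact Finset.sum_nonneg fun s _ => measureReal_nonneg
    have hb : ‖(oneV : HB μ) - dbL hμ hπ q false oneV‖ ^ 2 ≤ err μ π := by
      have e1 := norm_sq_le_inner ((oneV : HB μ) - (dbL hμ hπ q false ^ 1) oneV)
        (one_sub_pow_nonneg hμ hπ hq0' hq1 false 1) (one_sub_pow_le hμ hπ hq0' hq1 false 1)
      rw [pow_one] at e1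
      refine e1.trans ?_
      rw [HB.inner_eq, oneV_fn]
      simp only [mul_one]
      exact integral_one_sub_Tr hμ hπ hq0' hq1 false
    have hφ2 := norm_sq_le_inner ((oneV : HB μ) - (dbL hμ hπ q true ^ K) oneV)
        (one_sub_pow_nonneg hμ hπ hq0' hq1 true K) (one_sub_pow_le hμ hπ hq0' hq1 true K)
    have hΦ : (K : ℝ) * η / 4 ≤
        inner ℝ ((oneV : HB μ) - (dbL hμ hπ q true ^ K) oneV) (oneV : HB μ) := by
      have e1 : (oneV : HB μ) - (dbL hμ hπ q true ^ K) oneV =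
          ∑ k ∈ Finset.range K, (dbL hμ hπ q true ^ k) (oneV - dbL hμ hπ q true oneV) := by
        have h3 := Finset.sum_range_sub' (fun k => (dbL hμ hπ q true ^ k) (oneV : HB μ)) K
        rw [pow_zero, Module.End.one_apply] at h3
        rw [← h3]
        refine Finset.sum_congr rfl fun k _ => ?_
        rw [map_sub, pow_succ, Module.End.mul_apply]
      rw [e1, sum_inner]
      have e2 : ∀ k ∈ Finset.range K, η / 4 ≤
          inner ℝ ((dbL hμ hπ q true ^ k) (oneV - dbL hμ hπ q true oneV)) (oneV : HB μ) := by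
        intro k hk
        rw [dbL_pow_adj]
        have h3 := kill_ge hμ hπ hq0' hq1 ((dbL hμ hπ q (!true) ^ k) (oneV : HB μ)) (by
          rw [dbL_pow_one]
          exact Top_nonneg hq0' hq1 (fun _ => zero_le_one) _ _)
        rw [inner_hit hμ hπ q (!true) 1 0 k] at h3
        have h5 : hit μ π q 1 0 (!true) (2 * k) ≤ hit μ π q 1 0 false (6 * K) :=
          hit_mono hμ hπ hq0' hq1 1 0 false (by have := Finset.mem_range.1 hk; omega)
        have h6 : μ.real (Dij π 1 0) = η := by rw [hη]; exact real_Dij_comm hμ hπ 1 0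
        rw [h6] at h3
        refine le_trans ?_ h3
        nlinarith
      calc (K : ℝ) * η / 4 = ∑ _k ∈ Finset.range K, η / 4 := by
            simp only [Finset.sum_const, Finset.card_range, nsmul_eq_mul]
            ring
        _ ≤ _ := Finset.sum_le_sum e2
    have hfin := hitting_bound (oneV : HB μ) d ((oneV : HB μ) - (dbL hμ hπ q true ^ K) oneV)
      (dbL hμ hπ q true) (dbL hμ hπ q false) norm_oneV (dbL_adj hμ hπ q false)
      (dbL_norm hμ hπ hq0' hq1 false) q η (err μ π) hq0 hq hη0 hη1 hρ0 hρ hqη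
      (resolvent_dbL hμ hgap hπ q hq0 hq) hb (by rw [hd, norm_ind, hη])
      (fun k => η - hit μ π q 0 1 true (2 * k)) (fun k => (hm k).symm)
      (by
        have h3 : hit μ π q 0 1 true (2 * 0) = 0 := by
          unfold hit
          simp [Top]
        rw [h3, sub_zero])
      (fun a b hab => by
        have := hit_mono hμ hπ hq0' hq1 0 1 true (show 2 * a ≤ 2 * b by omega)
        dsimp only
        linarith)
      (fun k => by
        rw [← hm k, hd, inner_ind, dbL_pow_one]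
        exact integral_nonneg fun x => Top_nonneg hq0' hq1 (fun _ => zero_le_one) _ _ x)
      K hK rfl hφ2 hΦ
      (by
        have := hit_mono hμ hπ hq0' hq1 0 1 true (show 2 * (2 * K) ≤ 6 * K by omega)
        linarith)
    rw [show 2 * (3 * K) = 6 * K by ring] at hfin
    linarith
  linarith [hit_nonneg μ π hq0' hq1 1 0 false (6 * K)]

end Pool.Agent.W_MP_ae868b_lc
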