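import Pool.Agent.W_MP_ae868b_lc.Words
import Pool.Agent.W_MP_ae868b_lc.CoinB

/-!
# Approximate edge colourings (task I)

PROOF. Choose `n` with `16 · 2^{-n} ≤ δ`; `ω` is marked if `bit ω i 1 = true` for all `i < n`. For the
generator `a = gen (0, true)` let `r ω` be the least `k` such that `a^{-k} • ω` is marked (exists almost
surely, since the bits at the vertices `a^{-k}` are independent; `real_unmarked`; put `r ω = 0` if there
is none). If `a • ω` is not marked and some `a^{-k} • ω` is marked then `r (a • ω) = r ω + 1`. Let `θ ω = r ω mod 2` and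
`π ω (0, true) = 0`, `π ω (0, false) = 3` if `θ ω = 0`, and exchanged if `θ ω = 1`. Then the flags
`(ω, (0, true))` and `(a • ω, (0, false))` have the same label iff `θ (a • ω) ≠ θ ω`, which holds unless
`a • ω` is marked (or in a null set). Similarly with `b = gen (1, true)` and the labels `1, 2`. So
`err coinOm π ≤ 4 · 2^{-n}`.
-/

open MeasureTheory

namespace Pool.Agent.W_MP_ae868b_lc

/-- the vertex is marked -/
def IMk (n : ℕ) (ω : Om) : Prop := ∀ i < n, bit ω i 1 = true

theorem iMk_smul (n : ℕ) (g : F2) (ω : Om) : IMk n (g • ω) ↔ ∀ i < n, bit ω i g = true := by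
  simp only [IMk, bit_smul, one_mul]

/-- the generator number `i` -/
def ia (i : Fin 2) : F2 := gen (i, true)

theorem ia_pow_inv_injective (i : Fin 2) : Function.Injective fun k : ℕ => (ia i ^ k)⁻¹ := by
  let φ : F2 →* Multiplicative ℤ := FreeGroup.lift fun _ => Multiplicative.ofAdd 1
  have hφ : φ (ia i) = Multiplicative.ofAdd 1 := by
    have h0 : ia i = FreeGroup.of i := rfl
    rw [h0]
    simp [φ]
  intro k l h
  have h1 : ia i ^ k = ia i ^ l := inv_injective h
  have h2 := congrArg φ h1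
  rw [map_pow, map_pow, hφ, ← ofAdd_nsmul, ← ofAdd_nsmul] at h2
  have h3 := Multiplicative.ofAdd.injective h2
  simpa using h3

/-- the first marked vertex behind `ω` is at odd distance -/
def IT (n : ℕ) (i : Fin 2) : Set Om :=
  {ω | ∃ k : ℕ, Odd k ∧ IMk n ((ia i ^ k)⁻¹ • ω) ∧ ∀ j < k, ¬ IMk n ((ia i ^ j)⁻¹ • ω)}

theorem ia_cancel (i : Fin 2) (k : ℕ) (ω : Om) :
    (ia i ^ (k + 1))⁻¹ • (ia i • ω) = (ia i ^ k)⁻¹ • ω := by
  rw [← mul_smul, pow_succ', mul_inv_rev, inv_mul_cancel_right]

theorem first_unique {P : ℕ → Prop} {k l : ℕ} (hk : P k) (hk' : ∀ j < k, ¬ P j) (hl : P l)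
    (hl' : ∀ j < l, ¬ P j) : k = l := by
  rcases lt_trichotomy k l with h | h | h
  · exact absurd hk (hl' k h)
  · exact h
  · exact absurd hl (hk' l h)

theorem mem_IT_smul {n : ℕ} {i : Fin 2} {ω : Om} (h0 : ¬ IMk n (ia i • ω))
    (h1 : ∃ k : ℕ, IMk n ((ia i ^ k)⁻¹ • ω)) : ia i • ω ∈ IT n i ↔ ω ∉ IT n i := by
  classical
  obtain ⟨k, hk, hk'⟩ : ∃ k : ℕ, IMk n ((ia i ^ k)⁻¹ • ω) ∧
      ∀ j < k, ¬ IMk n ((ia i ^ j)⁻¹ • ω) :=
    ⟨Nat.find h1, Nat.find_spec h1, fun j hj => Nat.find_min h1 hj⟩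
  have e1 : ω ∈ IT n i ↔ Odd k := by
    constructor
    · rintro ⟨l, hl, hl1, hl2⟩
      have := first_unique (P := fun j => IMk n ((ia i ^ j)⁻¹ • ω)) hk hk' hl1 hl2
      rw [this]
      exact hl
    · intro h
      exact ⟨k, h, hk, hk'⟩
  have e2 : ia i • ω ∈ IT n i ↔ Odd (k + 1) := by
    have hk2 : IMk n ((ia i ^ (k + 1))⁻¹ • (ia i • ω)) := by
      rw [ia_cancel]
      exact hk
    have hk3 : ∀ j < k + 1, ¬ IMk n ((ia i ^ j)⁻¹ • (ia i • ω)) := by
      intro j hj
      cases j with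
      | zero =>
        rw [pow_zero, inv_one, one_smul]
        exact h0
      | succ j =>
        rw [ia_cancel]
        exact hk' j (by omega)
    constructor
    · rintro ⟨l, hl, hl1, hl2⟩
      have := first_unique (P := fun j => IMk n ((ia i ^ j)⁻¹ • (ia i • ω))) hk2 hk3 hl1 hl2
      rw [this]
      exact hl
    · intro h
      exact ⟨k + 1, h, hk2, hk3⟩
  rw [e1, e2, Nat.odd_add_one]

/-- the labels -/
def ilab (t : Bool × Bool) (s : S) : Fin 4 :=
  if s.1 = 0 then (if s.2 = t.1 then 3 else 0) else (if s.2 = t.2 then 2 else 1)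

theorem ilab_bij : ∀ t : Bool × Bool, Function.Bijective (ilab t) := by decide

/-- the labelling with given status of the two lines -/
noncomputable def iBj (t : Bool × Bool) : Bj := Equiv.ofBijective (ilab t) (ilab_bij t)

theorem iBj_apply (t : Bool × Bool) (s : S) : iBj t s = ilab t s := rfl

open Classical in
/-- the status of the two lines -/
noncomputable def ist (n : ℕ) (ω : Om) : Bool × Bool :=
  (decide (ω ∈ IT n 0), decide (ω ∈ IT n 1))

theorem cons_iBj {n : ℕ} {i : Fin 2} {ω : Om} (h : ia i • ω ∈ IT n i ↔ ω ∉ IT n i) :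
    Cons (fun ω => iBj (ist n ω)) ω (i, true) := by
  classical
  unfold Cons oth
  simp only [iBj_apply, sinv, ilab, ist]
  have hg : gen (i, true) = ia i := rfl
  rw [hg]
  fin_cases i
  · simp only [Fin.zero_eta, Fin.isValue] at h ⊢
    by_cases h1 : ω ∈ IT n 0
    · have h2 : ia 0 • ω ∉ IT n 0 := fun h3 => h.1 h3 h1
      simp [h1, h2]
    · have h2 : ia 0 • ω ∈ IT n 0 := h.2 h1
      simp [h1, h2]
  · simp only [Fin.mk_one, Fin.isValue] at h ⊢
    by_cases h1 : ω ∈ IT n 1
    · have h2 : ia 1 • ω ∉ IT n 1 := fun h3 => h.1 h3 h1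
      simp [h1, h2]
    · have h2 : ia 1 • ω ∈ IT n 1 := h.2 h1
      simp [h1, h2]

theorem measurableSet_iMk (n : ℕ) (g : F2) : MeasurableSet {ω : Om | IMk n (g • ω)} := by
  have h : {ω : Om | IMk n (g • ω)} = ⋂ i ∈ Finset.range n, {ω : Om | bit ω i g = true} := by
    ext ω
    simp only [iMk_smul, Set.mem_iInter, Finset.mem_range]
    rfl
  rw [h]
  refine Finset.measurableSet_biInter _ fun i _ => ?_
  exact measurable_bit i g (MeasurableSet.singleton true)

theorem measurableSet_IT (n : ℕ) (i : Fin 2) : MeasurableSet (IT n i) := by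
  have h : IT n i = ⋃ k : ℕ, ⋃ _ : Odd k, ({ω : Om | IMk n ((ia i ^ k)⁻¹ • ω)} ∩
      ⋂ j ∈ Finset.range k, {ω : Om | IMk n ((ia i ^ j)⁻¹ • ω)}ᶜ) := by
    ext ω
    simp only [IT, Set.mem_iUnion, Set.mem_inter_iff, Set.mem_iInter, Finset.mem_range,
      Set.mem_compl_iff]
    constructor
    · rintro ⟨k, h1, h2, h3⟩
      exact ⟨k, h1, h2, h3⟩
    · rintro ⟨k, h1, h2, h3⟩
      exact ⟨k, h1, h2, h3⟩
  rw [h]
  refine MeasurableSet.iUnion fun k => MeasurableSet.iUnion fun _ => ?_
  refine (measurableSet_iMk n _).inter (Finset.measurableSet_biInter _ fun j _ => ?_)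
  exact (measurableSet_iMk n _).compl

theorem measurable_iπ (n : ℕ) : Measurable fun ω : Om => iBj (ist n ω) := by
  have h1 : Measurable (ist n) := by
    refine Measurable.prodMk ?_ ?_
    · refine measurable_to_bool ?_
      have h : (fun ω : Om => (ist n ω).1) ⁻¹' {true} = IT n 0 := by
        ext ω
        simp [ist]
      have h' : MeasurableSet ((fun ω : Om => (ist n ω).1) ⁻¹' {true}) := by
        rw [h]
        exact measurableSet_IT n 0
      exact h'
    · refine measurable_to_bool ?_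
      have h : (fun ω : Om => (ist n ω).2) ⁻¹' {true} = IT n 1 := by
        ext ω
        simp [ist]
      have h' : MeasurableSet ((fun ω : Om => (ist n ω).2) ⁻¹' {true}) := by
        rw [h]
        exact measurableSet_IT n 1
      exact h'
  exact (measurable_of_countable iBj).comp h1

theorem real_iMk (n : ℕ) (g : F2) : coinOm.real {ω | IMk n (g • ω)} = (1 / 2) ^ n := by
  have h1 := real_unmarked n {g}
  have h2 : {ω : Om | ∀ g' ∈ ({g} : Finset F2), ¬ ∀ i < n, bit ω i g' = true} =
      {ω : Om | IMk n (g • ω)}ᶜ := by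
    ext ω
    rw [Set.mem_compl_iff]
    constructor
    · intro h h'
      exact h g (Finset.mem_singleton_self g) ((iMk_smul n g ω).1 h')
    · intro h g' hg' h'
      rw [Finset.mem_singleton] at hg'
      subst hg'
      exact h ((iMk_smul n g' ω).2 h')
  rw [h2, Finset.card_singleton, pow_one, probReal_compl_eq_one_sub (measurableSet_iMk n g)] at h1
  linarith

theorem real_none (n : ℕ) (i : Fin 2) (K : ℕ) :
    coinOm.real {ω : Om | ∀ k < K, ¬ IMk n ((ia i ^ k)⁻¹ • ω)} = (1 - (1 / 2) ^ n) ^ K := by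
  classical
  have h1 := real_unmarked n ((Finset.range K).image fun k => (ia i ^ k)⁻¹)
  rw [Finset.card_image_of_injective _ (ia_pow_inv_injective i), Finset.card_range] at h1
  rw [← h1]
  congr 1
  ext ω
  constructor
  · intro h g hg
    rw [Finset.mem_image] at hg
    obtain ⟨k, hk, rfl⟩ := hg
    have := h k (Finset.mem_range.1 hk)
    rwa [iMk_smul] at this
  · intro h k hk
    rw [iMk_smul]
    exact h _ (Finset.mem_image.2 ⟨k, Finset.mem_range.2 hk, rfl⟩)

theorem exists_initial {δ : ℝ} (hδ : 0 < δ) :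
    ∃ π : Om → Bj, Measurable π ∧ err coinOm π ≤ δ := by
  obtain ⟨n, hn⟩ := exists_pow_lt_of_lt_one (show 0 < δ / 8 by positivity)
    (show (1 / 2 : ℝ) < 1 by norm_num)
  obtain ⟨K, hK⟩ := exists_pow_lt_of_lt_one (show (0 : ℝ) < (1 / 2) ^ n by positivity)
    (show 1 - (1 / 2 : ℝ) ^ n < 1 by
      have : (0 : ℝ) < (1 / 2) ^ n := by positivity
      linarith)
  have hm : Measurable fun ω : Om => iBj (ist n ω) := measurable_iπ n
  refine ⟨fun ω => iBj (ist n ω), hm, ?_⟩
  have h1 : ∀ i : Fin 2, coinOm.real {ω | ¬ Cons (fun ω => iBj (ist n ω)) ω (i, true)} ≤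
      2 * (1 / 2) ^ n := by
    intro i
    have hsub : {ω | ¬ Cons (fun ω => iBj (ist n ω)) ω (i, true)} ⊆
        {ω : Om | IMk n (ia i • ω)} ∪ {ω : Om | ∀ k < K, ¬ IMk n ((ia i ^ k)⁻¹ • ω)} := by
      intro ω hω
      by_contra hc
      apply hω
      rw [Set.mem_union, not_or] at hc
      obtain ⟨hc1, hc2⟩ := hc
      have hc2' : ¬ ∀ k < K, ¬ IMk n ((ia i ^ k)⁻¹ • ω) := hc2
      push Not at hc2'
      obtain ⟨k, -, hk⟩ := hc2'
      exact cons_iBj (mem_IT_smul hc1 ⟨k, hk⟩)
    refine (measureReal_mono hsub).trans ((measureReal_union_le _ _).trans ?_)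
    rw [real_iMk, real_none]
    linarith
  have h2 : ∀ s : S, coinOm.real {ω | ¬ Cons (fun ω => iBj (ist n ω)) ω s} ≤
      2 * (1 / 2) ^ n := by
    rintro ⟨i, b⟩
    cases b with
    | true => exact h1 i
    | false =>
      have h3 : {ω | ¬ Cons (fun ω => iBj (ist n ω)) ω (i, false)} =
          (fun ω => gen (i, false) • ω) ⁻¹'
            {ω | ¬ Cons (fun ω => iBj (ist n ω)) ω (i, true)} := by
        ext ω
        have h4 := cons_symm_iff (π := fun ω => iBj (ist n ω)) (x := ω) (s := (i, false))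
        exact (not_congr h4).symm
      have h5 : MeasurableSet {ω | ¬ Cons (fun ω => iBj (ist n ω)) ω (i, true)} :=
        (measurableSet_cons measurable_smul_Om hm (i, true)).compl
      rw [h3, (isPMP_coinOm.mp (gen (i, false))).measureReal_preimage h5.nullMeasurableSet]
      exact h1 i
  unfold err
  refine (Finset.sum_le_card_nsmul _ _ _ fun s _ => h2 s).trans ?_
  have h5 : (Finset.univ : Finset S).card = 4 := by decide
  rw [h5, nsmul_eq_mul]
  push_cast
  linarith

end Pool.Agent.W_MP_ae868b_lc
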