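import Pool.Agent.W_MP_ae868b_lc.Stage
import Pool.Agent.W_MP_ae868b_lc.Init

/-!
# The limit: a perfect configuration on the label space (task L)

PROOF. Start with `π_0`, `err π_0 ≤ 12^{-5}` (`exists_initial`). If some `π_n` has `err = 0` we are
done. Otherwise use `stage` with `δ = 2^{-n}` to get `π_{n+1}`. `ρ_n = err π_n` is decreasing with
`ρ_{n+1} ≤ ρ_n - ρ_n²/10^6`, so `ρ_n → 0`. `∑ coinOm {π_{n+1} ≠ π_n} ≤ C ρ_0^{1/5} + 2 < ∞`, so by
Borel-Cantelli (`MeasureTheory.measure_limsup_eq_zero` / `ae_eventually_notMem`) almost surely `π_n ω` is eventually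
constant; let `π ω` be the eventual value (a fixed value elsewhere), measurable; and
`μ {π ≠ π_n} → 0`. `|err π - err π_n| ≤ 8 μ {π ≠ π_n}` (`{Cons π · s} Δ {Cons π_n · s} ⊆ {π ≠ π_n} ∪ (gen s)⁻¹ {π ≠ π_n}`),
so `err π = 0`.
-/

open MeasureTheory

namespace Pool.Agent.W_MP_ae868b_lc

theorem measurableSet_ne_cfg {X : Type*} [MeasurableSpace X] {π π' : X → Bj}
    (hπ : Measurable π) (hπ' : Measurable π') : MeasurableSet {x | π x ≠ π' x} := by
  have h : {x | π x ≠ π' x} = (⋃ b : Bj, π ⁻¹' {b} ∩ π' ⁻¹' {b})ᶜ := by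
    ext x
    simp only [Set.mem_ofPred_eq, Set.mem_compl_iff, Set.mem_iUnion, Set.mem_inter_iff,
      Set.mem_preimage, Set.mem_singleton_iff, not_exists, not_and]
    constructor
    · intro h b hb hb'
      exact h (hb.trans hb'.symm)
    · intro h hx
      exact h (π x) rfl hx.symm
  rw [h]
  refine (MeasurableSet.iUnion fun b => ?_).compl
  exact (hπ (measurableSet_singleton b)).inter (hπ' (measurableSet_singleton b))

theorem err_nonneg' {X : Type*} [MeasurableSpace X] [MulAction F2 X] (μ : Measure X)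
    (π : X → Bj) : 0 ≤ err μ π :=
  Finset.sum_nonneg fun _ _ => measureReal_nonneg

theorem err_le_add {X : Type*} [MeasurableSpace X] [MulAction F2 X] {μ : Measure X}
    (hμ : IsPMP μ) {π π' : X → Bj} (hπ : Measurable π) (hπ' : Measurable π') :
    err μ π ≤ err μ π' + 8 * μ.real {x | π x ≠ π' x} := by
  have := hμ.prob
  set D : Set X := {x | π x ≠ π' x} with hD
  have hDm : MeasurableSet D := measurableSet_ne_cfg hπ hπ'
  have key : ∀ s : S, μ.real {x | ¬ Cons π x s} ≤ μ.real {x | ¬ Cons π' x s} + 2 * μ.real D := by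
    intro s
    have hsub : {x | ¬ Cons π x s} ⊆
        ({x | ¬ Cons π' x s} ∪ D) ∪ (fun x => gen s • x) ⁻¹' D := by
      intro x hx
      by_contra hcon
      simp only [Set.mem_union, not_or, Set.mem_ofPred_eq, Set.mem_preimage, not_not, hD] at hcon
      obtain ⟨⟨h1, h2⟩, h3⟩ := hcon
      apply hx
      unfold Cons oth at h1 ⊢
      rw [h2, h3]
      exact h1
    have hpre : μ.real ((fun x => gen s • x) ⁻¹' D) = μ.real D := by
      unfold Measure.real
      rw [(hμ.mp (gen s)).measure_preimage hDm.nullMeasurableSet]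
    calc μ.real {x | ¬ Cons π x s}
        ≤ μ.real (({x | ¬ Cons π' x s} ∪ D) ∪ (fun x => gen s • x) ⁻¹' D) :=
          measureReal_mono hsub
      _ ≤ μ.real ({x | ¬ Cons π' x s} ∪ D) + μ.real ((fun x => gen s • x) ⁻¹' D) :=
          measureReal_union_le _ _
      _ ≤ (μ.real {x | ¬ Cons π' x s} + μ.real D) + μ.real D := by
          rw [hpre]
          gcongr
          exact measureReal_union_le _ _
      _ = _ := by ring
  have hcard : (Finset.univ : Finset S).card = 4 := by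
    simp [S]
  unfold err
  calc ∑ s : S, μ.real {x | ¬ Cons π x s}
      ≤ ∑ s : S, (μ.real {x | ¬ Cons π' x s} + 2 * μ.real D) :=
        Finset.sum_le_sum fun s _ => key s
    _ = ∑ s : S, μ.real {x | ¬ Cons π' x s} + 8 * μ.real D := by
        rw [Finset.sum_add_distrib, Finset.sum_const, hcard]
        simp only [nsmul_eq_mul]
        push_cast
        ring

theorem abs_err_sub_le {X : Type*} [MeasurableSpace X] [MulAction F2 X] {μ : Measure X}
    (hμ : IsPMP μ) {π π' : X → Bj} (hπ : Measurable π) (hπ' : Measurable π') :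
    |err μ π - err μ π'| ≤ 8 * μ.real {x | π x ≠ π' x} := by
  have h1 := err_le_add hμ hπ hπ'
  have h2 := err_le_add hμ hπ' hπ
  have h3 : {x | π' x ≠ π x} = {x | π x ≠ π' x} := by
    ext x
    exact ne_comm
  rw [h3] at h2
  rw [abs_le]
  constructor <;> linarith

/-- one step of the induction, also for `err = 0` -/
theorem exists_step : ∃ C : ℝ, 0 < C ∧ ∀ π : Om → Bj, Measurable π →
    err coinOm π ≤ (1 / 12) ^ 5 → ∀ δ : ℝ, 0 < δ →
    ∃ π' : Om → Bj, Measurable π' ∧
      err coinOm π' ≤ err coinOm π - (err coinOm π) ^ 2 / 1000000 ∧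
      coinOm.real {ω | π' ω ≠ π ω} ≤
        C * ((err coinOm π) ^ (1 / 5 : ℝ) - (err coinOm π') ^ (1 / 5 : ℝ)) + δ := by
  obtain ⟨C, hC, h⟩ := stage
  refine ⟨C, hC, fun π hπ hle δ hδ => ?_⟩
  rcases eq_or_lt_of_le (err_nonneg' coinOm π) with h0 | h0
  · refine ⟨π, hπ, ?_, ?_⟩
    · rw [← h0]
      norm_num
    · have h1 : {ω : Om | π ω ≠ π ω} = ∅ := by
        ext ω
        simp
      rw [h1, sub_self, mul_zero, zero_add, measureReal_empty]
      exact hδ.le
  · exact h π hπ h0 hle δ hδ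

/-- limits of configurations with summable changes -/
theorem exists_limit_cfg {X : Type*} [MeasurableSpace X] (μ : Measure X) (p : ℕ → X → Bj)
    (hp : ∀ n, Measurable (p n)) :
    ∃ π : X → Bj, Measurable π ∧
      ∀ n, μ {x | π x ≠ p n x} ≤ ∑' k, μ {x | p (k + n + 1) x ≠ p (k + n) x} := by
  classical
  have hcountable : Countable Bj := Finite.to_countable
  let E : Bj → Set X := fun b => {x | ∃ N, ∀ n, N ≤ n → p n x = b}
  have hEm : ∀ b, MeasurableSet (E b) := by
    intro b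
    have : E b = ⋃ N : ℕ, ⋂ n : ℕ, ⋂ _ : N ≤ n, p n ⁻¹' {b} := by
      ext x
      simp [E]
    rw [this]
    exact MeasurableSet.iUnion fun N => MeasurableSet.iInter fun n =>
      MeasurableSet.iInter fun _ => hp n (measurableSet_singleton b)
  have huniq : ∀ x b b', x ∈ E b → x ∈ E b' → b = b' := by
    rintro x b b' ⟨N, hN⟩ ⟨N', hN'⟩
    rw [← hN (max N N') (le_max_left _ _), hN' (max N N') (le_max_right _ _)]
  let π : X → Bj := fun x => if h : ∃ b, x ∈ E b then h.choose else p 0 x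
  have hπE : ∀ x b, x ∈ E b → π x = b := by
    intro x b hb
    have h : ∃ b, x ∈ E b := ⟨b, hb⟩
    have : π x = h.choose := dif_pos h
    rw [this]
    exact huniq x _ _ h.choose_spec hb
  have hπm : Measurable π := by
    refine measurable_to_countable' fun b => ?_
    have : π ⁻¹' {b} = E b ∪ (p 0 ⁻¹' {b} ∩ (⋃ b', E b')ᶜ) := by
      ext x
      simp only [Set.mem_preimage, Set.mem_singleton_iff, Set.mem_union, Set.mem_inter_iff,
        Set.mem_compl_iff, Set.mem_iUnion]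
      by_cases h : ∃ b, x ∈ E b
      · obtain ⟨b', hb'⟩ := h
        rw [hπE x b' hb']
        constructor
        · rintro rfl
          exact Or.inl hb'
        · rintro (h1 | h1)
          · exact huniq x _ _ hb' h1
          · exact absurd ⟨b', hb'⟩ h1.2
      · have : π x = p 0 x := dif_neg h
        rw [this]
        constructor
        · intro h1
          exact Or.inr ⟨h1, h⟩
        · rintro (h1 | h1)
          · exact absurd ⟨b, h1⟩ h
          · exact h1.1
    rw [this]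
    exact (hEm b).union ((hp 0 (measurableSet_singleton b)).inter
      (MeasurableSet.iUnion hEm).compl)
  refine ⟨π, hπm, fun n => ?_⟩
  have hsub : {x | π x ≠ p n x} ⊆ ⋃ k, {x | p (k + n + 1) x ≠ p (k + n) x} := by
    intro x hx
    by_contra hcon
    simp only [Set.mem_iUnion, Set.mem_ofPred_eq, not_exists, not_not] at hcon
    apply hx
    apply hπE
    refine ⟨n, fun m hm => ?_⟩
    obtain ⟨k, rfl⟩ := Nat.exists_eq_add_of_le hm
    clear hm
    induction k with
    | zero => rfl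
    | succ k ih =>
      have := hcon k
      rw [show n + (k + 1) = k + n + 1 by ring, this, show k + n = n + k by ring, ih]
  exact (measure_mono hsub).trans (measure_iUnion_le _)

theorem tendsto_zero_of_sq {ρ : ℕ → ℝ} (h0 : ∀ n, 0 ≤ ρ n)
    (h : ∀ n, ρ (n + 1) ≤ ρ n - ρ n ^ 2 / 1000000) :
    Filter.Tendsto ρ Filter.atTop (nhds 0) := by
  have hanti : Antitone ρ := antitone_nat_of_succ_le fun n => by
    have := h n
    have h2 : 0 ≤ ρ n ^ 2 / 1000000 := by positivity
    linarith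
  have hbdd : BddBelow (Set.range ρ) := ⟨0, by rintro _ ⟨n, rfl⟩; exact h0 n⟩
  have hlim := tendsto_atTop_ciInf hanti hbdd
  set L := ⨅ n, ρ n with hL
  have hlim1 : Filter.Tendsto (fun n => ρ (n + 1)) Filter.atTop (nhds L) :=
    hlim.comp (Filter.tendsto_add_atTop_nat 1)
  have hlim2 : Filter.Tendsto (fun n => ρ n - ρ n ^ 2 / 1000000) Filter.atTop
      (nhds (L - L ^ 2 / 1000000)) := hlim.sub ((hlim.pow 2).div_const _)
  have hle : L ≤ L - L ^ 2 / 1000000 := le_of_tendsto_of_tendsto' hlim1 hlim2 h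
  have hL0 : L = 0 := by
    have : L ^ 2 ≤ 0 := by linarith
    nlinarith
  rwa [hL0] at hlim

theorem exists_perfect : ∃ π : Om → Bj, Measurable π ∧ err coinOm π = 0 := by
  obtain ⟨C, hC, hstep⟩ := exists_step
  obtain ⟨π0, hπ0, hπ0e⟩ := exists_initial (δ := (1 / 12) ^ 5) (by positivity)
  -- the sequence
  let T : Type := {π : Om → Bj // Measurable π ∧ err coinOm π ≤ (1 / 12) ^ 5}
  have hnext : ∀ (n : ℕ) (t : T), ∃ t' : T,
      err coinOm t'.1 ≤ err coinOm t.1 - (err coinOm t.1) ^ 2 / 1000000 ∧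
      coinOm.real {ω | t'.1 ω ≠ t.1 ω} ≤
        C * ((err coinOm t.1) ^ (1 / 5 : ℝ) - (err coinOm t'.1) ^ (1 / 5 : ℝ)) +
          (1 / 2) ^ n := by
    intro n t
    obtain ⟨π', h1, h2, h3⟩ := hstep t.1 t.2.1 t.2.2 ((1 / 2) ^ n) (by positivity)
    refine ⟨⟨π', h1, ?_⟩, h2, h3⟩
    have : 0 ≤ (err coinOm t.1) ^ 2 / 1000000 := by positivity
    linarith [t.2.2]
  choose nx hnx1 hnx2 using hnext
  let q : ℕ → T := fun n => Nat.rec ⟨π0, hπ0, hπ0e⟩ (fun k t => nx k t) n
  have hq : ∀ n, q (n + 1) = nx n (q n) := fun n => rfl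
  let ρ : ℕ → ℝ := fun n => err coinOm (q n).1
  have hρ0 : ∀ n, 0 ≤ ρ n := fun n => err_nonneg' _ _
  have hρ1 : ∀ n, ρ (n + 1) ≤ ρ n - ρ n ^ 2 / 1000000 := fun n => hnx1 n (q n)
  have hρlim := tendsto_zero_of_sq hρ0 hρ1
  have hms : ∀ n, coinOm.real {ω | (q (n + 1)).1 ω ≠ (q n).1 ω} ≤
      C * (ρ n ^ (1 / 5 : ℝ) - ρ (n + 1) ^ (1 / 5 : ℝ)) + (1 / 2) ^ n := fun n => hnx2 n (q n)
  have hpmp : IsPMP coinOm := isPMP_coinOm
  have : IsProbabilityMeasure coinOm := hpmp.prob
  -- partial sums are bounded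
  have hsum : ∀ N, ∑ n ∈ Finset.range N, coinOm.real {ω | (q (n + 1)).1 ω ≠ (q n).1 ω} ≤
      C * ρ 0 ^ (1 / 5 : ℝ) + 2 := by
    intro N
    calc ∑ n ∈ Finset.range N, coinOm.real {ω | (q (n + 1)).1 ω ≠ (q n).1 ω}
        ≤ ∑ n ∈ Finset.range N,
            (C * (ρ n ^ (1 / 5 : ℝ) - ρ (n + 1) ^ (1 / 5 : ℝ)) + (1 / 2) ^ n) :=
          Finset.sum_le_sum fun n _ => hms n
      _ = C * (ρ 0 ^ (1 / 5 : ℝ) - ρ N ^ (1 / 5 : ℝ)) +
            ∑ n ∈ Finset.range N, (1 / 2 : ℝ) ^ n := by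
          rw [Finset.sum_add_distrib, ← Finset.mul_sum, Finset.sum_range_sub']
      _ ≤ C * ρ 0 ^ (1 / 5 : ℝ) + 2 := by
          have h1 : 0 ≤ ρ N ^ (1 / 5 : ℝ) := Real.rpow_nonneg (hρ0 N) _
          have h2 : ∑ n ∈ Finset.range N, (1 / 2 : ℝ) ^ n ≤ 2 := by
            rw [geom_sum_eq (by norm_num), div_le_iff_of_neg (by norm_num)]
            have : (0 : ℝ) ≤ (1 / 2) ^ N := by positivity
            linarith
          nlinarith
  have hsummable : Summable fun n => coinOm.real {ω | (q (n + 1)).1 ω ≠ (q n).1 ω} :=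
    summable_of_sum_range_le (fun n => measureReal_nonneg) hsum
  have hfin : ∑' n, coinOm {ω | (q (n + 1)).1 ω ≠ (q n).1 ω} ≠ ⊤ := by
    have h1 : ∀ n, coinOm {ω | (q (n + 1)).1 ω ≠ (q n).1 ω} =
        ENNReal.ofReal (coinOm.real {ω | (q (n + 1)).1 ω ≠ (q n).1 ω}) := by
      intro n
      rw [ofReal_measureReal]
    simp_rw [h1]
    exact hsummable.tsum_ofReal_ne_top
  obtain ⟨π, hπ, hπn⟩ := exists_limit_cfg coinOm (fun n => (q n).1) (fun n => (q n).2.1)
  refine ⟨π, hπ, ?_⟩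
  have htail : Filter.Tendsto (fun n => coinOm.real {ω | π ω ≠ (q n).1 ω}) Filter.atTop
      (nhds 0) := by
    have h1 : Filter.Tendsto
        (fun n => ∑' k, coinOm {ω | (q (k + n + 1)).1 ω ≠ (q (k + n)).1 ω}) Filter.atTop
        (nhds 0) :=
      ENNReal.tendsto_sum_nat_add (fun n => coinOm {ω | (q (n + 1)).1 ω ≠ (q n).1 ω}) hfin
    have h2 : Filter.Tendsto (fun n => coinOm {ω | π ω ≠ (q n).1 ω}) Filter.atTop (nhds 0) :=
      tendsto_of_tendsto_of_tendsto_of_le_of_le tendsto_const_nhds h1 (fun _ => zero_le) hπn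
    have h3 := (ENNReal.tendsto_toReal ENNReal.zero_ne_top).comp h2
    rw [ENNReal.toReal_zero] at h3
    exact h3
  have herr : Filter.Tendsto (fun n => ρ n + 8 * coinOm.real {ω | π ω ≠ (q n).1 ω})
      Filter.atTop (nhds (0 + 8 * 0)) := hρlim.add (htail.const_mul 8)
  have hle : err coinOm π ≤ 0 + 8 * 0 :=
    ge_of_tendsto' herr fun n => err_le_add hpmp hπ (q n).2.1
  have hge := err_nonneg' coinOm π
  linarith

end Pool.Agent.W_MP_ae868b_lc
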