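import Pool.Agent.W_MP_ae868b_lc.Words
import Pool.Agent.W_MP_ae868b_lc.CoinB

/-!
# Cutting the lines by independent rare marks (task M6)

PROOF. Let `n` be large and call `y = (x, ω)` marked if `bit ω i 1 = true` for all `i < n`
(probability `2^{-n}`; the vertex `g • y` is marked iff `bit ω i g = true` for all `i < n`). Put
`E r y s` : `ERole (fun y => π y.1) r y s` and neither `y` nor `gen s • y` is marked; symmetric, measurable.
Claim: for each fixed `x` and `r`, for almost every `ω` the component `comp (E r) (x, ω)` is finite.
If it is infinite then for every `k` it contains an element `g` with `g.toWord.length = k` (`Reach`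
along the reduced word `reach_iff`; take an element with word length `≥ k` and cut its word: tails
of the word are also paths), and all the `k + 1` vertices of the path are unmarked (for `k ≥ 1`). The
vertices `mk (suffix)` of a reduced word are distinct, so for a fixed `g` this has probability
`(1 - 2^{-n})^{k+1}` (`real_unmarked`). The number of `g` with `g.toWord.length = k` reachable from `x`
through `ERole` edges is at most `2`: by induction on `k ≥ 1` the reduced words of
`ERole`-paths of length `k` are at most `2`: the first letter (last entry of the list) has a label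
in `{lab0 r, lab1 r}` at `x`: two choices; each further letter is determined: it is a flag with label in
`{lab0 r, lab1 r}` different from the inverse of the previous letter, which also has such a
label (second part of `ERole`). So the probability of an infinite component is
`≤ 2 (1 - 2^{-n})^{k+1}` for all `k`, i.e. `0`.
Hence `(μ.prod coinOm) {y | N < encard (comp (E r) y)} → 0` as `N → ∞` (decreasing measurable sets
with null intersection); choose `N` with measure `≤ δ'` for both `r`, and let `P r` be the pieces of
`exists_compPieces (E r) N`. Pieces are contained in components of `E r`, hence of `ERole`.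
If `y ∈ CutV` then for some `r, s`: `ERole .. r y s` and `gen s ∉ (P r).P y`: then `y` or `gen s • y`
is marked, or `encard (comp (E r) y) > N` (otherwise `gen s ∈ comp (E r) y = (P r).P y`). So
`(μ.prod coinOm).real (CutV) ≤ 5 · 2^{-n} + 2 δ' ≤ δ` for suitable `n`, `δ'`.
-/

open MeasureTheory

namespace Pool.Agent.W_MP_ae868b_lc

namespace MarksAux

/-- the labelling marks its base vertex -/
def Mk (n : ℕ) (ω : Om) : Prop := ∀ i < n, bit ω i 1 = true

theorem mk_smul (n : ℕ) (g : F2) (ω : Om) : Mk n (g • ω) ↔ ∀ i < n, bit ω i g = true := by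
  unfold Mk
  simp only [bit_smul, one_mul]

/-- the suffixes of a word, as group elements -/
def suf : List S → Finset F2
  | [] => {1}
  | s :: w => insert (FreeGroup.mk (s :: w)) (suf w)

theorem suf_length {w : List S} (hw : FreeGroup.IsReduced w) :
    ∀ g ∈ suf w, g.toWord.length ≤ w.length := by
  induction w with
  | nil =>
    intro g hg
    have : g = 1 := by simpa [suf] using hg
    subst this
    simp
  | cons s w ih =>
    intro g hg
    have hw' : FreeGroup.IsReduced w := List.IsChain.tail hw
    rcases Finset.mem_insert.mp hg with h | h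
    · rw [h, toWord_mk_of_isReduced hw]
    · exact (ih hw' g h).trans (by simp)

theorem card_suf {w : List S} (hw : FreeGroup.IsReduced w) : (suf w).card = w.length + 1 := by
  induction w with
  | nil => simp [suf]
  | cons s w ih =>
    have hw' : FreeGroup.IsReduced w := List.IsChain.tail hw
    have h1 : (FreeGroup.mk (s :: w) : F2) ∉ suf w := by
      intro h
      have := suf_length hw' _ h
      rw [toWord_mk_of_isReduced hw] at this
      simp at this
    change (insert (FreeGroup.mk (s :: w)) (suf w)).card = _
    rw [Finset.card_insert_of_notMem h1, ih hw']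
    simp

section

variable {X : Type*} [MulAction F2 X]

/-- role edges with unmarked ends -/
def EM (π : X → Bj) (n : ℕ) (r : Bool) (y : X × Om) (s : S) : Prop :=
  ERole (fun y : X × Om => π y.1) r y s ∧ ¬ Mk n y.2 ∧ ¬ Mk n (gen s • y).2

theorem esymm_EM (π : X → Bj) (n : ℕ) (r : Bool) : ESymm (EM π n r) := by
  intro y s h
  refine ⟨esymm_ERole _ r y s h.1, h.2.2, ?_⟩
  rw [sinv_smul_smul]
  exact h.2.1

theorem epath_fst {π : X → Bj} {n : ℕ} {r : Bool} {y : X × Om} {w : List S}
    (h : EPath (EM π n r) y w) : EPath (ERole π r) y.1 w := by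
  induction w with
  | nil => trivial
  | cons s w ih => exact ⟨ih h.1, h.2.1⟩

theorem epath_not_mk {π : X → Bj} {n : ℕ} {r : Bool} {y : X × Om} {w : List S} (hne : w ≠ [])
    (h : EPath (EM π n r) y w) : ∀ g ∈ suf w, ¬ Mk n (g • y).2 := by
  induction w with
  | nil => exact absurd rfl hne
  | cons s w ih =>
    intro g hg
    have h3 : ¬ Mk n (FreeGroup.mk w • y).2 := h.2.2.1
    have h4 : ¬ Mk n (gen s • FreeGroup.mk w • y).2 := h.2.2.2
    rcases Finset.mem_insert.mp hg with hg | hg
    · rw [hg, mk_cons, mul_smul]
      exact h4
    · by_cases hw : w = []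
      · subst hw
        have : g = 1 := by simpa [suf] using hg
        subst this
        exact h3
      · exact ih hw h.1 g hg

/-- reduced words of role paths of length `k` -/
def Wk (π : X → Bj) (r : Bool) (k : ℕ) (x : X) : Set (List S) :=
  {w | FreeGroup.IsReduced w ∧ w.length = k ∧ EPath (ERole π r) x w}

theorem lab0_ne_lab1 (r : Bool) : lab0 r ≠ lab1 r := by
  cases r <;> simp [lab0, lab1]

theorem encard_Wk (π : X → Bj) (r : Bool) (k : ℕ) (x : X) : (Wk π r (k + 1) x).encard ≤ 2 := by
  induction k with
  | zero =>
    have hsub : Wk π r (0 + 1) x ⊆ {[(π x).symm (lab0 r)], [(π x).symm (lab1 r)]} := by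
      rintro w ⟨_, hlen, hp⟩
      obtain ⟨s, rfl⟩ := List.length_eq_one_iff.mp hlen
      have h1 : ERole π r (FreeGroup.mk [] • x) s := hp.2
      have h2 : (FreeGroup.mk [] : F2) • x = x := one_smul _ _
      rw [h2] at h1
      rcases h1.1 with h | h
      · left; rw [← h]; simp
      · right
        rw [Set.mem_singleton_iff, ← h]; simp
    refine (Set.encard_le_encard hsub).trans ?_
    refine (Set.encard_insert_le _ _).trans ?_
    rw [Set.encard_singleton]
    norm_num
  | succ k ih =>
    refine le_trans ?_ ih
    apply Set.encard_le_encard_of_injOn (f := List.tail)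
    · rintro w ⟨hr, hlen, hp⟩
      cases w with
      | nil => simp at hlen
      | cons s w =>
        refine ⟨List.IsChain.tail hr, ?_, hp.1⟩
        simpa using hlen
    · rintro w ⟨hr, hlen, hp⟩ w' ⟨hr', hlen', hp'⟩ heq
      obtain ⟨s, t, u, rfl⟩ : ∃ s t u, w = s :: t :: u := by
        match w, hlen with
        | [], h => simp at h
        | [_], h => simp at h
        | s :: t :: u, _ => exact ⟨s, t, u, rfl⟩
      obtain ⟨s', t', u', rfl⟩ : ∃ s t u, w' = s :: t :: u := by
        match w', hlen' with
        | [], h => simp at h
        | [_], h => simp at h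
        | s :: t :: u, _ => exact ⟨s, t, u, rfl⟩
      have h1 : t :: u = t' :: u' := heq
      obtain ⟨rfl, rfl⟩ := List.cons.inj h1
      have hst : s ≠ sinv t := by
        intro h
        have h2 := FreeGroup.isReduced_cons_cons.mp hr
        rw [h] at h2
        have h3 := h2.1 rfl
        unfold sinv at h3
        cases h4 : t.2 <;> simp [h4] at h3
      have hst' : s' ≠ sinv t := by
        intro h
        have h2 := FreeGroup.isReduced_cons_cons.mp hr'
        rw [h] at h2
        have h3 := h2.1 rfl
        unfold sinv at h3
        cases h4 : t.2 <;> simp [h4] at h3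
      have e1 : ERole π r (FreeGroup.mk (t :: u) • x) s := hp.2
      have e2 : ERole π r (FreeGroup.mk (t :: u) • x) s' := hp'.2
      have e3 : ERole π r (FreeGroup.mk u • x) t := hp.1.2
      have e4 := e3.2
      unfold oth at e4
      rw [← mul_smul, ← mk_cons] at e4
      set z : X := (FreeGroup.mk (t :: u) : F2) • x with hz
      have hs : s = s' := by
        apply (π z).injective
        have i1 : π z s ≠ π z (sinv t) := fun h => hst ((π z).injective h)
        have i2 : π z s' ≠ π z (sinv t) := fun h => hst' ((π z).injective h)
        rcases e1.1 with a | a <;> rcases e2.1 with b | b <;> rcases e4 with c | c <;>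
          rw [a, c] at i1 <;> rw [b, c] at i2 <;> first
          | exact absurd rfl i1
          | exact absurd rfl i2
          | rw [a, b]
      rw [hs]

theorem exists_word {E : X × Om → S → Prop} {y : X × Om} (h : (comp E y).Infinite) (k : ℕ) :
    ∃ w : List S, FreeGroup.IsReduced w ∧ w.length = k ∧ EPath E y w := by
  have hfin : {g : F2 | g.toWord.length < k}.Finite := by
    apply Set.Finite.of_injOn (f := FreeGroup.toWord) (t := {l : List S | l.length < k})
    · intro g hg
      exact hg
    · exact FreeGroup.toWord_injective.injOn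
    · exact List.finite_length_lt S k
  obtain ⟨g, hg, hlen⟩ := (h.sdiff hfin).nonempty
  have hlen' : k ≤ g.toWord.length := by
    by_contra hcon
    exact hlen (not_le.mp hcon)
  have hp : EPath E y g.toWord := reach_iff.mp hg
  refine ⟨g.toWord.drop (g.toWord.length - k), ?_, ?_, ?_⟩
  · exact List.IsChain.drop FreeGroup.isReduced_toWord _
  · rw [List.length_drop]
    omega
  · rw [← List.take_append_drop (g.toWord.length - k) g.toWord] at hp
    exact ((epath_append E y _ _).mp hp).1

theorem null_infinite_fiber (π : X → Bj) (n : ℕ) (r : Bool) (x : X) :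
    coinOm {ω | (comp (EM π n r) (x, ω)).Infinite} = 0 := by
  have hpn : (0 : ℝ) < (1 / 2) ^ n := by positivity
  have hpn1 : ((1 : ℝ) / 2) ^ n ≤ 1 := pow_le_one₀ (by norm_num) (by norm_num)
  have hb : ∀ k : ℕ, coinOm.real {ω | (comp (EM π n r) (x, ω)).Infinite} ≤
      2 * (1 - (1 / 2) ^ n) ^ k := by
    intro k
    have hfin : (Wk π r (k + 1) x).Finite := by
      apply Set.finite_of_encard_le_coe (k := 2)
      exact encard_Wk π r k x
    have hcard : hfin.toFinset.card ≤ 2 := by
      have h1 := encard_Wk π r k x
      rw [hfin.encard_eq_coe_toFinset_card] at h1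
      exact_mod_cast h1
    have hsub : {ω | (comp (EM π n r) (x, ω)).Infinite} ⊆
        ⋃ w ∈ hfin.toFinset, {ω : Om | ∀ g ∈ suf w, ¬ ∀ i < n, bit ω i g = true} := by
      intro ω hω
      obtain ⟨w, hw1, hw2, hw3⟩ := exists_word hω (k + 1)
      rw [Set.mem_iUnion₂]
      refine ⟨w, ?_, ?_⟩
      · rw [Set.Finite.mem_toFinset]
        exact ⟨hw1, hw2, epath_fst hw3⟩
      · intro g hg
        have hne : w ≠ [] := by
          intro h
          rw [h] at hw2
          simp at hw2
        have := epath_not_mk hne hw3 g hg
        rwa [Prod.smul_snd, mk_smul] at this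
    refine (measureReal_mono hsub (measure_ne_top _ _)).trans
      ((measureReal_biUnion_finset_le _ _).trans ?_)
    calc ∑ w ∈ hfin.toFinset, coinOm.real {ω : Om | ∀ g ∈ suf w, ¬ ∀ i < n, bit ω i g = true}
        ≤ ∑ w ∈ hfin.toFinset, (1 - (1 / 2) ^ n) ^ k := by
          apply Finset.sum_le_sum
          intro w hw
          rw [Set.Finite.mem_toFinset] at hw
          rw [real_unmarked, card_suf hw.1, hw.2.1]
          apply pow_le_pow_of_le_one (by linarith) (by linarith)
          omega
      _ = hfin.toFinset.card * (1 - (1 / 2) ^ n) ^ k := by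
          rw [Finset.sum_const, nsmul_eq_mul]
      _ ≤ 2 * (1 - (1 / 2) ^ n) ^ k := by
          apply mul_le_mul_of_nonneg_right
          · exact_mod_cast hcard
          · apply pow_nonneg
            linarith
  have hlim : Filter.Tendsto (fun k : ℕ => 2 * (1 - ((1 : ℝ) / 2) ^ n) ^ k) Filter.atTop
      (nhds 0) := by
    have := (tendsto_pow_atTop_nhds_zero_of_lt_one (r := 1 - ((1 : ℝ) / 2) ^ n) (by linarith)
      (by linarith)).const_mul 2
    simpa using this
  have h0 : coinOm.real {ω | (comp (EM π n r) (x, ω)).Infinite} ≤ 0 :=
    ge_of_tendsto hlim (Filter.Eventually.of_forall hb)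
  have h1 : coinOm.real {ω | (comp (EM π n r) (x, ω)).Infinite} = 0 :=
    le_antisymm h0 measureReal_nonneg
  rwa [measureReal_eq_zero_iff] at h1

end

section

variable {X : Type*} [MeasurableSpace X] [MulAction F2 X]

theorem measurableSet_Mk (n : ℕ) : MeasurableSet {ω : Om | Mk n ω} := by
  have : {ω : Om | Mk n ω} = ⋂ i, ⋂ (_ : i < n), (fun ω : Om => bit ω i 1) ⁻¹' {true} := by
    ext ω
    simp [Mk]
  rw [this]
  exact MeasurableSet.iInter fun i => MeasurableSet.iInter fun _ =>
    (measurable_bit i 1) (measurableSet_singleton _)

theorem measurableSet_EM {π : X → Bj} (hm : ∀ g : F2, Measurable fun y : X × Om => g • y)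
    (hπ : Measurable π) (n : ℕ) (r : Bool) (s : S) : MeasurableSet {y | EM π n r y s} := by
  have hπ' : Measurable fun y : X × Om => π y.1 := hπ.comp measurable_fst
  have h1 : MeasurableSet {y : X × Om | ERole (fun y : X × Om => π y.1) r y s} := by
    have a := measurable_lbl hπ' s
    have b := measurable_oth hm hπ' s
    exact ((a (measurableSet_singleton _)).union (a (measurableSet_singleton _))).inter
      ((b (measurableSet_singleton _)).union (b (measurableSet_singleton _)))
  have h2 : MeasurableSet {y : X × Om | ¬ Mk n y.2} :=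
    ((measurableSet_Mk n).preimage measurable_snd).compl
  have h3 : MeasurableSet {y : X × Om | ¬ Mk n (gen s • y).2} :=
    ((measurableSet_Mk n).preimage (measurable_snd.comp (hm (gen s)))).compl
  exact h1.inter (h2.inter h3)

theorem real_Mk (n : ℕ) : coinOm.real {ω : Om | Mk n ω} = (1 / 2) ^ n := by
  have h := real_unmarked n {1}
  have h1 : {ω : Om | ∀ g ∈ ({1} : Finset F2), ¬ ∀ i < n, bit ω i g = true} =
      {ω : Om | Mk n ω}ᶜ := by
    ext ω
    simp [Mk]
  rw [h1, Finset.card_singleton, pow_one, probReal_compl_eq_one_sub (measurableSet_Mk n)] at h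
  linarith

end

end MarksAux

open MarksAux

theorem marks_step {X : Type*} [MeasurableSpace X] [MulAction F2 X] {μ : Measure X}
    (hμ : IsPMP μ) {π : X → Bj} (hπ : Measurable π) {δ : ℝ} (hδ : 0 < δ) :
    ∃ P : Bool → Pieces (X × Om),
      (∀ r y g, g ∈ (P r).P y → Reach (ERole (fun y : X × Om => π y.1) r) y g) ∧
      (μ.prod coinOm).real (CutV (fun y : X × Om => π y.1) P) ≤ δ := by
  classical
  have := hμ.prob
  have hprod : IsPMP (μ.prod coinOm) := isPMP_prod hμ isPMP_coinOm
  have hm : ∀ g : F2, Measurable fun y : X × Om => g • y := fun g => (hprod.mp g).measurable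
  obtain ⟨n, hn⟩ := exists_pow_lt_of_lt_one (show 0 < δ / 10 by positivity)
    (show (1 / 2 : ℝ) < 1 by norm_num)
  have hmeas := fun r s => measurableSet_EM (X := X) hm hπ n r s
  -- the components are almost surely finite
  have hnull : ∀ r, (μ.prod coinOm) {y | (comp (EM π n r) y).Infinite} = 0 := by
    intro r
    have hms : MeasurableSet {y : X × Om | (comp (EM π n r) y).Infinite} := by
      have : {y : X × Om | (comp (EM π n r) y).Infinite} =
          ⋂ N : ℕ, {y | (comp (EM π n r) y).encard ≤ N}ᶜ := by
        ext y
        simp only [Set.mem_ofPred_eq, Set.mem_iInter, Set.mem_compl_iff]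
        constructor
        · intro h N
          rw [Set.encard_eq_top_iff.mpr h]
          simp
        · intro h hfin
          have hfin' : (comp (EM π n r) y).Finite := Set.not_infinite.mp (by simpa using hfin)
          apply h hfin'.toFinset.card
          rw [hfin'.encard_eq_coe_toFinset_card]
      rw [this]
      exact MeasurableSet.iInter fun N => (measurableSet_encard_le hm (hmeas r) N).compl
    rw [Measure.measure_prod_null hms]
    exact Filter.Eventually.of_forall fun x => null_infinite_fiber π n r x
  have hN : ∀ r, ∃ N0 : ℕ, ∀ N ≥ N0,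
      (μ.prod coinOm).real {y | ¬ (comp (EM π n r) y).encard ≤ N} < δ / 4 := by
    intro r
    have ht : Filter.Tendsto (fun N : ℕ => (μ.prod coinOm)
        {y | ¬ (comp (EM π n r) y).encard ≤ N}) Filter.atTop
        (nhds ((μ.prod coinOm) (⋂ N : ℕ, {y | ¬ (comp (EM π n r) y).encard ≤ N}))) := by
      apply tendsto_measure_iInter_atTop
      · exact fun N => (measurableSet_encard_le hm (hmeas r) N).compl.nullMeasurableSet
      · intro a b hab y hy h
        exact hy (h.trans (by exact_mod_cast hab))
      · exact ⟨0, measure_ne_top _ _⟩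
    have h0 : (μ.prod coinOm) (⋂ N : ℕ, {y | ¬ (comp (EM π n r) y).encard ≤ N}) = 0 := by
      refine measure_mono_null ?_ (hnull r)
      intro y hy hfin
      have hfin' : (comp (EM π n r) y).Finite := Set.not_infinite.mp (by simpa using hfin)
      have := Set.mem_iInter.mp hy hfin'.toFinset.card
      apply this
      rw [hfin'.encard_eq_coe_toFinset_card]
    rw [h0] at ht
    have ht' := (ENNReal.tendsto_toReal (by simp)).comp ht
    have := ht'.eventually_lt_const (show (0 : ENNReal).toReal < δ / 4 by simpa using by positivity)
    exact Filter.eventually_atTop.mp this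
  choose N0 hN0 using hN
  obtain ⟨N, hNdef⟩ : ∃ N, N = max (N0 true) (N0 false) := ⟨_, rfl⟩
  have hNr : ∀ r, (μ.prod coinOm).real {y | ¬ (comp (EM π n r) y).encard ≤ N} < δ / 4 := by
    intro r
    apply hN0 r
    rw [hNdef]
    cases r
    · exact le_max_right _ _
    · exact le_max_left _ _
  have hP : ∀ r, ∃ P : Pieces (X × Om),
      (∀ x, (comp (EM π n r) x).encard ≤ N → (P.P x : Set F2) = comp (EM π n r) x) ∧
      (∀ x, ¬ (comp (EM π n r) x).encard ≤ N → P.P x = {1}) := fun r =>
    exists_compPieces (esymm_EM π n r) hm (hmeas r) N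
  choose P hP1 hP2 using hP
  refine ⟨P, ?_, ?_⟩
  · intro r y g hg
    by_cases h : (comp (EM π n r) y).encard ≤ N
    · have h1 : g ∈ comp (EM π n r) y := by
        rw [← hP1 r y h]
        exact hg
      obtain ⟨w, hw1, hw2⟩ := h1
      refine ⟨w, hw1, ?_⟩
      clear hw1
      induction w with
      | nil => trivial
      | cons s w ih => exact ⟨ih hw2.1, hw2.2.1⟩
    · rw [hP2 r y h, Finset.mem_singleton] at hg
      rw [hg]
      exact reach_one _ _
  · have hM : ∀ g : F2, (μ.prod coinOm).real {y : X × Om | Mk n (g • y).2} = (1 / 2) ^ n := by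
      intro g
      have h1 : (μ.prod coinOm).real {y : X × Om | Mk n (g • y).2} =
          (μ.prod coinOm).real {y : X × Om | Mk n y.2} := by
        have h2 : {y : X × Om | Mk n (g • y).2} = (fun y => g • y) ⁻¹' {y | Mk n y.2} := rfl
        rw [h2]
        exact (hprod.mp g).measureReal_preimage
          ((measurableSet_Mk n).preimage measurable_snd).nullMeasurableSet
      rw [h1]
      have h3 : {y : X × Om | Mk n y.2} = Set.univ ×ˢ {ω : Om | Mk n ω} := by
        ext y; simp
      rw [h3, measureReal_prod_prod, real_Mk]
      simp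
    have hsub : CutV (fun y : X × Om => π y.1) P ⊆
        ({y : X × Om | Mk n ((1 : F2) • y).2} ∪ ⋃ s ∈ (Finset.univ : Finset S),
          {y : X × Om | Mk n (gen s • y).2}) ∪
        ({y | ¬ (comp (EM π n true) y).encard ≤ N} ∪
          {y | ¬ (comp (EM π n false) y).encard ≤ N}) := by
      rintro y ⟨r, s, hE, hs⟩
      by_cases h : (comp (EM π n r) y).encard ≤ N
      · left
        have h1 : gen s ∉ comp (EM π n r) y := by
          rw [← hP1 r y h]
          exact hs
        have h2 : ¬ EM π n r y s := fun h3 => h1 (reach_gen_iff.mpr h3)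
        by_cases h3 : Mk n y.2
        · left
          rw [Set.mem_ofPred_eq, one_smul]
          exact h3
        · right
          rw [Set.mem_iUnion₂]
          refine ⟨s, Finset.mem_univ _, ?_⟩
          by_contra h4
          exact h2 ⟨hE, h3, h4⟩
      · right
        cases r
        · right; exact h
        · left; exact h
    refine (measureReal_mono hsub).trans ?_
    refine (measureReal_union_le _ _).trans ?_
    have b1 := measureReal_union_le (μ := μ.prod coinOm) {y : X × Om | Mk n ((1 : F2) • y).2}
      (⋃ s ∈ (Finset.univ : Finset S), {y : X × Om | Mk n (gen s • y).2})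
    have b2 := measureReal_biUnion_finset_le (μ := μ.prod coinOm) (Finset.univ : Finset S)
      (fun s => {y : X × Om | Mk n (gen s • y).2})
    have b3 := measureReal_union_le (μ := μ.prod coinOm)
      {y | ¬ (comp (EM π n true) y).encard ≤ N} {y | ¬ (comp (EM π n false) y).encard ≤ N}
    have b4 : ∑ s : S, (μ.prod coinOm).real {y : X × Om | Mk n (gen s • y).2} =
        4 * (1 / 2) ^ n := by
      rw [Finset.sum_congr rfl fun s _ => hM (gen s), Finset.sum_const]
      simp
    rw [hM 1] at b1
    have b5 := hNr true
    have b6 := hNr false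
    linarith

end Pool.Agent.W_MP_ae868b_lc
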