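import Pool.Agent.W_MP_ae868b_lc.Words

/-!
# Function level facts on the transfer operators (task M4b)

`BMeas f` : `f` is measurable and bounded. All integrals are over a pmp `F2`-space.
The basic change of variables: for a bounded measurable `F : X → S → ℝ`,
`∫ ∑ s, F x s = ∫ ∑ s, F (gen s • x) (sinv s)` (invariance of `μ` under `gen s` and the
bijection `s ↦ sinv s`).
-/

open MeasureTheory

namespace Pool.Agent.W_MP_ae868b_lc

/-- bounded measurable functions -/
def BMeas {X : Type*} [MeasurableSpace X] (f : X → ℝ) : Prop :=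
  Measurable f ∧ ∃ C : ℝ, ∀ x, |f x| ≤ C

section

variable {X : Type*} [MeasurableSpace X] [MulAction F2 X] {μ : Measure X} {π : X → Bj}

theorem BMeas.integrable (hμ : IsPMP μ) {f : X → ℝ} (hf : BMeas f) : Integrable f μ := by
  have hp := hμ.prob
  obtain ⟨hm, C, hC⟩ := hf
  refine Integrable.of_bound hm.aestronglyMeasurable C ?_
  exact Filter.Eventually.of_forall fun x => by simpa [Real.norm_eq_abs] using hC x

theorem BMeas.mul {f g : X → ℝ} (hf : BMeas f) (hg : BMeas g) : BMeas fun x => f x * g x := by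
  obtain ⟨hf1, C, hC⟩ := hf
  obtain ⟨hg1, D, hD⟩ := hg
  refine ⟨hf1.mul hg1, C * D, fun x => ?_⟩
  rw [abs_mul]
  exact mul_le_mul (hC x) (hD x) (abs_nonneg _) ((abs_nonneg _).trans (hC x))

theorem BMeas.smul_comp (hμ : IsPMP μ) {f : X → ℝ} (hf : BMeas f) (g : F2) :
    BMeas fun x => f (g • x) := by
  obtain ⟨hf1, C, hC⟩ := hf
  exact ⟨hf1.comp (hμ.mp g).measurable, C, fun x => hC _⟩

/-- constants are bounded measurable -/
theorem opsBMeas_const {X : Type*} [MeasurableSpace X] (c : ℝ) : BMeas (fun _ : X => c) :=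
  ⟨measurable_const, |c|, fun _ => le_rfl⟩

/-- sums of bounded measurable functions -/
theorem opsBMeas_add {X : Type*} [MeasurableSpace X] {f g : X → ℝ} (hf : BMeas f)
    (hg : BMeas g) : BMeas fun x => f x + g x := by
  obtain ⟨hf1, C, hC⟩ := hf
  obtain ⟨hg1, D, hD⟩ := hg
  refine ⟨hf1.add hg1, C + D, fun x => ?_⟩
  exact (abs_add_le _ _).trans (add_le_add (hC x) (hD x))

/-- finite sums of bounded measurable functions -/
theorem opsBMeas_sum {X ι : Type*} [MeasurableSpace X] (t : Finset ι) {F : ι → X → ℝ}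
    (hF : ∀ i ∈ t, BMeas (F i)) : BMeas fun x => ∑ i ∈ t, F i x := by
  classical
  induction t using Finset.induction_on with
  | empty => simpa using opsBMeas_const (X := X) 0
  | insert a t ha ih =>
    have h1 := hF a (Finset.mem_insert_self a t)
    have h2 := ih fun i hi => hF i (Finset.mem_insert_of_mem hi)
    have h3 := opsBMeas_add h1 h2
    have h4 : (fun x => ∑ i ∈ insert a t, F i x) = fun x => F a x + ∑ i ∈ t, F i x := by
      funext x
      rw [Finset.sum_insert ha]
    rw [h4]
    exact h3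

/-- cutting off a bounded measurable function by a measurable predicate -/
theorem opsBMeas_ite {X : Type*} [MeasurableSpace X] {f : X → ℝ} (hf : BMeas f) {p : X → Prop}
    (hp : MeasurableSet {x | p x}) :
    BMeas fun x => (open Classical in if p x then f x else 0) := by
  classical
  obtain ⟨hf1, C, hC⟩ := hf
  refine ⟨?_, C, fun x => ?_⟩
  · exact Measurable.ite hp hf1 measurable_const
  · by_cases h : p x
    · simpa [h] using hC x
    · simpa [h] using (abs_nonneg _).trans (hC x)

theorem ops_measurableSet_flag (hμ : IsPMP μ) (hπ : Measurable π) (i : Fin 4) (s : S) :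
    MeasurableSet {x | Cons π x s ∧ π x s = i} := by
  have h1 := measurableSet_cons (fun g => (hμ.mp g).measurable) hπ s
  have h2 : MeasurableSet {x | π x s = i} :=
    measurable_lbl hπ s (MeasurableSet.of_discrete (s := {i}))
  exact h1.inter h2

/-- sums over labels are sums over flags -/
theorem ops_sum_symm (σ : Bj) (G : S → ℝ) : ∑ i : Fin 4, G (σ.symm i) = ∑ s : S, G s :=
  Equiv.sum_comp σ.symm G

/-- `al` as a sum over flags -/
theorem ops_al_eq_sum (f : X → ℝ) (i : Fin 4) (x : X) :
    al π i f x =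
      ∑ s : S, (open Classical in if Cons π x s ∧ π x s = i then f (gen s • x) else 0) := by
  classical
  rw [Finset.sum_eq_single ((π x).symm i)]
  · unfold Pool.Agent.W_MP_ae868b_lc.al
    by_cases h : Cons π x ((π x).symm i)
    · simp [h]
    · simp [h]
  · intro s _ hs
    have h1 : ¬ (π x s = i) := by
      intro h
      apply hs
      rw [← h]
      simp
    simp [h1]
  · intro h
    exact absurd (Finset.mem_univ _) h

theorem BMeas.al (hμ : IsPMP μ) (hπ : Measurable π) {f : X → ℝ} (hf : BMeas f) (i : Fin 4) :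
    BMeas (al π i f) := by
  have h1 : Pool.Agent.W_MP_ae868b_lc.al π i f = fun x =>
      ∑ s : S, (open Classical in if Cons π x s ∧ π x s = i then f (gen s • x) else 0) := by
    funext x
    exact ops_al_eq_sum f i x
  rw [h1]
  refine opsBMeas_sum Finset.univ fun s _ => ?_
  have h2 := opsBMeas_ite (hf.smul_comp hμ (gen s)) (ops_measurableSet_flag hμ hπ i s)
  convert h2 using 3

theorem BMeas.Tr (hμ : IsPMP μ) (hπ : Measurable π) {f : X → ℝ} (hf : BMeas f) (q : ℝ)
    (r : Bool) : BMeas (Tr π q r f) := by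
  have h1 := (opsBMeas_const (X := X) (1 - q)).mul (hf.al hμ hπ (lab0 r))
  have h2 := (opsBMeas_const (X := X) q).mul (hf.al hμ hπ (lab1 r))
  exact opsBMeas_add h1 h2

theorem BMeas.Top (hμ : IsPMP μ) (hπ : Measurable π) {f : X → ℝ} (hf : BMeas f) (q : ℝ)
    (k : ℕ) (r : Bool) : BMeas (Top π q k r f) := by
  induction k generalizing r with
  | zero => exact hf
  | succ k ih => exact (ih (!r)).Tr hμ hπ q r

/-- invariance of integrals -/
theorem ops_integral_smul (hμ : IsPMP μ) {f : X → ℝ} (hf : BMeas f) (g : F2) :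
    ∫ x, f (g • x) ∂μ = ∫ x, f x ∂μ := by
  have h1 := integral_map (μ := μ) (φ := fun x : X => g • x) (f := f)
    (hμ.mp g).measurable.aemeasurable hf.1.aestronglyMeasurable
  rw [(hμ.mp g).map_eq] at h1
  exact h1.symm

/-- change of variables on flags -/
theorem integral_flags (hμ : IsPMP μ) {F : X → S → ℝ} (hF : ∀ s, BMeas fun x => F x s) :
    ∫ x, (∑ s, F x s) ∂μ = ∫ x, (∑ s, F (gen s • x) (sinv s)) ∂μ := by
  rw [integral_finsetSum _ fun s _ => (hF s).integrable hμ]
  rw [integral_finsetSum _ fun s _ => ((hF (sinv s)).smul_comp hμ (gen s)).integrable hμ]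
  have h1 : ∀ s : S, ∫ x, F (gen s • x) (sinv s) ∂μ = ∫ x, F x (sinv s) ∂μ := fun s =>
    ops_integral_smul hμ (hF (sinv s)) (gen s)
  rw [Finset.sum_congr rfl fun s _ => h1 s]
  exact (Equiv.sum_comp (⟨sinv, sinv, sinv_sinv, sinv_sinv⟩ : S ≃ S)
    (fun s => ∫ x, F x s ∂μ)).symm

/-- `al` is self-adjoint -/
theorem al_symm (hμ : IsPMP μ) (hπ : Measurable π) {f g : X → ℝ} (hf : BMeas f) (hg : BMeas g)
    (i : Fin 4) : ∫ x, al π i f x * g x ∂μ = ∫ x, f x * al π i g x ∂μ := by
  classical
  have h1 : ∀ x, al π i f x * g x = ∑ s : S,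
      (if Cons π x s ∧ π x s = i then f (gen s • x) * g x else 0) := by
    intro x
    rw [ops_al_eq_sum, Finset.sum_mul]
    refine Finset.sum_congr rfl fun s _ => ?_
    by_cases h : Cons π x s ∧ π x s = i
    · simp [h]
    · simp [h]
  have h2 : ∀ x, f x * al π i g x = ∑ s : S,
      (if Cons π x s ∧ π x s = i then f x * g (gen s • x) else 0) := by
    intro x
    rw [ops_al_eq_sum, Finset.mul_sum]
    refine Finset.sum_congr rfl fun s _ => ?_
    by_cases h : Cons π x s ∧ π x s = i
    · simp [h]
    · simp [h]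
  have h3 := integral_flags hμ
    (F := fun x s => if Cons π x s ∧ π x s = i then f (gen s • x) * g x else 0) (fun s => by
      have h4 := opsBMeas_ite ((hf.smul_comp hμ (gen s)).mul hg)
        (ops_measurableSet_flag hμ hπ i s)
      convert h4 using 3)
  simp only [h1, h2]
  rw [h3]
  congr 1
  funext x
  refine Finset.sum_congr rfl fun s _ => ?_
  have h5 : (Cons π (gen s • x) (sinv s) ∧ π (gen s • x) (sinv s) = i) ↔
      (Cons π x s ∧ π x s = i) := by
    rw [cons_symm_iff]
    constructor
    · rintro ⟨ha, hb⟩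
      refine ⟨ha, ?_⟩
      have hc : π x s = oth π x s := ha
      rw [hc]
      exact hb
    · rintro ⟨ha, hb⟩
      refine ⟨ha, ?_⟩
      have hc : π x s = oth π x s := ha
      rw [hc] at hb
      exact hb
  by_cases h : Cons π x s ∧ π x s = i
  · rw [if_pos (h5.mpr h), if_pos h, sinv_smul_smul]
  · rw [if_neg fun h6 => h (h5.mp h6), if_neg h]

/-- `al` is a partial involution -/
theorem al_al (f : X → ℝ) (i : Fin 4) (x : X) :
    al π i (al π i f) x = open Classical in if Cons π x ((π x).symm i) then f x else 0 := by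
  classical
  by_cases h : Cons π x ((π x).symm i)
  · have h1 := symm_of_cons h
    have h2 := cons_symm h
    have h3 : al π i (al π i f) x = al π i f (gen ((π x).symm i) • x) := by
      conv_lhs => unfold Pool.Agent.W_MP_ae868b_lc.al
      rw [if_pos h]
      rfl
    rw [h3, if_pos h]
    unfold Pool.Agent.W_MP_ae868b_lc.al
    rw [h1, if_pos h2, sinv_smul_smul]
  · unfold Pool.Agent.W_MP_ae868b_lc.al
    simp [h]

theorem al_supp (f : X → ℝ) (i : Fin 4) (x : X) (h : ¬ Cons π x ((π x).symm i)) :
    al π i f x = 0 := by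
  classical
  unfold Pool.Agent.W_MP_ae868b_lc.al
  simp [h]

/-- `al` is isometric on functions supported on the consistent points -/
theorem integral_al_sq (hμ : IsPMP μ) (hπ : Measurable π) {f : X → ℝ} (hf : BMeas f)
    (i : Fin 4) : ∫ x, al π i f x ^ 2 ∂μ =
      ∫ x, (open Classical in if Cons π x ((π x).symm i) then f x ^ 2 else 0) ∂μ := by
  classical
  have h1 := al_symm hμ hπ hf (hf.al hμ hπ i) i
  have h2 : ∀ x, al π i f x ^ 2 = al π i f x * al π i f x := fun x => sq _
  simp only [h2]
  rw [h1]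
  congr 1
  funext x
  rw [al_al]
  by_cases h : Cons π x ((π x).symm i)
  · simp [h, sq]
  · simp [h]

theorem integral_al_le (hμ : IsPMP μ) (hπ : Measurable π) {f : X → ℝ} (hf : BMeas f)
    (h0 : ∀ x, 0 ≤ f x) (i : Fin 4) : ∫ x, al π i f x ∂μ ≤ ∫ x, f x ∂μ := by
  classical
  have h1 := al_symm hμ hπ hf (opsBMeas_const (X := X) 1) i
  simp only [mul_one] at h1
  rw [h1]
  have h2 : BMeas fun x => f x * al π i (fun _ => (1 : ℝ)) x :=
    hf.mul ((opsBMeas_const (X := X) 1).al hμ hπ i)
  refine integral_mono (h2.integrable hμ) (hf.integrable hμ) fun x => ?_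
  have h3 : al π i (fun _ => (1 : ℝ)) x ≤ 1 := by
    unfold Pool.Agent.W_MP_ae868b_lc.al
    split_ifs
    · exact le_rfl
    · exact zero_le_one
  have h4 := mul_le_mul_of_nonneg_left h3 (h0 x)
  rw [mul_one] at h4
  exact h4

theorem ops_measurableSet_ncons (hμ : IsPMP μ) (hπ : Measurable π) (s : S) :
    MeasurableSet {x | ¬ Cons π x s} :=
  (measurableSet_cons (fun g => (hμ.mp g).measurable) hπ s).compl

/-- the adjacency operator differs from the sum of the `al` only at inconsistent flags:
`(∑ s, f (gen s • x)) - ∑ i, al π i f x = ∑ i, [¬ Cons] f (gen (s_i x) • x)`; Cauchy-Schwarz and the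
bijection of inconsistent flags `(x, s) ↦ (gen s • x, sinv s)` -/
theorem integral_adj_sub (hμ : IsPMP μ) (hπ : Measurable π) {f : X → ℝ} (hf : BMeas f) :
    ∫ x, ((∑ s : S, f (gen s • x)) - ∑ i, al π i f x) ^ 2 ∂μ ≤
      4 * ∑ i, ∫ x, (open Classical in if Cons π x ((π x).symm i) then 0 else f x ^ 2) ∂μ := by
  classical
  have hff : BMeas fun x => f x ^ 2 := by
    have h := hf.mul hf
    convert h using 2
    rw [sq]
  -- the difference
  have h1 : ∀ x, (∑ s : S, f (gen s • x)) - ∑ i, al π i f x =
      ∑ s : S, (if ¬ Cons π x s then f (gen s • x) else 0) := by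
    intro x
    have h2 : ∑ i, al π i f x = ∑ s : S, (if Cons π x s then f (gen s • x) else 0) := by
      rw [← ops_sum_symm (π x) (fun s => if Cons π x s then f (gen s • x) else 0)]
      refine Finset.sum_congr rfl fun i _ => ?_
      unfold Pool.Agent.W_MP_ae868b_lc.al
      by_cases h : Cons π x ((π x).symm i)
      · simp [h]
      · simp [h]
    rw [h2, ← Finset.sum_sub_distrib]
    refine Finset.sum_congr rfl fun s _ => ?_
    by_cases h : Cons π x s
    · simp [h]
    · simp [h]
  have h3 : ∀ x, ((∑ s : S, f (gen s • x)) - ∑ i, al π i f x) ^ 2 ≤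
      4 * ∑ s : S, (if ¬ Cons π x s then f (gen s • x) ^ 2 else 0) := by
    intro x
    rw [h1]
    have h4 := sq_sum_le_card_mul_sum_sq (s := (Finset.univ : Finset S))
      (f := fun s => if ¬ Cons π x s then f (gen s • x) else 0)
    have h5 : ((Finset.univ : Finset S).card : ℝ) = 4 := by
      simp [S, Fintype.card_prod]
    rw [h5] at h4
    refine h4.trans (le_of_eq ?_)
    congr 1
    refine Finset.sum_congr rfl fun s _ => ?_
    by_cases h : Cons π x s
    · simp [h]
    · simp [h]
  have hA : BMeas fun x => ((∑ s : S, f (gen s • x)) - ∑ i, al π i f x) ^ 2 := by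
    have h6 : BMeas fun x => ∑ s : S, (if ¬ Cons π x s then f (gen s • x) else 0) := by
      refine opsBMeas_sum Finset.univ fun s _ => ?_
      have h7 := opsBMeas_ite (hf.smul_comp hμ (gen s)) (ops_measurableSet_ncons hμ hπ s)
      convert h7 using 3
    have h8 := h6.mul h6
    convert h8 using 2 with x
    rw [h1, sq]
  have hB : ∀ s : S, BMeas fun x => (if ¬ Cons π x s then f (gen s • x) ^ 2 else 0) := by
    intro s
    have h7 := opsBMeas_ite (hff.smul_comp hμ (gen s)) (ops_measurableSet_ncons hμ hπ s)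
    convert h7 using 3
  have hB2 : BMeas fun x => 4 * ∑ s : S, (if ¬ Cons π x s then f (gen s • x) ^ 2 else 0) :=
    (opsBMeas_const (X := X) 4).mul (opsBMeas_sum Finset.univ fun s _ => hB s)
  refine (integral_mono (hA.integrable hμ) (hB2.integrable hμ) h3).trans (le_of_eq ?_)
  rw [integral_const_mul]
  congr 1
  rw [integral_flags hμ hB]
  have hC : ∀ i : Fin 4, BMeas fun x => (if Cons π x ((π x).symm i) then 0 else f x ^ 2) := by
    intro i
    have h9 : BMeas fun x => f x ^ 2 + (-1) * al π i (al π i (fun y => f y ^ 2)) x :=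
      opsBMeas_add hff ((opsBMeas_const (X := X) (-1)).mul ((hff.al hμ hπ i).al hμ hπ i))
    convert h9 using 2 with x
    rw [al_al]
    by_cases h : Cons π x ((π x).symm i)
    · simp [h]
    · simp [h]
  rw [← integral_finsetSum _ fun i _ => (hC i).integrable hμ]
  congr 1
  funext x
  rw [ops_sum_symm (π x) (fun s => if Cons π x s then 0 else f x ^ 2)]
  refine Finset.sum_congr rfl fun s _ => ?_
  rw [sinv_smul_smul]
  by_cases h : Cons π x s
  · have h10 : Cons π (gen s • x) (sinv s) := cons_symm h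
    simp [h, h10]
  · have h10 : ¬ Cons π (gen s • x) (sinv s) := fun h11 => h (cons_symm_iff.mp h11)
    simp [h, h10]

theorem integral_adj (hμ : IsPMP μ) {f : X → ℝ} (hf : BMeas f) :
    ∫ x, (∑ s : S, f (gen s • x)) ∂μ = 4 * ∫ x, f x ∂μ := by
  rw [integral_finsetSum _ fun s _ => (hf.smul_comp hμ (gen s)).integrable hμ]
  rw [Finset.sum_congr rfl fun s _ => ops_integral_smul hμ hf (gen s)]
  have h5 : ((Finset.univ : Finset S).card : ℝ) = 4 := by
    simp [S, Fintype.card_prod]
  rw [Finset.sum_const, nsmul_eq_mul, h5]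

end

end Pool.Agent.W_MP_ae868b_lc
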