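import Pool.Agent.W_MP_ae868b_lc.Ops

/-!
# More function level facts on the transfer operators (task M4b2)
-/

open MeasureTheory

namespace Pool.Agent.W_MP_ae868b_lc

section

variable {X : Type*} [MeasurableSpace X] [MulAction F2 X] {μ : Measure X} {π : X → Bj}

theorem al_mono {f g : X → ℝ} (h : ∀ x, f x ≤ g x) (i : Fin 4) (x : X) :
    al π i f x ≤ al π i g x := by
  unfold al
  split_ifs
  · exact h _
  · exact le_rfl

theorem opsB_al_nonneg {f : X → ℝ} (h : ∀ x, 0 ≤ f x) (i : Fin 4) (x : X) :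
    0 ≤ al π i f x := by
  unfold al
  split_ifs
  · exact h _
  · exact le_rfl

theorem opsB_al_one_le (i : Fin 4) (x : X) : al π i (fun _ => (1 : ℝ)) x ≤ 1 := by
  unfold al
  split_ifs
  · exact le_rfl
  · exact zero_le_one

theorem opsB_bmeas_const (c : ℝ) : BMeas (fun _ : X => c) :=
  ⟨measurable_const, |c|, fun _ => le_rfl⟩

theorem Tr_symm (hμ : IsPMP μ) (hπ : Measurable π) {f g : X → ℝ} (hf : BMeas f)
    (hg : BMeas g) (q : ℝ) (r : Bool) :
    ∫ x, Tr π q r f x * g x ∂μ = ∫ x, f x * Tr π q r g x ∂μ := by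
  have h1 : ∀ i, Integrable (fun x => al π i f x * g x) μ := fun i =>
    ((hf.al hμ hπ i).mul hg).integrable hμ
  have h2 : ∀ i, Integrable (fun x => f x * al π i g x) μ := fun i =>
    (hf.mul (hg.al hμ hπ i)).integrable hμ
  have e1 : ∀ x, Tr π q r f x * g x =
      (1 - q) * (al π (lab0 r) f x * g x) + q * (al π (lab1 r) f x * g x) := by
    intro x; unfold Tr; ring
  have e2 : ∀ x, f x * Tr π q r g x =
      (1 - q) * (f x * al π (lab0 r) g x) + q * (f x * al π (lab1 r) g x) := by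
    intro x; unfold Tr; ring
  simp_rw [e1, e2]
  rw [integral_add ((h1 _).const_mul _) ((h1 _).const_mul _),
    integral_add ((h2 _).const_mul _) ((h2 _).const_mul _), integral_const_mul,
    integral_const_mul, integral_const_mul, integral_const_mul, al_symm hμ hπ hf hg,
    al_symm hμ hπ hf hg]

theorem Tr_mono {q : ℝ} (hq0 : 0 ≤ q) (hq1 : q ≤ 1) {f g : X → ℝ} (h : ∀ x, f x ≤ g x)
    (r : Bool) (x : X) : Tr π q r f x ≤ Tr π q r g x := by
  unfold Tr
  exact add_le_add (mul_le_mul_of_nonneg_left (al_mono h _ _) (by linarith))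
    (mul_le_mul_of_nonneg_left (al_mono h _ _) hq0)

theorem Tr_nonneg {q : ℝ} (hq0 : 0 ≤ q) (hq1 : q ≤ 1) {f : X → ℝ} (h : ∀ x, 0 ≤ f x)
    (r : Bool) (x : X) : 0 ≤ Tr π q r f x := by
  unfold Tr
  exact add_nonneg (mul_nonneg (by linarith) (opsB_al_nonneg h _ _))
    (mul_nonneg hq0 (opsB_al_nonneg h _ _))

theorem Tr_one_le {q : ℝ} (hq0 : 0 ≤ q) (hq1 : q ≤ 1) (r : Bool) (x : X) :
    Tr π q r (fun _ => 1) x ≤ 1 := by
  unfold Tr
  have h1 := mul_le_mul_of_nonneg_left (opsB_al_one_le (π := π) (lab0 r) x)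
    (by linarith : 0 ≤ 1 - q)
  have h2 := mul_le_mul_of_nonneg_left (opsB_al_one_le (π := π) (lab1 r) x) hq0
  linarith

theorem integral_Tr_le (hμ : IsPMP μ) (hπ : Measurable π) {q : ℝ} (hq0 : 0 ≤ q) (hq1 : q ≤ 1)
    {f : X → ℝ} (hf : BMeas f) (h0 : ∀ x, 0 ≤ f x) (r : Bool) :
    ∫ x, Tr π q r f x ∂μ ≤ ∫ x, f x ∂μ := by
  have h1 : ∀ i, Integrable (fun x => al π i f x) μ := fun i => (hf.al hμ hπ i).integrable hμ
  have e1 : ∫ x, Tr π q r f x ∂μ =
      (1 - q) * ∫ x, al π (lab0 r) f x ∂μ + q * ∫ x, al π (lab1 r) f x ∂μ := by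
    unfold Tr
    rw [integral_add ((h1 _).const_mul _) ((h1 _).const_mul _), integral_const_mul,
      integral_const_mul]
  rw [e1]
  have h2 := mul_le_mul_of_nonneg_left (integral_al_le hμ hπ hf h0 (lab0 r))
    (by linarith : 0 ≤ 1 - q)
  have h3 := mul_le_mul_of_nonneg_left (integral_al_le hμ hπ hf h0 (lab1 r)) hq0
  linarith

/-- contraction in `L²` -/
theorem integral_Tr_sq_le (hμ : IsPMP μ) (hπ : Measurable π) {q : ℝ} (hq0 : 0 ≤ q)
    (hq1 : q ≤ 1) {f : X → ℝ} (hf : BMeas f) (r : Bool) :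
    ∫ x, Tr π q r f x ^ 2 ∂μ ≤ ∫ x, f x ^ 2 ∂μ := by
  classical
  have hsq : ∀ {h : X → ℝ}, BMeas h → Integrable (fun x => h x ^ 2) μ := by
    intro h hh
    have := (hh.mul hh).integrable hμ
    simpa [sq] using this
  have h1 : ∀ i, Integrable (fun x => al π i f x ^ 2) μ := fun i => hsq (hf.al hμ hπ i)
  have h2 : ∀ i, ∫ x, al π i f x ^ 2 ∂μ ≤ ∫ x, f x ^ 2 ∂μ := by
    intro i
    have h3 : ∀ x, al π i f x ^ 2 ≤ al π i (fun y => f y ^ 2) x := by
      intro x
      unfold al
      split_ifs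
      · exact le_rfl
      · simp
    have hb : BMeas (fun y => f y ^ 2) := by
      have := hf.mul hf
      simpa [sq] using this
    refine (integral_mono (h1 i) ((hb.al hμ hπ i).integrable hμ) h3).trans ?_
    exact integral_al_le hμ hπ hb (fun x => sq_nonneg _) i
  have h4 : ∀ x, Tr π q r f x ^ 2 ≤
      (1 - q) * al π (lab0 r) f x ^ 2 + q * al π (lab1 r) f x ^ 2 := by
    intro x
    unfold Tr
    nlinarith [mul_nonneg (mul_nonneg hq0 (by linarith : 0 ≤ 1 - q))
      (sq_nonneg (al π (lab0 r) f x - al π (lab1 r) f x))]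
  refine (integral_mono (hsq (hf.Tr hμ hπ q r))
    (((h1 _).const_mul _).add ((h1 _).const_mul _)) h4).trans ?_
  rw [integral_add' ((h1 _).const_mul _) ((h1 _).const_mul _), integral_const_mul,
    integral_const_mul]
  have h5 := mul_le_mul_of_nonneg_left (h2 (lab0 r)) (by linarith : 0 ≤ 1 - q)
  have h6 := mul_le_mul_of_nonneg_left (h2 (lab1 r)) hq0
  linarith

theorem Top_nonneg {q : ℝ} (hq0 : 0 ≤ q) (hq1 : q ≤ 1) {f : X → ℝ} (h : ∀ x, 0 ≤ f x)
    (k : ℕ) (r : Bool) (x : X) : 0 ≤ Top π q k r f x := by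
  induction k generalizing r x with
  | zero => exact h x
  | succ k ih => exact Tr_nonneg hq0 hq1 (fun y => ih (!r) y) r x

theorem Top_one_le {q : ℝ} (hq0 : 0 ≤ q) (hq1 : q ≤ 1) (k : ℕ) (r : Bool) (x : X) :
    Top π q k r (fun _ => 1) x ≤ 1 := by
  induction k generalizing r x with
  | zero => exact le_rfl
  | succ k ih =>
    exact (Tr_mono hq0 hq1 (fun y => ih (!r) y) r x).trans (Tr_one_le hq0 hq1 r x)

theorem Top_one_antitone {q : ℝ} (hq0 : 0 ≤ q) (hq1 : q ≤ 1) (r : Bool) (x : X) :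
    Antitone fun k => Top π q k r (fun _ => 1) x := by
  refine antitone_nat_of_succ_le fun k => ?_
  induction k generalizing r x with
  | zero => exact Tr_one_le hq0 hq1 r x
  | succ k ih => exact Tr_mono hq0 hq1 (fun y => ih (!r) y) r x

theorem integral_Top_le (hμ : IsPMP μ) (hπ : Measurable π) {q : ℝ} (hq0 : 0 ≤ q) (hq1 : q ≤ 1)
    {f : X → ℝ} (hf : BMeas f) (h0 : ∀ x, 0 ≤ f x) (k : ℕ) (r : Bool) :
    ∫ x, Top π q k r f x ∂μ ≤ ∫ x, f x ∂μ := by
  induction k generalizing r with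
  | zero => exact le_rfl
  | succ k ih =>
    exact (integral_Tr_le hμ hπ hq0 hq1 (hf.Top hμ hπ q k (!r))
      (fun x => Top_nonneg hq0 hq1 h0 k (!r) x) r).trans (ih (!r))

/-- even powers -/
theorem Top_two_mul (q : ℝ) (k : ℕ) (r : Bool) (f : X → ℝ) :
    Top π q (2 * k) r f = (fun u => Tr π q r (Tr π q (!r) u))^[k] f := by
  induction k with
  | zero => rfl
  | succ k ih =>
    rw [Function.iterate_succ_apply', ← ih]
    show Top π q (2 * k + 2) r f = _
    show Tr π q r (Tr π q (!r) (Top π q (2 * k) (!(!r)) f)) = _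
    rw [Bool.not_not]

/-- a finite measurable partition cuts the measure of an arbitrary set -/
theorem opsB_partition (μ : Measure X) [IsFiniteMeasure μ] {β : Type*} [Fintype β] (f : X → β)
    (hf : ∀ b, MeasurableSet (f ⁻¹' {b})) (t : Set X) :
    μ.real t = ∑ b, μ.real (f ⁻¹' {b} ∩ t) := by
  classical
  have h1 := sum_measure_preimage_singleton (μ := μ.restrict t) (Finset.univ : Finset β)
    (f := f) (fun b _ => hf b)
  simp only [Finset.coe_univ, Set.preimage_univ, Measure.restrict_apply_univ] at h1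
  unfold Measure.real
  rw [← h1, ENNReal.toReal_sum]
  · refine Finset.sum_congr rfl fun b _ => ?_
    rw [Measure.restrict_apply (hf b)]
  · intro b _
    exact measure_ne_top _ _

theorem opsB_meas_flag (hπ : Measurable π) (s : S) (i : Fin 4) :
    MeasurableSet {x | π x s = i} :=
  hπ (MeasurableSet.of_discrete (s := {e : Bj | e s = i}))

theorem opsB_meas_symm (hπ : Measurable π) (s : S) (i : Fin 4) :
    MeasurableSet {x | (π x).symm i = s} :=
  hπ (MeasurableSet.of_discrete (s := {e : Bj | e.symm i = s}))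

theorem err_eq (μ : Measure X) [IsFiniteMeasure μ] (hπ : Measurable π) :
    err μ π = ∑ i : Fin 4, μ.real {x | ¬ Cons π x ((π x).symm i)} := by
  classical
  unfold err
  have h1 : ∀ s : S, μ.real {x | ¬ Cons π x s} =
      ∑ i : Fin 4, μ.real ((fun x => π x s) ⁻¹' {i} ∩ {x | ¬ Cons π x s}) := fun s =>
    opsB_partition μ (fun x => π x s) (fun i => opsB_meas_flag hπ s i) _
  have h2 : ∀ i : Fin 4, μ.real {x | ¬ Cons π x ((π x).symm i)} =
      ∑ s : S, μ.real ((fun x => (π x).symm i) ⁻¹' {s} ∩ {x | ¬ Cons π x ((π x).symm i)}) :=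
    fun i => opsB_partition μ (fun x => (π x).symm i) (fun s => opsB_meas_symm hπ s i) _
  simp_rw [h1, h2]
  rw [Finset.sum_comm]
  refine Finset.sum_congr rfl fun i _ => Finset.sum_congr rfl fun s _ => ?_
  congr 1
  ext x
  simp only [Set.mem_inter_iff, Set.mem_preimage, Set.mem_singleton_iff, Set.mem_setOf_eq]
  constructor
  · rintro ⟨h3, h4⟩
    have h5 : (π x).symm i = s := by rw [← h3, Equiv.symm_apply_apply]
    exact ⟨h5, by rw [h5]; exact h4⟩
  · rintro ⟨h3, h4⟩
    rw [h3] at h4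
    exact ⟨by rw [← h3, Equiv.apply_symm_apply], h4⟩

theorem opsB_meas_oth (hμ : IsPMP μ) (hπ : Measurable π) (s : S) (j : Fin 4) :
    MeasurableSet {x | oth π x s = j} := by
  have h1 : Measurable fun x : X => π (gen s • x) := hπ.comp (hμ.mp (gen s)).measurable
  exact h1 (MeasurableSet.of_discrete (s := {e : Bj | e (sinv s) = j}))

theorem opsB_meas_ncons (hμ : IsPMP μ) (hπ : Measurable π) (i : Fin 4) :
    MeasurableSet {x | ¬ Cons π x ((π x).symm i)} := by
  classical
  have h1 : {x | ¬ Cons π x ((π x).symm i)} =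
      ⋃ s : S, {x | (π x).symm i = s} ∩ {x | oth π x s = i}ᶜ := by
    ext x
    simp only [Set.mem_setOf_eq, Set.mem_iUnion, Set.mem_inter_iff, Set.mem_compl_iff, Cons,
      Equiv.apply_symm_apply]
    constructor
    · intro h
      exact ⟨_, rfl, fun h2 => h h2.symm⟩
    · rintro ⟨s, h2, h3⟩ h4
      rw [h2] at h4
      exact h3 h4.symm
  rw [h1]
  exact MeasurableSet.iUnion fun s => (opsB_meas_symm hπ s i).inter
    (opsB_meas_oth hμ hπ s i).compl

theorem opsB_integral_one_sub_al (hμ : IsPMP μ) (hπ : Measurable π) (i : Fin 4) :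
    ∫ x, (1 - al π i (fun _ => (1 : ℝ)) x) ∂μ = μ.real {x | ¬ Cons π x ((π x).symm i)} := by
  classical
  have h1 : ∀ x, (1 - al π i (fun _ => (1 : ℝ)) x) =
      Set.indicator {x | ¬ Cons π x ((π x).symm i)} (fun _ => (1 : ℝ)) x := by
    intro x
    unfold al Set.indicator
    by_cases h : Cons π x ((π x).symm i)
    · simp [h]
    · simp [h]
  simp_rw [h1]
  rw [integral_indicator_const _ (opsB_meas_ncons hμ hπ i), smul_eq_mul, mul_one]

/-- the killing of one double step: `1 - T_A T_B 1 = (1 - T_A 1) + T_A (1 - T_B 1)` -/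
theorem integral_one_sub_Tr (hμ : IsPMP μ) (hπ : Measurable π) {q : ℝ} (hq0 : 0 ≤ q)
    (hq1 : q ≤ 1) (r : Bool) :
    ∫ x, (1 - Tr π q r (Tr π q (!r) (fun _ => 1)) x) ∂μ ≤ err μ π := by
  classical
  haveI := hμ.prob
  have hone : BMeas (fun _ : X => (1 : ℝ)) := opsB_bmeas_const 1
  have hal : ∀ i, Integrable (fun x => 1 - al π i (fun _ => (1 : ℝ)) x) μ := fun i =>
    (integrable_const 1).sub ((hone.al hμ hπ i).integrable hμ)
  have hnn : ∀ i, 0 ≤ μ.real {x | ¬ Cons π x ((π x).symm i)} := fun i => measureReal_nonneg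
  -- the one step bound
  have hstep : ∀ r : Bool, ∫ x, (1 - Tr π q r (fun _ => 1) x) ∂μ ≤
      μ.real {x | ¬ Cons π x ((π x).symm (lab0 r))} +
        μ.real {x | ¬ Cons π x ((π x).symm (lab1 r))} := by
    intro r
    have e1 : ∀ x, (1 - Tr π q r (fun _ => 1) x) =
        (1 - q) * (1 - al π (lab0 r) (fun _ => (1 : ℝ)) x) +
          q * (1 - al π (lab1 r) (fun _ => (1 : ℝ)) x) := by
      intro x; unfold Tr; ring
    simp_rw [e1]
    rw [integral_add ((hal _).const_mul _) ((hal _).const_mul _), integral_const_mul,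
      integral_const_mul, opsB_integral_one_sub_al hμ hπ, opsB_integral_one_sub_al hμ hπ]
    nlinarith [hnn (lab0 r), hnn (lab1 r)]
  have hg : BMeas (fun x => 1 - Tr π q (!r) (fun _ => 1) x) := by
    obtain ⟨h1, C, h2⟩ := hone.Tr hμ hπ q (!r)
    refine ⟨measurable_const.sub h1, 1 + C, fun x => ?_⟩
    have := abs_sub (1 : ℝ) (Tr π q (!r) (fun _ => 1) x)
    have h3 := h2 x
    rw [abs_one] at this
    linarith
  have hsplit : ∀ x, (1 - Tr π q r (Tr π q (!r) (fun _ => 1)) x) =
      (1 - Tr π q r (fun _ => 1) x) + Tr π q r (fun x => 1 - Tr π q (!r) (fun _ => 1) x) x := by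
    intro x
    unfold Tr al
    split_ifs <;> ring
  have hi1 : Integrable (fun x => 1 - Tr π q r (fun _ => 1) x) μ :=
    (integrable_const 1).sub ((hone.Tr hμ hπ q r).integrable hμ)
  have hi2 := (hg.Tr hμ hπ q r).integrable hμ
  simp_rw [hsplit]
  rw [integral_add hi1 hi2, err_eq μ hπ, Fin.sum_univ_four]
  have h1 := integral_Tr_le hμ hπ hq0 hq1 hg
    (fun x => sub_nonneg.2 (Tr_one_le hq0 hq1 (!r) x)) r
  have h2 := hstep r
  have h3 := hstep (!r)
  cases r
  · simp only [lab0, lab1, Bool.not_false, if_true, Bool.false_eq_true, if_false] at h1 h2 h3 ⊢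
    linarith
  · simp only [lab0, lab1, Bool.not_true, if_true, Bool.false_eq_true, if_false] at h1 h2 h3 ⊢
    linarith

theorem opsB_Dij_eq (i j : Fin 4) :
    Dij π i j = ⋃ s : S, {x | (π x).symm i = s} ∩ {x | oth π x s = j} := by
  ext x
  simp only [Dij, Set.mem_setOf_eq, Set.mem_iUnion, Set.mem_inter_iff]
  constructor
  · intro h
    exact ⟨_, rfl, h⟩
  · rintro ⟨s, h1, h2⟩
    rw [h1]
    exact h2

theorem opsB_meas_Dij (hμ : IsPMP μ) (hπ : Measurable π) (i j : Fin 4) :
    MeasurableSet (Dij π i j) := by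
  rw [opsB_Dij_eq]
  exact MeasurableSet.iUnion fun s => (opsB_meas_symm hπ s i).inter (opsB_meas_oth hμ hπ s j)

theorem real_Dij_comm (hμ : IsPMP μ) (hπ : Measurable π) (i j : Fin 4) :
    μ.real (Dij π i j) = μ.real (Dij π j i) := by
  classical
  haveI := hμ.prob
  let F : X → S → ℝ := fun x s => if π x s = i ∧ oth π x s = j then 1 else 0
  have hF : ∀ s, BMeas fun x => F x s := by
    intro s
    refine ⟨Measurable.ite ((opsB_meas_flag hπ s i).inter (opsB_meas_oth hμ hπ s j))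
      measurable_const measurable_const, 1, fun x => ?_⟩
    show |if π x s = i ∧ oth π x s = j then (1 : ℝ) else 0| ≤ 1
    split_ifs <;> simp
  have h1 := integral_flags hμ hF
  have e1 : ∀ (x : X) (i j : Fin 4), (∑ s, if π x s = i ∧ oth π x s = j then (1 : ℝ) else 0) =
      Set.indicator (Dij π i j) (fun _ => (1 : ℝ)) x := by
    intro x i j
    rw [Finset.sum_eq_single ((π x).symm i)]
    · simp only [Equiv.apply_symm_apply, true_and, Set.indicator, Dij, Set.mem_setOf_eq]
    · intro s _ hs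
      rw [if_neg]
      rintro ⟨h2, _⟩
      exact hs (by rw [← h2, Equiv.symm_apply_apply])
    · intro h; exact absurd (Finset.mem_univ _) h
  have e2 : ∀ x, (∑ s, F x s) = Set.indicator (Dij π i j) (fun _ => (1 : ℝ)) x := fun x => e1 x i j
  have e3 : ∀ x, (∑ s, F (gen s • x) (sinv s)) =
      Set.indicator (Dij π j i) (fun _ => (1 : ℝ)) x := by
    intro x
    rw [← e1 x j i]
    refine Finset.sum_congr rfl fun s _ => ?_
    show (if π (gen s • x) (sinv s) = i ∧ oth π (gen s • x) (sinv s) = j then (1 : ℝ) else 0) = _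
    rw [oth_sinv]
    have : (π (gen s • x) (sinv s) = i ∧ π x s = j) ↔ (π x s = j ∧ oth π x s = i) :=
      and_comm
    simp only [this]
  simp_rw [e2, e3] at h1
  rw [integral_indicator_const _ (opsB_meas_Dij hμ hπ i j),
    integral_indicator_const _ (opsB_meas_Dij hμ hπ j i)] at h1
  simpa using h1

theorem measurableSet_Dij (hμ : IsPMP μ) (hπ : Measurable π) (i j : Fin 4) :
    MeasurableSet (Dij π i j) := opsB_meas_Dij hμ hπ i j

theorem exists_Dij_ge (hμ : IsPMP μ) (hπ : Measurable π) :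
    ∃ i j : Fin 4, i ≠ j ∧ err μ π ≤ 12 * μ.real (Dij π i j) := by
  classical
  haveI := hμ.prob
  by_contra hcon
  push Not at hcon
  have h1 : ∀ i : Fin 4, μ.real {x | ¬ Cons π x ((π x).symm i)} ≤
      ∑ j ∈ Finset.univ.erase i, μ.real (Dij π i j) := by
    intro i
    have h2 : {x | ¬ Cons π x ((π x).symm i)} ⊆ ⋃ j ∈ Finset.univ.erase i, Dij π i j := by
      intro x hx
      simp only [Set.mem_iUnion]
      refine ⟨oth π x ((π x).symm i), ?_, rfl⟩
      rw [Finset.mem_erase]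
      refine ⟨fun h => hx ?_, Finset.mem_univ _⟩
      show π x ((π x).symm i) = _
      rw [Equiv.apply_symm_apply, h]
    exact (measureReal_mono h2 (measure_ne_top _ _)).trans (measureReal_biUnion_finset_le _ _)
  have h3 : ∀ i : Fin 4, ∑ j ∈ Finset.univ.erase i, μ.real (Dij π i j) <
      ∑ j ∈ Finset.univ.erase i, err μ π / 12 := by
    intro i
    refine Finset.sum_lt_sum_of_nonempty ?_ ?_
    · rw [← Finset.card_pos, Finset.card_erase_of_mem (Finset.mem_univ _)]
      simp
    · intro j hj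
      have := hcon i j (Finset.ne_of_mem_erase hj).symm
      linarith
  have h4 : ∀ i : Fin 4, ∑ j ∈ Finset.univ.erase i, err μ π / 12 = err μ π / 4 := by
    intro i
    rw [Finset.sum_const, Finset.card_erase_of_mem (Finset.mem_univ _)]
    simp
    ring
  have h5 : err μ π < err μ π := by
    nth_rewrite 1 [err_eq μ hπ]
    calc ∑ i : Fin 4, μ.real {x | ¬ Cons π x ((π x).symm i)} < ∑ i : Fin 4, err μ π / 4 := by
          refine Finset.sum_lt_sum_of_nonempty ⟨0, Finset.mem_univ _⟩ fun i _ => ?_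
          exact (h1 i).trans_lt ((h3 i).trans_eq (h4 i))
      _ = err μ π := by simp; ring
  exact lt_irrefl _ h5

end

end Pool.Agent.W_MP_ae868b_lc
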