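import Pool.Agent.W_MP_ae868b_lc.Words
import Pool.Agent.W_MP_ae868b_lc.CoinB

/-!
# The run swapping step (task M8)

A short run containing a defect is chosen if the parity of the bits number `0` of its piece is
`1`; the labels `0, 1` are exchanged on chosen runs. A defect of a short run is repaired with
probability `1 / 2` (`half`), no new defects appear (`cons_nw`), and the measure of the set of
changed points is at most `L * sig` (`cost_s`, mass transport).
-/

open MeasureTheory

namespace Pool.Agent.W_MP_ae868b_lc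

namespace RunStep

section A

variable {X : Type*} [MeasurableSpace X] [MulAction F2 X]

/-- the run of `x` is short and contains a `01`-defect -/
def DD (π : X → Bj) (L : ℕ) (x : X) : Prop :=
  Short π L x ∧ ∃ g ∈ comp (E01 π) x, ∃ s, T01 π (g • x) s

/-- the run is chosen -/
def Ch (π : X → Bj) (L : ℕ) (P : Pieces X) (y : X × Om) : Prop :=
  DD π L y.1 ∧ par y.2 0 (P.P y.1) = 1

/-- the new configuration -/
noncomputable def nw (π : X → Bj) (L : ℕ) (P : Pieces X) (y : X × Om) : Bj :=
  open Classical in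
  if Ch π L P y then (π y.1).trans (Equiv.swap 0 1) else π y.1

omit [MeasurableSpace X] in
theorem short_smul {π : X → Bj} {L : ℕ} {x : X} {g : F2} (hg : g ∈ comp (E01 π) x) :
    Short π L (g • x) ↔ Short π L x := by
  unfold Short
  rw [encard_comp_smul (esymm_E01 π) hg]

omit [MeasurableSpace X] in
theorem DD_smul {π : X → Bj} {L : ℕ} {x : X} {g : F2} (hg : g ∈ comp (E01 π) x) :
    DD π L (g • x) ↔ DD π L x := by
  unfold DD
  rw [short_smul hg, comp_smul (esymm_E01 π) hg]
  constructor
  · rintro ⟨h1, k, ⟨h, hh, rfl⟩, s, hs⟩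
    refine ⟨h1, h, hh, s, ?_⟩
    simpa [smul_smul] using hs
  · rintro ⟨h1, h, hh, s, hs⟩
    refine ⟨h1, h * g⁻¹, ⟨h, hh, rfl⟩, s, ?_⟩
    simpa [smul_smul] using hs

theorem par_piece (P : Pieces X) (x : X) (g : F2) (hg : g ∈ P.P x) (ω : Om) (n : ℕ) :
    par (g • ω) n (P.P (g • x)) = par ω n (P.P x) := by
  rw [par_smul, P.trans x g hg, Finset.image_image]
  congr 1
  have : ((fun h : F2 => h * g) ∘ fun h => h * g⁻¹) = id := by
    funext h
    simp
  rw [this, Finset.image_id]

variable {μ : Measure X}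

theorem Ch_smul {π : X → Bj} {L : ℕ} {P : Pieces X}
    (hP : ∀ x, (comp (E01 π) x).encard ≤ L → (P.P x : Set F2) = comp (E01 π) x)
    {x : X} {ω : Om} {g : F2} (hg : g ∈ comp (E01 π) x) :
    Ch π L P (g • (x, ω)) ↔ Ch π L P (x, ω) := by
  unfold Ch
  change (DD π L (g • x) ∧ par (g • ω) 0 (P.P (g • x)) = 1) ↔ _
  rw [DD_smul hg]
  constructor
  · rintro ⟨h1, h2⟩
    refine ⟨h1, ?_⟩
    have hgP : g ∈ P.P x := by
      have := hP x h1.1
      have h3 : g ∈ (P.P x : Set F2) := by rw [this]; exact hg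
      simpa using h3
    rw [par_piece P x g hgP] at h2
    exact h2
  · rintro ⟨h1, h2⟩
    refine ⟨h1, ?_⟩
    have hgP : g ∈ P.P x := by
      have := hP x h1.1
      have h3 : g ∈ (P.P x : Set F2) := by rw [this]; exact hg
      simpa using h3
    rw [par_piece P x g hgP]
    exact h2

theorem nw_of_ch {π : X → Bj} {L : ℕ} {P : Pieces X} {y : X × Om} (h : Ch π L P y) (s : S) :
    nw π L P y s = Equiv.swap 0 1 (π y.1 s) := by
  unfold nw
  rw [if_pos h]
  rfl

theorem nw_of_not {π : X → Bj} {L : ℕ} {P : Pieces X} {y : X × Om} (h : ¬ Ch π L P y) (s : S) :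
    nw π L P y s = π y.1 s := by
  unfold nw
  rw [if_neg h]

theorem oth_nw {π : X → Bj} {L : ℕ} {P : Pieces X} {x : X} {ω : Om} (s : S) :
    oth (nw π L P) (x, ω) s = nw π L P (gen s • x, gen s • ω) (sinv s) := rfl

theorem cons_nw {π : X → Bj} {L : ℕ} {P : Pieces X}
    (hP : ∀ x, (comp (E01 π) x).encard ≤ L → (P.P x : Set F2) = comp (E01 π) x)
    {x : X} {ω : Om} {s : S} (h : Cons π x s) : Cons (nw π L P) (x, ω) s := by
  unfold Cons
  rw [oth_nw]
  have h' : π x s = π (gen s • x) (sinv s) := h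
  by_cases h01 : π x s = 0 ∨ π x s = 1
  · have hE : E01 π x s := ⟨h, h01⟩
    have hg : gen s ∈ comp (E01 π) x := reach_gen_iff.2 hE
    have hch := Ch_smul (ω := ω) hP hg
    change Ch π L P (gen s • x, gen s • ω) ↔ _ at hch
    by_cases hc : Ch π L P (x, ω)
    · rw [nw_of_ch hc, nw_of_ch (hch.2 hc)]
      change Equiv.swap 0 1 (π x s) = Equiv.swap 0 1 (π (gen s • x) (sinv s))
      rw [h']
    · rw [nw_of_not hc, nw_of_not (fun h => hc (hch.1 h))]
      exact h'
  · push Not at h01
    have e1 : ∀ y : X × Om, ∀ t : S, π y.1 t = π x s → nw π L P y t = π x s := by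
      intro y t ht
      by_cases hc : Ch π L P y
      · rw [nw_of_ch hc, ht, Equiv.swap_apply_of_ne_of_ne h01.1 h01.2]
      · rw [nw_of_not hc, ht]
    rw [e1 (x, ω) s rfl, e1 (gen s • x, gen s • ω) (sinv s) h'.symm]

omit [MeasurableSpace X] in
theorem not_cons_of_T01 {π : X → Bj} {x : X} {s : S} (h : T01 π x s) : ¬ Cons π x s := by
  unfold Cons
  rcases h with ⟨h1, h2⟩ | ⟨h1, h2⟩ <;> rw [h1, h2] <;> decide

theorem T01_nw {π : X → Bj} {L : ℕ} {P : Pieces X} {x : X} {ω : Om} {s : S}
    (h : T01 π x s) :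
    ¬ Cons (nw π L P) (x, ω) s ↔
      (Ch π L P (x, ω) ↔ Ch π L P (gen s • x, gen s • ω)) := by
  unfold Cons
  rw [oth_nw]
  have key : ∀ a b : Fin 4, ((a = 0 ∧ b = 1) ∨ (a = 1 ∧ b = 0)) →
      (Equiv.swap 0 1 a ≠ Equiv.swap 0 1 b ∧ Equiv.swap 0 1 a = b ∧ a = Equiv.swap 0 1 b ∧
        a ≠ b) := by
    decide
  obtain ⟨k1, k2, k3, k4⟩ := key (π x s) (π (gen s • x) (sinv s)) h
  by_cases hc : Ch π L P (x, ω) <;> by_cases hd : Ch π L P (gen s • x, gen s • ω)
  · rw [nw_of_ch hc, nw_of_ch hd]
    simp only [hc, hd, iff_true]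
    exact k1
  · rw [nw_of_ch hc, nw_of_not hd]
    simp only [hc, hd, iff_false, not_true]
    exact fun h => h k2
  · rw [nw_of_not hc, nw_of_ch hd]
    simp only [hc, hd, iff_true]
    exact iff_of_false (fun h => h k3) (fun h => h)
  · rw [nw_of_not hc, nw_of_not hd]
    simp only [hc, hd, iff_true]
    exact k4

theorem zmod2_cases (a : ZMod 2) : a = 0 ∨ a = 1 := by
  revert a; decide

/-- the probability that a defect of a short run is not repaired -/
theorem half {π : X → Bj} {L : ℕ} {P : Pieces X}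
    (hP : ∀ x, (comp (E01 π) x).encard ≤ L → (P.P x : Set F2) = comp (E01 π) x)
    {x : X} {s : S} (hT : T01 π x s) (hS : Short π L x) :
    coinOm.real {ω | ¬ Cons (nw π L P) (x, ω) s} = 1 / 2 := by
  have hD : DD π L x := ⟨hS, 1, reach_one _ _, s, by simpa using hT⟩
  have e1 : ∀ ω, Ch π L P (x, ω) ↔ par ω 0 (P.P x) = 1 := fun ω =>
    ⟨fun h => h.2, fun h => ⟨hD, h⟩⟩
  by_cases hD' : DD π L (gen s • x)
  · have hPx : (P.P x : Set F2) = comp (E01 π) x := hP x hS
    have hPy : (P.P (gen s • x) : Set F2) = comp (E01 π) (gen s • x) := hP _ hD'.1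
    have e2 : ∀ ω, Ch π L P (gen s • x, gen s • ω) ↔
        par ω 0 ((P.P (gen s • x)).image (fun h => h * gen s)) = 1 := by
      intro ω
      rw [← par_smul]
      exact ⟨fun h => h.2, fun h => ⟨hD', h⟩⟩
    have hdisj : Disjoint (P.P x) ((P.P (gen s • x)).image (fun h => h * gen s)) := by
      rw [Finset.disjoint_left]
      intro h hh hh'
      rw [Finset.mem_image] at hh'
      obtain ⟨k, hk, rfl⟩ := hh'
      have h1 : Reach (E01 π) x (k * gen s) := by
        have : k * gen s ∈ (P.P x : Set F2) := hh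
        rw [hPx] at this
        exact this
      have h2 : Reach (E01 π) (gen s • x) k := by
        have : k ∈ (P.P (gen s • x) : Set F2) := hk
        rw [hPy] at this
        exact this
      have h3 := reach_inv (esymm_E01 π) h2
      rw [smul_smul] at h3
      have h4 := reach_mul h1 h3
      rw [inv_mul_cancel_left] at h4
      exact not_cons_of_T01 hT (reach_gen_iff.1 h4).1
    have : {ω | ¬ Cons (nw π L P) (x, ω) s} =
        {ω | par ω 0 (P.P x) = par ω 0 ((P.P (gen s • x)).image (fun h => h * gen s))} := by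
      ext ω
      simp only [Set.mem_ofPred_eq]
      rw [T01_nw hT, e1, e2]
      rcases zmod2_cases (par ω 0 (P.P x)) with h | h <;>
      rcases zmod2_cases (par ω 0 ((P.P (gen s • x)).image (fun h => h * gen s))) with h' | h' <;>
      rw [h, h'] <;> decide
    rw [this]
    exact real_par_eq 0 _ _ ⟨1, P.one_mem x⟩ hdisj
  · have e2 : ∀ ω, ¬ Ch π L P (gen s • x, gen s • ω) := fun ω h => hD' h.1
    have : {ω | ¬ Cons (nw π L P) (x, ω) s} = {ω | par ω 0 (P.P x) = 0} := by
      ext ω
      simp only [Set.mem_ofPred_eq]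
      rw [T01_nw hT, e1]
      simp only [e2, iff_false]
      rcases zmod2_cases (par ω 0 (P.P x)) with h | h <;> rw [h] <;> decide
    rw [this]
    exact real_par_zero 0 _ ⟨1, P.one_mem x⟩

end A

section B

variable {X : Type*} [MeasurableSpace X] [MulAction F2 X] {μ : Measure X}

theorem meas_E01 {π : X → Bj} (hm : ∀ g : F2, Measurable fun x : X => g • x)
    (hπ : Measurable π) (s : S) : MeasurableSet {x | E01 π x s} := by
  refine (measurableSet_cons hm hπ s).inter (MeasurableSet.union ?_ ?_)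
  · exact (measurable_lbl hπ s) (measurableSet_singleton 0)
  · exact (measurable_lbl hπ s) (measurableSet_singleton 1)

theorem meas_T01 {π : X → Bj} (hm : ∀ g : F2, Measurable fun x : X => g • x)
    (hπ : Measurable π) (s : S) : MeasurableSet {x | T01 π x s} := by
  refine MeasurableSet.union (MeasurableSet.inter ?_ ?_) (MeasurableSet.inter ?_ ?_)
  · exact (measurable_lbl hπ s) (measurableSet_singleton 0)
  · exact (measurable_oth hm hπ s) (measurableSet_singleton 1)
  · exact (measurable_lbl hπ s) (measurableSet_singleton 1)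
  · exact (measurable_oth hm hπ s) (measurableSet_singleton 0)

theorem meas_short {π : X → Bj} (hm : ∀ g : F2, Measurable fun x : X => g • x)
    (hπ : Measurable π) (L : ℕ) : MeasurableSet {x | Short π L x} :=
  measurableSet_encard_le hm (meas_E01 hm hπ) L

theorem meas_DD {π : X → Bj} (hm : ∀ g : F2, Measurable fun x : X => g • x)
    (hπ : Measurable π) (L : ℕ) : MeasurableSet {x | DD π L x} := by
  have h : {x | DD π L x} = {x | Short π L x} ∩
      ⋃ g : F2, ({x | Reach (E01 π) x g} ∩ ⋃ s : S, (fun x => g • x) ⁻¹' {x | T01 π x s}) := by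
    ext x
    simp only [DD, comp, Set.mem_inter_iff, Set.mem_iUnion, Set.mem_preimage,
      Set.mem_ofPred_eq]
  rw [h]
  refine (meas_short hm hπ L).inter (MeasurableSet.iUnion fun g => ?_)
  refine (measurableSet_reach hm (meas_E01 hm hπ) g).inter (MeasurableSet.iUnion fun s => ?_)
  exact (hm g) (meas_T01 hm hπ s)

theorem meas_Ch {π : X → Bj} (hm : ∀ g : F2, Measurable fun x : X => g • x)
    (hπ : Measurable π) (L : ℕ) (P : Pieces X) : MeasurableSet {y | Ch π L P y} := by
  have h : {y | Ch π L P y} = (Prod.fst ⁻¹' {x | DD π L x}) ∩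
      ⋃ A : Finset F2, ((Prod.fst ⁻¹' (P.P ⁻¹' {A})) ∩ (Prod.snd ⁻¹' {ω | par ω 0 A = 1})) := by
    ext y
    simp only [Ch, Set.mem_inter_iff, Set.mem_iUnion, Set.mem_preimage, Set.mem_ofPred_eq,
      Set.mem_singleton_iff]
    constructor
    · rintro ⟨h1, h2⟩
      exact ⟨h1, _, rfl, h2⟩
    · rintro ⟨h1, A, rfl, h2⟩
      exact ⟨h1, h2⟩
  rw [h]
  refine (measurable_fst (meas_DD hm hπ L)).inter (MeasurableSet.iUnion fun A => ?_)
  exact (measurable_fst (P.meas (measurableSet_singleton A))).inter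
    (measurable_snd (measurableSet_par 0 A 1))

theorem meas_nw {π : X → Bj} (hm : ∀ g : F2, Measurable fun x : X => g • x)
    (hπ : Measurable π) (L : ℕ) (P : Pieces X) : Measurable (nw π L P) := by
  classical
  have h1 : Measurable fun y : X × Om => (π y.1).trans (Equiv.swap 0 1) :=
    (measurable_from_top (f := fun b : Bj => b.trans (Equiv.swap 0 1))).comp
      (hπ.comp measurable_fst)
  have h2 : Measurable fun y : X × Om => π y.1 := hπ.comp measurable_fst
  exact Measurable.ite (meas_Ch hm hπ L P) h1 h2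

theorem err_s (hμ : IsPMP μ) {π : X → Bj} (hπ : Measurable π) (L : ℕ) (P : Pieces X)
    (hP : ∀ x, (comp (E01 π) x).encard ≤ L → (P.P x : Set F2) = comp (E01 π) x) (s : S) :
    (μ.prod coinOm).real {y | ¬ Cons (nw π L P) y s} ≤
      μ.real {x | ¬ Cons π x s} - μ.real {x | T01 π x s ∧ Short π L x} / 2 := by
  have hm : ∀ g : F2, Measurable fun x : X => g • x := fun g => (hμ.mp g).measurable
  have hpr : IsPMP (μ.prod coinOm) := isPMP_prod hμ isPMP_coinOm
  have hm2 : ∀ g : F2, Measurable fun y : X × Om => g • y := fun g => (hpr.mp g).measurable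
  have := hμ.prob
  set T : Set X := {x | T01 π x s ∧ Short π L x} with hT
  set N : Set X := {x | ¬ Cons π x s} with hN
  set A : Set (X × Om) := {y | ¬ Cons (nw π L P) y s} with hA
  have mT : MeasurableSet T := (meas_T01 hm hπ s).inter (meas_short hm hπ L)
  have mN : MeasurableSet N := (measurableSet_cons hm hπ s).compl
  have mA : MeasurableSet A := (measurableSet_cons hm2 (meas_nw hm hπ L P) s).compl
  set C : Set (X × Om) := (Prod.fst ⁻¹' T) ∩ A with hC
  have mC : MeasurableSet C := (measurable_fst mT).inter mA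
  have hTN : T ⊆ N := fun x hx => not_cons_of_T01 hx.1
  have sub : A ⊆ ((N \ T) ×ˢ Set.univ) ∪ C := by
    rintro ⟨x, ω⟩ hx
    by_cases hxT : x ∈ T
    · exact Or.inr ⟨hxT, hx⟩
    · refine Or.inl ⟨⟨?_, hxT⟩, trivial⟩
      intro hc
      exact hx (cons_nw hP hc)
  have hCm : (μ.prod coinOm) C = μ T * (1 / 2) := by
    rw [Measure.prod_apply mC]
    have : ∀ x, coinOm (Prod.mk x ⁻¹' C) = T.indicator (fun _ => (1 / 2 : ENNReal)) x := by
      intro x
      by_cases hxT : x ∈ T
      · rw [Set.indicator_of_mem hxT]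
        have e : Prod.mk x ⁻¹' C = {ω | ¬ Cons (nw π L P) (x, ω) s} := by
          ext ω
          exact ⟨fun h => h.2, fun h => ⟨hxT, h⟩⟩
        rw [e, ← ofReal_measureReal, half hP hxT.1 hxT.2]
        rw [ENNReal.ofReal_div_of_pos (by norm_num)]
        simp
      · rw [Set.indicator_of_notMem hxT]
        have e : Prod.mk x ⁻¹' C = ∅ := by
          ext ω
          exact ⟨fun h => (hxT h.1).elim, fun h => h.elim⟩
        rw [e, measure_empty]
    simp_rw [this]
    rw [lintegral_indicator_const mT, mul_comm]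
  have hCr : (μ.prod coinOm).real C = μ.real T / 2 := by
    unfold Measure.real
    rw [hCm, ENNReal.toReal_mul]
    simp [div_eq_mul_inv]
  have hBr : (μ.prod coinOm).real ((N \ T) ×ˢ Set.univ) = μ.real N - μ.real T := by
    rw [← measureReal_sdiff hTN mT]
    unfold Measure.real
    rw [Measure.prod_prod, measure_univ, mul_one]
  calc (μ.prod coinOm).real A ≤ (μ.prod coinOm).real (((N \ T) ×ˢ Set.univ) ∪ C) :=
        measureReal_mono sub
    _ ≤ (μ.prod coinOm).real ((N \ T) ×ˢ Set.univ) + (μ.prod coinOm).real C :=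
        measureReal_union_le _ _
    _ = μ.real N - μ.real T / 2 := by rw [hBr, hCr]; ring

theorem cost_s (hμ : IsPMP μ) {π : X → Bj} (hπ : Measurable π) (L : ℕ) (s : S) :
    μ {x | Short π L x ∧ ∃ g ∈ comp (E01 π) x, T01 π (g • x) s} ≤
      L * μ {x | T01 π x s ∧ Short π L x} := by
  classical
  have hm : ∀ g : F2, Measurable fun x : X => g • x := fun g => (hμ.mp g).measurable
  set T : Set X := {x | T01 π x s ∧ Short π L x} with hT
  have mT : MeasurableSet T := (meas_T01 hm hπ s).inter (meas_short hm hπ L)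
  set R : F2 → Set X := fun g => {x | Reach (E01 π) x g} with hR
  have mR : ∀ g, MeasurableSet (R g) := fun g =>
    measurableSet_reach hm (meas_E01 hm hπ) g
  have sub : {x | Short π L x ∧ ∃ g ∈ comp (E01 π) x, T01 π (g • x) s} ⊆
      ⋃ g : F2, (fun x => g • x) ⁻¹' (T ∩ R g⁻¹) := by
    rintro x ⟨hS, g, hg, ht⟩
    refine Set.mem_iUnion.2 ⟨g, ⟨ht, (short_smul hg).2 hS⟩, ?_⟩
    exact reach_inv (esymm_E01 π) hg
  calc μ {x | Short π L x ∧ ∃ g ∈ comp (E01 π) x, T01 π (g • x) s}
      ≤ μ (⋃ g : F2, (fun x => g • x) ⁻¹' (T ∩ R g⁻¹)) := measure_mono sub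
    _ ≤ ∑' g : F2, μ ((fun x => g • x) ⁻¹' (T ∩ R g⁻¹)) := measure_iUnion_le _
    _ = ∑' g : F2, μ (T ∩ R g⁻¹) := by
        refine tsum_congr fun g => ?_
        exact (hμ.mp g).measure_preimage (mT.inter (mR _)).nullMeasurableSet
    _ = ∑' g : F2, μ (T ∩ R g) := (Equiv.inv F2).tsum_eq (fun g => μ (T ∩ R g))
    _ = ∑' g : F2, ∫⁻ x in T, (R g).indicator (fun _ => (1 : ENNReal)) x ∂μ := by
        refine tsum_congr fun g => ?_
        rw [lintegral_indicator_const (mR g), one_mul, Measure.restrict_apply (mR g),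
          Set.inter_comm]
    _ = ∫⁻ x in T, ∑' g : F2, (R g).indicator (fun _ => (1 : ENNReal)) x ∂μ := by
        rw [lintegral_tsum]
        intro g
        exact (measurable_const.indicator (mR g)).aemeasurable
    _ ≤ ∫⁻ x in T, (L : ENNReal) ∂μ := by
        refine setLIntegral_mono measurable_const fun x hx => ?_
        have hfin : (comp (E01 π) x).Finite := by
          refine Set.finite_of_encard_le_coe (k := L) ?_
          exact hx.2
        have e : ∀ g, g ∉ hfin.toFinset → (R g).indicator (fun _ => (1 : ENNReal)) x = 0 := by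
          intro g hg
          have h2 : x ∉ R g := fun h => hg (hfin.mem_toFinset.2 h)
          exact Set.indicator_of_notMem h2 _
        rw [tsum_eq_sum e]
        have e2 : ∑ g ∈ hfin.toFinset, (R g).indicator (fun _ => (1 : ENNReal)) x =
            ∑ g ∈ hfin.toFinset, (1 : ENNReal) := by
          refine Finset.sum_congr rfl fun g hg => ?_
          have h2 : x ∈ R g := hfin.mem_toFinset.1 hg
          exact Set.indicator_of_mem h2 _
        rw [e2, Finset.sum_const, nsmul_eq_mul, mul_one]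
        have h3 : (hfin.toFinset.card : ENat) ≤ L := by
          have := hx.2
          unfold Short at this
          rwa [hfin.encard_eq_coe_toFinset_card] at this
        exact_mod_cast h3
    _ = L * μ T := by
        rw [setLIntegral_const]

end B

end RunStep

theorem run_step {X : Type*} [MeasurableSpace X] [MulAction F2 X] {μ : Measure X}
    (hμ : IsPMP μ) {π : X → Bj} (hπ : Measurable π) (L : ℕ) :
    ∃ π' : X × Om → Bj, Measurable π' ∧
      err (μ.prod coinOm) π' ≤ err μ π - sig μ π L / 2 ∧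
      (μ.prod coinOm).real {y | π' y ≠ π y.1} ≤ L * sig μ π L := by
  have hm : ∀ g : F2, Measurable fun x : X => g • x := fun g => (hμ.mp g).measurable
  have := hμ.prob
  obtain ⟨P, hP, -⟩ := exists_compPieces (esymm_E01 π) hm (RunStep.meas_E01 hm hπ) L
  refine ⟨RunStep.nw π L P, RunStep.meas_nw hm hπ L P, ?_, ?_⟩
  · unfold err sig
    rw [Finset.sum_div, ← Finset.sum_sub_distrib]
    exact Finset.sum_le_sum fun s _ => RunStep.err_s hμ hπ L P hP s
  · have h1 : {y : X × Om | RunStep.nw π L P y ≠ π y.1} ⊆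
        {x | RunStep.DD π L x} ×ˢ Set.univ := by
      intro y hy
      refine ⟨?_, trivial⟩
      by_contra hc
      have hc' : ¬ RunStep.DD π L y.1 := hc
      have hch : ¬ RunStep.Ch π L P y := fun h => hc' h.1
      apply hy
      unfold RunStep.nw
      rw [if_neg hch]
    have h2 : {x | RunStep.DD π L x} ⊆
        ⋃ s : S, {x | Short π L x ∧ ∃ g ∈ comp (E01 π) x, T01 π (g • x) s} := by
      rintro x ⟨hS, g, hg, s, hs⟩
      exact Set.mem_iUnion.2 ⟨s, hS, g, hg, hs⟩
    have h3 : μ {x | RunStep.DD π L x} ≤ ∑ s : S, L * μ {x | T01 π x s ∧ Short π L x} := by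
      refine (measure_mono h2).trans ((measure_iUnion_le _).trans ?_)
      rw [tsum_fintype]
      exact Finset.sum_le_sum fun s _ => RunStep.cost_s hμ hπ L s
    have h4 : (μ.prod coinOm).real {y : X × Om | RunStep.nw π L P y ≠ π y.1} ≤
        μ.real {x | RunStep.DD π L x} := by
      refine (measureReal_mono h1).trans (le_of_eq ?_)
      unfold Measure.real
      rw [Measure.prod_prod, measure_univ, mul_one]
    refine h4.trans ?_
    unfold sig
    rw [Finset.mul_sum]
    have h5 := ENNReal.toReal_mono (b := ∑ s : S, L * μ {x | T01 π x s ∧ Short π L x})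
      (by
        refine (ENNReal.sum_lt_top.2 fun s _ => ?_).ne
        exact ENNReal.mul_lt_top (ENNReal.natCast_lt_top L) (measure_lt_top _ _)) h3
    rw [ENNReal.toReal_sum (fun s _ =>
      (ENNReal.mul_lt_top (ENNReal.natCast_lt_top L) (measure_lt_top _ _)).ne)] at h5
    refine h5.trans (le_of_eq ?_)
    refine Finset.sum_congr rfl fun s _ => ?_
    rw [ENNReal.toReal_mul, ENNReal.toReal_natCast]
    rfl

end Pool.Agent.W_MP_ae868b_lc
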