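import Pool.Agent.W_MP_ae868b_lc.Words

/-!
# Short runs (task M7b)

PROOF. Let `Γ = {g_0 = 1, ..., g_m}` with `z i = g_i • y`. It is closed under `E01 ρ`-steps: the flags with
labels `0, 1` at `z i` are the exit flag (to `z (i+1)` if `i < m`; inconsistent if `i = m`) and the flag with
the other label, which for `i ≥ 1` is the arrival flag `sinv (exit flag of z (i-1))` (consistency of the
previous edge: `symm_of_cons`), leading to `z (i-1)`, and for `i = 0` is inconsistent (`h0`). So by
induction on the word every reachable `g` is in `Γ` and `encard (comp (E01 ρ) y) ≤ m + 1 ≤ N`.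
-/

open MeasureTheory

namespace Pool.Agent.W_MP_ae868b_lc

/-- The role of the exit flag at the step `i`. -/
def srunRole (r : Bool) (i : ℕ) : Bool := if Even i then r else !r

theorem srunRole_zero (r : Bool) : srunRole r 0 = r := by simp [srunRole]

theorem srunRole_succ (r : Bool) (i : ℕ) : srunRole r (i + 1) = !(srunRole r i) := by
  unfold srunRole
  by_cases h : Even i
  · have h' : ¬ Even (i + 1) := by
      rw [Nat.even_add_one]
      exact fun h2 => h2 h
    rw [if_pos h, if_neg h']
  · have h' : Even (i + 1) := by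
      rw [Nat.even_add_one]
      exact h
    rw [if_neg h, if_pos h', Bool.not_not]

/-- The group elements of the run. -/
def srunElt {Y : Type*} (ρ : Y → Bj) (r : Bool) (z : ℕ → Y) : ℕ → F2
  | 0 => 1
  | i + 1 => gen ((ρ (z i)).symm (lab0 (srunRole r i))) * srunElt ρ r z i

theorem srunElt_smul {Y : Type*} [MulAction F2 Y] (ρ : Y → Bj) (r : Bool) (z : ℕ → Y)
    (hz : ∀ i, z (i + 1) = gen ((ρ (z i)).symm (lab0 (srunRole r i))) • z i) (i : ℕ) :
    srunElt ρ r z i • z 0 = z i := by
  induction i with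
  | zero => exact one_smul _ _
  | succ i ih => rw [srunElt, mul_smul, ih, ← hz i]

theorem srun_exists_lab0 {a : Fin 4} (h : a = 0 ∨ a = 1) : ∃ b : Bool, a = lab0 b := by
  rcases h with h | h
  · exact ⟨false, h⟩
  · exact ⟨true, h⟩

theorem exists_srunElt_of_epath {Y : Type*} [MulAction F2 Y] (ρ : Y → Bj) (r : Bool) (z : ℕ → Y)
    (h0 : ¬ Cons ρ (z 0) ((ρ (z 0)).symm (lab0 (!r)))) (m : ℕ)
    (hz : ∀ i, z (i + 1) = gen ((ρ (z i)).symm (lab0 (srunRole r i))) • z i)
    (hc : ∀ i < m, Cons ρ (z i) ((ρ (z i)).symm (lab0 (srunRole r i))))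
    (hm' : ¬ Cons ρ (z m) ((ρ (z m)).symm (lab0 (srunRole r m)))) (w : List S)
    (hw : EPath (E01 ρ) (z 0) w) : ∃ i ≤ m, (FreeGroup.mk w : F2) = srunElt ρ r z i := by
  induction w with
  | nil => exact ⟨0, Nat.zero_le _, rfl⟩
  | cons s w ih =>
    obtain ⟨hw1, hcons, hlab⟩ := hw
    obtain ⟨i, him, hi⟩ := ih hw1
    rw [hi, srunElt_smul ρ r z hz] at hcons hlab
    obtain ⟨b, hb⟩ := srun_exists_lab0 hlab
    have hs : s = (ρ (z i)).symm (lab0 b) := by
      rw [← hb, Equiv.symm_apply_apply]
    by_cases hbr : b = srunRole r i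
    · rw [hbr] at hs
      have hlt : i < m := by
        rcases lt_or_eq_of_le him with h | h
        · exact h
        · rw [hs, h] at hcons
          exact absurd hcons hm'
      exact ⟨i + 1, hlt, by rw [mk_cons, hi, srunElt, hs]⟩
    · have hbr' : b = !(srunRole r i) := by
        cases b <;> cases hr : srunRole r i <;> simp_all
      rcases i with _ | j
      · rw [srunRole_zero] at hbr'
        rw [hs, hbr'] at hcons
        exact absurd hcons h0
      · rw [srunRole_succ, Bool.not_not] at hbr'
        have h1 := symm_of_cons (hc j him)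
        rw [← hz j, ← hbr', ← hs] at h1
        refine ⟨j, (Nat.le_succ j).trans him, ?_⟩
        rw [mk_cons, hi, srunElt, h1, gen_sinv, hbr', inv_mul_cancel_left]

/-- A run that follows the labels `lab0 r, lab0 (!r), ...` of a configuration `ρ` from a point whose
`lab0 (!r)`-flag is inconsistent, and stops at an inconsistent edge after at most `N` steps,
is short. -/
theorem short_of_run {Y : Type*} [MulAction F2 Y] (ρ : Y → Bj) (N : ℕ) (r : Bool) (y : Y)
    (h0 : ¬ Cons ρ y ((ρ y).symm (lab0 (!r))))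
    (m : ℕ) (hm : m < N) (z : ℕ → Y) (hz0 : z 0 = y)
    (hz : ∀ i, z (i + 1) = gen ((ρ (z i)).symm (lab0 (if Even i then r else !r))) • z i)
    (hc : ∀ i < m, Cons ρ (z i) ((ρ (z i)).symm (lab0 (if Even i then r else !r))))
    (hm' : ¬ Cons ρ (z m) ((ρ (z m)).symm (lab0 (if Even m then r else !r)))) :
    Short ρ N y := by
  subst hz0
  have hsub : comp (E01 ρ) (z 0) ⊆ ((Finset.range (m + 1)).image (srunElt ρ r z) : Finset F2) := by
    rintro g ⟨w, rfl, hw⟩
    obtain ⟨i, hi, hi'⟩ := exists_srunElt_of_epath ρ r z h0 m hz hc hm' w hw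
    rw [hi', Finset.mem_coe]
    exact Finset.mem_image_of_mem _ (Finset.mem_range.2 (Nat.lt_succ_of_le hi))
  have h1 := Set.encard_le_encard hsub
  rw [Set.encard_coe_eq_coe_finsetCard] at h1
  refine h1.trans ?_
  have h2 : ((Finset.range (m + 1)).image (srunElt ρ r z)).card ≤ N :=
    (Finset.card_image_le).trans (by rw [Finset.card_range]; exact hm)
  exact_mod_cast h2

end Pool.Agent.W_MP_ae868b_lc
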