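import Pool.Agent.W_MP_ae868b_lc.Walk

/-!
# The law of the walk in the scrambled configuration (task M5)

`Wk` follows, in the scrambled configuration `scr π P j`, the flags with labels `lab0 r`,
`lab0 (!r)`, `lab0 r`, ... alternately, as long as the edges are consistent in `π`.
`walk_law`: for fixed `x`, averaging over the labels, this is the operator `Top`.

PROOF (for fixed `x : X`). For a vertex `g` the status at `g` of role `r` is the event
`Zst (P r) o j (g • (x, ω))`, `o = 0` for A (`r = false`), `o = j` for B (`r = true`); by `par_smul`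
it says that the parities number `o, ..., o+j-1` over the finite set of vertices
`pc r g := ((P r).P (g • x)).image (· * g)` (the piece of `g` in the coordinates of `x`) are all `1`.
Claim: let `H : Finset (ℕ × F2)` and let `θ : Om → ℝ` depend only on the bits of `H`, and assume
(Safe x g r H): for every word `w` which is an alternating consistent path from `g • x` whose first
step has role `r` (i.e. the `i`-th step, `i = 0, 1, ...`, is along a flag consistent in `π` with label
in `{lab0 r_i, lab1 r_i}`, `r_i = r` for even `i` and `!r` for odd `i`), with end vertex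
`v = mk w * g` and next role `r_v` (`r` if `w` has even length, else `!r`), no `(n, h) ∈ H` satisfies
`offset r_v ≤ n < offset r_v + j` and `h ∈ pc r_v v`. Then
`∫ θ ω * Wk π P j k r ψ (g • (x, ω)) = (∫ θ) * Top π ((1/2)^j) k r ψ (g • x)`.
Induction on `k`: for `k + 1` split according to the status `c` at `g` of role `r`; the next flag is
`s_c = (π (g • x)).symm (lab0 r)` or `(lab1 r)`; apply the induction hypothesis to
`θ' = θ * 1[status = c]`, `H' = H ∪ ([offset, offset + j) × pc r g)` and the vertex `gen s_c * g` if the
flag is consistent; `∫ θ' = p_c ∫ θ` with `p_1 = (1/2)^j`, `p_0 = 1 - (1/2)^j` by `integral_mul_par`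
(`(Safe)` for the empty word gives the disjointness). `Safe` for the new data: for the part `H` append
the step `s_c`; for the new part one needs: if `w` is an alternating path from `gen s_c * g • x` with
first role `!r` and odd length (so next role is `r`), with end `v`, then `pc r v` and `pc r g` are
disjoint. If `h` is in both, then (pieces lie in components of `ERole π r`) `v` is reachable from `g`
through edges of `ERole π r`, hence along the reduced word of `v * g⁻¹` (`reach_iff`). The word
`w ++ [s_c]` is reduced: consecutive flags at a vertex have labels of different roles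
(arrival flag: label of the previous role by consistency), so they are not inverse to each other;
hence it IS the reduced word (`toWord_mk_of_isReduced`), so its second step would be an
`ERole π r` edge, but its own label has role `!r`: contradiction, since the labels of the two roles
are disjoint.
At the start `H = ∅`, `θ = 1`, `g = 1`.
-/

open MeasureTheory

namespace Pool.Agent.W_MP_ae868b_lc

section Alt

variable {X : Type*} [MulAction F2 X]

/-- the role of the step following the word `w` -/
def rl (r : Bool) (w : List S) : Bool := if Even w.length then r else !r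

/-- alternating consistent path -/
def Alt (π : X → Bj) (r : Bool) (x : X) : List S → Prop
  | [] => True
  | s :: w => Alt π r x w ∧ Cons π (FreeGroup.mk w • x) s ∧
      (π (FreeGroup.mk w • x) s = lab0 (rl r w) ∨ π (FreeGroup.mk w • x) s = lab1 (rl r w))

theorem rl_cons (r : Bool) (s : S) (w : List S) : rl r (s :: w) = !(rl r w) := by
  unfold rl
  by_cases h : Even w.length <;> simp [h, Nat.even_add_one]

theorem rl_append_singleton (r : Bool) (s : S) (w : List S) :
    rl r (w ++ [s]) = rl (!r) w := by
  unfold rl
  by_cases h : Even w.length <;> simp [h, Nat.even_add_one]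

theorem lab_ne (r : Bool) {i : Fin 4} (h : i = lab0 r ∨ i = lab1 r) :
    ¬ (i = lab0 (!r) ∨ i = lab1 (!r)) := by
  cases r <;> rcases h with h | h <;> subst h <;> simp [lab0, lab1]

theorem alt_append_singleton {π : X → Bj} {r : Bool} {x : X} {s : S} (hc : Cons π x s)
    (hl : π x s = lab0 r ∨ π x s = lab1 r) :
    ∀ w : List S, Alt π (!r) (gen s • x) w → Alt π r x (w ++ [s])
  | [], _ => by
      refine ⟨trivial, ?_, ?_⟩
      · simpa [← FreeGroup.one_eq_mk] using hc
      · simpa [← FreeGroup.one_eq_mk, rl] using hl
  | t :: w, h => by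
      obtain ⟨h1, h2, h3⟩ := h
      have e : (FreeGroup.mk (w ++ [s]) : F2) • x = FreeGroup.mk w • gen s • x := by
        rw [mk_append, mul_smul]; rfl
      refine ⟨alt_append_singleton hc hl w h1, ?_, ?_⟩
      · change Cons π ((FreeGroup.mk (w ++ [s]) : F2) • x) t
        rw [e]; exact h2
      · change π ((FreeGroup.mk (w ++ [s]) : F2) • x) t = lab0 (rl r (w ++ [s])) ∨
          π ((FreeGroup.mk (w ++ [s]) : F2) • x) t = lab1 (rl r (w ++ [s]))
        rw [e, rl_append_singleton]; exact h3

theorem isReduced_of_alt {π : X → Bj} {r : Bool} {x : X} :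
    ∀ w : List S, Alt π r x w → FreeGroup.IsReduced w
  | [], _ => FreeGroup.IsReduced.nil
  | [_], _ => FreeGroup.IsReduced.singleton
  | s :: t :: w, h => by
      obtain ⟨h1, _, h3⟩ := h
      have hr := isReduced_of_alt (t :: w) h1
      rw [FreeGroup.isReduced_cons_cons]
      refine ⟨fun h12 => ?_, hr⟩
      by_contra hne
      have hs : s = sinv t := by
        rcases s with ⟨s1, s2⟩
        rcases t with ⟨t1, t2⟩
        simp only [sinv] at *
        subst h12
        cases s2 <;> cases t2 <;> simp_all
      obtain ⟨_, h5, h6⟩ := h1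
      rw [rl_cons] at h3
      have e : (FreeGroup.mk (t :: w) : F2) • x = gen t • FreeGroup.mk w • x := by
        rw [mk_cons, mul_smul]
      rw [e, hs] at h3
      have h7 : π (gen t • FreeGroup.mk w • x) (sinv t) = π (FreeGroup.mk w • x) t := h5.symm
      rw [h7] at h3
      exact lab_ne _ h6 h3

/-- the pieces met on an alternating path of positive even length are disjoint from the first -/
theorem not_reach_of_alt {π : X → Bj} {r : Bool} {x : X} {s : S} (hc : Cons π x s)
    (hl : π x s = lab0 r ∨ π x s = lab1 r) {w : List S} (hw : Alt π (!r) (gen s • x) w)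
    (hw0 : w ≠ []) : ¬ Reach (ERole π r) x (FreeGroup.mk (w ++ [s])) := by
  intro h
  have hred := isReduced_of_alt _ (alt_append_singleton hc hl w hw)
  rw [reach_iff, toWord_mk_of_isReduced hred, epath_append] at h
  obtain ⟨w', t, rfl⟩ : ∃ w' t, w = w' ++ [t] := by
    rcases List.eq_nil_or_concat w with h | ⟨w', t, h⟩
    · exact absurd h hw0
    · exact ⟨w', t, by simpa using h⟩
  have e : (FreeGroup.mk [s] : F2) • x = gen s • x := rfl
  rw [e, epath_append] at h
  have h1 := h.2.1.2
  have e2 : ∀ z : X, (FreeGroup.mk ([] : List S) : F2) • z = z := by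
    intro z; rw [← FreeGroup.one_eq_mk, one_smul]
  rw [e2] at h1
  have h2 : ∀ w'' : List S, Alt π (!r) (gen s • x) (w'' ++ [t]) →
      (π (gen s • x) t = lab0 (!r) ∨ π (gen s • x) t = lab1 (!r)) := by
    intro w''
    induction w'' with
    | nil =>
      intro h
      have := h.2.2
      rw [e2] at this
      simpa [rl] using this
    | cons a w'' ih =>
      intro h
      exact ih h.1
  exact lab_ne _ h1.1 (h2 w' hw)

end Alt

section Law

variable {X : Type*} [MulAction F2 X] [MeasurableSpace X]

/-- offset of the bits of a role -/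
def off (j : ℕ) (r : Bool) : ℕ := if r then j else 0

/-- the piece of the vertex `g` in the coordinates of `x` -/
def pc (P : Bool → Pieces X) (x : X) (r : Bool) (g : F2) : Finset F2 :=
  ((P r).P (g • x)).image (fun h => h * g)

theorem pc_nonempty (P : Bool → Pieces X) (x : X) (r : Bool) (g : F2) : (pc P x r g).Nonempty :=
  ⟨1 * g, Finset.mem_image.2 ⟨1, (P r).one_mem _, rfl⟩⟩

/-- the status at the vertex `g` -/
def stat (P : Bool → Pieces X) (j : ℕ) (x : X) (r : Bool) (g : F2) (ω : Om) : Prop :=
  ∀ t < j, par ω (off j r + t) (pc P x r g) = 1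

theorem Zst_iff_stat (P : Bool → Pieces X) (j : ℕ) (x : X) (r : Bool) (g : F2) (ω : Om) :
    Zst (P r) (if r then j else 0) j (g • (x, ω)) ↔ stat P j x r g ω := by
  unfold Zst stat
  refine forall_congr' fun t => forall_congr' fun _ => ?_
  change par (g • ω) ((if r then j else 0) + t) ((P r).P (g • x)) = 1 ↔ _
  rw [par_smul]
  rfl

/-- the function depends only on the bits in `H` -/
def DepOn (H : Finset (ℕ × F2)) {β : Type*} (θ : Om → β) : Prop :=
  ∀ ω ω' : Om, (∀ p ∈ H, bit ω p.1 p.2 = bit ω' p.1 p.2) → θ ω = θ ω'

theorem DepOn.mono {H H' : Finset (ℕ × F2)} (h : H ⊆ H') {β : Type*} {θ : Om → β}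
    (hθ : DepOn H θ) : DepOn H' θ :=
  fun ω ω' hh => hθ ω ω' fun p hp => hh p (h hp)

/-- the bits of the status -/
def sbits (P : Bool → Pieces X) (j : ℕ) (x : X) (r : Bool) (g : F2) : Finset (ℕ × F2) :=
  (Finset.range j).image (fun t => off j r + t) ×ˢ pc P x r g

theorem mem_sbits {P : Bool → Pieces X} {j : ℕ} {x : X} {r : Bool} {g : F2} {p : ℕ × F2} :
    p ∈ sbits P j x r g ↔ (∃ t < j, p.1 = off j r + t) ∧ p.2 ∈ pc P x r g := by
  unfold sbits
  rw [Finset.mem_product, Finset.mem_image]
  constructor
  · rintro ⟨⟨t, ht, h1⟩, h2⟩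
    exact ⟨⟨t, Finset.mem_range.1 ht, h1.symm⟩, h2⟩
  · rintro ⟨⟨t, ht, h1⟩, h2⟩
    exact ⟨⟨t, Finset.mem_range.2 ht, h1.symm⟩, h2⟩

theorem depOn_stat (P : Bool → Pieces X) (j : ℕ) (x : X) (r : Bool) (g : F2) :
    DepOn (sbits P j x r g) (stat P j x r g) := by
  intro ω ω' h
  unfold stat
  refine propext (forall_congr' fun t => forall_congr' fun ht => ?_)
  have : par ω (off j r + t) (pc P x r g) = par ω' (off j r + t) (pc P x r g) := by
    unfold par
    refine Finset.sum_congr rfl fun k hk => ?_
    rw [h (off j r + t, k) (mem_sbits.2 ⟨⟨t, ht, rfl⟩, hk⟩)]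
  rw [this]

theorem Wk_succ (π : X → Bj) (P : Bool → Pieces X) (j k : ℕ) (r : Bool) (ψ : X → ℝ) (x : X)
    (g : F2) (ω : Om) :
    Wk π P j (k + 1) r ψ (g • (x, ω)) =
      open Classical in
      if stat P j x r g ω then
        (if Cons π (g • x) ((π (g • x)).symm (lab1 r)) then
          Wk π P j k (!r) ψ ((gen ((π (g • x)).symm (lab1 r)) * g) • (x, ω)) else 0)
      else
        (if Cons π (g • x) ((π (g • x)).symm (lab0 r)) then
          Wk π P j k (!r) ψ ((gen ((π (g • x)).symm (lab0 r)) * g) • (x, ω)) else 0) := by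
  classical
  rw [Wk, scr_symm_lab0]
  by_cases h : stat P j x r g ω
  · rw [if_pos ((Zst_iff_stat P j x r g ω).2 h), if_pos h]
    simp only [mul_smul]
    rfl
  · rw [if_neg (fun h' => h ((Zst_iff_stat P j x r g ω).1 h')), if_neg h]
    simp only [mul_smul]
    rfl

theorem exists_depOn_Wk (π : X → Bj) (P : Bool → Pieces X) (j : ℕ) (ψ : X → ℝ) (x : X) :
    ∀ (k : ℕ) (r : Bool) (g : F2), ∃ H : Finset (ℕ × F2),
      DepOn H fun ω => Wk π P j k r ψ (g • (x, ω))
  | 0, r, g => ⟨∅, fun ω ω' _ => rfl⟩
  | k + 1, r, g => by
      classical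
      obtain ⟨H1, h1⟩ := exists_depOn_Wk π P j ψ x k (!r) (gen ((π (g • x)).symm (lab1 r)) * g)
      obtain ⟨H0, h0⟩ := exists_depOn_Wk π P j ψ x k (!r) (gen ((π (g • x)).symm (lab0 r)) * g)
      refine ⟨sbits P j x r g ∪ (H1 ∪ H0), fun ω ω' h => ?_⟩
      have e1 := h1 ω ω' fun p hp => h p (by simp [hp])
      have e0 := h0 ω ω' fun p hp => h p (by simp [hp])
      have es : stat P j x r g ω = stat P j x r g ω' :=
        depOn_stat P j x r g ω ω' fun p hp => h p (by simp [hp])
      simp only at e1 e0
      simp only [Wk_succ, e1, e0, es]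

/-- the bits in `H` are not used by the walk from `g` with first role `r` -/
def Safe (π : X → Bj) (P : Bool → Pieces X) (j : ℕ) (x : X) (g : F2) (r : Bool)
    (H : Finset (ℕ × F2)) : Prop :=
  ∀ w : List S, Alt π r (g • x) w → ∀ p ∈ H, p ∉ sbits P j x (rl r w) (FreeGroup.mk w * g)

theorem pc_disjoint {π : X → Bj} {P : Bool → Pieces X}
    (hP : ∀ r x g, g ∈ (P r).P x → Reach (ERole π r) x g) {x : X} {r : Bool} {g v : F2}
    (h : ¬ Reach (ERole π r) (g • x) (v * g⁻¹)) {k : F2} (h1 : k ∈ pc P x r g)
    (h2 : k ∈ pc P x r v) : False := by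
  unfold pc at h1 h2
  obtain ⟨a, ha, rfl⟩ := Finset.mem_image.1 h1
  obtain ⟨b, hb, hab⟩ := Finset.mem_image.1 h2
  have ha' := hP _ _ _ ha
  have hb' := hP _ _ _ hb
  have hb2 := reach_inv (esymm_ERole π r) hb'
  apply h
  have e : v * g⁻¹ = b⁻¹ * a := by
    have : b * v = a * g := hab
    have : v = b⁻¹ * (a * g) := by rw [← this]; group
    rw [this]; group
  rw [e]
  refine reach_mul ha' ?_
  have e2 : a • g • x = b • v • x := by
    rw [← mul_smul, ← mul_smul, ← hab]
  rw [e2]
  exact hb2

theorem walk_law_aux {π : X → Bj} {P : Bool → Pieces X}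
    (hP : ∀ r x g, g ∈ (P r).P x → Reach (ERole π r) x g) (j : ℕ)
    (x : X) (ψ : X → ℝ) : ∀ (k : ℕ) (r : Bool) (g : F2) (H : Finset (ℕ × F2)) (θ : Om → ℝ),
      DepOn H θ → Safe π P j x g r H →
      ∫ ω, θ ω * Wk π P j k r ψ (g • (x, ω)) ∂coinOm =
        (∫ ω, θ ω ∂coinOm) * Top π ((1 / 2) ^ j) k r ψ (g • x)
  | 0, r, g, H, θ, hθ, hs => by
      have : ∀ ω, Wk π P j 0 r ψ (g • (x, ω)) = ψ (g • x) := fun ω => rfl
      simp only [this]
      rw [integral_mul_const]
      rfl
  | k + 1, r, g, H, θ, hθ, hs => by
      classical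
      set q : ℝ := (1 / 2) ^ j with hq
      -- the two continuations
      have hstep : ∀ (i : Fin 4), (i = lab0 r ∨ i = lab1 r) → ∀ θ' : Om → ℝ,
          DepOn (H ∪ sbits P j x r g) θ' →
          ∫ ω, θ' ω * (if Cons π (g • x) ((π (g • x)).symm i) then
            Wk π P j k (!r) ψ ((gen ((π (g • x)).symm i) * g) • (x, ω)) else 0) ∂coinOm =
          (∫ ω, θ' ω ∂coinOm) * al π i (Top π q k (!r) ψ) (g • x) := by
        intro i hi θ' hθ'
        unfold al
        by_cases hc : Cons π (g • x) ((π (g • x)).symm i)
        · simp only [if_pos hc]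
          rw [walk_law_aux hP j x ψ k (!r) (gen ((π (g • x)).symm i) * g)
            (H ∪ sbits P j x r g) θ' hθ' ?_, mul_smul]
          have hl : π (g • x) ((π (g • x)).symm i) = lab0 r ∨
              π (g • x) ((π (g • x)).symm i) = lab1 r := by
            rw [Equiv.apply_symm_apply]; exact hi
          intro w hw p hp hps
          rw [mul_smul] at hw
          have hw2 := alt_append_singleton hc hl w hw
          have hrl : rl (!r) w = rl r (w ++ [(π (g • x)).symm i]) := by
            rw [rl_append_singleton]
          have hmk : (FreeGroup.mk w : F2) * (gen ((π (g • x)).symm i) * g) =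
              FreeGroup.mk (w ++ [(π (g • x)).symm i]) * g := by
            rw [mk_append, mul_assoc]; rfl
          rw [hrl, hmk] at hps
          rcases Finset.mem_union.1 hp with hp | hp
          · exact hs _ hw2 p hp hps
          · rw [mem_sbits] at hp hps
            obtain ⟨⟨t, ht, h1⟩, h2⟩ := hp
            obtain ⟨⟨t', ht', h1'⟩, h2'⟩ := hps
            have hr : rl r (w ++ [(π (g • x)).symm i]) = r := by
              by_contra hne
              have hne' : rl r (w ++ [(π (g • x)).symm i]) = !r := by
                revert hne; cases rl r (w ++ [(π (g • x)).symm i]) <;> cases r <;> simp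
              rw [hne'] at h1'
              rw [h1] at h1'
              unfold off at h1'
              cases r <;> simp at h1' <;> omega
            rw [hr] at h2'
            have hw0 : w ≠ [] := by
              rintro rfl
              simp [rl] at hr
            refine pc_disjoint hP ?_ h2 h2'
            rw [mul_inv_cancel_right]
            exact not_reach_of_alt hc hl hw hw0
        · simp only [if_neg hc, mul_zero, integral_zero]
      -- indicator of the status
      let χ : Om → ℝ := fun ω => if stat P j x r g ω then 1 else 0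
      have hχ : DepOn (sbits P j x r g) χ := by
        intro ω ω' h
        have := depOn_stat P j x r g ω ω' h
        simp only [χ, this]
      have hdep1 : DepOn (H ∪ sbits P j x r g) fun ω => θ ω * χ ω := by
        intro ω ω' h
        simp only
        rw [hθ ω ω' fun p hp => h p (by simp [hp]), hχ ω ω' fun p hp => h p (by simp [hp])]
      have hdep0 : DepOn (H ∪ sbits P j x r g) fun ω => θ ω - θ ω * χ ω := by
        intro ω ω' h
        simp only
        rw [hθ ω ω' fun p hp => h p (by simp [hp]), hχ ω ω' fun p hp => h p (by simp [hp])]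
      have hi1 : ∫ ω, θ ω * χ ω ∂coinOm = q * ∫ ω, θ ω ∂coinOm := by
        have hfin := integral_mul_par H θ hθ (pc P x r g) (pc_nonempty P x r g) (off j r) j ?_
        · rw [hq, ← hfin]
          refine integral_congr_ae (Filter.Eventually.of_forall fun ω => ?_)
          simp only [χ]
          congr 1
          by_cases h : stat P j x r g ω
          · rw [if_pos h, if_pos (show ∀ t < j, par ω (off j r + t) (pc P x r g) = 1 from h)]
          · rw [if_neg h, if_neg (show ¬ ∀ t < j, par ω (off j r + t) (pc P x r g) = 1 from h)]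
        intro t ht k hk hmem
        have := hs [] trivial (off j r + t, k) hmem
        apply this
        rw [← FreeGroup.one_eq_mk, one_mul, mem_sbits]
        have : rl r [] = r := by simp [rl]
        rw [this]
        exact ⟨⟨t, ht, rfl⟩, hk⟩
      have hθi := (integrable_of_finite H θ hθ).2.2
      have hθ1 := (integrable_of_finite _ _ hdep1).2.2
      have hi0 : ∫ ω, (θ ω - θ ω * χ ω) ∂coinOm = (1 - q) * ∫ ω, θ ω ∂coinOm := by
        rw [integral_sub hθi hθ1, hi1]; ring
      -- split
      have hsplit : ∀ ω, θ ω * Wk π P j (k + 1) r ψ (g • (x, ω)) =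
          (θ ω * χ ω) * (if Cons π (g • x) ((π (g • x)).symm (lab1 r)) then
            Wk π P j k (!r) ψ ((gen ((π (g • x)).symm (lab1 r)) * g) • (x, ω)) else 0) +
          (θ ω - θ ω * χ ω) * (if Cons π (g • x) ((π (g • x)).symm (lab0 r)) then
            Wk π P j k (!r) ψ ((gen ((π (g • x)).symm (lab0 r)) * g) • (x, ω)) else 0) := by
        intro ω
        rw [Wk_succ]
        by_cases h : stat P j x r g ω
        · simp only [χ, if_pos h]; ring
        · simp only [χ, if_neg h]; ring
      have hint : ∀ (i : Fin 4) (θ' : Om → ℝ), DepOn (H ∪ sbits P j x r g) θ' →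
          Integrable (fun ω => θ' ω * (if Cons π (g • x) ((π (g • x)).symm i) then
            Wk π P j k (!r) ψ ((gen ((π (g • x)).symm i) * g) • (x, ω)) else 0)) coinOm := by
        intro i θ' hθ'
        by_cases hc : Cons π (g • x) ((π (g • x)).symm i)
        · simp only [if_pos hc]
          obtain ⟨H', hH'⟩ := exists_depOn_Wk π P j ψ x k (!r) (gen ((π (g • x)).symm i) * g)
          refine (integrable_of_finite ((H ∪ sbits P j x r g) ∪ H') _ ?_).2.2
          intro ω ω' h
          have e1 := hθ' ω ω' fun p hp => h p (Finset.mem_union_left _ hp)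
          have e2 := hH' ω ω' fun p hp => h p (Finset.mem_union_right _ hp)
          simp only at e2
          simp only [e1, e2]
        · simp only [if_neg hc, mul_zero]
          exact integrable_zero _ _ _
      simp only [hsplit]
      rw [integral_add (hint _ _ hdep1) (hint _ _ hdep0), hstep (lab1 r) (Or.inr rfl) _ hdep1,
        hstep (lab0 r) (Or.inl rfl) _ hdep0, hi1, hi0]
      simp only [Top, Tr]
      ring

theorem walk_law {π : X → Bj}
    {P : Bool → Pieces X} (hP : ∀ r x g, g ∈ (P r).P x → Reach (ERole π r) x g) (j : ℕ)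
    (x : X) (k : ℕ) (r : Bool) (ψ : X → ℝ) :
    ∫ ω, Wk π P j k r ψ (x, ω) ∂coinOm = Top π ((1 / 2) ^ j) k r ψ x := by
  have h := walk_law_aux hP j x ψ k r 1 ∅ (fun _ => 1) (fun _ _ _ => rfl)
    (fun w _ p hp => by simp at hp)
  simpa using h

/-- for fixed `x` the function `ω ↦ Wk ... (x, ω)` is integrable (it depends on finitely many bits) -/
theorem integrable_Wk (π : X → Bj)
    (P : Bool → Pieces X) (j : ℕ) (x : X) (k : ℕ) (r : Bool) (ψ : X → ℝ) :
    Integrable (fun ω => Wk π P j k r ψ (x, ω)) coinOm := by
  obtain ⟨H, hH⟩ := exists_depOn_Wk π P j ψ x k r 1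
  have := (integrable_of_finite H _ hH).2.2
  simpa using this

end Law

end Pool.Agent.W_MP_ae868b_lc
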