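import Pool.Agent.W_MP_ae868b_lc.Scramble
import Pool.Agent.W_MP_ae868b_lc.ShortRun
import Pool.Agent.W_MP_ae868b_lc.WalkLaw

/-!
# Many short runs after scrambling (task M7c); proof in `Scramble.lean`
-/

open MeasureTheory

namespace Pool.Agent.W_MP_ae868b_lc

section

/-- the run of a configuration `ρ`: follow the labels `lab0 r`, `lab0 (!r)`, ... -/
noncomputable def srun {Y : Type*} [MulAction F2 Y] (ρ : Y → Bj) : ℕ → Bool → Y → Y
  | 0, _, y => y
  | k + 1, r, y => srun ρ k (!r) (gen ((ρ y).symm (lab0 r)) • y)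

/-- the role of the step number `i` -/
def srole (r : Bool) (i : ℕ) : Bool := if Even i then r else !r

theorem srole_zero (r : Bool) : srole r 0 = r := by simp [srole]

theorem srole_succ (r : Bool) (i : ℕ) : srole (!r) i = srole r (i + 1) := by
  unfold srole
  by_cases h : Even i
  · have h' : ¬ Even (i + 1) := by
      rw [Nat.even_add_one]
      exact not_not.2 h
    rw [if_pos h, if_neg h']
  · have h' : Even (i + 1) := Nat.even_add_one.2 h
    rw [if_neg h, if_pos h', Bool.not_not]

theorem srun_succ {Y : Type*} [MulAction F2 Y] (ρ : Y → Bj) (i : ℕ) (r : Bool) (y : Y) :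
    srun ρ (i + 1) r y =
      gen ((ρ (srun ρ i r y)).symm (lab0 (srole r i))) • srun ρ i r y := by
  induction i generalizing r y with
  | zero =>
    rw [srole_zero]
    rfl
  | succ i ih =>
    have h := ih (!r) (gen ((ρ y).symm (lab0 r)) • y)
    rw [srole_succ] at h
    exact h

variable {X : Type*} [MeasurableSpace X] [MulAction F2 X] {μ : Measure X} {π : X → Bj}
  {P : Bool → Pieces X}

/-- the step number `i` of the run is along a consistent edge of `π` -/
def Alv (π : X → Bj) (ρ : X × Om → Bj) (r : Bool) (y : X × Om) (i : ℕ) : Prop :=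
  Cons π (srun ρ i r y).1 ((ρ (srun ρ i r y)).symm (lab0 (srole r i)))

omit [MeasurableSpace X] in
theorem Alv_succ (π : X → Bj) (ρ : X × Om → Bj) (r : Bool) (y : X × Om) (i : ℕ) :
    Alv π ρ r y (i + 1) ↔ Alv π ρ (!r) (gen ((ρ y).symm (lab0 r)) • y) i := by
  unfold Alv
  rw [srole_succ]
  exact Iff.rfl

omit [MeasurableSpace X] in
theorem Alv_zero (π : X → Bj) (ρ : X × Om → Bj) (r : Bool) (y : X × Om) :
    Alv π ρ r y 0 ↔ Cons π y.1 ((ρ y).symm (lab0 r)) := by
  unfold Alv
  rw [srole_zero]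
  exact Iff.rfl

open Classical in
theorem Wk_eq (π : X → Bj) (P : Bool → Pieces X) (j k : ℕ) (r : Bool) (ψ : X → ℝ)
    (y : X × Om) :
    Wk π P j k r ψ y =
      if ∀ i < k, Alv π (scr π P j) r y i then ψ (srun (scr π P j) k r y).1 else 0 := by
  induction k generalizing r y with
  | zero =>
    rw [if_pos (fun i hi => absurd hi (Nat.not_lt_zero i))]
    rfl
  | succ k ih =>
    have h0 : Wk π P j (k + 1) r ψ y =
      if Cons π y.1 ((scr π P j y).symm (lab0 r)) then
        Wk π P j k (!r) ψ (gen ((scr π P j y).symm (lab0 r)) • y) else 0 := rfl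
    rw [h0]
    by_cases h : Cons π y.1 ((scr π P j y).symm (lab0 r))
    · rw [if_pos h, ih]
      by_cases h2 : ∀ i < k, Alv π (scr π P j) (!r)
          (gen ((scr π P j y).symm (lab0 r)) • y) i
      · rw [if_pos h2, if_pos]
        · rfl
        · intro i hi
          rcases Nat.eq_zero_or_pos i with h3 | h3
          · subst h3
            exact (Alv_zero _ _ _ _).2 h
          · obtain ⟨i', rfl⟩ : ∃ i', i = i' + 1 := ⟨i - 1, by omega⟩
            exact (Alv_succ _ _ _ _ _).2 (h2 i' (by omega))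
      · rw [if_neg h2, if_neg]
        intro h3
        exact h2 fun i hi => (Alv_succ _ _ _ _ _).1 (h3 (i + 1) (by omega))
    · rw [if_neg h, if_neg]
      intro h3
      exact h ((Alv_zero _ _ _ _).1 (h3 0 (Nat.succ_pos k)))

/-- off `CutV` the scrambled exit flag is consistent iff it is consistent for `π` -/
theorem scr_cons_iff (j : ℕ) (r : Bool) (y : X × Om) (hy : y.1 ∉ CutV π P) (s : S)
    (hs : s = (scr π P j y).symm (lab0 r)) :
    Cons (scr π P j) y s ↔ Cons π y.1 s := by
  classical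
  set o : ℕ := if r then j else 0 with ho
  set c : Fin 4 := if Zst (P r) o j y then lab1 r else lab0 r with hc
  set c' : Fin 4 := if Zst (P r) o j (gen s • y) then lab1 r else lab0 r with hc'
  have hcr : c = lab0 r ∨ c = lab1 r := by
    rw [hc]
    split_ifs
    · exact Or.inr rfl
    · exact Or.inl rfl
  have hcr' : c' = lab0 r ∨ c' = lab1 r := by
    rw [hc']
    split_ifs
    · exact Or.inr rfl
    · exact Or.inl rfl
  have hsc : s = (π y.1).symm c := by
    rw [hs, scr_symm_lab0, hc]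
    by_cases hz : Zst (P r) o j y
    · rw [if_pos hz, if_pos hz]
    · rw [if_neg hz, if_neg hz]
  have hown : π y.1 s = c := by rw [hsc, Equiv.apply_symm_apply]
  have hown' : scr π P j y s = lab0 r := by rw [hs, Equiv.apply_symm_apply]
  have hsc' : (scr π P j (gen s • y)).symm (lab0 r) = (π (gen s • y).1).symm c' := by
    rw [scr_symm_lab0, hc']
    by_cases hz : Zst (P r) o j (gen s • y)
    · rw [if_pos hz, if_pos hz]
    · rw [if_neg hz, if_neg hz]
  have h1 : Cons (scr π P j) y s ↔ oth π y.1 s = c' := by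
    unfold Cons oth
    rw [hown']
    constructor
    · intro h
      have h2 : (scr π P j (gen s • y)).symm (lab0 r) = sinv s := by
        rw [h, Equiv.symm_apply_apply]
      rw [hsc'] at h2
      rw [← h2]
      exact Equiv.apply_symm_apply _ _
    · intro h
      have h2 : (π (gen s • y).1).symm c' = sinv s := by
        rw [← h]
        exact Equiv.symm_apply_apply _ _
      rw [← hsc'] at h2
      rw [← h2, Equiv.apply_symm_apply]
  have key : (oth π y.1 s = lab0 r ∨ oth π y.1 s = lab1 r) → c' = c := by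
    intro h
    have hE : ERole π r y.1 s := ⟨by rw [hown]; exact hcr, h⟩
    have hg : gen s ∈ (P r).P y.1 := by
      by_contra hg
      exact hy ⟨r, s, hE, hg⟩
    have hZ := Zst_smul (P r) o j y (gen s) hg
    rw [hc', hc]
    by_cases hz : Zst (P r) o j y
    · rw [if_pos hz, if_pos (hZ.2 hz)]
    · rw [if_neg hz, if_neg (fun h => hz (hZ.1 h))]
  rw [h1]
  unfold Cons
  rw [hown]
  constructor
  · intro h
    rw [h]
    exact (key (by rw [h]; exact hcr')).symm
  · intro h
    rw [← h]
    exact (key (by rw [← h]; exact hcr)).symm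

theorem lab0_ne (r : Bool) : lab0 (!r) ≠ lab0 r := by
  cases r <;> simp [lab0]

theorem scr_short_case (j N : ℕ) (r : Bool) (y : X × Om)
    (h1 : y.1 ∈ Dij π (lab0 (!r)) (lab0 r))
    (h2 : Wk π P j N r (fun _ => 1) y = 0)
    (h3 : ¬ Zst (P (!r)) (if (!r) then j else 0) j y)
    (h4 : ¬ Zst (P r) (if r then j else 0) j (gen ((π y.1).symm (lab0 (!r))) • y))
    (h5 : ∀ i < N, Wk π P j i r (Set.indicator (CutV π P) (fun _ => (1 : ℝ))) y ≠ 1) :
    y ∈ Dij (scr π P j) (lab0 (!r)) (lab0 r) ∧ Short (scr π P j) N y := by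
  classical
  -- the defect
  have hs : (scr π P j y).symm (lab0 (!r)) = (π y.1).symm (lab0 (!r)) := by
    rw [scr_symm_lab0, if_neg h3]
  set s : S := (π y.1).symm (lab0 (!r)) with hsdef
  have h1' : π (gen s • y.1) (sinv s) = lab0 r := h1
  have hD : oth (scr π P j) y s = lab0 r := by
    have h6 : (scr π P j (gen s • y)).symm (lab0 r) = (π (gen s • y).1).symm (lab0 r) := by
      rw [scr_symm_lab0, if_neg h4]
    have h7 : (π (gen s • y).1).symm (lab0 r) = sinv s := by
      rw [← h1']
      exact Equiv.symm_apply_apply _ _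
    unfold oth
    rw [← h7, ← h6, Equiv.apply_symm_apply]
  have hDij : y ∈ Dij (scr π P j) (lab0 (!r)) (lab0 r) := by
    show oth (scr π P j) y ((scr π P j y).symm (lab0 (!r))) = lab0 r
    rw [hs]
    exact hD
  refine ⟨hDij, ?_⟩
  have h0 : ¬ Cons (scr π P j) y ((scr π P j y).symm (lab0 (!r))) := by
    unfold Cons
    rw [Equiv.apply_symm_apply, hs, hD]
    exact lab0_ne r
  -- the first inconsistent step
  rw [Wk_eq] at h2
  have h2' : ¬ ∀ i < N, Alv π (scr π P j) r y i := by
    intro h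
    rw [if_pos h] at h2
    exact one_ne_zero h2
  push Not at h2'
  have hex : ∃ m, m < N ∧ ¬ Alv π (scr π P j) r y m := h2'
  obtain ⟨hmN, hmA⟩ := Nat.find_spec hex
  have hmin : ∀ i < Nat.find hex, Alv π (scr π P j) r y i := by
    intro i hi
    by_contra hc
    exact Nat.find_min hex hi ⟨by omega, hc⟩
  have hcut : ∀ i ≤ Nat.find hex, (srun (scr π P j) i r y).1 ∉ CutV π P := by
    intro i hi hmem
    refine h5 i (by omega) ?_
    rw [Wk_eq, if_pos (fun i' hi' => hmin i' (by omega)), Set.indicator_of_mem hmem]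
  refine short_of_run (scr π P j) N r y h0 (Nat.find hex) hmN
    (fun i => srun (scr π P j) i r y) rfl (fun i => srun_succ _ i r y) ?_ ?_
  · intro i hi
    exact (scr_cons_iff j (srole r i) _ (hcut i hi.le) _ rfl).2 (hmin i hi)
  · intro h
    exact hmA ((scr_cons_iff j (srole r (Nat.find hex)) _ (hcut _ le_rfl) _ rfl).1 h)

/-! ### measures -/

theorem real_slices (hμ : IsPMP μ) {A : Set (X × Om)} (hA : MeasurableSet A) :
    (μ.prod coinOm).real A = ∫ x, coinOm.real {ω | (x, ω) ∈ A} ∂μ := by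
  have := hμ.prob
  rw [← integral_indicator_one hA, integral_prod]
  · refine integral_congr_ae (Filter.Eventually.of_forall fun x => ?_)
    have h : MeasurableSet {ω | (x, ω) ∈ A} := measurable_prodMk_left hA
    show ∫ ω, A.indicator 1 (x, ω) ∂coinOm = coinOm.real {ω | (x, ω) ∈ A}
    rw [← integral_indicator_one h]
    rfl
  · exact (integrable_const (1 : ℝ)).indicator hA

theorem real_le_of_slices (hμ : IsPMP μ) {A : Set (X × Om)} (hA : MeasurableSet A)
    {D : Set X} (hD : MeasurableSet D) {c : ℝ} (h1 : ∀ x ω, (x, ω) ∈ A → x ∈ D)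
    (h2 : ∀ x ∈ D, coinOm.real {ω | (x, ω) ∈ A} ≤ c) :
    (μ.prod coinOm).real A ≤ c * μ.real D := by
  have := hμ.prob
  rw [real_slices hμ hA]
  have h3 : ∫ x, D.indicator (fun _ => c) x ∂μ = c * μ.real D := by
    rw [integral_indicator hD, setIntegral_const, smul_eq_mul, mul_comm]
  rw [← h3]
  refine integral_mono_of_nonneg (Filter.Eventually.of_forall fun x => measureReal_nonneg)
    ((integrable_const c).indicator hD) (Filter.Eventually.of_forall fun x => ?_)
  by_cases hx : x ∈ D
  · show _ ≤ D.indicator (fun _ => c) x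
    rw [Set.indicator_of_mem hx]
    exact h2 x hx
  · show coinOm.real {ω | (x, ω) ∈ A} ≤ D.indicator (fun _ => c) x
    rw [Set.indicator_of_notMem hx]
    have h4 : {ω | (x, ω) ∈ A} = ∅ := by
      ext ω
      simp only [Set.mem_ofPred_eq, Set.mem_empty_iff_false, iff_false]
      exact fun h => hx (h1 x ω h)
    rw [h4, measureReal_empty]

theorem Wk_zero_or_one (π : X → Bj) (P : Bool → Pieces X) (j k : ℕ) (r : Bool)
    {ψ : X → ℝ} (hψ : ∀ x, ψ x = 0 ∨ ψ x = 1) (y : X × Om) :
    Wk π P j k r ψ y = 0 ∨ Wk π P j k r ψ y = 1 := by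
  classical
  rw [Wk_eq]
  split_ifs
  · exact hψ _
  · exact Or.inl rfl

theorem real_Wk_one (hμ : IsPMP μ) (hπ : Measurable π)
    (hP : ∀ r x g, g ∈ (P r).P x → Reach (ERole π r) x g) (j k : ℕ) (r : Bool)
    {ψ : X → ℝ} (hψm : Measurable ψ) (hψ : ∀ x, ψ x = 0 ∨ ψ x = 1) (x : X) :
    coinOm.real {ω | Wk π P j k r ψ (x, ω) = 1} = Top π ((1 / 2) ^ j) k r ψ x := by
  have hm := (measurable_Wk (fun g => (hμ.mp g).measurable) hπ P j k r hψm).comp
    (measurable_prodMk_left (x := x))
  have hs : MeasurableSet {ω | Wk π P j k r ψ (x, ω) = 1} := hm (measurableSet_singleton 1)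
  rw [← walk_law hP j x k r ψ, ← integral_indicator_one hs]
  refine integral_congr_ae (Filter.Eventually.of_forall fun ω => ?_)
  show Set.indicator {ω | Wk π P j k r ψ (x, ω) = 1} 1 ω = Wk π P j k r ψ (x, ω)
  by_cases h : Wk π P j k r ψ (x, ω) = 1
  · rw [Set.indicator_of_mem (show ω ∈ {ω | Wk π P j k r ψ (x, ω) = 1} from h), h]
    rfl
  · rw [Set.indicator_of_notMem (show ω ∉ {ω | Wk π P j k r ψ (x, ω) = 1} from h)]
    rcases Wk_zero_or_one π P j k r hψ (x, ω) with h1 | h1
    · exact h1.symm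
    · exact absurd h1 h

theorem real_Wk_zero (hμ : IsPMP μ) (hπ : Measurable π)
    (hP : ∀ r x g, g ∈ (P r).P x → Reach (ERole π r) x g) (j k : ℕ) (r : Bool)
    {ψ : X → ℝ} (hψm : Measurable ψ) (hψ : ∀ x, ψ x = 0 ∨ ψ x = 1) (x : X) :
    coinOm.real {ω | Wk π P j k r ψ (x, ω) = 0} = 1 - Top π ((1 / 2) ^ j) k r ψ x := by
  rw [← real_Wk_one hμ hπ hP j k r hψm hψ x]
  have hm := (measurable_Wk (fun g => (hμ.mp g).measurable) hπ P j k r hψm).comp
    (measurable_prodMk_left (x := x))
  have hs : MeasurableSet {ω | Wk π P j k r ψ (x, ω) = 1} := hm (measurableSet_singleton 1)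
  have h : {ω | Wk π P j k r ψ (x, ω) = 0} = {ω | Wk π P j k r ψ (x, ω) = 1}ᶜ := by
    ext ω
    simp only [Set.mem_ofPred_eq, Set.mem_compl_iff]
    rcases Wk_zero_or_one π P j k r hψ (x, ω) with h1 | h1
    · simp [h1]
    · simp [h1]
  rw [h, probReal_compl_eq_one_sub hs]

theorem scr_half (hμ : IsPMP μ) (hπ : Measurable π)
    (hP : ∀ r x g, g ∈ (P r).P x → Reach (ERole π r) x g) {ε : ℝ}
    (hε : μ.real (CutV π P) ≤ ε) (j N : ℕ) (r : Bool) :
    hit μ π ((1 / 2) ^ j) (lab0 (!r)) (lab0 r) r N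
      - 2 * (1 / 2) ^ j * μ.real (Dij π (lab0 (!r)) (lab0 r)) - N * ε ≤
      (μ.prod coinOm).real {y | y ∈ Dij (scr π P j) (lab0 (!r)) (lab0 r) ∧
        Short (scr π P j) N y} := by
  classical
  have := hμ.prob
  set q : ℝ := (1 / 2) ^ j with hq
  have hq0 : (0 : ℝ) ≤ q := by positivity
  have hq1 : q ≤ 1 := pow_le_one₀ (by norm_num) (by norm_num)
  set D : Set X := Dij π (lab0 (!r)) (lab0 r) with hDdef
  have hD : MeasurableSet D := measurableSet_Dij hμ hπ _ _
  have hC : MeasurableSet (CutV π P) := measurableSet_CutV hμ hπ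
  have hgm : ∀ g : F2, Measurable fun x : X => g • x := fun g => (hμ.mp g).measurable
  have hgmY : ∀ g : F2, Measurable fun y : X × Om => g • y := fun g =>
    ((hgm g).comp measurable_fst).prodMk ((measurable_smul_Om g).comp measurable_snd)
  set ι : X → ℝ := Set.indicator (CutV π P) (fun _ => (1 : ℝ)) with hι
  have hιm : Measurable ι := measurable_const.indicator hC
  have hι01 : ∀ x, ι x = 0 ∨ ι x = 1 := by
    intro x
    by_cases hx : x ∈ CutV π P
    · exact Or.inr (Set.indicator_of_mem hx _)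
    · exact Or.inl (Set.indicator_of_notMem hx _)
  set E : Set (X × Om) := {y | y ∈ Dij (scr π P j) (lab0 (!r)) (lab0 r) ∧
        Short (scr π P j) N y} with hE
  set A0 : Set (X × Om) := {y | y.1 ∈ D ∧ Wk π P j N r (fun _ => 1) y = 0} with hA0
  set B1 : Set (X × Om) := {y | y.1 ∈ D ∧ Zst (P (!r)) (if (!r) then j else 0) j y} with hB1
  set B2 : Set (X × Om) := {y | y.1 ∈ D ∧
    Zst (P r) (if r then j else 0) j (gen ((π y.1).symm (lab0 (!r))) • y)} with hB2
  set C : ℕ → Set (X × Om) := fun i => {y | Wk π P j i r ι y = 1} with hCdef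
  have hD' : MeasurableSet {y : X × Om | y.1 ∈ D} := measurable_fst hD
  have mA0 : MeasurableSet A0 :=
    hD'.inter ((measurable_Wk hgm hπ P j N r measurable_const) (measurableSet_singleton 0))
  have mB1 : MeasurableSet B1 := hD'.inter (measurable_Zst _ _ _)
  have mB2 : MeasurableSet B2 := by
    have h : B2 = ⋃ s : S, ({y : X × Om | y.1 ∈ D} ∩ {y | (π y.1).symm (lab0 (!r)) = s}) ∩
        (fun y : X × Om => gen s • y) ⁻¹' {y | Zst (P r) (if r then j else 0) j y} := by
      ext y
      simp only [hB2, Set.mem_ofPred_eq, Set.mem_iUnion, Set.mem_inter_iff, Set.mem_preimage]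
      constructor
      · rintro ⟨h1, h2⟩
        exact ⟨_, ⟨h1, rfl⟩, h2⟩
      · rintro ⟨s, ⟨h1, h2⟩, h3⟩
        subst h2
        exact ⟨h1, h3⟩
    rw [h]
    refine MeasurableSet.iUnion fun s => (hD'.inter ?_).inter
      ((hgmY (gen s)) (measurable_Zst _ _ _))
    exact (hπ.comp measurable_fst)
      (MeasurableSet.of_discrete (s := {b : Bj | b.symm (lab0 (!r)) = s}))
  have mC : ∀ i, MeasurableSet (C i) := fun i =>
    (measurable_Wk hgm hπ P j i r hιm) (measurableSet_singleton 1)
  -- inclusion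
  have hsub : A0 ⊆ (E ∪ B1) ∪ (B2 ∪ ⋃ i ∈ Finset.range N, C i) := by
    intro y hy
    by_cases h3 : y ∈ B1
    · exact Or.inl (Or.inr h3)
    by_cases h4 : y ∈ B2
    · exact Or.inr (Or.inl h4)
    by_cases h5 : y ∈ ⋃ i ∈ Finset.range N, C i
    · exact Or.inr (Or.inr h5)
    refine Or.inl (Or.inl ?_)
    refine scr_short_case j N r y hy.1 hy.2 (fun h => h3 ⟨hy.1, h⟩) (fun h => h4 ⟨hy.1, h⟩) ?_
    intro i hi h
    exact h5 (Set.mem_iUnion₂.2 ⟨i, Finset.mem_range.2 hi, h⟩)
  -- the measures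
  have e0 : hit μ π q (lab0 (!r)) (lab0 r) r N = (μ.prod coinOm).real A0 := by
    rw [real_slices hμ mA0]
    unfold hit
    rw [← integral_indicator hD]
    refine integral_congr_ae (Filter.Eventually.of_forall fun x => ?_)
    show D.indicator (fun x => 1 - Top π q N r (fun _ => 1) x) x =
      coinOm.real {ω | (x, ω) ∈ A0}
    by_cases hx : x ∈ D
    · rw [Set.indicator_of_mem hx, ← real_Wk_zero hμ hπ hP j N r measurable_const
        (fun _ => Or.inr rfl) x]
      congr 1
      ext ω
      simp only [hA0, Set.mem_ofPred_eq]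
      exact ⟨fun h => ⟨hx, h⟩, fun h => h.2⟩
    · rw [Set.indicator_of_notMem hx]
      have h4 : {ω | (x, ω) ∈ A0} = ∅ := by
        ext ω
        simp only [Set.mem_ofPred_eq, Set.mem_empty_iff_false, iff_false]
        exact fun h => hx h.1
      rw [h4, measureReal_empty]
  have e1 : (μ.prod coinOm).real B1 ≤ q * μ.real D := by
    refine real_le_of_slices hμ mB1 hD (fun x ω h => h.1) fun x hx => ?_
    rw [hq, ← real_Zst (P (!r)) (if (!r) then j else 0) j x]
    refine measureReal_mono ?_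
    intro ω hω
    exact hω.2
  have e2 : (μ.prod coinOm).real B2 ≤ q * μ.real D := by
    refine real_le_of_slices hμ mB2 hD (fun x ω h => h.1) fun x hx => ?_
    set s : S := (π x).symm (lab0 (!r)) with hs
    have hZ : MeasurableSet {ω : Om | Zst (P r) (if r then j else 0) j (gen s • x, ω)} :=
      measurable_prodMk_left (x := gen s • x) (measurable_Zst (P r) (if r then j else 0) j)
    have h1 : coinOm.real ((fun ω : Om => gen s • ω) ⁻¹'
        {ω : Om | Zst (P r) (if r then j else 0) j (gen s • x, ω)}) = q := by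
      rw [measureReal_def, (isPMP_coinOm.mp (gen s)).measure_preimage hZ.nullMeasurableSet,
        ← measureReal_def, real_Zst]
    rw [← h1]
    refine measureReal_mono ?_
    intro ω hω
    exact hω.2
  have e3 : ∀ i, (μ.prod coinOm).real (C i) ≤ ε := by
    intro i
    rw [real_slices hμ (mC i)]
    have h1 : ∫ x, coinOm.real {ω | (x, ω) ∈ C i} ∂μ = ∫ x, Top π q i r ι x ∂μ := by
      refine integral_congr_ae (Filter.Eventually.of_forall fun x => ?_)
      exact real_Wk_one hμ hπ hP j i r hιm hι01 x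
    have hb : BMeas ι := by
      refine ⟨hιm, 1, fun x => ?_⟩
      rcases hι01 x with h | h <;> rw [h] <;> norm_num
    have h2 := integral_Top_le hμ hπ hq0 hq1 hb
      (fun x => by rcases hι01 x with h | h <;> rw [h] <;> norm_num) i r
    have h3 : ∫ x, ι x ∂μ = μ.real (CutV π P) := by
      rw [← integral_indicator_one hC]
      rfl
    rw [h1]
    linarith
  have e4 : (μ.prod coinOm).real A0 ≤ ((μ.prod coinOm).real E + (μ.prod coinOm).real B1) +
      ((μ.prod coinOm).real B2 + ∑ i ∈ Finset.range N, (μ.prod coinOm).real (C i)) := by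
    refine (measureReal_mono hsub).trans ?_
    refine (measureReal_union_le _ _).trans ?_
    refine add_le_add (measureReal_union_le _ _) ?_
    refine (measureReal_union_le _ _).trans ?_
    exact add_le_add le_rfl (measureReal_biUnion_finset_le _ _)
  have e5 : ∑ i ∈ Finset.range N, (μ.prod coinOm).real (C i) ≤ N * ε := by
    refine (Finset.sum_le_sum fun i _ => e3 i).trans ?_
    rw [Finset.sum_const, Finset.card_range, nsmul_eq_mul]
  rw [e0]
  nlinarith [e1, e2, e4, e5]

theorem scr_sig (hμ : IsPMP μ) (hπ : Measurable π)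
    (hP : ∀ r x g, g ∈ (P r).P x → Reach (ERole π r) x g) {ε : ℝ}
    (hε : μ.real (CutV π P) ≤ ε) (j N : ℕ) :
    hit μ π ((1 / 2) ^ j) 0 1 true N + hit μ π ((1 / 2) ^ j) 1 0 false N
      - 4 * (1 / 2) ^ j * μ.real (Dij π 0 1) - 2 * N * ε ≤
      sig (μ.prod coinOm) (scr π P j) N := by
  classical
  have := hμ.prob
  have h1 : hit μ π ((1 / 2) ^ j) 0 1 true N - 2 * (1 / 2) ^ j * μ.real (Dij π 0 1) - N * ε ≤
      (μ.prod coinOm).real {y | y ∈ Dij (scr π P j) 0 1 ∧ Short (scr π P j) N y} :=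
    scr_half hμ hπ hP hε j N true
  have h2 : hit μ π ((1 / 2) ^ j) 1 0 false N - 2 * (1 / 2) ^ j * μ.real (Dij π 1 0) - N * ε ≤
      (μ.prod coinOm).real {y | y ∈ Dij (scr π P j) 1 0 ∧ Short (scr π P j) N y} :=
    scr_half hμ hπ hP hε j N false
  rw [real_Dij_comm hμ hπ 1 0] at h2
  set ρ : X × Om → Bj := scr π P j with hρ
  have hρm : Measurable ρ := measurable_scr hπ P j
  have hgmY : ∀ g : F2, Measurable fun y : X × Om => g • y := fun g =>
    ((hμ.mp g).measurable.comp measurable_fst).prodMk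
      ((measurable_smul_Om g).comp measurable_snd)
  have hE01 : ∀ s, MeasurableSet {y | E01 ρ y s} := by
    intro s
    refine (measurableSet_cons hgmY hρm s).inter ?_
    exact (measurable_lbl hρm s) (MeasurableSet.of_discrete (s := {c : Fin 4 | c = 0 ∨ c = 1}))
  have hSh : MeasurableSet {y | Short ρ N y} := measurableSet_encard_le hgmY hE01 N
  have mB : ∀ s, MeasurableSet {y | (ρ y s = 1 ∧ oth ρ y s = 0) ∧ Short ρ N y} := by
    intro s
    refine (MeasurableSet.inter ?_ ?_).inter hSh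
    · exact (measurable_lbl hρm s) (MeasurableSet.of_discrete (s := {c : Fin 4 | c = 1}))
    · exact (measurable_oth hgmY hρm s) (MeasurableSet.of_discrete (s := {c : Fin 4 | c = 0}))
  have h3 : ∀ s, (μ.prod coinOm).real {y | T01 ρ y s ∧ Short ρ N y} =
      (μ.prod coinOm).real {y | (ρ y s = 0 ∧ oth ρ y s = 1) ∧ Short ρ N y} +
      (μ.prod coinOm).real {y | (ρ y s = 1 ∧ oth ρ y s = 0) ∧ Short ρ N y} := by
    intro s
    rw [← measureReal_union ?_ (mB s)]
    · congr 1
      ext y
      simp only [T01, Set.mem_ofPred_eq, Set.mem_union]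
      tauto
    · rw [Set.disjoint_left]
      rintro y ⟨⟨h, -⟩, -⟩ ⟨⟨h', -⟩, -⟩
      rw [h] at h'
      exact absurd h' (by decide)
  have h4 : ∀ a b : Fin 4, (μ.prod coinOm).real {y | y ∈ Dij ρ a b ∧ Short ρ N y} ≤
      ∑ s, (μ.prod coinOm).real {y | (ρ y s = a ∧ oth ρ y s = b) ∧ Short ρ N y} := by
    intro a b
    refine le_trans (measureReal_mono ?_) (measureReal_iUnion_fintype_le _)
    intro y hy
    refine Set.mem_iUnion.2 ⟨(ρ y).symm a, ⟨⟨Equiv.apply_symm_apply _ _, hy.1⟩, hy.2⟩⟩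
  have h5 : sig (μ.prod coinOm) ρ N =
      ∑ s, (μ.prod coinOm).real {y | (ρ y s = 0 ∧ oth ρ y s = 1) ∧ Short ρ N y} +
      ∑ s, (μ.prod coinOm).real {y | (ρ y s = 1 ∧ oth ρ y s = 0) ∧ Short ρ N y} := by
    unfold sig
    rw [← Finset.sum_add_distrib]
    exact Finset.sum_congr rfl fun s _ => h3 s
  rw [h5]
  have h6 := h4 0 1
  have h7 := h4 1 0
  linarith

end

end Pool.Agent.W_MP_ae868b_lc
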