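import Pool.Agent.W_MP_ae868b_lc.Walk
import Pool.Agent.W_MP_ae868b_lc.OpsB

/-!
# The scrambling step: distance and error (task M7a); proofs of all parts of M7

Notation: `π* = scr π P j : X × Om → Bj`, `q = (1/2)^j`, `Y = X × Om`, `ν = μ.prod coinOm`.

PROOFS.
`scr_err`: let `¬ Cons π* y s`. If `Cons π y.1 s` then both flags have the same label, of some
role `r`, so `ERole π r y.1 s`; if moreover `gen s ∈ (P r).P y.1` then by `Zst_smul` the two ends have
the same status of role `r` and `Cons π* y s` (the swap of the other role does not touch labels of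
role `r`): contradiction. So `y.1 ∈ CutV π P`. There are `4` letters: `err ν π* ≤ err μ π + 4 ε`.

`scr_sig`: `sig ν π* N = ν E1 + ν E2` where `E1 = {y | y ∈ Dij π* 0 1 ∧ Short π* N y}` and
`E2 = {y | y ∈ Dij π* 1 0 ∧ Short π* N y}` (split `T01` according to the own label). We show
`ν E1 ≥ hit μ π q 0 1 true N - 2 q η - N ε`, and symmetrically for `E2` (roles exchanged). By
`walk_law` with `ψ = 1` and Fubini,
`hit μ π q 0 1 true N = ∫ x in Dij π 0 1, (1 - ∫ ω, Wk π P j N true 1 (x, ω)) = ν {y | y.1 ∈ Dij π 0 1,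
Wk .. N true 1 y = 0}` (`Wk .. 1` has values `0, 1`).
Let `y` be in this set, `y_0 = y`, `y_{i+1} = gen s_i • y_i`, `s_i = (π* y_i).symm (lab0 r_i)`,
`r_i = true` for even `i`, `false` for odd `i`; there is a first `m < N` with `¬ Cons π (y_m).1 s_m`.
Exclude the following events:
(a) `Zst (P false) 0 j y` (ν-measure of `{y.1 ∈ Dij π 0 1} ∩ (a)` is `q η`, `real_Zst` and Fubini);
(b) `Zst (P true) j j (gen s • y)`, `s = (π y.1).symm 0` (also `q η`: for fixed `x` and `s`,
    `(x, ω) ↦ gen s • (x, ω)` and invariance of `coinOm`);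
(c) for some `i < N`, the walk is alive up to `i` and `(y_i).1 ∈ CutV π P`: `ν`-measure at most
    `∑_{i<N} ∫ Wk π P j i true 1_{CutV} ≤ ∑ ∫ Top π q i true 1_{CutV} ∂μ ≤ N μ(CutV) ≤ N ε`
    (`walk_law`, `integral_Top_le`).
Then `y ∈ E1`. Indeed the flag `s = (π y.1).symm 0` has `π* y s = 0` (not (a)) and
`oth π* y s = 1` (not (b)), so `y ∈ Dij π* 0 1`. For `i < m` the edge `s_i` at `y_i` is `π`-consistent
with label of role `r_i` and `(y_i).1 ∉ CutV`, so both ends have the same status of role `r_i` and the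
edge is `π*`-consistent with label `lab0 r_i`. At `m` the edge is not `π*`-consistent: its
own `π*`-label is `lab0 r_m`; if the other `π`-label is of role `r_m` (then it is the other label of
that role), both ends have the same status (not in `CutV`) and the other `π*`-label is
`lab1 r_m`; otherwise the other `π*`-label is not of role `r_m`. So the set of vertices
`Γ = {g_0 = 1, g_1, ..., g_m}` (`y_i = g_i • y`) contains `1` and is closed under `E01 π*`-steps: the
`01`-flags at `y_i` are `s_i` (to `y_{i+1}`, or inconsistent for `i = m`) and the arrival flag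
`sinv s_{i-1}` (to `y_{i-1}`; for `i = 0` it is `s`, inconsistent). Hence `comp (E01 π*) y ⊆ Γ` has at
most `m + 1 ≤ N` elements.
-/

open MeasureTheory

namespace Pool.Agent.W_MP_ae868b_lc

section

variable {X : Type*} [MeasurableSpace X] [MulAction F2 X] {μ : Measure X} {π : X → Bj}
  {P : Bool → Pieces X}

theorem measurableSet_ERole (hm : ∀ g : F2, Measurable fun x : X => g • x) (hπ : Measurable π)
    (r : Bool) (s : S) : MeasurableSet {x | ERole π r x s} := by
  have h1 : MeasurableSet {x | π x s = lab0 r ∨ π x s = lab1 r} :=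
    (measurable_lbl hπ s) (Set.to_countable {a : Fin 4 | a = lab0 r ∨ a = lab1 r}).measurableSet
  have h2 : MeasurableSet {x | oth π x s = lab0 r ∨ oth π x s = lab1 r} :=
    (measurable_oth hm hπ s)
      (Set.to_countable {a : Fin 4 | a = lab0 r ∨ a = lab1 r}).measurableSet
  exact h1.inter h2

theorem measurableSet_CutV (hμ : IsPMP μ) (hπ : Measurable π) :
    MeasurableSet (CutV π P) := by
  have hm : ∀ g : F2, Measurable fun x : X => g • x := fun g => (hμ.mp g).measurable
  have h : CutV π P = ⋃ r : Bool, ⋃ s : S, ({x | ERole π r x s} ∩ {x | gen s ∉ (P r).P x}) := by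
    ext x
    simp [CutV]
  rw [h]
  refine MeasurableSet.iUnion fun r => MeasurableSet.iUnion fun s => ?_
  refine (measurableSet_ERole hm hπ r s).inter ?_
  have h2 : MeasurableSet ((P r).P ⁻¹' {D | gen s ∉ D}) := (P r).meas MeasurableSet.of_discrete
  exact h2

theorem prod_Zst (hμ : IsPMP μ) (Q : Pieces X) (o j : ℕ) :
    (μ.prod coinOm).real {y : X × Om | Zst Q o j y} = (1 / 2) ^ j := by
  have := hμ.prob
  have h : ∀ x, coinOm (Prod.mk x ⁻¹' {y : X × Om | Zst Q o j y})
      = ENNReal.ofReal ((1 / 2) ^ j) := by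
    intro x
    rw [← real_Zst Q o j x]
    unfold Measure.real
    rw [ENNReal.ofReal_toReal (measure_ne_top _ _)]
    rfl
  unfold Measure.real
  rw [Measure.prod_apply (measurable_Zst Q o j)]
  simp only [h, lintegral_const, measure_univ, mul_one]
  exact ENNReal.toReal_ofReal (by positivity)

theorem scr_dist (hμ : IsPMP μ) (hπ : Measurable π) (j : ℕ) :
    (μ.prod coinOm).real {y | scr π P j y ≠ π y.1} ≤ 2 * (1 / 2) ^ j := by
  have := hμ.prob
  have hsub : {y | scr π P j y ≠ π y.1} ⊆
      {y : X × Om | Zst (P false) 0 j y} ∪ {y : X × Om | Zst (P true) j j y} := by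
    intro y hy
    by_contra hc
    simp only [Set.mem_union, Set.mem_ofPred_eq, not_or] at hc
    apply hy
    unfold scr
    rw [if_neg hc.1, if_neg hc.2]
    rfl
  calc (μ.prod coinOm).real {y | scr π P j y ≠ π y.1}
      ≤ (μ.prod coinOm).real
        ({y : X × Om | Zst (P false) 0 j y} ∪ {y : X × Om | Zst (P true) j j y}) :=
        measureReal_mono hsub
    _ ≤ (μ.prod coinOm).real {y : X × Om | Zst (P false) 0 j y}
        + (μ.prod coinOm).real {y : X × Om | Zst (P true) j j y} := measureReal_union_le _ _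
    _ = 2 * (1 / 2) ^ j := by rw [prod_Zst hμ, prod_Zst hμ]; ring

/-- an edge which is consistent and not cut stays consistent -/
theorem cons_scr {j : ℕ} {y : X × Om} {s : S} (hc : Cons π y.1 s) (hcut : y.1 ∉ CutV π P) :
    Cons (scr π P j) y s := by
  classical
  have hg : ∀ r, ERole π r y.1 s → gen s ∈ (P r).P y.1 := by
    intro r hr
    by_contra hn
    exact hcut ⟨r, s, hr, hn⟩
  have hoth : π (gen s • y.1) (sinv s) = π y.1 s := hc.symm
  have hA : (π y.1 s = 0 ∨ π y.1 s = 3) →
      (Zst (P false) 0 j (gen s • y) ↔ Zst (P false) 0 j y) := by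
    intro h
    apply Zst_smul
    apply hg
    refine ⟨h, ?_⟩
    have h2 : oth π y.1 s = π y.1 s := hoth
    rw [h2]
    exact h
  have hB : (π y.1 s = 1 ∨ π y.1 s = 2) →
      (Zst (P true) j j (gen s • y) ↔ Zst (P true) j j y) := by
    intro h
    apply Zst_smul
    apply hg
    refine ⟨h, ?_⟩
    have h2 : oth π y.1 s = π y.1 s := hoth
    rw [h2]
    exact h
  unfold Cons oth scr
  simp only [Equiv.trans_apply, Prod.smul_fst, hoth]
  generalize π y.1 s = a at *
  by_cases h03 : a = 0 ∨ a = 3
  · have e := hA h03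
    by_cases hz : Zst (P false) 0 j y
    · rw [if_pos hz, if_pos (e.2 hz)]
      rcases h03 with rfl | rfl
      · rw [Equiv.swap_apply_left]
        split_ifs <;> decide
      · rw [Equiv.swap_apply_right]
        split_ifs <;> decide
    · rw [if_neg hz, if_neg (fun h => hz (e.1 h))]
      rcases h03 with rfl | rfl
      · split_ifs <;> decide
      · split_ifs <;> decide
  · have h12 : a = 1 ∨ a = 2 := by
      have hall : ∀ c : Fin 4, ¬ (c = 0 ∨ c = 3) → c = 1 ∨ c = 2 := by decide
      exact hall a h03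
    have e := hB h12
    have t1 : ∀ b : Prop, ∀ inst : Decidable b,
        (@ite (Equiv.Perm (Fin 4)) b inst (Equiv.swap 0 3) (Equiv.refl _)) a = a := by
      intro b inst
      split_ifs
      · rcases h12 with rfl | rfl <;> decide
      · rfl
    by_cases hz : Zst (P true) j j y
    · rw [if_pos hz, if_pos (e.2 hz)]
      rw [t1, t1]
    · rw [if_neg hz, if_neg (fun h => hz (e.1 h))]
      rw [t1, t1]

theorem scr_err (hμ : IsPMP μ) (hπ : Measurable π) {ε : ℝ} (hε : μ.real (CutV π P) ≤ ε)
    (j : ℕ) : err (μ.prod coinOm) (scr π P j) ≤ err μ π + 4 * ε := by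
  have := hμ.prob
  have hm : ∀ g : F2, Measurable fun x : X => g • x := fun g => (hμ.mp g).measurable
  have key : ∀ s : S, (μ.prod coinOm).real {y | ¬ Cons (scr π P j) y s}
      ≤ μ.real {x | ¬ Cons π x s} + ε := by
    intro s
    have hA : MeasurableSet {x | ¬ Cons π x s} := (measurableSet_cons hm hπ s).compl
    have hC : MeasurableSet (CutV π P) := measurableSet_CutV hμ hπ
    have hsub : {y : X × Om | ¬ Cons (scr π P j) y s} ⊆
        Prod.fst ⁻¹' ({x | ¬ Cons π x s} ∪ CutV π P) := by
      intro y hy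
      by_contra hc
      simp only [Set.mem_preimage, Set.mem_union, Set.mem_ofPred_eq, not_or, not_not] at hc
      exact hy (cons_scr hc.1 hc.2)
    calc (μ.prod coinOm).real {y | ¬ Cons (scr π P j) y s}
        ≤ (μ.prod coinOm).real (Prod.fst ⁻¹' ({x | ¬ Cons π x s} ∪ CutV π P)) :=
          measureReal_mono hsub
      _ = μ.real ({x | ¬ Cons π x s} ∪ CutV π P) := by
          unfold Measure.real
          rw [(measurePreserving_fst (μ := μ) (ν := coinOm)).measure_preimage
            (hA.union hC).nullMeasurableSet]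
      _ ≤ μ.real {x | ¬ Cons π x s} + μ.real (CutV π P) := measureReal_union_le _ _
      _ ≤ μ.real {x | ¬ Cons π x s} + ε := by linarith
  unfold err
  calc ∑ s : S, (μ.prod coinOm).real {y | ¬ Cons (scr π P j) y s}
      ≤ ∑ s : S, (μ.real {x | ¬ Cons π x s} + ε) := Finset.sum_le_sum fun s _ => key s
    _ = ∑ s : S, μ.real {x | ¬ Cons π x s} + 4 * ε := by
        rw [Finset.sum_add_distrib, Finset.sum_const]
        simp

end

end Pool.Agent.W_MP_ae868b_lc
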