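import Pool.Agent.W_MP_ae868b_lc.Coin

/-!
# Splitting off fresh randomness, close to the identity (task S)

PROOF. For `N : ℕ` let `σ, τ : ℕ → ℕ`, `σ n = n` for `n < N`, `σ (N + i) = N + 2 i`,
`τ i = N + 2 i + 1`: injective with disjoint ranges. `Ψ ω = (fun p => ω (σ p.1, p.2), fun p => ω (τ p.1, p.2))`
is measurable, equivariant and measure preserving onto the product
(`MeasureTheory.Measure.map_infinitePi_infinitePi_of_inj` and the independence of disjoint sets of
coordinates, or uniqueness of the product measure on boxes). It remains: for measurable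
`f : Om → Bj`, `coinOm.real {ω | f (Ψ_N ω).1 ≠ f ω} → 0` as `N → ∞`. The class of measurable sets `E`
with `coinOm (symmDiff (Φ_N⁻¹ E) E) → 0`, `Φ_N ω = (Ψ_N ω).1`, is closed under complements and
countable unions (approximate by finite unions, `Φ_N` preserves the measure) and contains the sets
depending on one coordinate `(n, g)` (for `N > n` the symmetric difference is empty); so it is
everything (`MeasurableSpace.generateFrom_induction` / `induction_on_inter`). Apply it to the finitely
many sets `f⁻¹ {b}`.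
-/

open MeasureTheory

namespace Pool.Agent.W_MP_ae868b_lc

section SplitGeneral

open ProbabilityTheory

theorem split_mp {ι κ : Type*} (P : Measure Bool) [IsProbabilityMeasure P] {φ ψ : κ → ι}
    (hφ : Function.Injective φ) (hψ : Function.Injective ψ) (hd : ∀ a b, φ a ≠ ψ b) :
    MeasurePreserving (fun ω : ι → Bool =>
        ((fun k => ω (φ k) : κ → Bool), (fun k => ω (ψ k) : κ → Bool)))
      (Measure.infinitePi fun _ : ι => P)
      ((Measure.infinitePi fun _ : κ => P).prod (Measure.infinitePi fun _ : κ => P)) := by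
  have hm1 : Measurable fun ω : ι → Bool => (fun k => ω (φ k) : κ → Bool) := by fun_prop
  have hm2 : Measurable fun ω : ι → Bool => (fun k => ω (ψ k) : κ → Bool) := by fun_prop
  refine ⟨hm1.prodMk hm2, ?_⟩
  have hi : iIndepFun (fun (i : ι) (ω : ι → Bool) => ω i) (Measure.infinitePi fun _ : ι => P) :=
    iIndepFun_infinitePi (X := fun _ ω => ω) (fun _ => measurable_id)
  have hind : IndepFun (fun ω : ι → Bool => (fun k => ω (φ k) : κ → Bool))
      (fun ω : ι → Bool => (fun k => ω (ψ k) : κ → Bool)) (Measure.infinitePi fun _ : ι => P) := by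
    have hS : ∀ θ : κ → ι, MeasurableSpace.comap (fun ω : ι → Bool => (fun k => ω (θ k) : κ → Bool))
        MeasurableSpace.pi ≤
        ⨆ i ∈ Set.range θ, MeasurableSpace.comap (fun ω : ι → Bool => ω i) inferInstance := by
      intro θ
      change MeasurableSpace.comap _ (⨆ k, MeasurableSpace.comap (fun b : κ → Bool => b k) _) ≤ _
      rw [MeasurableSpace.comap_iSup]
      refine iSup_le fun k => ?_
      rw [MeasurableSpace.comap_comp]
      exact le_biSup (fun i => MeasurableSpace.comap (fun ω : ι → Bool => ω i) inferInstance)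
        (Set.mem_range_self k)
    have h1 := indep_iSup_of_disjoint (fun i => (measurable_pi_apply i).comap_le) hi
      (S := Set.range φ) (T := Set.range ψ) (by
        rw [Set.disjoint_left]
        rintro _ ⟨a, rfl⟩ ⟨b, hb⟩
        exact hd a b hb.symm)
    exact indep_of_indep_of_le_left (indep_of_indep_of_le_right h1 (hS ψ)) (hS φ)
  rw [(indepFun_iff_map_prod_eq_prod_map_map hm1.aemeasurable hm2.aemeasurable).1 hind,
    Measure.map_infinitePi_infinitePi_of_inj hφ, Measure.map_infinitePi_infinitePi_of_inj hψ]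

/-- approximation by a cylinder which depends on finitely many coordinates -/
theorem exists_cyl {ι : Type*} (μ : Measure (ι → Bool)) [IsFiniteMeasure μ] {E : Set (ι → Bool)}
    (hE : MeasurableSet E) {ε : ℝ} (hε : 0 < ε) :
    ∃ t : Set (ι → Bool), MeasurableSet t ∧ μ.real (symmDiff E t) ≤ ε ∧
      ∃ I : Finset ι, ∀ ω ω' : ι → Bool, (∀ i ∈ I, ω i = ω' i) → (ω ∈ t ↔ ω' ∈ t) := by
  have hd := Measure.MeasureDense.of_generateFrom_isSetAlgebra_finite μ
    (isSetAlgebra_measurableCylinders (α := fun _ : ι => Bool))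
    (generateFrom_measurableCylinders (α := fun _ : ι => Bool)).symm
  obtain ⟨t, ht, htE⟩ := hd.approx E hE (measure_ne_top _ _) ε hε
  refine ⟨t, MeasurableSet.of_mem_measurableCylinders ht, ?_, ?_⟩
  · rw [measureReal_def]
    exact ENNReal.toReal_le_of_le_ofReal hε.le htE.le
  · rw [mem_measurableCylinders] at ht
    obtain ⟨I, S, _, rfl⟩ := ht
    refine ⟨I, fun ω ω' h => ?_⟩
    rw [mem_cylinder, mem_cylinder]
    have : I.restrict ω = I.restrict ω' := by
      funext i
      exact h i.1 i.2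
    rw [this]

/-- the coordinates of the first factor -/
def spA (N n : ℕ) : ℕ := if n < N then n else N + 2 * (n - N)

/-- the coordinates of the second factor -/
def spB (N n : ℕ) : ℕ := N + 2 * n + 1

theorem spA_inj (N : ℕ) : Function.Injective (spA N) := by
  intro a b h
  unfold spA at h
  split_ifs at h <;> omega

theorem spB_inj (N : ℕ) : Function.Injective (spB N) := by
  intro a b h
  unfold spB at h
  omega

theorem spA_ne_spB (N a b : ℕ) : spA N a ≠ spB N b := by
  unfold spA spB
  split_ifs <;> omega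

/-- the splitting map -/
def splMap (N : ℕ) (ω : Om) : Om × Om := (fun p => ω (spA N p.1, p.2), fun p => ω (spB N p.1, p.2))

theorem splMap_mp (N : ℕ) : MeasurePreserving (splMap N) coinOm (coinOm.prod coinOm) :=
  split_mp (ι := ℕ × F2) (κ := ℕ × F2) coin (φ := fun p => (spA N p.1, p.2))
    (ψ := fun p => (spB N p.1, p.2))
    (fun _ _ h => Prod.ext (spA_inj N (Prod.ext_iff.1 h).1) (Prod.ext_iff.1 h).2)
    (fun _ _ h => Prod.ext (spB_inj N (Prod.ext_iff.1 h).1) (Prod.ext_iff.1 h).2)
    (fun _ _ h => spA_ne_spB N _ _ (Prod.ext_iff.1 h).1)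

end SplitGeneral

theorem exists_split {f : Om → Bj} (hf : Measurable f) {δ : ℝ} (hδ : 0 < δ) :
    ∃ Ψ : Om → Om × Om, MeasurePreserving Ψ coinOm (coinOm.prod coinOm) ∧
      (∀ (g : F2) (ω : Om), Ψ (g • ω) = g • Ψ ω) ∧
      coinOm.real {ω | f (Ψ ω).1 ≠ f ω} ≤ δ := by
  classical
  have hc : 0 ≤ (Fintype.card Bj : ℝ) := Nat.cast_nonneg _
  obtain ⟨ε, hεD⟩ : ∃ ε, ε = δ / (2 * (Fintype.card Bj + 1)) := ⟨_, rfl⟩
  have hε : 0 < ε := by rw [hεD]; positivity
  have hE : ∀ b : Bj, MeasurableSet (f ⁻¹' {b}) := fun b => hf (measurableSet_singleton b)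
  have hcyl : ∀ b : Bj, ∃ t : Set Om, MeasurableSet t ∧
      coinOm.real (symmDiff (f ⁻¹' {b}) t) ≤ ε ∧
      ∃ I : Finset (ℕ × F2), ∀ ω ω' : Om, (∀ i ∈ I, ω i = ω' i) → (ω ∈ t ↔ ω' ∈ t) := fun b =>
    exists_cyl (ι := ℕ × F2) (Measure.infinitePi fun _ => coin) (E := f ⁻¹' {b}) (hE b) hε
  choose t htm hte I hI using hcyl
  obtain ⟨N, hN⟩ : ∃ N : ℕ, ∀ b, ∀ p ∈ I b, p.1 < N := by
    refine ⟨(Finset.univ.biUnion I).sup Prod.fst + 1, fun b p hp => ?_⟩
    have : p.1 ≤ (Finset.univ.biUnion I).sup Prod.fst :=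
      Finset.le_sup (f := Prod.fst) (Finset.mem_biUnion.2 ⟨b, Finset.mem_univ b, hp⟩)
    omega
  have hmp := splMap_mp N
  have hmp1 : MeasurePreserving (fun ω => (splMap N ω).1) coinOm coinOm :=
    measurePreserving_fst.comp hmp
  refine ⟨splMap N, hmp, fun g ω => rfl, ?_⟩
  have hfix : ∀ b ω, (splMap N ω).1 ∈ t b ↔ ω ∈ t b := by
    intro b ω
    apply hI b
    intro p hp
    change ω (spA N p.1, p.2) = ω p
    have := hN b p hp
    rw [spA, if_pos this]
  have hsub : {ω | f (splMap N ω).1 ≠ f ω} ⊆ ⋃ b ∈ (Finset.univ : Finset Bj),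
      ((fun ω => (splMap N ω).1) ⁻¹' (symmDiff (f ⁻¹' {b}) (t b)) ∪ symmDiff (f ⁻¹' {b}) (t b)) := by
    intro ω hω
    simp only [Set.mem_iUnion]
    refine ⟨f ω, Finset.mem_univ _, ?_⟩
    by_cases h : ω ∈ t (f ω)
    · left
      right
      exact ⟨(hfix _ _).2 h, hω⟩
    · right
      left
      exact ⟨rfl, h⟩
  calc coinOm.real {ω | f (splMap N ω).1 ≠ f ω}
      ≤ coinOm.real (⋃ b ∈ (Finset.univ : Finset Bj),
      ((fun ω => (splMap N ω).1) ⁻¹' (symmDiff (f ⁻¹' {b}) (t b)) ∪
        symmDiff (f ⁻¹' {b}) (t b))) := measureReal_mono hsub (measure_ne_top _ _)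
    _ ≤ ∑ b : Bj, coinOm.real ((fun ω => (splMap N ω).1) ⁻¹' (symmDiff (f ⁻¹' {b}) (t b)) ∪
        symmDiff (f ⁻¹' {b}) (t b)) := measureReal_biUnion_finset_le _ _
    _ ≤ ∑ _b : Bj, (ε + ε) := by
        refine Finset.sum_le_sum fun b _ => ?_
        refine (measureReal_union_le _ _).trans (add_le_add ?_ (hte b))
        rw [hmp1.measureReal_preimage ((hE b).symmDiff (htm b)).nullMeasurableSet]
        exact hte b
    _ ≤ δ := by
        rw [Finset.sum_const, Finset.card_univ, nsmul_eq_mul]
        have h2 : ε * (2 * (Fintype.card Bj + 1)) = δ := by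
          rw [hεD]
          field_simp
        nlinarith

end Pool.Agent.W_MP_ae868b_lc
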