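import Pool.Agent.W_MP_ae868b_lc.StageGen

/-!
# Numerics of the stage (task St3)
-/

open MeasureTheory

namespace Pool.Agent.W_MP_ae868b_lc

theorem stg_fifth {x : ℝ} (hx : 0 ≤ x) : (x ^ (1 / 5 : ℝ)) ^ 5 = x := by
  rw [← Real.rpow_natCast, ← Real.rpow_mul hx]
  norm_num

theorem stg_err_nonneg {X : Type*} [MeasurableSpace X] [MulAction F2 X] (μ : Measure X)
    (π : X → Bj) : 0 ≤ err μ π :=
  Finset.sum_nonneg fun _ _ => measureReal_nonneg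

/-- The choice of `j`. -/
theorem stg_exists_j {ρ : ℝ} (h0 : 0 < ρ) (h1 : ρ ≤ (1 / 12) ^ 5) :
    ∃ j : ℕ, 5 ≤ j ∧ ((1 / 2 : ℝ) ^ j) ^ 5 ≤ ρ ^ 2 ∧ ρ ^ 2 < 32 * ((1 / 2 : ℝ) ^ j) ^ 5 := by
  have hex : ∃ j : ℕ, (1 / 32 : ℝ) ^ j ≤ ρ ^ 2 := by
    obtain ⟨j, hj⟩ := exists_pow_lt_of_lt_one (show (0 : ℝ) < ρ ^ 2 by positivity)
      (show (1 / 32 : ℝ) < 1 by norm_num)
    exact ⟨j, hj.le⟩
  classical
  have hconv : ∀ j : ℕ, ((1 / 2 : ℝ) ^ j) ^ 5 = (1 / 32 : ℝ) ^ j := by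
    intro j
    rw [← pow_mul, mul_comm, pow_mul]
    norm_num
  have hsq : ρ ^ 2 ≤ ((1 / 12 : ℝ) ^ 5) ^ 2 := pow_le_pow_left₀ h0.le h1 2
  have h5 : 5 ≤ Nat.find hex := by
    by_contra hlt
    have h4 : Nat.find hex ≤ 4 := by omega
    have h6 := Nat.find_spec hex
    have h7 : (1 / 32 : ℝ) ^ 4 ≤ (1 / 32 : ℝ) ^ Nat.find hex :=
      pow_le_pow_of_le_one (by norm_num) (by norm_num) h4
    have h8 : ((1 / 12 : ℝ) ^ 5) ^ 2 < (1 / 32 : ℝ) ^ 4 := by norm_num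
    linarith
  refine ⟨Nat.find hex, h5, ?_, ?_⟩
  · rw [hconv]
    exact Nat.find_spec hex
  · rw [hconv]
    obtain ⟨i, hi⟩ : ∃ i, Nat.find hex = i + 1 := ⟨Nat.find hex - 1, by omega⟩
    have h6 := Nat.find_min hex (show i < Nat.find hex by omega)
    rw [not_le] at h6
    have h9 : (1 / 32 : ℝ) ^ (i + 1) = (1 / 32 : ℝ) ^ i * (1 / 32) := pow_succ _ _
    rw [hi, h9]
    linarith

/-- The numerics of the stage. -/
theorem stg_numerics {ρ ρ' Q q : ℝ} (h0 : 0 < ρ) (h1 : ρ ≤ (1 / 12) ^ 5) (hρ' : 0 ≤ ρ')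
    (hq0 : 0 < q) (hq1 : q ≤ 1) (hQ : Q * q ^ 2 = 1)
    (hqρ : q ^ 5 ≤ ρ ^ 2) (hρq : ρ ^ 2 < 32 * q ^ 5)
    (hD : ρ' ≤ ρ - 3 / 16 * min (ρ / 24) (1120000 ^ 2 * Q * (ρ / 12) ^ 2 / 16)) :
    ρ' ≤ ρ - ρ ^ 2 / 1000000 ∧
      2 * q + 16 * (1120000 ^ 2 * Q) * (ρ - ρ') ≤
        (272 * 1120000 ^ 2 * 20) * (ρ ^ (1 / 5 : ℝ) - ρ' ^ (1 / 5 : ℝ)) := by
  have hρ1 : ρ ≤ 1 := h1.trans (by norm_num)
  have hQ0 : 0 < Q := by
    by_contra h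
    rw [not_lt] at h
    nlinarith [mul_nonneg (neg_nonneg.2 h) (sq_nonneg q)]
  have hQ1 : 1 ≤ Q := by
    have h2 : q ^ 2 ≤ 1 := pow_le_one₀ hq0.le hq1
    nlinarith
  -- the decrease of the error
  have hmin1 : ρ ^ 2 / 1000000 ≤ 3 / 16 * min (ρ / 24) (1120000 ^ 2 * Q * (ρ / 12) ^ 2 / 16) := by
    rcases min_choice (ρ / 24) (1120000 ^ 2 * Q * (ρ / 12) ^ 2 / 16) with h | h <;> rw [h]
    · nlinarith
    · nlinarith [sq_nonneg ρ, mul_nonneg (sub_nonneg.2 hQ1) (sq_nonneg ρ)]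
  refine ⟨by linarith, ?_⟩
  set D := ρ - ρ' with hDdef
  have hDpos : 0 ≤ D := by
    have : 0 ≤ ρ ^ 2 / 1000000 := by positivity
    rw [hDdef]
    linarith
  -- `Q ρ ≥ q` and `Q² ρ² ≥ q`
  have hQ2 : q ≤ (Q * ρ) ^ 2 := by
    have h2 : Q ^ 2 * q ^ 5 ≤ Q ^ 2 * ρ ^ 2 := mul_le_mul_of_nonneg_left hqρ (sq_nonneg Q)
    have h3 : Q ^ 2 * q ^ 5 = (Q * q ^ 2) ^ 2 * q := by ring
    rw [h3, hQ] at h2
    calc q = 1 ^ 2 * q := by ring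
      _ ≤ _ := h2
      _ = _ := by ring
  have hQ3 : q ≤ Q * ρ := by
    have h2 : q ^ 2 ≤ (Q * ρ) ^ 2 := by
      refine le_trans ?_ hQ2
      nlinarith
    exact (sq_le_sq₀ hq0.le (by positivity)).1 h2
  have hKD : q / 128 ≤ Q * D := by
    have h2 : 3 / 16 * min (ρ / 24) (1120000 ^ 2 * Q * (ρ / 12) ^ 2 / 16) ≤ D := by
      rw [hDdef]
      linarith
    have h3 : Q * (3 / 16 * min (ρ / 24) (1120000 ^ 2 * Q * (ρ / 12) ^ 2 / 16)) ≤ Q * D :=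
      mul_le_mul_of_nonneg_left h2 hQ0.le
    refine le_trans ?_ h3
    rcases min_choice (ρ / 24) (1120000 ^ 2 * Q * (ρ / 12) ^ 2 / 16) with h | h <;> rw [h]
    · nlinarith
    · have h4 : Q * (3 / 16 * (1120000 ^ 2 * Q * (ρ / 12) ^ 2 / 16)) =
          (3 * 1120000 ^ 2 / 36864) * (Q * ρ) ^ 2 := by ring
      rw [h4]
      nlinarith
  -- fifth roots
  set t := ρ ^ (1 / 5 : ℝ) with ht
  set t' := ρ' ^ (1 / 5 : ℝ) with ht'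
  have ht0 : 0 ≤ t := Real.rpow_nonneg h0.le _
  have ht0' : 0 ≤ t' := Real.rpow_nonneg hρ' _
  have ht5 : t ^ 5 = ρ := stg_fifth h0.le
  have ht5' : t' ^ 5 = ρ' := stg_fifth hρ'
  have htt : t' ≤ t := Real.rpow_le_rpow hρ' (by linarith) (by norm_num)
  have ht2 : t ^ 2 ≤ 2 * q := by
    have h2 : (t ^ 2) ^ 5 ≤ (2 * q) ^ 5 := by
      have h3 : (t ^ 2) ^ 5 = ρ ^ 2 := by
        rw [← ht5]
        ring
      have h4 : (2 * q) ^ 5 = 32 * q ^ 5 := by ring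
      rw [h3, h4]
      exact hρq.le
    exact (pow_le_pow_iff_left₀ (by positivity) (by positivity) (by norm_num)).1 h2
  have ht4 : t ^ 4 ≤ 4 * q ^ 2 := by
    have h2 : (t ^ 2) ^ 2 ≤ (2 * q) ^ 2 := pow_le_pow_left₀ (by positivity) ht2 2
    nlinarith
  have hDt : D ≤ 5 * t ^ 4 * (t - t') := by
    rw [hDdef, ← ht5, ← ht5']
    have h2 : t ^ 5 - t' ^ 5 = (t - t') * (t ^ 4 + t ^ 3 * t' + t ^ 2 * t' ^ 2 + t * t' ^ 3 + t' ^ 4) := by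
      ring
    have h3 : t ^ 3 * t' ≤ t ^ 4 := by
      have := mul_le_mul_of_nonneg_left htt (pow_nonneg ht0 3)
      calc _ ≤ _ := this
        _ = _ := by ring
    have h4 : t ^ 2 * t' ^ 2 ≤ t ^ 4 := by
      have := mul_le_mul_of_nonneg_left (pow_le_pow_left₀ ht0' htt 2) (pow_nonneg ht0 2)
      calc _ ≤ _ := this
        _ = _ := by ring
    have h5 : t * t' ^ 3 ≤ t ^ 4 := by
      have := mul_le_mul_of_nonneg_left (pow_le_pow_left₀ ht0' htt 3) ht0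
      calc _ ≤ _ := this
        _ = _ := by ring
    have h6 : t' ^ 4 ≤ t ^ 4 := pow_le_pow_left₀ ht0' htt 4
    rw [h2]
    calc _ ≤ (t - t') * (5 * t ^ 4) :=
          mul_le_mul_of_nonneg_left (by linarith) (sub_nonneg.2 htt)
      _ = _ := by ring
  have hQD : Q * D ≤ 20 * (t - t') := by
    have h2 : D ≤ 20 * q ^ 2 * (t - t') := by
      refine hDt.trans ?_
      have h3 : 5 * t ^ 4 ≤ 20 * q ^ 2 := by linarith
      exact mul_le_mul_of_nonneg_right h3 (sub_nonneg.2 htt)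
    have h4 := mul_le_mul_of_nonneg_left h2 hQ0.le
    have h5 : Q * (20 * q ^ 2 * (t - t')) = 20 * (Q * q ^ 2) * (t - t') := by ring
    rw [h5, hQ] at h4
    linarith
  nlinarith

/-- The choice of `j`: for `0 < ρ = err π ≤ 12^{-5}` let `j` be the least natural number with
`32^{-j} ≤ ρ²`; then `ρ² < 32 · 32^{-j}`, `j ≥ 5`, `12 · 8^{-j} ≤ ρ` (`(12·8^{-j})^5 = 12^5 (32^{-j})^3 ≤ 12^5 ρ^6 ≤ ρ^5`), and with
`t = ρ^{1/5}`, `t' = err(π')^{1/5}`, `q = 2^{-j}`, `K = 1120000²/q²`: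
`q^5 ≤ ρ² < 32 q^5`, so `1/q < 2 ρ^{-2/5}` and `4^j = q^{-2} ≤ 4 t^{-4}`; and
`2q ≤ C K (ρ - err π')`: `K (ρ - err π') ≥ (3/16) min (Kρ/24) (K²ρ²/2304)` and `Kρ ≥ 1120000² q^{1/2} ≥ q`,
`K²ρ² ≥ 1120000^4 q^{-4} q^5 = 1120000^4 q`. So the distance is at most
`C' t^{-4} (ρ - err π') + δ ≤ 5 C' (t - t') + δ`, since `t^5 - t'^5 ≤ 5 t^4 (t - t')`. -/
theorem stage : ∃ C : ℝ, 0 < C ∧ ∀ π : Om → Bj, Measurable π → 0 < err coinOm π →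
    err coinOm π ≤ (1 / 12) ^ 5 → ∀ δ : ℝ, 0 < δ →
    ∃ π' : Om → Bj, Measurable π' ∧
      err coinOm π' ≤ err coinOm π - (err coinOm π) ^ 2 / 1000000 ∧
      coinOm.real {ω | π' ω ≠ π ω} ≤
        C * ((err coinOm π) ^ (1 / 5 : ℝ) - (err coinOm π') ^ (1 / 5 : ℝ)) + δ := by
  refine ⟨272 * 1120000 ^ 2 * 20, by norm_num, ?_⟩
  intro π hπ h0 h1 δ hδ
  obtain ⟨j, hj, hqρ, hρq⟩ := stg_exists_j h0 h1
  have hq0 : (0 : ℝ) < (1 / 2) ^ j := by positivity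
  have hq1 : ((1 : ℝ) / 2) ^ j ≤ 1 := pow_le_one₀ (by norm_num) (by norm_num)
  have hQ : (4 : ℝ) ^ j * ((1 / 2 : ℝ) ^ j) ^ 2 = 1 := by
    rw [← pow_mul, mul_comm j 2, pow_mul, ← mul_pow]
    norm_num
  have hq3 : 12 * ((1 / 2 : ℝ) ^ j) ^ 3 ≤ err coinOm π := by
    have h2 : (12 * ((1 / 2 : ℝ) ^ j) ^ 3) ^ 5 ≤ (err coinOm π) ^ 5 := by
      have h3 : (12 * ((1 / 2 : ℝ) ^ j) ^ 3) ^ 5 = 12 ^ 5 * (((1 / 2 : ℝ) ^ j) ^ 5) ^ 3 := by ring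
      have h4 : (((1 / 2 : ℝ) ^ j) ^ 5) ^ 3 ≤ ((err coinOm π) ^ 2) ^ 3 :=
        pow_le_pow_left₀ (by positivity) hqρ 3
      have h5 : 12 ^ 5 * err coinOm π ≤ 1 := by
        calc _ ≤ 12 ^ 5 * (1 / 12) ^ 5 := mul_le_mul_of_nonneg_left h1 (by norm_num)
          _ = 1 := by norm_num
      rw [h3]
      calc _ ≤ 12 ^ 5 * ((err coinOm π) ^ 2) ^ 3 := mul_le_mul_of_nonneg_left h4 (by norm_num)
        _ = (12 ^ 5 * err coinOm π) * (err coinOm π) ^ 5 := by ring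
        _ ≤ 1 * (err coinOm π) ^ 5 := mul_le_mul_of_nonneg_right h5 (by positivity)
        _ = _ := one_mul _
    exact (pow_le_pow_iff_left₀ (by positivity) h0.le (by norm_num)).1 h2
  obtain ⟨π', hπ', hD, hdist⟩ := stage_general hπ j hq3 hj hδ
  obtain ⟨h2, h3⟩ := stg_numerics h0 h1 (stg_err_nonneg coinOm π') hq0 hq1 hQ hqρ hρq hD
  exact ⟨π', hπ', h2, by linarith⟩

end Pool.Agent.W_MP_ae868b_lc
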