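import Pool.Agent.W_MP_ae868b_lc.HitBound
import Pool.Agent.W_MP_ae868b_lc.ScrSig
import Pool.Agent.W_MP_ae868b_lc.Run
import Pool.Agent.W_MP_ae868b_lc.Marks
import Pool.Agent.W_MP_ae868b_lc.Split
import Pool.Agent.W_MP_ae868b_lc.PullBack
import Pool.Agent.W_MP_ae868b_lc.GapOm

/-!
# One stage (task St)

`stage01`: the most frequent type is `0, 1`. PROOF. Let `ρ = err coinOm π`, `η = coinOm.real (Dij π 0 1)`,
`q = (1/2)^j`, `K = 1120000² · 4^j` (so `(1120000/q)² = K`), `L = 6K`, `ε > 0` small (to be chosen).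
1. `marks_step` on `X = Om` and `exists_split` for `f = π`, `δ1`: we get `π1 = fun ω => π (Ψ ω).1`, and
   pieces for `π1` (`cut_pull` with `Y = Om × Om` and `fun y => π y.1`), `μ (CutV) ≤ ε`, `err π1 = err π`
   (`err_comp`; note `err (coinOm.prod coinOm) (fun y => π y.1) = err coinOm π`, again `err_comp` with
   `Ψ = Prod.fst`), `μ(Dij π1 0 1) = η`, and `μ {π1 ≠ π} ≤ δ1`.
2. `π2 = scr π1 P j` on `Om × Om`: distance from `π1` at most `2q`, `err ≤ ρ + 4ε`,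
   `sig π2 L ≥ hits - 4 q η - 2 L ε ≥ min (η/2) (K η²/16) - 4 q η - 12 K ε` (`scr_sig`, `hit_bound` with `gap_coinOm`).
3. pull back to `Om` by `exists_split` (for `f = π1`, `δ2`): `π3 ω = π2 (Ψ' ω)`.
4. `run_step` on `Om`: `π4` on `Om × Om` with `err ≤ err π3 - sig/2`, distance `≤ L sig`; pull back
   to `Om` (`exists_split` for `f = π3`, `δ3`): `π'`.
Total: `err π' ≤ ρ + 4ε - sig/2`, `μ {π' ≠ π} ≤ δ1 + δ2 + δ3 + 2q + L sig`.
Numerics: assume `q³ ≤ η`, `q ≤ 1/32`. Then `4qη ≤ (1/4) min (η/2) (Kη²/16)`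
(`Kη ≥ 1120000² q ≥ 256 q`). With `12 K ε ≤ (1/4) min ..` and `4ε ≤ (1/16) min ..`:
`sig ≥ (1/2) min (η/2) (Kη²/16)` and `err π' ≤ ρ - sig/2 + 4ε ≤ ρ - (3/8) sig` hence
`sig ≤ (8/3)(ρ - err π')`.
-/

open MeasureTheory

namespace Pool.Agent.W_MP_ae868b_lc

/-- `Dij` of a pulled back configuration -/
theorem stage01_real_Dij_comp {X Y : Type*} [MeasurableSpace X] [MulAction F2 X] [MeasurableSpace Y]
    [MulAction F2 Y] {μ : Measure X} {ν : Measure Y} (hν : IsPMP ν) {Ψ : X → Y}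
    (hΨ : MeasurePreserving Ψ μ ν) (he : ∀ (g : F2) (x : X), Ψ (g • x) = g • Ψ x) {π : Y → Bj}
    (hπ : Measurable π) (i i' : Fin 4) :
    μ.real (Dij (fun x => π (Ψ x)) i i') = ν.real (Dij π i i') := by
  have h1 : Dij (fun x => π (Ψ x)) i i' = Ψ ⁻¹' Dij π i i' := by
    ext x
    simp only [Dij, oth, Set.mem_setOf_eq, Set.mem_preimage, he]
  rw [h1, measureReal_def, measureReal_def,
    hΨ.measure_preimage (measurableSet_Dij hν hπ i i').nullMeasurableSet]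

/-- pulling back to `Om` along a splitting close to the identity -/
theorem stage01_pull_dist {f : Om → Bj} (hf : Measurable f) {g : Om × Om → Bj} (hg : Measurable g)
    {δ D : ℝ} (hδ : 0 < δ) (hD : (coinOm.prod coinOm).real {y | g y ≠ f y.1} ≤ D) :
    ∃ Ψ : Om → Om × Om, MeasurePreserving Ψ coinOm (coinOm.prod coinOm) ∧
      (∀ (a : F2) (ω : Om), Ψ (a • ω) = a • Ψ ω) ∧
      coinOm.real {ω | g (Ψ ω) ≠ f ω} ≤ D + δ := by
  obtain ⟨Ψ, hΨ, he, hd⟩ := exists_split hf hδ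
  refine ⟨Ψ, hΨ, he, ?_⟩
  have hsub : {ω | g (Ψ ω) ≠ f ω} ⊆
      Ψ ⁻¹' {y | g y ≠ f y.1} ∪ {ω | f (Ψ ω).1 ≠ f ω} := by
    intro ω hω
    simp only [Set.mem_union, Set.mem_preimage, Set.mem_setOf_eq] at *
    by_contra hcon
    push Not at hcon
    exact hω (hcon.1.trans hcon.2)
  have hmeas : MeasurableSet {y : Om × Om | g y ≠ f y.1} :=
    (measurableSet_eq_fun hg (hf.comp measurable_fst)).compl
  calc coinOm.real {ω | g (Ψ ω) ≠ f ω}
      ≤ coinOm.real (Ψ ⁻¹' {y | g y ≠ f y.1} ∪ {ω | f (Ψ ω).1 ≠ f ω}) :=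
        measureReal_mono hsub
    _ ≤ coinOm.real (Ψ ⁻¹' {y | g y ≠ f y.1}) + coinOm.real {ω | f (Ψ ω).1 ≠ f ω} :=
        measureReal_union_le _ _
    _ ≤ D + δ := by
        refine add_le_add ?_ hd
        rw [measureReal_def, hΨ.measure_preimage hmeas.nullMeasurableSet, ← measureReal_def]
        exact hD

theorem stage01_numerics {q η ε Kr m sg ρ e1 hits : ℝ} (hq0 : 0 < q) (hq32 : q ≤ 1 / 32)
    (hKr : Kr * q ^ 2 = 1120000 ^ 2) (hqη : q ^ 3 ≤ η)
    (hm : m = min (η / 2) (Kr * η ^ 2 / 16)) (hε : ε = m / (64 * Kr)) (hK1 : 1 ≤ Kr)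
    (hhits : m ≤ hits) (hsg : hits - 4 * q * η - 12 * Kr * ε ≤ sg)
    (he1 : e1 ≤ ρ + 4 * ε - sg / 2) :
    e1 ≤ ρ - 3 / 16 * m ∧ sg ≤ 8 / 3 * (ρ - e1) := by
  have hη : 0 < η := lt_of_lt_of_le (by positivity) hqη
  have hm0 : 0 < m := by rw [hm]; positivity
  have h1 : 12 * Kr * ε = 3 / 16 * m := by
    rw [hε]; field_simp; ring
  have h2 : 4 * ε ≤ m / 16 := by
    rw [hε, mul_div_assoc', div_le_div_iff₀ (by positivity) (by norm_num)]
    nlinarith
  have h3 : 4 * q * η ≤ m / 4 := by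
    have h31 : 4 * q * η ≤ η / 2 / 4 := by nlinarith
    have h32 : 4 * q * η ≤ Kr * η ^ 2 / 16 / 4 := by
      have h33 : 256 * q ≤ Kr * η := by
        have h34 : Kr * q ^ 3 ≤ Kr * η := mul_le_mul_of_nonneg_left hqη (by linarith)
        have h35 : Kr * q ^ 3 = 1120000 ^ 2 * q := by rw [← hKr]; ring
        rw [h35] at h34
        nlinarith
      nlinarith
    rw [hm]
    rcases min_choice (η / 2) (Kr * η ^ 2 / 16) with h | h <;> rw [h] <;> assumption
  constructor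
  · linarith
  · linarith

theorem stage01 {π : Om → Bj} (hπ : Measurable π) (j : ℕ) (η : ℝ)
    (hη : η = coinOm.real (Dij π 0 1)) (hρ : err coinOm π ≤ 12 * η)
    (hq : ((1 / 2 : ℝ) ^ j) ^ 3 ≤ η) (hj : 5 ≤ j) {δ : ℝ} (hδ : 0 < δ) :
    ∃ π' : Om → Bj, Measurable π' ∧
      err coinOm π' ≤ err coinOm π - 3 / 16 * min (η / 2) (1120000 ^ 2 * 4 ^ j * η ^ 2 / 16) ∧
      coinOm.real {ω | π' ω ≠ π ω} ≤
        2 * (1 / 2) ^ j + 16 * (1120000 ^ 2 * 4 ^ j) * (err coinOm π - err coinOm π') + δ := by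
  classical
  have hc : IsPMP coinOm := isPMP_coinOm
  have hcc : IsPMP (coinOm.prod coinOm) := isPMP_prod hc hc
  set q : ℝ := (1 / 2 : ℝ) ^ j with hqdef
  have hq0 : 0 < q := by positivity
  have hq32 : q ≤ 1 / 32 := by
    calc q ≤ (1 / 2 : ℝ) ^ 5 := pow_le_pow_of_le_one (by norm_num) (by norm_num) hj
      _ = 1 / 32 := by norm_num
  set K : ℕ := 1120000 ^ 2 * 4 ^ j with hKdef
  set Kr : ℝ := 1120000 ^ 2 * 4 ^ j with hKrdef
  have hKcast : (K : ℝ) = Kr := by rw [hKdef, hKrdef]; push_cast; ring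
  have hKq : Kr * q ^ 2 = 1120000 ^ 2 := by
    have : (4 : ℝ) ^ j * ((1 / 2 : ℝ) ^ j) ^ 2 = 1 := by
      rw [← pow_mul, mul_comm j 2, pow_mul, ← mul_pow]; norm_num
    rw [hKrdef, hqdef, mul_assoc, this, mul_one]
  have hK1 : 1 ≤ Kr := by
    have : (1 : ℝ) ≤ 4 ^ j := one_le_pow₀ (by norm_num)
    rw [hKrdef]; nlinarith
  have hKge : (1120000 / q) ^ 2 ≤ (K : ℝ) := by
    rw [hKcast, div_pow, div_le_iff₀ (by positivity), hKq]
  have hη0 : 0 < η := lt_of_lt_of_le (by positivity) hq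
  set m : ℝ := min (η / 2) (Kr * η ^ 2 / 16) with hmdef
  have hm0 : 0 < m := by rw [hmdef]; positivity
  set ε : ℝ := m / (64 * Kr) with hεdef
  have hε0 : 0 < ε := by positivity
  -- step 1
  obtain ⟨P, hP, hcut⟩ := marks_step hc hπ hε0
  have hπf : Measurable (fun y : Om × Om => π y.1) := hπ.comp measurable_fst
  obtain ⟨Ψ, hΨ, he, hd1⟩ := exists_split hπ (δ := δ / 3) (by positivity)
  have hπ1 : Measurable (fun ω : Om => π (Ψ ω).1) := hπf.comp hΨ.measurable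
  obtain ⟨hP1, hcut1⟩ := cut_pull hΨ he P hP (measurableSet_CutV hcc hπf)
  set π1 : Om → Bj := fun ω => π (Ψ ω).1 with hπ1def
  set P1 : Bool → Pieces Om := fun r => (P r).pull Ψ hΨ.measurable he with hP1def
  have herr1 : err coinOm π1 = err coinOm π := by
    have h1 : err coinOm π1 = err (coinOm.prod coinOm) (fun y : Om × Om => π y.1) :=
      err_comp hcc hΨ he hπf
    have h2 : err (coinOm.prod coinOm) (fun y : Om × Om => π y.1) = err coinOm π :=
      err_comp hc (Ψ := (Prod.fst : Om × Om → Om)) measurePreserving_fst (fun g y => rfl) hπ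
    rw [h1, h2]
  have hη1 : η = coinOm.real (Dij π1 0 1) := by
    have h1 : coinOm.real (Dij π1 0 1) =
        (coinOm.prod coinOm).real (Dij (fun y : Om × Om => π y.1) 0 1) :=
      stage01_real_Dij_comp hcc hΨ he hπf 0 1
    have h2 : (coinOm.prod coinOm).real (Dij (fun y : Om × Om => π y.1) 0 1) =
        coinOm.real (Dij π 0 1) :=
      stage01_real_Dij_comp hc (Ψ := (Prod.fst : Om × Om → Om)) measurePreserving_fst
        (fun g y => rfl) hπ 0 1
    rw [h1, h2, hη]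
  have hcut1' : coinOm.real (CutV π1 P1) ≤ ε := by
    have : coinOm.real (CutV π1 P1) =
      (coinOm.prod coinOm).real (CutV (fun y : Om × Om => π y.1) P) := hcut1
    rw [this]; exact hcut
  -- step 2
  set π2 : Om × Om → Bj := scr π1 P1 j with hπ2def
  have hπ2 : Measurable π2 := measurable_scr hπ1 P1 j
  have hdist2 : (coinOm.prod coinOm).real {y | π2 y ≠ π1 y.1} ≤ 2 * q :=
    scr_dist (P := P1) hc hπ1 j
  have herr2 : err (coinOm.prod coinOm) π2 ≤ err coinOm π1 + 4 * ε :=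
    scr_err hc hπ1 hcut1' j
  have hsig2 := scr_sig hc hπ1 hP1 hcut1' j (6 * K)
  have hhit : m ≤ hit coinOm π1 q 0 1 true (6 * K) + hit coinOm π1 q 1 0 false (6 * K) := by
    have := hit_bound hc gap_coinOm hπ1 q hq0 (by linarith) η hη1 (by rw [herr1]; exact hρ) hq K
      hKge
    rw [hKcast] at this
    exact this
  -- step 3
  obtain ⟨Ψ', hΨ', he', hd2⟩ := stage01_pull_dist hπ1 hπ2 (δ := δ / 3) (by positivity) hdist2
  set π3 : Om → Bj := fun ω => π2 (Ψ' ω) with hπ3def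
  have hπ3 : Measurable π3 := hπ2.comp hΨ'.measurable
  have herr3 : err coinOm π3 = err (coinOm.prod coinOm) π2 := err_comp hcc hΨ' he' hπ2
  have hsig3 : sig coinOm π3 (6 * K) = sig (coinOm.prod coinOm) π2 (6 * K) :=
    sig_comp hcc hΨ' he' hπ2 (6 * K)
  -- step 4
  obtain ⟨π4, hπ4, herr4, hdist4⟩ := run_step hc hπ3 (6 * K)
  obtain ⟨Ψ'', hΨ'', he'', hd3⟩ := stage01_pull_dist hπ3 hπ4 (δ := δ / 3) (by positivity) hdist4
  have herr5 : err coinOm (fun ω => π4 (Ψ'' ω)) = err (coinOm.prod coinOm) π4 :=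
    err_comp hcc hΨ'' he'' hπ4
  refine ⟨fun ω => π4 (Ψ'' ω), hπ4.comp hΨ''.measurable, ?_⟩
  set sg : ℝ := sig coinOm π3 (6 * K) with hsgdef
  have hsg : (hit coinOm π1 q 0 1 true (6 * K) + hit coinOm π1 q 1 0 false (6 * K))
      - 4 * q * η - 12 * Kr * ε ≤ sg := by
    have h := hsig2
    rw [← hη1] at h
    push_cast at h
    rw [hKcast] at h
    rw [hsig3]
    have h' : 2 * (6 * Kr) * ε = 12 * Kr * ε := by ring
    rw [h'] at h
    exact h
  have he1 : err coinOm (fun ω => π4 (Ψ'' ω)) ≤ err coinOm π + 4 * ε - sg / 2 := by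
    rw [herr5]
    linarith
  obtain ⟨hA, hB⟩ := stage01_numerics hq0 hq32 hKq hq hmdef hεdef hK1 hhit hsg he1
  refine ⟨hA, ?_⟩
  -- distance
  have hsub : {ω | π4 (Ψ'' ω) ≠ π ω} ⊆
      ({ω | π4 (Ψ'' ω) ≠ π3 ω} ∪ {ω | π2 (Ψ' ω) ≠ π1 ω}) ∪ {ω | π (Ψ ω).1 ≠ π ω} := by
    intro ω hω
    simp only [Set.mem_union, Set.mem_setOf_eq] at *
    by_contra hcon
    push Not at hcon
    exact hω ((hcon.1.1.trans hcon.1.2).trans hcon.2)
  have hdist : coinOm.real {ω | π4 (Ψ'' ω) ≠ π ω} ≤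
      (((6 * K : ℕ) : ℝ) * sg + δ / 3 + (2 * q + δ / 3)) + δ / 3 := by
    refine (measureReal_mono hsub).trans ?_
    refine (measureReal_union_le _ _).trans (add_le_add ?_ hd1)
    exact (measureReal_union_le _ _).trans (add_le_add hd3 hd2)
  have hfin : ((6 * K : ℕ) : ℝ) * sg ≤
      16 * Kr * (err coinOm π - err coinOm (fun ω => π4 (Ψ'' ω))) := by
    push_cast
    rw [hKcast]
    nlinarith
  calc coinOm.real {ω | π4 (Ψ'' ω) ≠ π ω} ≤ _ := hdist
    _ ≤ _ := by linarith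

end Pool.Agent.W_MP_ae868b_lc
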