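import Pool.Agent.W_MP_ae868b_lc.Stage01

/-!
# Relabelling (task St2)

PROOF. `exists_Dij_ge` gives `i ≠ i'` with `err ≤ 12 η`, `η = μ (Dij π i i')`. Take `τ : Equiv.Perm (Fin 4)` with `τ i = 0`,
`τ i' = 1` and apply `stage01` to `fun ω => (π ω).trans τ`, then compose the result with `τ⁻¹`. `err` and the
distance do not change, `Dij (π.trans τ) 0 1 = Dij π i i'`. Monotonicity in `η ≥ err/12`.
-/

open MeasureTheory

namespace Pool.Agent.W_MP_ae868b_lc

section Relabel

variable {X : Type*} [MulAction F2 X]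

theorem cons_trans (π : X → Bj) (τ : Equiv.Perm (Fin 4)) (x : X) (s : S) :
    Cons (fun y => (π y).trans τ) x s ↔ Cons π x s := by
  unfold Cons oth
  simp [Equiv.trans_apply, EmbeddingLike.apply_eq_iff_eq]

theorem err_trans [MeasurableSpace X] (μ : Measure X) (π : X → Bj) (τ : Equiv.Perm (Fin 4)) :
    err μ (fun y => (π y).trans τ) = err μ π := by
  unfold err
  simp only [cons_trans]

theorem Dij_trans (π : X → Bj) (τ : Equiv.Perm (Fin 4)) (i j : Fin 4) :
    Dij (fun y => (π y).trans τ) (τ i) (τ j) = Dij π i j := by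
  unfold Dij oth
  ext x
  simp [Equiv.trans_apply]

end Relabel

theorem exists_perm01 {i i' : Fin 4} (h : i ≠ i') :
    ∃ τ : Equiv.Perm (Fin 4), τ i = 0 ∧ τ i' = 1 := by
  revert i i'
  decide

/-- same for an arbitrary most frequent type: relabel by a permutation `τ` of `Fin 4` with
`τ i = 0`, `τ i' = 1` -/
theorem stage_general {π : Om → Bj} (hπ : Measurable π) (j : ℕ)
    (hq : 12 * ((1 / 2 : ℝ) ^ j) ^ 3 ≤ err coinOm π) (hj : 5 ≤ j) {δ : ℝ} (hδ : 0 < δ) :
    ∃ π' : Om → Bj, Measurable π' ∧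
      err coinOm π' ≤ err coinOm π -
        3 / 16 * min (err coinOm π / 24) (1120000 ^ 2 * 4 ^ j * (err coinOm π / 12) ^ 2 / 16) ∧
      coinOm.real {ω | π' ω ≠ π ω} ≤
        2 * (1 / 2) ^ j + 16 * (1120000 ^ 2 * 4 ^ j) * (err coinOm π - err coinOm π') + δ := by
  obtain ⟨i, i', hii, hD⟩ := exists_Dij_ge isPMP_coinOm hπ
  obtain ⟨τ, h0, h1⟩ := exists_perm01 hii
  have hm : ∀ (f : Bj → Bj) {g : Om → Bj}, Measurable g → Measurable fun ω => f (g ω) :=
    fun f g hg => (measurable_from_top (f := f)).comp hg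
  have hDt : Dij (fun ω => (π ω).trans τ) 0 1 = Dij π i i' := by
    rw [← h0, ← h1]
    exact Dij_trans π τ i i'
  have hE := err_trans coinOm π τ
  obtain ⟨π₁, hπ₁, he, hd⟩ := stage01 (hm (fun b => b.trans τ) hπ) j
    (coinOm.real (Dij (fun ω => (π ω).trans τ) 0 1)) rfl (by rw [hE, hDt]; exact hD)
    (by rw [hDt]; linarith) hj hδ
  have hE' := err_trans coinOm π₁ τ⁻¹
  refine ⟨fun ω => (π₁ ω).trans τ⁻¹, hm (fun b => b.trans τ⁻¹) hπ₁, ?_, ?_⟩
  · rw [hE']
    rw [hE, hDt] at he
    refine he.trans ?_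
    set η := coinOm.real (Dij π i i')
    have hρ0 : 0 ≤ err coinOm π := by
      unfold err
      exact Finset.sum_nonneg fun s _ => measureReal_nonneg
    have hmin : min (err coinOm π / 24) (1120000 ^ 2 * 4 ^ j * (err coinOm π / 12) ^ 2 / 16) ≤
        min (η / 2) (1120000 ^ 2 * 4 ^ j * η ^ 2 / 16) := by
      refine min_le_min (by linarith) ?_
      have h2 : (err coinOm π / 12) ^ 2 ≤ η ^ 2 :=
        pow_le_pow_left₀ (by positivity) (by linarith) 2
      have h4 : (0 : ℝ) < 4 ^ j := by positivity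
      gcongr
    linarith
  · rw [hE', ]
    rw [hE] at hd
    refine le_trans (le_of_eq ?_) hd
    congr 1
    ext ω
    simp only [Set.mem_ofPred_eq, ne_eq, not_iff_not]
    constructor
    · intro h
      rw [← h]
      ext s
      simp
    · intro h
      rw [h]
      ext s
      simp

end Pool.Agent.W_MP_ae868b_lc
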