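import Pool.Agent.W_MP_ae868b_lc.Words
import Pool.Agent.W_MP_ae868b_lc.CoinB

/-!
# The walk in the scrambled configuration: definition and easy facts (task M5a)

See `WalkLaw.lean` for the main statement.
-/

open MeasureTheory

namespace Pool.Agent.W_MP_ae868b_lc

/-- follow the scrambled flags with labels `lab0 r`, `lab0 (!r)`, ... for `k` steps as long as the
edges are `π`-consistent; value `ψ` at the end, `0` if an inconsistent edge is met -/
noncomputable def Wk {X : Type*} [MulAction F2 X] [MeasurableSpace X] (π : X → Bj)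
    (P : Bool → Pieces X) (j : ℕ) : ℕ → Bool → (X → ℝ) → (X × Om → ℝ)
  | 0, _, ψ, y => ψ y.1
  | k + 1, r, ψ, y =>
    open Classical in
    if Cons π y.1 ((scr π P j y).symm (lab0 r)) then
      Wk π P j k (!r) ψ (gen ((scr π P j y).symm (lab0 r)) • y) else 0

theorem scr_symm_lab0 {X : Type*} [MulAction F2 X] [MeasurableSpace X] (π : X → Bj)
    (P : Bool → Pieces X) (j : ℕ) (r : Bool) (y : X × Om) :
    (scr π P j y).symm (lab0 r) =
      open Classical in
      if Zst (P r) (if r then j else 0) j y then (π y.1).symm (lab1 r)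
      else (π y.1).symm (lab0 r) := by
  cases r
  · change (scr π P j y).symm 0 = (open Classical in
      if Zst (P false) 0 j y then (π y.1).symm 3 else (π y.1).symm 0)
    have h12 : ∀ A : Equiv.Perm (Fin 4), A = Equiv.swap 1 2 ∨ A = Equiv.refl _ → A.symm 0 = 0 := by
      rintro A (rfl | rfl) <;> decide
    have hB : (open Classical in
        if Zst (P true) j j y then Equiv.swap 1 2 else Equiv.refl (Fin 4)).symm 0 = 0 := by
      apply h12
      split_ifs
      · exact Or.inl rfl
      · exact Or.inr rfl
    unfold scr
    simp only [Equiv.symm_trans_apply]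
    rw [hB]
    by_cases hA : Zst (P false) 0 j y
    · simp only [if_pos hA]
      have : (Equiv.swap (0 : Fin 4) 3).symm 0 = 3 := by decide
      rw [this]
    · simp only [if_neg hA]
      rfl
  · change (scr π P j y).symm 1 = (open Classical in
      if Zst (P true) j j y then (π y.1).symm 2 else (π y.1).symm 1)
    have h03 : ∀ A : Equiv.Perm (Fin 4), A = Equiv.swap 0 3 ∨ A = Equiv.refl _ →
        A.symm 1 = 1 ∧ A.symm 2 = 2 := by
      rintro A (rfl | rfl) <;> decide
    have hA := h03 (open Classical in
        if Zst (P false) 0 j y then Equiv.swap 0 3 else Equiv.refl (Fin 4)) (by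
      split_ifs
      · exact Or.inl rfl
      · exact Or.inr rfl)
    unfold scr
    simp only [Equiv.symm_trans_apply]
    by_cases hB : Zst (P true) j j y
    · simp only [if_pos hB]
      have : (Equiv.swap (1 : Fin 4) 2).symm 1 = 2 := by decide
      rw [this, hA.2]
    · simp only [if_neg hB]
      have : (Equiv.refl (Fin 4)).symm 1 = 1 := rfl
      rw [this, hA.1]

/-- the status of a point only depends on its piece -/
theorem Zst_smul {X : Type*} [MulAction F2 X] [MeasurableSpace X] (P : Pieces X) (o j : ℕ)
    (y : X × Om) (g : F2) (hg : g ∈ P.P y.1) : Zst P o j (g • y) ↔ Zst P o j y := by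
  unfold Zst
  refine forall_congr' fun t => imp_congr_right fun _ => ?_
  have h1 : P.P (g • y).1 = (P.P y.1).image (fun h => h * g⁻¹) := P.trans y.1 g hg
  have h2 : (g • y).2 = g • y.2 := rfl
  rw [h1, h2, par_smul, Finset.image_image]
  have h3 : ((fun h : F2 => h * g) ∘ fun h => h * g⁻¹) = id := by
    funext h
    simp
  rw [h3, Finset.image_id]

theorem measurable_Zst {X : Type*} [MulAction F2 X] [MeasurableSpace X] (P : Pieces X)
    (o j : ℕ) : MeasurableSet {y : X × Om | Zst P o j y} := by
  have h1 : {y : X × Om | Zst P o j y} =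
      ⋂ t ∈ Set.Iio j, ⋃ D : Finset F2, ((fun y : X × Om => P.P y.1) ⁻¹' {D}) ∩
        ((fun y : X × Om => y.2) ⁻¹' {ω | par ω (o + t) D = 1}) := by
    ext y
    simp only [Zst, Set.mem_ofPred_eq, Set.mem_iInter, Set.mem_Iio, Set.mem_iUnion, Set.mem_inter_iff,
      Set.mem_preimage, Set.mem_singleton_iff]
    constructor
    · intro h t ht
      exact ⟨_, rfl, h t ht⟩
    · intro h t ht
      obtain ⟨D, hD, h2⟩ := h t ht
      rw [hD]
      exact h2
  rw [h1]
  refine MeasurableSet.biInter (Set.to_countable _) fun t _ => MeasurableSet.iUnion fun D => ?_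
  exact ((P.meas.comp measurable_fst) (measurableSet_singleton D)).inter
    (measurable_snd (measurableSet_par _ _ _))

theorem measurable_scr {X : Type*} [MulAction F2 X] [MeasurableSpace X] {π : X → Bj}
    (hπ : Measurable π) (P : Bool → Pieces X) (j : ℕ) : Measurable (scr π P j) := by
  classical
  have h0 : ∀ A B : Equiv.Perm (Fin 4),
      Measurable fun y : X × Om => ((π y.1).trans A).trans B := by
    intro A B
    have h1 : Measurable fun b : Bj => ((b.trans A).trans B : Bj) := measurable_of_countable _
    exact h1.comp (hπ.comp measurable_fst)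
  have h1 : scr π P j = fun y : X × Om =>
      if Zst (P true) j j y then
        (if Zst (P false) 0 j y then ((π y.1).trans (Equiv.swap 0 3)).trans (Equiv.swap 1 2)
          else ((π y.1).trans (Equiv.refl _)).trans (Equiv.swap 1 2))
      else
        (if Zst (P false) 0 j y then ((π y.1).trans (Equiv.swap 0 3)).trans (Equiv.refl _)
          else ((π y.1).trans (Equiv.refl _)).trans (Equiv.refl _)) := by
    funext y
    unfold scr
    split_ifs <;> rfl
  rw [h1]
  exact Measurable.ite (measurable_Zst _ _ _)
    (Measurable.ite (measurable_Zst _ _ _) (h0 _ _) (h0 _ _))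
    (Measurable.ite (measurable_Zst _ _ _) (h0 _ _) (h0 _ _))

theorem measurable_Wk {X : Type*} [MulAction F2 X] [MeasurableSpace X] {π : X → Bj}
    (hm : ∀ g : F2, Measurable fun x : X => g • x) (hπ : Measurable π) (P : Bool → Pieces X)
    (j k : ℕ) (r : Bool) {ψ : X → ℝ} (hψ : Measurable ψ) : Measurable (Wk π P j k r ψ) := by
  classical
  induction k generalizing r with
  | zero => exact hψ.comp measurable_fst
  | succ k ih =>
    have hs : Measurable fun y : X × Om => (scr π P j y).symm (lab0 r) := by
      have h1 : Measurable fun b : Bj => b.symm (lab0 r) := measurable_of_countable _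
      exact h1.comp (measurable_scr hπ P j)
    have h2 : ∀ s : S, Measurable fun y : X × Om =>
        if Cons π y.1 s then Wk π P j k (!r) ψ (gen s • y) else 0 := by
      intro s
      refine Measurable.ite (measurable_fst (measurableSet_cons hm hπ s)) ?_ measurable_const
      refine (ih (!r)).comp ?_
      exact ((hm (gen s)).comp measurable_fst).prodMk
        ((measurable_smul_Om (gen s)).comp measurable_snd)
    have h3 : Measurable fun z : (X × Om) × S =>
        if Cons π z.1.1 z.2 then Wk π P j k (!r) ψ (gen z.2 • z.1) else 0 :=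
      measurable_from_prod_countable_left h2
    exact h3.comp (measurable_id.prodMk hs)

/-- marginal probability of a status -/
theorem real_Zst {X : Type*} [MulAction F2 X] [MeasurableSpace X] (P : Pieces X) (o j : ℕ)
    (x : X) : coinOm.real {ω | Zst P o j (x, ω)} = (1 / 2) ^ j := by
  classical
  have h := integral_mul_par ∅ (fun _ => 1) (fun _ _ _ => rfl) (P.P x) ⟨1, P.one_mem x⟩ o j
    (fun t _ g _ => by simp)
  have hm : MeasurableSet {ω : Om | Zst P o j (x, ω)} :=
    (measurable_const.prodMk measurable_id : Measurable fun ω : Om => (x, ω))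
      (measurable_Zst P o j)
  have h1 : ∫ ω, (1 : ℝ) * (if ∀ t < j, par ω (o + t) (P.P x) = 1 then (1 : ℝ) else 0) ∂coinOm
      = coinOm.real {ω | Zst P o j (x, ω)} := by
    rw [← integral_indicator_one hm]
    refine integral_congr_ae (Filter.Eventually.of_forall fun ω => ?_)
    by_cases hz : Zst P o j (x, ω)
    · have hz' : ∀ t < j, par ω (o + t) (P.P x) = 1 := hz
      simp only [one_mul, if_pos hz']
      rw [Set.indicator_of_mem (show ω ∈ {ω | Zst P o j (x, ω)} from hz)]
      rfl
    · have hz' : ¬ ∀ t < j, par ω (o + t) (P.P x) = 1 := hz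
      simp only [one_mul, if_neg hz']
      rw [Set.indicator_of_notMem (show ω ∉ {ω | Zst P o j (x, ω)} from hz)]
  rw [← h1]
  have h2 : ∫ _ω : Om, (1 : ℝ) ∂coinOm = 1 := by simp
  rw [h2, mul_one] at h
  convert h using 3

end Pool.Agent.W_MP_ae868b_lc
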