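import Pool.Agent.W_MP_ae868b_lc.Defs

/-!
# Words, paths and components (task T1)

All statements are elementary facts on the Cayley graph of `F2`. Recall `FreeGroup.mk_toWord`,
`FreeGroup.reduce`, `FreeGroup.Red.Step`, `FreeGroup.reduce.sound`, `FreeGroup.reduce.red`,
`FreeGroup.IsReduced`.
-/

open MeasureTheory

namespace Pool.Agent.W_MP_ae868b_lc

theorem sinv_sinv (s : S) : sinv (sinv s) = s := by
  simp [sinv]

theorem sinv_ne (s : S) : sinv s ≠ s := by
  intro h
  have h2 := congrArg Prod.snd h
  simp [sinv] at h2

theorem gen_sinv (s : S) : gen (sinv s) = (gen s)⁻¹ := by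
  simp [gen, sinv, FreeGroup.inv_mk, FreeGroup.invRev]

theorem mk_cons (s : S) (w : List S) : (FreeGroup.mk (s :: w) : F2) = gen s * FreeGroup.mk w := by
  simp [gen, FreeGroup.mul_mk]

theorem mk_append (w w' : List S) :
    (FreeGroup.mk (w ++ w') : F2) = FreeGroup.mk w * FreeGroup.mk w' := by
  simp [FreeGroup.mul_mk]

/-- a reduced list is the word of its product -/
theorem toWord_mk_of_isReduced {w : List S} (hw : FreeGroup.IsReduced w) :
    (FreeGroup.mk w : F2).toWord = w := by
  rw [FreeGroup.toWord_mk]
  exact hw.reduce_eq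

theorem toWord_gen (s : S) : (gen s).toWord = [s] := by
  simp [gen, FreeGroup.toWord_mk]

theorem gen_injective : Function.Injective gen := by
  intro s t h
  have h2 : (gen s).toWord = (gen t).toWord := by rw [h]
  rw [toWord_gen, toWord_gen] at h2
  simpa using h2

theorem gen_ne_one (s : S) : gen s ≠ 1 := by
  intro h
  have h2 : (gen s).toWord = (1 : F2).toWord := by rw [h]
  rw [toWord_gen, FreeGroup.toWord_one] at h2
  simp at h2

section

variable {X : Type*} [MulAction F2 X]

theorem sinv_smul_smul (s : S) (x : X) : gen (sinv s) • gen s • x = x := by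
  rw [gen_sinv, inv_smul_smul]

/-- the other label seen from the other end -/
theorem oth_sinv (π : X → Bj) (x : X) (s : S) : oth π (gen s • x) (sinv s) = π x s := by
  unfold oth
  rw [sinv_smul_smul, sinv_sinv]

theorem cons_symm {π : X → Bj} {x : X} {s : S} (h : Cons π x s) :
    Cons π (gen s • x) (sinv s) := by
  unfold Cons
  rw [oth_sinv]
  exact h.symm

theorem cons_symm_iff {π : X → Bj} {x : X} {s : S} :
    Cons π (gen s • x) (sinv s) ↔ Cons π x s := by
  constructor
  · intro h
    have h2 := cons_symm h
    rwa [sinv_smul_smul, sinv_sinv] at h2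
  · exact cons_symm

/-- along a consistent edge of label `i` the flag of label `i` at the other end is the inverse
letter -/
theorem symm_of_cons {π : X → Bj} {x : X} {i : Fin 4} (h : Cons π x ((π x).symm i)) :
    (π (gen ((π x).symm i) • x)).symm i = sinv ((π x).symm i) := by
  unfold Cons oth at h
  rw [Equiv.apply_symm_apply] at h
  rw [Equiv.symm_apply_eq]
  exact h

theorem esymm_cons (π : X → Bj) : ESymm (fun x s => Cons π x s) := by
  intro x s h
  exact cons_symm h

theorem esymm_ERole (π : X → Bj) (r : Bool) : ESymm (ERole π r) := by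
  intro x s h
  unfold ERole at h ⊢
  rw [oth_sinv]
  exact ⟨h.2, h.1⟩

theorem esymm_E01 (π : X → Bj) : ESymm (E01 π) := by
  intro x s h
  unfold E01 at h ⊢
  refine ⟨cons_symm h.1, ?_⟩
  have h2 : π (gen s • x) (sinv s) = π x s := h.1.symm
  rw [h2]
  exact h.2

theorem esymm_T01 (π : X → Bj) : ESymm (T01 π) := by
  intro x s h
  unfold T01 at h ⊢
  rw [oth_sinv]
  change (oth π x s = 0 ∧ _) ∨ (oth π x s = 1 ∧ _)
  tauto

theorem epath_nil (E : X → S → Prop) (x : X) : EPath E x [] := trivial

theorem epath_append (E : X → S → Prop) (x : X) (w' w : List S) :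
    EPath E x (w' ++ w) ↔ EPath E x w ∧ EPath E (FreeGroup.mk w • x) w' := by
  induction w' with
  | nil => simp [EPath]
  | cons s w' ih =>
    simp only [List.cons_append, EPath]
    rw [ih, mk_append, mul_smul]
    tauto

/-- cancelling a backtracking keeps a path -/
theorem epath_step {E : X → S → Prop} {x : X} {w w' : List S}
    (h : FreeGroup.Red.Step w w') (hw : EPath E x w) : EPath E x w' := by
  cases h with
  | @not L₁ L₂ a b =>
    rw [epath_append] at hw ⊢
    obtain ⟨h1, h2⟩ := hw
    have hmk : (FreeGroup.mk ((a, b) :: (a, !b) :: L₂) : F2) = FreeGroup.mk L₂ := by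
      rw [mk_cons, mk_cons, ← mul_assoc]
      have : gen (a, b) * gen (a, !b) = 1 := by
        have h3 := gen_sinv (a, b)
        simp only [sinv] at h3
        rw [h3, mul_inv_cancel]
      rw [this, one_mul]
    rw [hmk] at h2
    simp only [EPath] at h1
    exact ⟨h1.1.1, h2⟩

theorem epath_red {E : X → S → Prop} {x : X} {w w' : List S}
    (h : FreeGroup.Red w w') (hw : EPath E x w) : EPath E x w' := by
  induction h with
  | refl => exact hw
  | tail _ h2 ih => exact epath_step h2 ih

theorem epath_reduce {E : X → S → Prop} {x : X} {w : List S} (hw : EPath E x w) :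
    EPath E x (FreeGroup.reduce w) :=
  epath_red FreeGroup.reduce.red hw

/-- reachable points are reachable along the reduced word -/
theorem reach_iff {E : X → S → Prop} {x : X} {g : F2} :
    Reach E x g ↔ EPath E x g.toWord := by
  constructor
  · rintro ⟨w, rfl, hw⟩
    rw [FreeGroup.toWord_mk]
    exact epath_reduce hw
  · intro h
    exact ⟨g.toWord, FreeGroup.mk_toWord, h⟩

theorem reach_one (E : X → S → Prop) (x : X) : Reach E x 1 :=
  ⟨[], rfl, trivial⟩

theorem reach_gen_iff {E : X → S → Prop} {x : X} {s : S} : Reach E x (gen s) ↔ E x s := by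
  rw [reach_iff, toWord_gen]
  simp only [EPath, true_and]
  rw [← FreeGroup.one_eq_mk, one_smul]

theorem reach_mul {E : X → S → Prop} {x : X} {g h : F2} (hg : Reach E x g)
    (hh : Reach E (g • x) h) : Reach E x (h * g) := by
  obtain ⟨w, rfl, hw⟩ := hg
  obtain ⟨w', rfl, hw'⟩ := hh
  exact ⟨w' ++ w, mk_append w' w, (epath_append E x w' w).2 ⟨hw, hw'⟩⟩

theorem reach_inv {E : X → S → Prop} (hE : ESymm E) {x : X} {g : F2} (hg : Reach E x g) :
    Reach E (g • x) g⁻¹ := by
  obtain ⟨w, rfl, hw⟩ := hg
  induction w with
  | nil =>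
    rw [← FreeGroup.one_eq_mk, one_smul, inv_one]
    exact reach_one E x
  | cons s w ih =>
    simp only [EPath] at hw
    have h1 := ih hw.1
    have h2 := hE _ _ hw.2
    have h3 : Reach E (gen s • (FreeGroup.mk w : F2) • x) (gen (sinv s)) := reach_gen_iff.2 h2
    rw [mk_cons, mul_smul, mul_inv_rev, ← gen_sinv]
    refine reach_mul h3 ?_
    rw [sinv_smul_smul]
    exact h1

theorem mem_comp_smul_iff {E : X → S → Prop} (hE : ESymm E) {x : X} {g : F2}
    (hg : g ∈ comp E x) (h : F2) : h ∈ comp E (g • x) ↔ h * g ∈ comp E x := by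
  constructor
  · intro hh
    exact reach_mul hg hh
  · intro hh
    have h1 : Reach E (g • x) g⁻¹ := reach_inv hE hg
    have h2 : Reach E (g⁻¹ • g • x) (h * g) := by
      rw [inv_smul_smul]
      exact hh
    have h3 := reach_mul h1 h2
    rwa [mul_inv_cancel_right] at h3

/-- components of points of one component -/
theorem comp_smul {E : X → S → Prop} (hE : ESymm E) {x : X} {g : F2} (hg : g ∈ comp E x) :
    comp E (g • x) = (fun h => h * g⁻¹) '' comp E x := by
  ext h
  rw [mem_comp_smul_iff hE hg, Set.mem_image]
  constructor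
  · intro hh
    exact ⟨h * g, hh, mul_inv_cancel_right h g⟩
  · rintro ⟨k, hk, rfl⟩
    rwa [inv_mul_cancel_right]

theorem encard_comp_smul {E : X → S → Prop} (hE : ESymm E) {x : X} {g : F2}
    (hg : g ∈ comp E x) : (comp E (g • x)).encard = (comp E x).encard := by
  rw [comp_smul hE hg]
  exact Function.Injective.encard_image (mul_left_injective g⁻¹) _

end

section Meas

variable {X : Type*} [MulAction F2 X] [MeasurableSpace X]

instance instCountableF2 : Countable F2 := by
  have h : Function.Injective (fun g : F2 => g.toWord) := FreeGroup.toWord_injective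
  exact h.countable

theorem measurableSet_epath {E : X → S → Prop} (hm : ∀ g : F2, Measurable fun x : X => g • x)
    (hE : ∀ s, MeasurableSet {x | E x s}) (w : List S) : MeasurableSet {x | EPath E x w} := by
  induction w with
  | nil => simp [EPath]
  | cons s w ih =>
    have h1 : {x : X | EPath E x (s :: w)} =
        {x | EPath E x w} ∩ (fun x : X => (FreeGroup.mk w : F2) • x) ⁻¹' {x | E x s} := by
      ext x
      simp [EPath]
    rw [h1]
    exact ih.inter (hm _ (hE s))

theorem measurableSet_reach {E : X → S → Prop} (hm : ∀ g : F2, Measurable fun x : X => g • x)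
    (hE : ∀ s, MeasurableSet {x | E x s}) (g : F2) : MeasurableSet {x | Reach E x g} := by
  simp only [reach_iff]
  exact measurableSet_epath hm hE _

/-- `{x | comp E x = D}` is measurable for every finite set `D` (countable intersection) -/
theorem measurableSet_comp_eq {E : X → S → Prop} (hm : ∀ g : F2, Measurable fun x : X => g • x)
    (hE : ∀ s, MeasurableSet {x | E x s}) (D : Finset F2) :
    MeasurableSet {x | comp E x = (D : Set F2)} := by
  have h1 : {x : X | comp E x = (D : Set F2)} = ⋂ g : F2, {x | Reach E x g ↔ g ∈ D} := by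
    ext x
    simp only [Set.mem_ofPred_eq, Set.mem_iInter, Set.ext_iff, comp, Finset.mem_coe]
  rw [h1]
  refine MeasurableSet.iInter fun g => ?_
  by_cases hg : g ∈ D
  · simp only [hg, iff_true]
    exact measurableSet_reach hm hE g
  · simp only [hg, iff_false]
    exact (measurableSet_reach hm hE g).compl

/-- `{x | encard (comp E x) ≤ N}` is the countable union of the previous sets over `card D ≤ N` -/
theorem measurableSet_encard_le {E : X → S → Prop}
    (hm : ∀ g : F2, Measurable fun x : X => g • x)
    (hE : ∀ s, MeasurableSet {x | E x s}) (N : ℕ) :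
    MeasurableSet {x | (comp E x).encard ≤ N} := by
  have h1 : {x : X | (comp E x).encard ≤ N} =
      ⋃ D : {D : Finset F2 // D.card ≤ N}, {x | comp E x = (D.1 : Set F2)} := by
    ext x
    simp only [Set.mem_ofPred_eq, Set.mem_iUnion]
    constructor
    · intro h
      have hfin : (comp E x).Finite := Set.finite_of_encard_le_coe h
      refine ⟨⟨hfin.toFinset, ?_⟩, by simp⟩
      have h2 : (comp E x).encard = (hfin.toFinset.card : ℕ∞) := hfin.encard_eq_coe_toFinset_card
      rw [h2] at h
      exact_mod_cast h
    · rintro ⟨⟨D, hD⟩, h⟩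
      rw [h, Set.encard_coe_eq_coe_finsetCard]
      exact_mod_cast hD
  rw [h1]
  exact MeasurableSet.iUnion fun D => measurableSet_comp_eq hm hE D.1

/-- the partition into components of size at most `N`; points in larger components form
singleton pieces -/
theorem exists_compPieces {E : X → S → Prop} (hsymm : ESymm E)
    (hm : ∀ g : F2, Measurable fun x : X => g • x)
    (hE : ∀ s, MeasurableSet {x | E x s}) (N : ℕ) :
    ∃ P : Pieces X, (∀ x, (comp E x).encard ≤ N → (P.P x : Set F2) = comp E x) ∧
      (∀ x, ¬ (comp E x).encard ≤ N → P.P x = {1}) := by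
  classical
  let Q : X → Finset F2 := fun x =>
    if h : (comp E x).encard ≤ N then (Set.finite_of_encard_le_coe h).toFinset else {1}
  have hQ1 : ∀ x, (comp E x).encard ≤ N → (Q x : Set F2) = comp E x := by
    intro x h
    simp only [Q, dif_pos h, Set.Finite.coe_toFinset]
  have hQ2 : ∀ x, ¬ (comp E x).encard ≤ N → Q x = {1} := by
    intro x h
    simp only [Q, dif_neg h]
  have hQm : Measurable Q := by
    refine measurable_to_countable' fun D => ?_
    have h1 : Q ⁻¹' {D} = ({x | (comp E x).encard ≤ N} ∩ {x | comp E x = (D : Set F2)}) ∪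
        ({x | (comp E x).encard ≤ N}ᶜ ∩ {_x | D = {1}}) := by
      ext x
      simp only [Set.mem_preimage, Set.mem_singleton_iff, Set.mem_union, Set.mem_inter_iff,
        Set.mem_ofPred_eq, Set.mem_compl_iff]
      by_cases h : (comp E x).encard ≤ N
      · have h2 := hQ1 x h
        simp only [h, true_and, not_true_eq_false, false_and, or_false]
        rw [← h2]
        exact Finset.coe_inj.symm
      · have h2 := hQ2 x h
        simp only [h, false_and, not_false_eq_true, true_and, false_or]
        rw [h2]
        exact eq_comm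
    rw [h1]
    exact ((measurableSet_encard_le hm hE N).inter (measurableSet_comp_eq hm hE D)).union
      ((measurableSet_encard_le hm hE N).compl.inter (MeasurableSet.const _))
  have hone : ∀ x, (1 : F2) ∈ Q x := by
    intro x
    by_cases h : (comp E x).encard ≤ N
    · have h2 := hQ1 x h
      have h3 : (1 : F2) ∈ (Q x : Set F2) := by
        rw [h2]
        exact reach_one E x
      exact_mod_cast h3
    · rw [hQ2 x h]
      simp
  have htrans : ∀ x g, g ∈ Q x → Q (g • x) = (Q x).image (fun h => h * g⁻¹) := by
    intro x g hg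
    by_cases h : (comp E x).encard ≤ N
    · have h2 := hQ1 x h
      have hg' : g ∈ comp E x := by
        rw [← h2]
        exact_mod_cast hg
      have h3 : (comp E (g • x)).encard ≤ N := by
        rw [encard_comp_smul hsymm hg']
        exact h
      have h4 := hQ1 _ h3
      rw [← Finset.coe_inj, h4, Finset.coe_image, h2]
      exact comp_smul hsymm hg'
    · have h2 := hQ2 x h
      rw [h2, Finset.mem_singleton] at hg
      subst hg
      rw [one_smul, h2]
      simp
  exact ⟨⟨Q, hQm, hone, htrans⟩, hQ1, hQ2⟩

theorem measurable_lbl {π : X → Bj} (hπ : Measurable π) (s : S) :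
    Measurable fun x => π x s := by
  have h : Measurable (fun b : Bj => b s) := measurable_from_top
  exact h.comp hπ

theorem measurable_oth (hm : ∀ g : F2, Measurable fun x : X => g • x) {π : X → Bj}
    (hπ : Measurable π) (s : S) : Measurable fun x => oth π x s :=
  (measurable_lbl hπ (sinv s)).comp (hm (gen s))

theorem measurableSet_cons (hm : ∀ g : F2, Measurable fun x : X => g • x) {π : X → Bj}
    (hπ : Measurable π) (s : S) : MeasurableSet {x | Cons π x s} :=
  measurableSet_eq_fun (measurable_lbl hπ s) (measurable_oth hm hπ s)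

end Meas

end Pool.Agent.W_MP_ae868b_lc
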